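import Pool.Agent.Lib.MP_0430e4_lc.Llv.DefsB
import Pool.Agent.Lib.MP_0430e4_lc.Lgv.FA
import Pool.Agent.Lib.MP_0430e4_lc.Lgv.FB
import Pool.Agent.Lib.MP_0430e4_lc.Lgv.POSB

/-!
# AsmA: the solution for a set `B` and positivity of the sum over all matrices (section 3)

PROOF. Copy and adapt: `goodB_of_gg`, `fB_zero`, `fB_bad` from `good_of_gg`, `fA_zero`, `fA_bad` in Lgv/FA.lean (there `B x` is `wt x < d`; here `B 0` replaces
`1 ≤ d`: a nonzero row `A i` with `cmb Y (A i) = 0` contradicts `GoodB` and `B 0`). `pos_sumC` from `pos_sumB` in Lgv/POSB.lean (read its PROOF): the hypothesis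
is now `|F Θ| ≤ M⁻¹ ^ rk Θ` for `Θ ≠ 0` and `1/2 ≤ F 0`; the main term is `≥ Σ0 / 2` instead of `3/4 Σ0`, the rest is `≤ Σ0 / 3` as before (`posc_sum`).
-/

set_option autoImplicit false

namespace Pool.Agent.Lib.MP_0430e4_lc.Llv

open Finset
open Pool.Agent.Lib.MP_0430e4_lc.Lin (W wt chw sg)
open Pool.Agent.Lib.MP_0430e4_lc.Lgv (ft bl cmb rk gg P wd Pz gc cht Gh fA posb_proj posb_rank posb_rank_add posbL posc_sum posc_rank_pos)

variable {m : ℕ}

theorem phB_ge (B : W m → Prop) (x : W m) : -1 ≤ phB B x := by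
  classical
  unfold phB
  split_ifs
  · exact le_refl _
  · norm_num

private theorem asmA_phB {B : W m → Prop} {x : W m} (h : B x) : phB B x = -1 := by
  classical
  unfold phB
  rw [if_pos h]

private theorem asmA_good {B : W m → Prop} {ι : Type} [Fintype ι] {Y : ι → W m}
    (h : gg (phB B) Y ≠ 0) : ∀ a : ι → ZMod 2, a ≠ 0 → ¬ B (cmb Y a) := by
  classical
  intro a ha hB
  apply h
  unfold gg
  refine Finset.prod_eq_zero (i := a) ?_ ?_
  · rw [Finset.mem_erase]
    exact ⟨ha, Finset.mem_univ a⟩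
  · rw [asmA_phB hB]
    norm_num

theorem goodB_of_gg {B : W m → Prop} {u : ℕ} {Y : Fin u → W m} (h : gg (phB B) Y ≠ 0) :
    GoodB B Y := asmA_good h

private theorem asmA_cmb_zero {ι : Type} [Fintype ι] (Y : ι → W m) : cmb Y (0 : ι → ZMod 2) = 0 := by
  unfold cmb
  simp

private theorem asmA_cmb_mul {l : ℕ} {ι : Type} [Fintype ι] (Y : Fin l → W m)
    (A : Matrix ι (Fin l) (ZMod 2)) (a : ι → ZMod 2) :
    cmb Y (Matrix.vecMul a A) = ∑ j, a j • cmb Y (A j) := by
  unfold cmb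
  simp only [Matrix.vecMul, dotProduct, Finset.sum_smul, Finset.smul_sum, smul_smul]
  rw [Finset.sum_comm]

theorem fB_zero {B : W m → Prop} (hB : B 0) {l : ℕ} {c : ℝ}
    (hs : ∑ Y : Fin l → W m, gg (phB B) Y ≠ 0) : fA c (phB B) (0 : Fin l → W m) = 1 := by
  classical
  unfold fA
  rw [div_eq_one_iff_eq hs]
  rw [Finset.sum_eq_single (0 : Matrix (Fin l) (Fin l) (ZMod 2))]
  · rw [Matrix.rank_zero, pow_zero, one_mul]
    refine Finset.sum_congr rfl fun Y _ => ?_
    rw [if_pos]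
    intro i
    exact asmA_cmb_zero Y
  · intro A _ hA
    have : ∑ Y : Fin l → W m, (if ∀ i, cmb Y (A i) = (0 : Fin l → W m) i then gg (phB B) Y else 0) = 0 := by
      refine Finset.sum_eq_zero fun Y _ => ?_
      split_ifs with h
      · by_contra hne
        have hrow : ∃ i, A i ≠ 0 := by
          by_contra hno
          push Not at hno
          exact hA (funext hno)
        obtain ⟨i, hi⟩ := hrow
        have h1 := goodB_of_gg hne (A i) hi
        rw [h i] at h1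
        exact h1 hB
      · rfl
    rw [this, mul_zero]
  · intro h
    exact absurd (Finset.mem_univ _) h

theorem fB_bad {B : W m → Prop} {l : ℕ} {c : ℝ} {X : Fin l → W m} {a : Fin l → ZMod 2}
    (h1 : cmb X a ≠ 0) (h2 : B (cmb X a)) : fA c (phB B) X = 0 := by
  classical
  unfold fA
  rw [div_eq_zero_iff]
  left
  refine Finset.sum_eq_zero fun A _ => ?_
  have : ∑ Y : Fin l → W m, (if ∀ i, cmb Y (A i) = X i then gg (phB B) Y else 0) = 0 := by
    refine Finset.sum_eq_zero fun Y _ => ?_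
    split_ifs with h
    · by_contra hne
      have hX : cmb X a = cmb Y (Matrix.vecMul a A) := by
        rw [asmA_cmb_mul]
        unfold cmb
        refine Finset.sum_congr rfl fun j _ => ?_
        rw [← h j]
        rfl
      have hb : Matrix.vecMul a A ≠ 0 := by
        intro h0
        apply h1
        rw [hX, h0, asmA_cmb_zero]
      have h3 := goodB_of_gg hne _ hb
      rw [← hX] at h3
      exact h3 h2
    · rfl
  rw [this, mul_zero]

theorem pos_sumC {S : Type} [Fintype S] [DecidableEq S] {j : ℕ} (hS : Fintype.card S ≤ j)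
    {M c : ℝ} (hc : 1 ≤ c) (hM : 2 ^ (2 * j + 2) * c ≤ M) {F : (Fin j → W m) → ℝ}
    (hF0 : 1 / 2 ≤ F 0) (hF : ∀ Θ, Θ ≠ 0 → |F Θ| ≤ M⁻¹ ^ rk Θ) (Ξ : S → W m) :
    0 ≤ ∑ B : Matrix S (Fin j) (ZMod 2), c ^ B.rank * F (fun k => ∑ s, B s k • Ξ s) := by
  classical
  obtain ⟨A, hAA, hA1, hA0⟩ := posb_proj Ξ
  have hc0 : 0 < c := by linarith
  have h4 : (4 : ℝ) ≤ 2 ^ (2 * j + 2) := by
    calc (4 : ℝ) = 2 ^ 2 := by norm_num
      _ ≤ 2 ^ (2 * j + 2) := pow_le_pow_right₀ (by norm_num) (by omega)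
  have hM4 : 4 ≤ M := by nlinarith
  have hM0 : 0 < M := by linarith
  have hMi0 : 0 ≤ M⁻¹ := by positivity
  have hMi1 : M⁻¹ ≤ 1 := inv_le_one_of_one_le₀ (by linarith)
  have hMi4 : M⁻¹ ≤ 1 / 4 := by
    rw [one_div]; exact inv_anti₀ (by norm_num) hM4
  set Z : Finset (Matrix S (Fin j) (ZMod 2)) := univ.filter (fun B => A * B = 0) with hZ
  set T : Finset (Matrix S (Fin j) (ZMod 2)) := univ.filter (fun B => A * B = B) with hT
  have hcol : ∀ (B : Matrix S (Fin j) (ZMod 2)) (k : Fin j),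
      (∑ s, B s k • Ξ s) = posbL Ξ (fun s => B s k) := fun B k => rfl
  have hmulcol : ∀ (B : Matrix S (Fin j) (ZMod 2)) (k : Fin j),
      (fun s => (A * B) s k) = A.mulVec (fun s => B s k) := by
    intro B k; funext s; rw [Matrix.mul_apply]; rfl
  have htup : ∀ B1 ∈ Z, ∀ B2 : Matrix S (Fin j) (ZMod 2),
      (fun k => ∑ s, (B1 + B2) s k • Ξ s) = fun k => ∑ s, B2 s k • Ξ s := by
    intro B1 hB1 B2
    funext k
    have h1 : A * B1 = 0 := (mem_filter.1 hB1).2
    have h2 : posbL Ξ (fun s => B1 s k) = 0 := by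
      rw [← hA1, ← hmulcol, h1]
      exact (posbL Ξ).map_zero
    rw [hcol, hcol]
    have h3 : (fun s => (B1 + B2) s k) = (fun s => B1 s k) + fun s => B2 s k := rfl
    rw [h3, map_add, h2, zero_add]
  set g : Matrix S (Fin j) (ZMod 2) → ℝ :=
    fun B => c ^ B.rank * F (fun k => ∑ s, B s k • Ξ s) with hg
  have hmaps : ∀ B ∈ (univ : Finset (Matrix S (Fin j) (ZMod 2))), A * B ∈ T := by
    intro B _
    refine mem_filter.2 ⟨mem_univ _, ?_⟩
    rw [← Matrix.mul_assoc, hAA]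
  have hfib : ∑ B, g B = ∑ B2 ∈ T, ∑ B1 ∈ Z, g (B1 + B2) := by
    rw [← sum_fiberwise_of_maps_to hmaps]
    refine sum_congr rfl fun B2 hB2 => ?_
    have hB2' : A * B2 = B2 := (mem_filter.1 hB2).2
    symm
    refine sum_nbij' (fun B1 => B1 + B2) (fun B => B - B2) ?_ ?_ ?_ ?_ ?_
    · intro B1 hB1
      have h1 : A * B1 = 0 := (mem_filter.1 hB1).2
      refine mem_filter.2 ⟨mem_univ _, ?_⟩
      rw [Matrix.mul_add, h1, hB2', zero_add]
    · intro B hB
      have h1 : A * B = B2 := (mem_filter.1 hB).2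
      refine mem_filter.2 ⟨mem_univ _, ?_⟩
      rw [Matrix.mul_sub, h1, hB2', sub_self]
    · intro B1 _; exact add_sub_cancel_right _ _
    · intro B _; exact sub_add_cancel _ _
    · intro B1 _; rfl
  set S0 : ℝ := ∑ B1 ∈ Z, c ^ B1.rank with hS0
  have hS00 : 0 ≤ S0 := sum_nonneg fun _ _ => by positivity
  have h0T : (0 : Matrix S (Fin j) (ZMod 2)) ∈ T :=
    mem_filter.2 ⟨mem_univ _, Matrix.mul_zero _⟩
  have hzero : S0 * (1 / 2) ≤ ∑ B1 ∈ Z, g (B1 + 0) := by
    rw [hS0, sum_mul]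
    refine sum_le_sum fun B1 hB1 => ?_
    have e := htup B1 hB1 0
    have e2 : (fun k => ∑ s, (0 : Matrix S (Fin j) (ZMod 2)) s k • Ξ s) = (0 : Fin j → W m) := by
      funext k; simp
    have e3 : g (B1 + 0) = c ^ B1.rank * F 0 := by
      simp only [hg]
      rw [e, e2, add_zero]
    rw [e3]
    exact mul_le_mul_of_nonneg_left hF0 (by positivity)
  have hother : ∀ B2 ∈ T.erase 0, -(S0 * (c / M) ^ B2.rank) ≤ ∑ B1 ∈ Z, g (B1 + B2) := by
    intro B2 hB2
    obtain ⟨hne, hB2T⟩ := mem_erase.1 hB2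
    have hB2' : A * B2 = B2 := (mem_filter.1 hB2T).2
    have hr := posb_rank Ξ hA0 hB2'
    have hr0 := posc_rank_pos hne
    have hne' : (fun k => ∑ s, B2 s k • Ξ s) ≠ (0 : Fin j → W m) := by
      intro h
      apply hr0
      have h1 : rk (fun k => ∑ s, B2 s k • Ξ s) = 0 := by
        rw [h]
        unfold rk
        have h2 : Submodule.span (ZMod 2) (Set.range (0 : Fin j → W m)) = ⊥ := by
          rw [Submodule.span_eq_bot]
          rintro _ ⟨k, rfl⟩
          rfl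
        rw [h2, finrank_bot]
      omega
    have h := hF (fun k => ∑ s, B2 s k • Ξ s) hne'
    have hb : M⁻¹ ^ rk (fun k => ∑ s, B2 s k • Ξ s) ≤ M⁻¹ ^ B2.rank :=
      pow_le_pow_of_le_one hMi0 hMi1 hr
    have hF2 : -(M⁻¹ ^ B2.rank) ≤ F (fun k => ∑ s, B2 s k • Ξ s) := by
      have := (abs_le.1 h).1
      linarith
    have hneg : -(S0 * (c / M) ^ B2.rank) =
        ∑ B1 ∈ Z, -(c ^ B1.rank * (c / M) ^ B2.rank) := by
      rw [sum_neg_distrib, hS0, sum_mul]
    rw [hneg]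
    refine sum_le_sum fun B1 hB1 => ?_
    have e := htup B1 hB1 B2
    have e3 : g (B1 + B2) = c ^ (B1 + B2).rank * F (fun k => ∑ s, B2 s k • Ξ s) := by
      simp only [hg]
      rw [e]
    rw [e3]
    have hrk : (B1 + B2).rank ≤ B1.rank + B2.rank := posb_rank_add B1 B2
    have hp : c ^ (B1 + B2).rank ≤ c ^ B1.rank * c ^ B2.rank := by
      rw [← pow_add]; exact pow_le_pow_right₀ hc hrk
    have e4 : c ^ B1.rank * (c / M) ^ B2.rank = (c ^ B1.rank * c ^ B2.rank) * M⁻¹ ^ B2.rank := by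
      rw [div_eq_mul_inv, mul_pow]; ring
    rw [e4]
    have hMp : 0 ≤ M⁻¹ ^ B2.rank := by positivity
    have hcp : 0 ≤ c ^ (B1 + B2).rank := by positivity
    nlinarith [mul_le_mul_of_nonneg_left hF2 hcp, mul_le_mul_of_nonneg_right hp hMp]
  have hxs : ∑ B ∈ (univ : Finset (Matrix S (Fin j) (ZMod 2))).erase 0,
      (c / M) ^ B.rank ≤ 1 / 3 := by
    apply posc_sum (by positivity)
    have h1 : (2 : ℝ) ^ (Fintype.card S + j) ≤ 2 ^ (2 * j) :=
      pow_le_pow_right₀ (by norm_num) (by omega)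
    have h2 : c / M ≤ 1 / 2 ^ (2 * j + 2) := by
      rw [div_le_div_iff₀ hM0 (by positivity)]
      linarith
    calc (2 : ℝ) ^ (Fintype.card S + j) * (c / M) ≤ 2 ^ (2 * j) * (1 / 2 ^ (2 * j + 2)) :=
          mul_le_mul h1 h2 (by positivity) (by positivity)
      _ = 1 / 4 := by rw [pow_add]; field_simp; norm_num
  have hsub : ∑ B ∈ T.erase 0, (c / M) ^ B.rank ≤ 1 / 3 := by
    refine le_trans (sum_le_sum_of_subset_of_nonneg ?_ ?_) hxs
    · exact erase_subset_erase _ (subset_univ _)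
    · intro B _ _; positivity
  have hsum2 : -(S0 * (1 / 3)) ≤ ∑ B2 ∈ T.erase 0, ∑ B1 ∈ Z, g (B1 + B2) := by
    refine le_trans ?_ (sum_le_sum hother)
    rw [sum_neg_distrib, ← mul_sum]
    have := mul_le_mul_of_nonneg_left hsub hS00
    linarith
  change 0 ≤ ∑ B, g B
  rw [hfib, ← add_sum_erase _ _ h0T]
  nlinarith

end Pool.Agent.Lib.MP_0430e4_lc.Llv
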