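import Pool.Agent.Lib.MP_0430e4_lc.Llv.AsmA
import Pool.Agent.Lib.MP_0430e4_lc.Lgv.ASMB

/-!
# AsmB: partial transforms and total (section 3)

PROOF. `par_nonnegC`: copy the proof of `par_nonnegB` in Lgv/PARB.lean with `B x` instead of `wt x < d`, `goodB_of_gg` instead of `good_of_gg`, `pos_sumC` instead of
`pos_sumB` (`fA_sum`, `row_split`, `orbit` are used as they are, with `φ = phB B`). `posC`: `u = 0`, `j = l` in `hG0`:
`1/2 ≤ Gh (phB B) X 0 = (∑ Y, gg (phB B) Y) / 2^(m l)` (see `asmb_pos`, `asmb_gc`, `asmb_cht` in Lgv/ASMB.lean).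
`totC`: `fA_total`.
-/

set_option autoImplicit false

namespace Pool.Agent.Lib.MP_0430e4_lc.Llv

open Finset
open Pool.Agent.Lib.MP_0430e4_lc.Lin (W wt chw sg)
open Pool.Agent.Lib.MP_0430e4_lc.Lgv (ft bl cmb rk gg P wd Pz gc cht Gh fA gg_nonneg fA_sum fA_total row_split orbit asmb_gc asmb_cht)

variable {m : ℕ}

theorem posC {B : W m → Prop} {l : ℕ}
    (hG0 : ∀ u j : ℕ, u + j = l → ∀ X : Fin u → W m, GoodB B X → 1 / 2 ≤ Gh (phB B) X (0 : Fin j → W m)) :
    0 < ∑ Y : Fin l → W m, gg (phB B) Y := by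
  have h := hG0 0 l (zero_add l) (fun i => i.elim0)
    (fun a ha => absurd (Subsingleton.elim a 0) ha)
  unfold Gh at h
  simp_rw [asmb_gc, asmb_cht, mul_one] at h
  have h3 : (0 : ℝ) < 2 ^ (m * l) := by positivity
  by_contra hcon
  push Not at hcon
  have h4 := div_nonpos_of_nonpos_of_nonneg hcon h3.le
  linarith

theorem par_nonnegC {B : W m → Prop} (hB : B 0) {l : ℕ} {M c : ℝ} (hc : 1 ≤ c)
    (hM : 2 ^ (2 * l + 2) * c ≤ M)
    (hG0 : ∀ u j : ℕ, u + j = l → ∀ X : Fin u → W m, GoodB B X →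
      1 / 2 ≤ Gh (phB B) X (0 : Fin j → W m))
    (hG : ∀ u j : ℕ, u + j = l → ∀ X : Fin u → W m, GoodB B X → ∀ Θ : Fin j → W m, Θ ≠ 0 →
      |Gh (phB B) X Θ| ≤ M⁻¹ ^ rk Θ)
    (S : Finset (Fin l)) (X Ξ : Fin l → W m) :
    0 ≤ ∑ Z ∈ univ.filter (fun Z : Fin l → W m => ∀ j, j ∉ S → Z j = X j),
      fA c (phB B) Z * ∏ j ∈ S, chw (Ξ j) (Z j) := by
  classical
  rw [fA_sum]
  refine div_nonneg ?_ (sum_nonneg fun Y _ => gg_nonneg (phB_ge B) Y)
  have hc0 : 0 ≤ c := zero_le_one.trans hc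
  set V := Submodule.span (ZMod 2) (X '' {j | j ∉ S}) with hV
  set u := Module.finrank (ZMod 2) V with hu
  set bs := Module.finBasis (ZMod 2) V with hbs
  set Xb : Fin u → W m := fun i => (bs i : W m) with hXb
  have hXbi : LinearIndependent (ZMod 2) Xb :=
    bs.linearIndependent.map' V.subtype (Submodule.ker_subtype V)
  have hXbs : Submodule.span (ZMod 2) (Set.range Xb) = V := by
    have h1 : Set.range Xb = V.subtype '' Set.range bs := by
      rw [← Set.range_comp]
      rfl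
    rw [h1, Submodule.span_image, bs.span_eq, Submodule.map_top, Submodule.range_subtype]
  have hcard : u ≤ (Sᶜ : Finset (Fin l)).card := by
    have h1 : X '' {j | j ∉ S} = ((Sᶜ).image X : Finset (W m)) := by
      rw [coe_image]
      congr 1
      ext j
      simp
    rw [hu, hV, h1]
    exact (finrank_span_finset_le_card _).trans card_image_le
  rw [card_compl, Fintype.card_fin] at hcard
  have hSl : S.card ≤ l := by
    simpa using card_le_univ S
  have huj : u + (l - u) = l := by omega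
  -- the numerator
  have h1 : ∑ A : Matrix (Fin l) (Fin l) (ZMod 2), c ^ A.rank * ∑ Y : Fin l → W m,
      (if ∀ j, j ∉ S → cmb Y (A j) = X j then gg (phB B) Y * ∏ j ∈ S, chw (Ξ j) (cmb Y (A j)) else 0) =
      ∑ b : Fin u → Fin l → ZMod 2, if LinearIndependent (ZMod 2) b then
        ∑ Y : Fin l → W m, ∑ a : {j // j ∈ S} → Fin l → ZMod 2,
          (if ∀ i, cmb Y (b i) = Xb i then
            c ^ Module.finrank (ZMod 2) (Submodule.span (ZMod 2) (Set.range b ∪ Set.range a)) *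
              (gg (phB B) Y * ∏ s : {j // j ∈ S}, chw (Ξ s) (cmb Y (a s))) else 0) else 0 := by
    have h2 : ∀ Y : Fin l → W m, ∑ A : Matrix (Fin l) (Fin l) (ZMod 2),
        (if ∀ j, j ∉ S → cmb Y (A j) = X j then
          c ^ A.rank * (gg (phB B) Y * ∏ s : {j // j ∈ S}, chw (Ξ s) (cmb Y (A s))) else 0) =
        ∑ b : Fin u → Fin l → ZMod 2, if LinearIndependent (ZMod 2) b then
          ∑ a : {j // j ∈ S} → Fin l → ZMod 2, (if ∀ i, cmb Y (b i) = Xb i then
            c ^ Module.finrank (ZMod 2) (Submodule.span (ZMod 2) (Set.range b ∪ Set.range a)) *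
              (gg (phB B) Y * ∏ s : {j // j ∈ S}, chw (Ξ s) (cmb Y (a s))) else 0) else 0 := by
      intro Y
      by_cases hY : gg (phB B) Y = 0
      · simp [hY]
      · have hinj : ∀ a, cmb Y a = 0 → a = 0 := by
          intro a ha
          by_contra hne
          have := goodB_of_gg hY a hne
          rw [ha] at this
          exact this hB
        have := row_split hinj S X hXbi (by rw [hXbs]) c
          (fun a => gg (phB B) Y * ∏ s : {j // j ∈ S}, chw (Ξ s) (cmb Y (a s)))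
        convert this
    have h3 : ∑ A : Matrix (Fin l) (Fin l) (ZMod 2), c ^ A.rank * ∑ Y : Fin l → W m,
        (if ∀ j, j ∉ S → cmb Y (A j) = X j then gg (phB B) Y * ∏ j ∈ S, chw (Ξ j) (cmb Y (A j))
          else 0) =
        ∑ Y : Fin l → W m, ∑ A : Matrix (Fin l) (Fin l) (ZMod 2),
        (if ∀ j, j ∉ S → cmb Y (A j) = X j then
          c ^ A.rank * (gg (phB B) Y * ∏ s : {j // j ∈ S}, chw (Ξ s) (cmb Y (A s))) else 0) := by
      rw [sum_comm]
      refine sum_congr rfl fun A _ => ?_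
      rw [mul_sum]
      refine sum_congr rfl fun Y _ => ?_
      rw [mul_ite, mul_zero]
      congr 2
      rw [prod_coe_sort S fun j => chw (Ξ j) (cmb Y (A j))]
    rw [h3, sum_congr rfl fun Y _ => h2 Y, sum_comm]
    refine sum_congr rfl fun b _ => ?_
    split_ifs with hb
    · rfl
    · simp
  rw [h1]
  refine sum_nonneg fun b _ => ?_
  split_ifs with hb
  swap
  · exact le_refl _
  rw [orbit huj (phB B) c Xb b hb (fun s : {j // j ∈ S} => Ξ s)]
  by_cases hg : gg (phB B) Xb = 0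
  · rw [hg]
    simp
  have hgood : GoodB B Xb := goodB_of_gg hg
  have hpos := pos_sumC (S := {j // j ∈ S}) (j := l - u)
    (by rw [Fintype.card_coe]; omega) hc
    (le_trans (mul_le_mul_of_nonneg_right (pow_le_pow_right₀ (by norm_num) (by omega)) hc0) hM)
    (F := Gh (phB B) Xb) (hG0 u (l - u) huj Xb hgood)
    (fun Θ hΘ => hG u (l - u) huj Xb hgood Θ hΘ) (fun s : {j // j ∈ S} => Ξ s)
  have h4 : 0 ≤ ∏ s : {j // j ∈ S}, ∏ i, (1 + chw (Ξ s) (Xb i)) := by
    refine prod_nonneg fun s _ => prod_nonneg fun i _ => ?_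
    have := neg_abs_le (chw (Ξ s) (Xb i))
    rw [Pool.Agent.Lib.MP_0430e4_lc.Lin.abs_chw] at this
    linarith
  have h5 := gg_nonneg (phB_ge B) Xb
  exact mul_nonneg (mul_nonneg (mul_nonneg (mul_nonneg h5 h4) (pow_nonneg hc0 _))
    (by positivity)) hpos

theorem totC {B : W m → Prop} {l : ℕ} {c : ℝ} (hc : 0 ≤ c)
    (hs : 0 < ∑ Y : Fin l → W m, gg (phB B) Y) :
    c ^ l ≤ ∑ X : Fin l → W m, fA c (phB B) X := by
  exact fA_total hc hs

end Pool.Agent.Lib.MP_0430e4_lc.Llv
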