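import Pool.Agent.Lib.MP_0430e4_lc.Llv.Rows

/-!
# Aug: one step of the greedy choice (section 1.4)

PROOF. `exists_eq_on`: the restriction `spn R → (I → ZMod 2)` is linear and injective (`Info`), both sides have dimension `|R|` (`finrank_span_finset_eq_card`,
`Ind R`) so it is surjective (`LinearMap.injective_iff_surjective_of_finrank_eq_finrank`).
`aug`: take `r0, r1 ∈ spn R` with `r0 = v` on `I0`, `r1 = v` on `I1`. Put `a0 = v + r0` (zero on `I0`), `a1 = v + r1` (zero on `I1`).
`D0` = set of the `i ∉ I0 ∪ I1` with `a0 i ≠ 0`, `D1` the same for `a1`.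
If `D0 = ∅` then `a0` is supported in `I1`, so `v = a0 + r0` is in `spn R ⊔ spn ((I0 ∪ I1).image ev)` (`ZMod 2`: `x + x = 0`; a vector supported in `I` is the
sum of the unit vectors of its support). Same for `D1 = ∅`. If both are nonempty and there are `i0 ∈ D0`, `i1 ∈ D1` with `i0 ≠ i1`: first alternative:
`Info (insert v R) (insert i0 I0)`: an element of `spn (insert v R)` is `c v + r`, `r ∈ spn R`; `c = 0`: it is zero by `Info R I0`;
`c = 1`: it is `v + r` and vanishes on `I0`, so `r + r0` vanishes on `I0`, so `r = r0` and `v + r = a0` does not vanish at `i0`. Same for `i1`.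
Otherwise `D0 = D1 = {i}`: `a0 + ev i` is supported in `I1`: `v + ev i` is in the subspace.
-/

set_option autoImplicit false

namespace Pool.Agent.Lib.MP_0430e4_lc.Llv

open Finset
open Pool.Agent.Lib.MP_0430e4_lc.Lin (W wt chw sg)
open Pool.Agent.Lib.MP_0430e4_lc.Lgv (ft bl cmb rk gg P wd Pz gc cht Gh)

variable {k : ℕ}

private theorem aug_two (x : ZMod 2) : x + x = 0 := CharTwo.add_self_eq_zero x

private theorem aug_01 (x : ZMod 2) : x = 0 ∨ x = 1 := by
  revert x
  decide

theorem exists_eq_on {R : Finset (Cv k)} (hR : Ind R) {I : Finset (Fin k)} (hc : I.card = R.card)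
    (hI : Info R I) (v : Cv k) : ∃ r ∈ spn R, ∀ i ∈ I, r i = v i := by
  classical
  let φ : spn R →ₗ[ZMod 2] ({i // i ∈ I} → ZMod 2) :=
    { toFun := fun x i => x.1 i.1
      map_add' := fun x y => rfl
      map_smul' := fun c x => rfl }
  have hinj : Function.Injective φ := by
    rw [← LinearMap.ker_eq_bot, LinearMap.ker_eq_bot']
    intro x hx
    apply Subtype.ext
    refine hI x.1 x.2 (fun i hi => ?_)
    exact congrFun hx ⟨i, hi⟩
  have hf1 : Module.finrank (ZMod 2) (spn R) = R.card := finrank_span_finset_eq_card hR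
  have hf2 : Module.finrank (ZMod 2) ({i // i ∈ I} → ZMod 2) = R.card := by
    rw [Module.finrank_fintype_fun_eq_card, Fintype.card_coe, hc]
  have hsur := (LinearMap.injective_iff_surjective_of_finrank_eq_finrank (f := φ)
    (hf1.trans hf2.symm)).1 hinj
  obtain ⟨r, hr⟩ := hsur (fun i => v i.1)
  exact ⟨r.1, r.2, fun i hi => congrFun hr ⟨i, hi⟩⟩

private theorem aug_supp {I : Finset (Fin k)} {a : Cv k} (h : ∀ i, i ∉ I → a i = 0) :
    a ∈ spn (I.image ev) := by
  classical
  have h1 : a = ∑ i ∈ I, a i • (ev i : Cv k) := by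
    funext j
    rw [Finset.sum_apply]
    simp only [Pi.smul_apply, ev, smul_eq_mul]
    by_cases hj : j ∈ I
    · rw [Finset.sum_eq_single j]
      · rw [Pi.single_eq_same, mul_one]
      · intro b _ hb
        rw [Pi.single_eq_of_ne (Ne.symm hb), mul_zero]
      · intro hn
        exact absurd hj hn
    · rw [h j hj]
      symm
      apply Finset.sum_eq_zero
      intro b hb
      rw [Pi.single_eq_of_ne, mul_zero]
      intro hbj
      exact hj (hbj ▸ hb)
  rw [h1]
  refine Submodule.sum_mem _ (fun i hi => Submodule.smul_mem _ _ (Submodule.subset_span ?_))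
  rw [Finset.mem_coe]
  exact Finset.mem_image_of_mem _ hi

private theorem aug_info {R : Finset (Cv k)} {I : Finset (Fin k)} (hi : Info R I) {v r : Cv k}
    (hr : r ∈ spn R) (hrv : ∀ i ∈ I, r i = v i) {j : Fin k} (hj : (v + r) j ≠ 0) :
    Info (insert v R) (insert j I) := by
  intro x hx h0
  unfold spn at hx
  rw [Finset.coe_insert, Submodule.mem_span_insert] at hx
  obtain ⟨a, z, hz, rfl⟩ := hx
  have hI : ∀ i ∈ I, (a • v + z) i = 0 := fun i hi' => h0 i (Finset.mem_insert_of_mem hi')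
  rcases aug_01 a with ha | ha
  · subst ha
    rw [zero_smul, zero_add] at hI ⊢
    exact hi z hz hI
  · exfalso
    subst ha
    have h1 : z + r = 0 := by
      refine hi _ (Submodule.add_mem _ hz hr) (fun i hi' => ?_)
      have h2 := hI i hi'
      rw [one_smul] at h2
      rw [Pi.add_apply, hrv i hi', add_comm]
      exact h2
    have h2 : z = r := by
      have h3 : z = z + (r + r) := by
        have : r + r = 0 := by
          funext i
          exact aug_two (r i)
        rw [this, add_zero]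
      rw [h3, ← add_assoc, h1, zero_add]
    have h3 := h0 j (Finset.mem_insert_self _ _)
    rw [one_smul, h2] at h3
    exact hj h3

theorem aug {R : Finset (Cv k)} (hR : Ind R) {I0 I1 : Finset (Fin k)} (hd : Disjoint I0 I1)
    (h0 : I0.card = R.card) (h1 : I1.card = R.card) (hi0 : Info R I0) (hi1 : Info R I1) (v : Cv k) :
    (∃ i0 i1, i0 ∉ I0 ∪ I1 ∧ i1 ∉ I0 ∪ I1 ∧ i0 ≠ i1 ∧
      Info (insert v R) (insert i0 I0) ∧ Info (insert v R) (insert i1 I1)) ∨
    v ∈ spn R ⊔ spn ((I0 ∪ I1).image ev) ∨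
    ∃ i, i ∉ I0 ∪ I1 ∧ v + ev i ∈ spn R ⊔ spn ((I0 ∪ I1).image ev) := by
  classical
  obtain ⟨r0, hr0, he0⟩ := exists_eq_on hR h0 hi0 v
  obtain ⟨r1, hr1, he1⟩ := exists_eq_on hR h1 hi1 v
  have key : ∀ r ∈ spn R, ∀ w : Cv k, (∀ i, i ∉ I0 ∪ I1 → (w + r) i = 0) →
      w ∈ spn R ⊔ spn ((I0 ∪ I1).image ev) := by
    intro r hr w hw
    have h2 : w = r + (w + r) := by
      funext i
      rw [Pi.add_apply, Pi.add_apply, add_comm (w i) (r i), ← add_assoc, aug_two, zero_add]
    rw [h2]
    exact Submodule.add_mem_sup hr (aug_supp hw)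
  by_cases hD0 : ∀ i, i ∉ I0 ∪ I1 → (v + r0) i = 0
  · exact Or.inr (Or.inl (key r0 hr0 v hD0))
  by_cases hD1 : ∀ i, i ∉ I0 ∪ I1 → (v + r1) i = 0
  · exact Or.inr (Or.inl (key r1 hr1 v hD1))
  push Not at hD0 hD1
  obtain ⟨i0, hi0', hv0⟩ := hD0
  obtain ⟨i1, hi1', hv1⟩ := hD1
  by_cases hall : ∃ j0 j1, j0 ∉ I0 ∪ I1 ∧ j1 ∉ I0 ∪ I1 ∧ (v + r0) j0 ≠ 0 ∧ (v + r1) j1 ≠ 0 ∧
      j0 ≠ j1
  · obtain ⟨j0, j1, a1, a2, a3, a4, a5⟩ := hall
    exact Or.inl ⟨j0, j1, a1, a2, a5, aug_info hi0 hr0 he0 a3, aug_info hi1 hr1 he1 a4⟩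
  · push Not at hall
    right
    right
    refine ⟨i1, hi1', key r0 hr0 _ (fun j hj => ?_)⟩
    by_cases hji : j = i1
    · subst hji
      have h2 : (v + r0) j ≠ 0 := by
        have := hall i0 j hi0' hj hv0 hv1
        rw [← this]
        exact hv0
      have h3 : (v + r0) j = 1 := (aug_01 _).resolve_left h2
      have h4 : (v + ev j + r0) j = (v + r0) j + 1 := by
        simp only [Pi.add_apply, ev, Pi.single_eq_same]
        ring
      rw [h4, h3]
      exact aug_two 1
    · have h2 : (v + r0) j = 0 := by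
        by_contra hc
        exact hji (hall j i1 hj hi1' hc hv1)
      have h4 : (v + ev i1 + r0) j = (v + r0) j := by
        simp only [Pi.add_apply, ev, Pi.single_eq_of_ne hji]
        ring
      rw [h4, h2]

end Pool.Agent.Lib.MP_0430e4_lc.Llv
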