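import Pool.Agent.Lib.MP_0430e4_lc.Llv.CasS

/-!
# CasA: two disjoint information sets (section 1.4, CASE A)

`r = |R|`. PROOF. `casA_sum`; each term is at most `η^r`: if `4 q j ≤ r`: `(2^r (2^m)^j α^r)^4 = 16^r (2^m)^(4j) α^(4r)` and `(2^m)^(4j) α^(4qj) ≤ 1` (`hN`), so
it is `≤ 16^r α^(4r - 4qj) ≤ (16 α^3)^r ≤ η^(4r)` (`α ≤ 1`: from `16 α^3 ≤ η^4 ≤ 1`; `4qj ≤ r`). If `r < 4 q j`: `θ^j ≤ η^(4qj) ≤ η^r`. The sum has `r + 1 ≤ 2^r` terms.
-/

set_option autoImplicit false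

namespace Pool.Agent.Lib.MP_0430e4_lc.Llv

open Finset
open Pool.Agent.Lib.MP_0430e4_lc.Lin (W wt chw sg)
open Pool.Agent.Lib.MP_0430e4_lc.Lgv (ft bl cmb rk gg P wd Pz gc cht Gh)

variable {m k : ℕ}

theorem casA {F t : W m → ℝ} {α θ η : ℝ} {q : ℕ} (D : Dat F t α θ) (hN : 2 ^ m * α ^ q ≤ 1)
    (hη0 : 0 < η) (hη1 : η ≤ 1 / 2) (hα : 16 * α ^ 3 ≤ η ^ 4) (hθ : θ ≤ η ^ (4 * q))
    {R : Finset (Cv k)} (hR : Ind R) {I0 I1 : Finset (Fin k)} (hd : Disjoint I0 I1)
    (h0 : I0.card = R.card) (h1 : I1.card = R.card) (hi0 : Info R I0) (hi1 : Info R I1) :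
    Av (fun Z : Fin k → W m => (∏ i, F (Z i)) * ∏ v ∈ R, F (cmb Z v)) ≤
      α ^ k * (2 * η) ^ R.card := by
  have hα0 := D.α0
  have hθ0 := D.θ0
  have hθ1 := D.θ1
  have hη1' : η ≤ 1 := by linarith
  have hα1 : α ≤ 1 := by
    by_contra hc
    push Not at hc
    have h3 : 1 < α ^ 3 := one_lt_pow₀ hc (by norm_num)
    have h4 : η ^ 4 ≤ 1 := pow_le_one₀ hη0.le hη1'
    linarith
  have hterm : ∀ j ∈ range (R.card + 1),
      min ((2 : ℝ) ^ R.card * (2 ^ m) ^ j * α ^ R.card) 1 * θ ^ j ≤ η ^ R.card := by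
    intro j _
    rcases le_or_gt (4 * q * j) R.card with hj | hj
    · have hA0 : 0 ≤ (2 : ℝ) ^ R.card * (2 ^ m) ^ j * α ^ R.card := by positivity
      have hA : (2 : ℝ) ^ R.card * (2 ^ m) ^ j * α ^ R.card ≤ η ^ R.card := by
        have h4 : ((2 : ℝ) ^ R.card * (2 ^ m) ^ j * α ^ R.card) ^ 4 ≤ (η ^ R.card) ^ 4 := by
          have e1 : ((2 : ℝ) ^ R.card * (2 ^ m) ^ j * α ^ R.card) ^ 4 =
              (16 * α ^ 3) ^ R.card * (((2 : ℝ) ^ m) ^ (4 * j) * α ^ R.card) := by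
            have e16 : (16 : ℝ) ^ R.card = 2 ^ (R.card * 4) := by
              rw [mul_comm, pow_mul]
              norm_num
            rw [mul_pow (16 : ℝ), e16]
            ring
          have e2 : α ^ R.card ≤ α ^ (4 * q * j) := pow_le_pow_of_le_one hα0.le hα1 hj
          have e3 : ((2 : ℝ) ^ m) ^ (4 * j) * α ^ (4 * q * j) = (2 ^ m * α ^ q) ^ (4 * j) := by
            rw [mul_pow, ← pow_mul α q (4 * j)]
            congr 2
            ring
          have e4 : ((2 : ℝ) ^ m * α ^ q) ^ (4 * j) ≤ 1 := pow_le_one₀ (by positivity) hN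
          have e5 : ((2 : ℝ) ^ m) ^ (4 * j) * α ^ R.card ≤ 1 :=
            le_trans (mul_le_mul_of_nonneg_left e2 (by positivity)) (by rw [e3]; exact e4)
          rw [e1]
          calc (16 * α ^ 3) ^ R.card * (((2 : ℝ) ^ m) ^ (4 * j) * α ^ R.card)
              ≤ (16 * α ^ 3) ^ R.card * 1 :=
                mul_le_mul_of_nonneg_left e5 (by positivity)
            _ = (16 * α ^ 3) ^ R.card := mul_one _
            _ ≤ (η ^ 4) ^ R.card := pow_le_pow_left₀ (by positivity) hα _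
            _ = (η ^ R.card) ^ 4 := by rw [← pow_mul, ← pow_mul, mul_comm]
        exact (pow_le_pow_iff_left₀ hA0 (by positivity) (by norm_num)).mp h4
      calc min ((2 : ℝ) ^ R.card * (2 ^ m) ^ j * α ^ R.card) 1 * θ ^ j
          ≤ η ^ R.card * 1 := by
            apply mul_le_mul (le_trans (min_le_left _ _) hA) (pow_le_one₀ hθ0 (by linarith))
              (by positivity) (by positivity)
        _ = η ^ R.card := mul_one _
    · have hT : θ ^ j ≤ η ^ R.card := by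
        calc θ ^ j ≤ (η ^ (4 * q)) ^ j := pow_le_pow_left₀ hθ0 hθ _
          _ = η ^ (4 * q * j) := by rw [← pow_mul]
          _ ≤ η ^ R.card := pow_le_pow_of_le_one hη0.le hη1' hj.le
      calc min ((2 : ℝ) ^ R.card * (2 ^ m) ^ j * α ^ R.card) 1 * θ ^ j
          ≤ 1 * η ^ R.card := by
            apply mul_le_mul (min_le_right _ _) hT (by positivity) (by norm_num)
        _ = η ^ R.card := one_mul _
  have hsum : ∑ j ∈ range (R.card + 1),
      min ((2 : ℝ) ^ R.card * (2 ^ m) ^ j * α ^ R.card) 1 * θ ^ j ≤ (2 * η) ^ R.card := by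
    have hs := Finset.sum_le_card_nsmul (range (R.card + 1)) _ _ hterm
    rw [card_range, nsmul_eq_mul] at hs
    refine le_trans hs ?_
    have hc : ((R.card + 1 : ℕ) : ℝ) ≤ 2 ^ R.card := by
      have : R.card + 1 ≤ 2 ^ R.card := Nat.lt_two_pow_self
      exact_mod_cast this
    rw [mul_pow]
    exact mul_le_mul_of_nonneg_right hc (by positivity)
  exact le_trans (casA_sum D hR hd h0 h1 hi0 hi1)
    (mul_le_mul_of_nonneg_left hsum (by positivity))

end Pool.Agent.Lib.MP_0430e4_lc.Llv
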