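import Pool.Agent.Lib.MP_0430e4_lc.Llv.Prod

/-!
# CasB: pairs at a distance which is not tiny (section 1.4, CASE B)

PROOF. `J'` with `C ∪ J.image ev ∪ J'.image ev` independent of `k` elements, disjoint (`ind_extend`). All factors are between `0` and `1`
(`F` is `0` or `1`). The set `C` consists of elements of `T` and of unit vectors, `C ⊆ T ∪ univ.image ev`; `J, J'` and the unit vectors in `C` are
different; the `p i` (`i ∈ J`) are different elements of `T \ C`. So, dropping the other factors, the function is at most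
`(∏_{v ∈ C} F (cmb Z v)) * (∏_{i ∈ J} F (Z i) * F (cmb Z (p i)) * [t (cmb Z (p i + ev i)) = 0]) * ∏_{i ∈ J'} F (Z i)`
(`nt S t Z = 1` gives `t (cmb Z u) = 0` for `u = p i + ev i ≠ 0`, supported in `S`). `cmb Z (p i) = Z i + cmb Z (p i + ev i)` and `p i + ev i ∈ spn C`.
Integrate the words `Z i`, `i ∈ J`, one after the other with `step` (`V` = span of `C`, of the other `ev i'`, `i' ∈ J`, and of the `ev j`, `j ∈ J'`; `v0 = ev i`):
the average of `F x * F (x + y) * [t y = 0]` over `x` is at most `θ α` (`D.pair`). What remains is `∏_{C} F * ∏_{J'} F`: `prod_av`, `D.avF`.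
Total `α^|C| (θ α)^|J| α^|J'| = α^k θ^|J|` (`|C| + |J| + |J'| = k`). (Induction on `J` for the middle product.)
-/

set_option autoImplicit false

namespace Pool.Agent.Lib.MP_0430e4_lc.Llv

open Finset
open Pool.Agent.Lib.MP_0430e4_lc.Lin (W wt chw sg)
open Pool.Agent.Lib.MP_0430e4_lc.Lgv (ft bl cmb rk gg P wd Pz gc cht Gh)

variable {m k : ℕ}

private theorem CasB_nonneg {F t : W m → ℝ} {α θ : ℝ} (D : Dat F t α θ) (x : W m) : 0 ≤ F x := by
  rcases D.F01 x with h | h <;> rw [h] <;> norm_num

/-- Integration of the pairs. -/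
theorem casB_pairs {F t : W m → ℝ} {α θ : ℝ} (D : Dat F t α θ) {C : Finset (Cv k)}
    {J : Finset (Fin k)} (hd : Disjoint C (J.image ev)) (hC : Ind (C ∪ J.image ev))
    (u : Fin k → Cv k) (hu : ∀ i ∈ J, u i ∈ spn C) :
    Av (fun Z : Fin k → W m => (∏ v ∈ C, F (cmb Z v)) *
      ∏ i ∈ J, if t (cmb Z (u i)) = 0 then F (Z i) * F (Z i + cmb Z (u i)) else 0) ≤
      α ^ C.card * (θ * α) ^ J.card := by
  classical
  have hF := CasB_nonneg D
  have hα := D.α0
  have hθ := D.θ0
  induction J using Finset.induction_on with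
  | empty =>
    simp only [Finset.prod_empty, mul_one, Finset.card_empty, pow_zero]
    rw [Finset.image_empty, Finset.union_empty] at hC
    rw [prod_av hC (fun _ => F), Finset.prod_const]
    exact pow_le_pow_left₀ (av1_nonneg hF) D.avF _
  | insert i J hi ih =>
    have hd' : Disjoint C (J.image ev) :=
      hd.mono_right (Finset.image_subset_image (Finset.subset_insert i J))
    have hC' : Ind (C ∪ J.image ev) := ind_mono
      (Finset.union_subset_union_right (Finset.image_subset_image (Finset.subset_insert i J))) hC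
    have hu' : ∀ i ∈ J, u i ∈ spn C := fun j hj => hu j (Finset.mem_insert_of_mem hj)
    have IH := ih hd' hC' hu'
    have hni : ev i ∉ C ∪ J.image ev := by
      rw [Finset.mem_union]
      rintro (h | h)
      · exact (Finset.disjoint_left.mp hd) h
          (Finset.mem_image_of_mem _ (Finset.mem_insert_self i J))
      · obtain ⟨j, hj, hij⟩ := Finset.mem_image.mp h
        exact hi (ev_inj hij ▸ hj)
    have hins : C ∪ (insert i J).image ev = insert (ev i) (C ∪ J.image ev) := by
      rw [Finset.image_insert, Finset.union_insert]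
    rw [hins] at hC
    have hv0 : ev i ∉ spn (C ∪ J.image ev) := ind_notMem hni hC
    have hsub : spn C ≤ spn (C ∪ J.image ev) :=
      Submodule.span_mono (Finset.coe_subset.2 Finset.subset_union_left)
    set G : (Fin k → W m) → ℝ := fun Z => (∏ v ∈ C, F (cmb Z v)) *
      ∏ i ∈ J, if t (cmb Z (u i)) = 0 then F (Z i) * F (Z i + cmb Z (u i)) else 0 with hG
    have hG0 : ∀ Z, 0 ≤ G Z := by
      intro Z
      refine mul_nonneg (Finset.prod_nonneg fun v _ => hF _) (Finset.prod_nonneg fun j _ => ?_)
      split_ifs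
      · exact mul_nonneg (hF _) (hF _)
      · exact le_rfl
    set H : W m → (Fin k → W m) → ℝ := fun x Z =>
      (if t (cmb Z (u i)) = 0 then F x * F (x + cmb Z (u i)) else 0) * G Z with hH
    have hdep : ∀ x, DepOn (spn (C ∪ J.image ev)) (H x) := by
      intro x Z Z' h
      have h1 : ∀ v ∈ C, cmb Z v = cmb Z' v := fun v hv =>
        h v (hsub (Submodule.subset_span (Finset.mem_coe.2 hv)))
      have h2 : ∀ j ∈ insert i J, cmb Z (u j) = cmb Z' (u j) := fun j hj =>
        h _ (hsub (hu j hj))
      have h3 : ∀ j ∈ J, Z j = Z' j := by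
        intro j hj
        have h4 := h (ev j) (Submodule.subset_span (Finset.mem_coe.2
          (Finset.mem_union_right _ (Finset.mem_image_of_mem _ hj))))
        rwa [cmb_ev, cmb_ev] at h4
      change (if t (cmb Z (u i)) = 0 then F x * F (x + cmb Z (u i)) else 0) *
        ((∏ v ∈ C, F (cmb Z v)) *
          ∏ i ∈ J, if t (cmb Z (u i)) = 0 then F (Z i) * F (Z i + cmb Z (u i)) else 0) =
        (if t (cmb Z' (u i)) = 0 then F x * F (x + cmb Z' (u i)) else 0) *
        ((∏ v ∈ C, F (cmb Z' v)) *
          ∏ i ∈ J, if t (cmb Z' (u i)) = 0 then F (Z' i) * F (Z' i + cmb Z' (u i)) else 0)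
      rw [h2 i (Finset.mem_insert_self i J)]
      congr 2
      · exact Finset.prod_congr rfl fun v hv => by rw [h1 v hv]
      · exact Finset.prod_congr rfl fun j hj => by
          rw [h2 j (Finset.mem_insert_of_mem hj), h3 j hj]
    have hstep := step hv0 H hdep
    have heq : (fun Z : Fin k → W m => (∏ v ∈ C, F (cmb Z v)) *
        ∏ i ∈ insert i J, if t (cmb Z (u i)) = 0 then F (Z i) * F (Z i + cmb Z (u i)) else 0) =
        fun Z => H (cmb Z (ev i)) Z := by
      funext Z
      change _ = (if t (cmb Z (u i)) = 0 then F (cmb Z (ev i)) *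
        F (cmb Z (ev i) + cmb Z (u i)) else 0) * ((∏ v ∈ C, F (cmb Z v)) *
          ∏ i ∈ J, if t (cmb Z (u i)) = 0 then F (Z i) * F (Z i + cmb Z (u i)) else 0)
      rw [Finset.prod_insert hi, cmb_ev]
      ring
    rw [heq, hstep]
    have hbd : ∀ Z : Fin k → W m, av1 (fun x => H x Z) ≤ θ * α * G Z := by
      intro Z
      by_cases h : t (cmb Z (u i)) = 0
      · have h1 : av1 (fun x => H x Z) =
            av1 (fun x => F x * F (x + cmb Z (u i))) * G Z := by
          unfold av1
          rw [div_mul_eq_mul_div, Finset.sum_mul]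
          congr 1
          refine Finset.sum_congr rfl fun x _ => ?_
          change (if t (cmb Z (u i)) = 0 then F x * F (x + cmb Z (u i)) else 0) * G Z = _
          rw [if_pos h]
        rw [h1]
        exact mul_le_mul_of_nonneg_right (D.pair _ h) (hG0 Z)
      · have h1 : av1 (fun x => H x Z) = 0 := by
          unfold av1
          rw [Finset.sum_eq_zero, zero_div]
          intro x _
          change (if t (cmb Z (u i)) = 0 then F x * F (x + cmb Z (u i)) else 0) * G Z = _
          rw [if_neg h, zero_mul]
        rw [h1]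
        exact mul_nonneg (by positivity) (hG0 Z)
    calc Av (fun Z => av1 fun x => H x Z) ≤ Av (fun Z => θ * α * G Z) := av_mono hbd
      _ = θ * α * Av G := av_mul_left _ _
      _ ≤ θ * α * (α ^ C.card * (θ * α) ^ J.card) := mul_le_mul_of_nonneg_left IH (by positivity)
      _ = α ^ C.card * (θ * α) ^ (insert i J).card := by
          rw [Finset.card_insert_of_notMem hi]
          ring

theorem casB {F t : W m → ℝ} {α θ : ℝ} (D : Dat F t α θ) {S : Finset (Fin k)} {T C : Finset (Cv k)}
    {J : Finset (Fin k)} {p : Fin k → Cv k} (hTe : ∀ v ∈ T, ∀ i, v ≠ ev i)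
    (hCT : C ⊆ T ∪ univ.image ev) (hd : Disjoint C (J.image ev)) (hC : Ind (C ∪ J.image ev))
    (hp : ∀ i ∈ J, p i ∈ T ∧ p i ∉ C ∧ p i + ev i ∈ spn C ∧ SuppIn S (p i + ev i))
    (hinj : Set.InjOn p (J : Set (Fin k))) :
    Av (fun Z : Fin k → W m => (∏ i, F (Z i)) * (∏ v ∈ T, F (cmb Z v)) * nt S t Z) ≤
      α ^ k * θ ^ J.card := by
  classical
  have hF := CasB_nonneg D
  obtain ⟨J', hJ'd, hJ'i, hJ'c⟩ := ind_extend hC
  have hcardJ : (J.image ev).card = J.card := Finset.card_image_of_injective _ ev_inj
  have hcardJ' : (J'.image ev).card = J'.card := Finset.card_image_of_injective _ ev_inj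
  rw [Finset.card_union_of_disjoint hd, hcardJ] at hJ'c
  have hdCJ' : Disjoint C (J'.image ev) := hJ'd.mono_left Finset.subset_union_left
  have hdJJ' : Disjoint (J.image ev) (J'.image ev) := hJ'd.mono_left Finset.subset_union_right
  have hd2 : Disjoint (C ∪ J'.image ev) (J.image ev) :=
    Finset.disjoint_union_left.mpr ⟨hd, hdJJ'.symm⟩
  have hC2 : Ind ((C ∪ J'.image ev) ∪ J.image ev) := by
    rw [Finset.union_right_comm]
    exact hJ'i
  have hsub : spn C ≤ spn (C ∪ J'.image ev) :=
    Submodule.span_mono (Finset.coe_subset.2 Finset.subset_union_left)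
  have hmain := casB_pairs D hd2 hC2 (fun i => p i + ev i) fun i hi => hsub (hp i hi).2.2.1
  have hcard : (C ∪ J'.image ev).card = C.card + J'.card := by
    rw [Finset.card_union_of_disjoint hdCJ', hcardJ']
  rw [hcard] at hmain
  have hk : k = C.card + J'.card + J.card := by omega
  have hpow : α ^ (C.card + J'.card) * (θ * α) ^ J.card = α ^ k * θ ^ J.card := by
    have e : α ^ k = α ^ (C.card + J'.card + J.card) := congrArg (fun n => α ^ n) hk
    rw [e, mul_pow, pow_add α (C.card + J'.card)]
    ring
  rw [hpow] at hmain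
  refine le_trans (av_mono fun Z => ?_) hmain
  have hR0 : 0 ≤ (∏ v ∈ C ∪ J'.image ev, F (cmb Z v)) *
      ∏ i ∈ J, if t (cmb Z (p i + ev i)) = 0 then F (Z i) * F (Z i + cmb Z (p i + ev i)) else 0 := by
    refine mul_nonneg (Finset.prod_nonneg fun v _ => hF _) (Finset.prod_nonneg fun j _ => ?_)
    split_ifs
    · exact mul_nonneg (hF _) (hF _)
    · exact le_rfl
  by_cases h1 : ∀ i, F (Z i) = 1
  · by_cases h2 : ∀ v ∈ T, F (cmb Z v) = 1
    · by_cases h3 : ∀ u : Cv k, u ≠ 0 → SuppIn S u → t (cmb Z u) = 0
      · have hnt : nt S t Z = 1 := by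
          unfold nt
          rw [if_pos h3]
        have e2 : ∏ i ∈ J, (if t (cmb Z (p i + ev i)) = 0 then
            F (Z i) * F (Z i + cmb Z (p i + ev i)) else 0) = 1 := by
          refine Finset.prod_eq_one fun i hi => ?_
          obtain ⟨q1, -, -, q4⟩ := hp i hi
          have hne : p i + ev i ≠ 0 := by
            intro h
            apply hTe (p i) q1 i
            have h5 : p i = -ev i := eq_neg_of_add_eq_zero_left h
            rw [h5]
            funext j
            rw [Pi.neg_apply]
            exact ZMod.neg_eq_self_mod_two _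
          rw [if_pos (h3 _ hne q4), h1 i]
          have h6 : Z i + cmb Z (p i + ev i) = cmb Z (p i) := by
            rw [cmb_add, cmb_ev]
            funext j
            rw [Pi.add_apply, Pi.add_apply]
            have h7 : Z i j + Z i j = 0 := by
              have := CharTwo.add_self_eq_zero (Z i j)
              exact this
            linear_combination h7
          rw [h6, h2 _ q1, one_mul]
        have e1 : ∏ v ∈ C ∪ J'.image ev, F (cmb Z v) = 1 := by
          refine Finset.prod_eq_one fun v hv => ?_
          rcases Finset.mem_union.mp hv with hv | hv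
          · rcases Finset.mem_union.mp (hCT hv) with hv | hv
            · exact h2 v hv
            · obtain ⟨i, -, rfl⟩ := Finset.mem_image.mp hv
              rw [cmb_ev]
              exact h1 i
          · obtain ⟨i, -, rfl⟩ := Finset.mem_image.mp hv
            rw [cmb_ev]
            exact h1 i
        rw [hnt, Finset.prod_eq_one fun i _ => h1 i, Finset.prod_eq_one fun v hv => h2 v hv,
          e1, e2]
        norm_num
      · have hnt : nt S t Z = 0 := by
          unfold nt
          rw [if_neg h3]
        rw [hnt, mul_zero]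
        exact hR0
    · push Not at h2
      obtain ⟨v, hv, hv1⟩ := h2
      have hv0 : F (cmb Z v) = 0 := (D.F01 _).resolve_right hv1
      rw [Finset.prod_eq_zero hv hv0, mul_zero, zero_mul]
      exact hR0
  · push Not at h1
    obtain ⟨i, hi1⟩ := h1
    have hi0 : F (Z i) = 0 := (D.F01 _).resolve_right hi1
    rw [Finset.prod_eq_zero (Finset.mem_univ i) hi0, zero_mul, zero_mul]
    exact hR0

end Pool.Agent.Lib.MP_0430e4_lc.Llv
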