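import Pool.Agent.Lib.MP_0430e4_lc.Llv.Rows

/-!
# CasE: Fourier expansion for CASE A (section 1.4)

PROOF. Fourier inversion for `∏_{v ∈ R} F (cmb Z v)`: `fou_expand` with `g i = F`, `Ξ = 0`, `C = R`, `ψ y = ∏ v, F (y v)` (`cht 0 = 1`), and
`psh ψ w = ∏ v, ft F (w v)` for this product function (Finset.prod_univ_sum; `2^(m |R|) = ∏ 2^m`).
-/

set_option autoImplicit false

namespace Pool.Agent.Lib.MP_0430e4_lc.Llv

open Finset
open Pool.Agent.Lib.MP_0430e4_lc.Lin (W wt chw sg)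
open Pool.Agent.Lib.MP_0430e4_lc.Lgv (ft bl cmb rk gg P wd Pz gc cht Gh)

variable {m k : ℕ}

private theorem CasE_psh (F : W m → ℝ) (R : Finset (Cv k)) (w : {v // v ∈ R} → W m) :
    psh (fun y : {v // v ∈ R} → W m => ∏ v, F (y v)) w = ∏ v, ft F (w v) := by
  unfold psh ft
  rw [prod_div_distrib, prod_const, card_univ, Fintype.card_coe, pow_mul]
  congr 1
  rw [prod_univ_sum, Fintype.piFinset_univ]
  refine sum_congr rfl fun y _ => ?_
  rw [prod_mul_distrib]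

theorem casA_expand (F : W m → ℝ) (R : Finset (Cv k)) :
    Av (fun Z : Fin k → W m => (∏ i, F (Z i)) * ∏ v ∈ R, F (cmb Z v)) =
      ∑ w : {v // v ∈ R} → W m, (∏ v, ft F (w v)) * ∏ i, ft F (frq w i) := by
  have h := fou_expand (fun _ : Fin k => F) (C := R) (fun y => ∏ v, F (y v)) 0
  have h1 : ∀ Z : Fin k → W m, (∏ i, F (Z i)) * (∏ v : {v // v ∈ R}, F (cmb Z (v : Cv k))) *
      cht 0 Z = (∏ i, F (Z i)) * ∏ v ∈ R, F (cmb Z v) := by
    intro Z
    have h2 : cht (0 : Fin k → W m) Z = 1 := by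
      unfold cht
      refine prod_eq_one fun i _ => ?_
      rw [Pi.zero_apply]
      exact Pool.Agent.Lib.MP_0430e4_lc.Lin.chw_zero _
    rw [h2, mul_one, prod_coe_sort R fun v => F (cmb Z v)]
  rw [show (fun Z : Fin k → W m => (∏ i, F (Z i)) * ∏ v ∈ R, F (cmb Z v)) = fun Z =>
    (∏ i, F (Z i)) * (∏ v : {v // v ∈ R}, F (cmb Z (v : Cv k))) * cht 0 Z from
    funext fun Z => (h1 Z).symm]
  refine h.trans ?_
  refine sum_congr rfl fun w _ => ?_
  rw [CasE_psh]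
  congr 1
  refine prod_congr rfl fun i _ => ?_
  rw [Pi.zero_apply, zero_add]

end Pool.Agent.Lib.MP_0430e4_lc.Llv
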