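import Pool.Agent.Lib.MP_0430e4_lc.Llv.CasE

/-!
# CasS: two disjoint information sets, the sum (section 1.4, CASE A)

`r = |R|`. PROOF. `casA_expand`. Let `a w = ∏_{i ∈ I0} |ft F (frq w i)|`, `b w` the same for `I1`; the `i` outside `I0 ∪ I1` contribute at most `α` each
(`dat_F_abs`): `|average| ≤ α^(k - 2r) ∑ w, (∏ v, |ft F (w v)|) a w b w`. `0 ≤ a, b ≤ α^r`; `∑ a^2 ≤ α^r`, `∑ b^2 ≤ α^r` (`sum_frq_le` with
`h i ξ = ft F ξ ^ 2`, `ω = 0`, `dat_F_sq`). For `j ≤ r` let `Q j` be the set of the `w` with exactly `j` nonzero `w v`: there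
`∏ v, |ft F (w v)| ≤ α^r θ^j` (`D.ftF`, `dat_F_abs`), `|Q j| ≤ 2^r (2^m)^j` (choose the set of the nonzero positions: at most `2^r`, then the values), so
`∑_{Q j} a b ≤ 2^r (2^m)^j α^(2r)`, and `∑_{Q j} a b ≤ α^r` (Cauchy-Schwarz). Hence
`average ≤ α^k ∑_{j ≤ r} min (2^r (2^m)^j α^r) 1 * θ^j`.
-/

set_option autoImplicit false

namespace Pool.Agent.Lib.MP_0430e4_lc.Llv

open Finset
open Pool.Agent.Lib.MP_0430e4_lc.Lin (W wt chw sg)
open Pool.Agent.Lib.MP_0430e4_lc.Lgv (ft bl cmb rk gg P wd Pz gc cht Gh)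

variable {m k : ℕ}

/-- the number of nonzero entries -/
private noncomputable def nz {R : Finset (Cv k)} (w : {v // v ∈ R} → W m) : ℕ := by
  classical exact (univ.filter fun v => ¬ w v = 0).card

private theorem nz_le {R : Finset (Cv k)} (w : {v // v ∈ R} → W m) : nz w ≤ R.card := by
  classical
  unfold nz
  refine (card_le_univ _).trans ?_
  rw [Fintype.card_coe]

/-- the number of the tuples with `j` nonzero entries -/
private theorem card_nz {R : Finset (Cv k)} (j : ℕ) :
    (((univ.filter fun w : {v // v ∈ R} → W m => nz w = j).card : ℕ) : ℝ) ≤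
      2 ^ R.card * (2 ^ m) ^ j := by
  classical
  have h1 : (univ.filter fun w : {v // v ∈ R} → W m => nz w = j) ⊆
      (powersetCard j (univ : Finset {v // v ∈ R})).biUnion fun S =>
        Fintype.piFinset fun v => if v ∈ S then (univ : Finset (W m)) else {0} := by
    intro w hw
    rw [mem_filter] at hw
    rw [mem_biUnion]
    refine ⟨univ.filter fun v => ¬ w v = 0, ?_, ?_⟩
    · rw [mem_powersetCard]
      refine ⟨subset_univ _, ?_⟩
      have h2 := hw.2
      unfold nz at h2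
      rw [← h2]
    · rw [Fintype.mem_piFinset]
      intro v
      split_ifs with h
      · exact mem_univ _
      · rw [mem_singleton]
        by_contra h3
        exact h (mem_filter.mpr ⟨mem_univ _, h3⟩)
  have h2 : ∀ S ∈ powersetCard j (univ : Finset {v // v ∈ R}),
      (Fintype.piFinset fun v => if v ∈ S then (univ : Finset (W m)) else {0}).card ≤
        (2 ^ m) ^ j := by
    intro S hS
    rw [mem_powersetCard] at hS
    rw [Fintype.card_piFinset]
    refine le_of_eq ?_
    have h3 : ∀ v : {v // v ∈ R}, (if v ∈ S then (univ : Finset (W m)) else {0}).card =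
        if v ∈ S then 2 ^ m else 1 := by
      intro v
      split_ifs
      · rw [card_univ, Fintype.card_fun, ZMod.card, Fintype.card_fin]
      · rw [card_singleton]
    rw [prod_congr rfl fun v _ => h3 v, prod_ite, prod_const_one, mul_one, prod_const,
      filter_mem_eq_inter, univ_inter, hS.2]
  have h3 := (card_le_card h1).trans (card_biUnion_le_card_mul _ _ _ h2)
  rw [card_powersetCard, card_univ, Fintype.card_coe] at h3
  have h4 : R.card.choose j ≤ 2 ^ R.card := Nat.choose_le_two_pow _ _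
  have h5 := h3.trans (Nat.mul_le_mul_right _ h4)
  exact_mod_cast h5

theorem casA_sum {F t : W m → ℝ} {α θ : ℝ} (D : Dat F t α θ) {R : Finset (Cv k)} (hR : Ind R)
    {I0 I1 : Finset (Fin k)} (hd : Disjoint I0 I1) (h0 : I0.card = R.card) (h1 : I1.card = R.card)
    (hi0 : Info R I0) (hi1 : Info R I1) :
    Av (fun Z : Fin k → W m => (∏ i, F (Z i)) * ∏ v ∈ R, F (cmb Z v)) ≤
      α ^ k * ∑ j ∈ range (R.card + 1),
        min ((2 : ℝ) ^ R.card * (2 ^ m) ^ j * α ^ R.card) 1 * θ ^ j := by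
  classical
  obtain ⟨r, hr⟩ : ∃ r, r = R.card := ⟨_, rfl⟩
  have hα := D.α0.le
  have hθ := D.θ0
  have h2r : 2 * r ≤ k := by
    have h := card_le_univ (I0 ∪ I1)
    rw [card_union_of_disjoint hd, h0, h1, Fintype.card_fin] at h
    omega
  rw [casA_expand]
  have hgen : ∀ I : Finset (Fin k), I.card = R.card → Info R I →
      (∀ w : {v // v ∈ R} → W m, 0 ≤ ∏ i ∈ I, |ft F (frq w i)|) ∧
      (∀ w : {v // v ∈ R} → W m, ∏ i ∈ I, |ft F (frq w i)| ≤ α ^ r) ∧
      ∑ w : {v // v ∈ R} → W m, (∏ i ∈ I, |ft F (frq w i)|) ^ 2 ≤ α ^ r := by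
    intro I hI hi
    refine ⟨fun w => prod_nonneg fun _ _ => abs_nonneg _, fun w => ?_, ?_⟩
    · refine (prod_le_prod (fun _ _ => abs_nonneg _) (fun i _ => dat_F_abs D _)).trans ?_
      rw [prod_const, hI, hr]
    · have h := sum_frq_le hR hi (fun _ x => ft F x ^ 2) (fun _ x => sq_nonneg _) 0
      refine le_trans (le_of_eq ?_) (h.trans ?_)
      · refine sum_congr rfl fun w _ => ?_
        rw [← prod_pow]
        refine prod_congr rfl fun i _ => ?_
        rw [sq_abs, Pi.zero_apply, zero_add]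
      · rw [prod_const, hI, hr]
        exact pow_le_pow_left₀ (sum_nonneg fun _ _ => sq_nonneg _) (dat_F_sq D) _
  obtain ⟨ha0, haα, hsa⟩ := hgen I0 h0 hi0
  obtain ⟨hb0, hbα, hsb⟩ := hgen I1 h1 hi1
  obtain ⟨a, ha⟩ : ∃ a : ({v // v ∈ R} → W m) → ℝ, a = fun w => ∏ i ∈ I0, |ft F (frq w i)| :=
    ⟨_, rfl⟩
  obtain ⟨b, hb⟩ : ∃ b : ({v // v ∈ R} → W m) → ℝ, b = fun w => ∏ i ∈ I1, |ft F (frq w i)| :=
    ⟨_, rfl⟩
  have ea : ∀ w, ∏ i ∈ I0, |ft F (frq w i)| = a w := fun w => by rw [ha]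
  have eb : ∀ w, ∏ i ∈ I1, |ft F (frq w i)| = b w := fun w => by rw [hb]
  simp only [ea] at ha0 haα hsa
  simp only [eb] at hb0 hbα hsb
  -- one term
  have hterm : ∀ w : {v // v ∈ R} → W m, (∏ v, ft F (w v)) * ∏ i, ft F (frq w i) ≤
      α ^ (k - r) * (θ ^ nz w * (a w * b w)) := by
    intro w
    refine (le_abs_self _).trans ?_
    rw [abs_mul, abs_prod, abs_prod]
    have e1 : ∏ v : {v // v ∈ R}, |ft F (w v)| ≤ α ^ r * θ ^ nz w := by
      have e2 : ∀ v : {v // v ∈ R}, |ft F (w v)| ≤ α * if w v = 0 then 1 else θ := by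
        intro v
        split_ifs with h
        · rw [mul_one]
          exact dat_F_abs D _
        · rw [mul_comm]
          exact D.ftF _ h
      refine (prod_le_prod (fun _ _ => abs_nonneg _) (fun v _ => e2 v)).trans (le_of_eq ?_)
      rw [prod_mul_distrib, prod_const, card_univ, Fintype.card_coe, ← hr, prod_ite,
        prod_const_one, one_mul, prod_const, nz]
    have e3 : ∏ i, |ft F (frq w i)| ≤ a w * b w * α ^ (k - 2 * r) := by
      rw [← prod_mul_prod_compl (I0 ∪ I1), prod_union hd, ea, eb]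
      refine mul_le_mul_of_nonneg_left ?_ (mul_nonneg (ha0 w) (hb0 w))
      refine (prod_le_prod (fun _ _ => abs_nonneg _) (fun i _ => dat_F_abs D _)).trans
        (le_of_eq ?_)
      rw [prod_const, card_compl, card_union_of_disjoint hd, h0, h1, Fintype.card_fin, ← hr]
      congr 1
      omega
    calc (∏ v : {v // v ∈ R}, |ft F (w v)|) * ∏ i, |ft F (frq w i)|
        ≤ (α ^ r * θ ^ nz w) * (a w * b w * α ^ (k - 2 * r)) :=
          mul_le_mul e1 e3 (prod_nonneg fun _ _ => abs_nonneg _)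
            (mul_nonneg (pow_nonneg hα _) (pow_nonneg hθ _))
      _ = (α ^ r * α ^ (k - 2 * r)) * (θ ^ nz w * (a w * b w)) := by ring
      _ = α ^ (k - r) * (θ ^ nz w * (a w * b w)) := by
          rw [← pow_add]
          congr 2
          omega
  refine (sum_le_sum fun w _ => hterm w).trans ?_
  rw [← mul_sum, ← sum_fiberwise_of_maps_to (g := nz) (t := range (R.card + 1))
    (fun w _ => mem_range.mpr (Nat.lt_succ_of_le (nz_le w)))]
  have hk : α ^ k = α ^ (k - r) * α ^ r := by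
    rw [← pow_add]
    congr 1
    omega
  rw [hk, mul_assoc]
  refine mul_le_mul_of_nonneg_left ?_ (pow_nonneg hα _)
  rw [mul_sum]
  refine sum_le_sum fun j _ => ?_
  have e1 : ∑ w ∈ univ.filter (fun w : {v // v ∈ R} → W m => nz w = j),
      θ ^ nz w * (a w * b w) =
      θ ^ j * ∑ w ∈ univ.filter (fun w : {v // v ∈ R} → W m => nz w = j), a w * b w := by
    rw [mul_sum]
    refine sum_congr rfl fun w hw => ?_
    rw [(mem_filter.mp hw).2]
  rw [e1]
  have e2 : ∑ w ∈ univ.filter (fun w : {v // v ∈ R} → W m => nz w = j), a w * b w ≤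
      α ^ r * min ((2 : ℝ) ^ R.card * (2 ^ m) ^ j * α ^ R.card) 1 := by
    rw [mul_min_of_nonneg _ _ (pow_nonneg hα r)]
    refine le_min ?_ ?_
    · have e3 : ∑ w ∈ univ.filter (fun w : {v // v ∈ R} → W m => nz w = j), a w * b w ≤
          ∑ _w ∈ univ.filter (fun w : {v // v ∈ R} → W m => nz w = j), α ^ r * α ^ r :=
        sum_le_sum fun w _ => mul_le_mul (haα w) (hbα w) (hb0 w) (pow_nonneg hα _)
      refine e3.trans ?_
      rw [sum_const, nsmul_eq_mul]
      have e4 := mul_le_mul_of_nonneg_right (card_nz (m := m) (R := R) j)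
        (mul_nonneg (pow_nonneg hα r) (pow_nonneg hα r))
      refine e4.trans (le_of_eq ?_)
      rw [hr]
      ring
    · rw [mul_one]
      have e3 : ∀ w, a w * b w ≤ (a w ^ 2 + b w ^ 2) / 2 := by
        intro w
        nlinarith [sq_nonneg (a w - b w)]
      calc ∑ w ∈ univ.filter (fun w : {v // v ∈ R} → W m => nz w = j), a w * b w
          ≤ ∑ w, a w * b w := sum_le_sum_of_subset_of_nonneg (subset_univ _)
            fun w _ _ => mul_nonneg (ha0 w) (hb0 w)
        _ ≤ ∑ w, (a w ^ 2 + b w ^ 2) / 2 := sum_le_sum fun w _ => e3 w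
        _ = (∑ w, a w ^ 2 + ∑ w, b w ^ 2) / 2 := by rw [← sum_add_distrib, sum_div]
        _ ≤ α ^ r := by linarith
  calc θ ^ j * ∑ w ∈ univ.filter (fun w : {v // v ∈ R} → W m => nz w = j), a w * b w
      ≤ θ ^ j * (α ^ r * min ((2 : ℝ) ^ R.card * (2 ^ m) ^ j * α ^ R.card) 1) :=
        mul_le_mul_of_nonneg_left e2 (pow_nonneg hθ _)
    _ = _ := by ring

end Pool.Agent.Lib.MP_0430e4_lc.Llv
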