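import Pool.Agent.Lib.MP_0430e4_lc.Llv.Defs
import Pool.Agent.Lib.MP_0430e4_lc.Lgv.TRA

/-!
# Chg: change of coordinates

`b` is a basis of the coefficient vectors (`k` independent vectors in `Cv k`).
PROOF. `chg_cmb`: `cmb Z (∑ i, a i • b i) = ∑ i, a i • cmb Z (b i)` (linearity). `chg_surj`: `b` spans. `chg_av`: the map
`Z ↦ (fun i => cmb Z (b i))` is linear and injective (if `cmb Z (b i) = 0` for all `i` then `cmb Z v = 0` for all `v` by
`chg_surj`, `chg_cmb`; `v` = unit vectors gives `Z = 0`), so it is a bijection of the finite set `Fin k → W m`; reindex the sum.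
`chg_cht`: write the unit vector `Pi.single i 1 = ∑ j, a i j • b j`; so `Z i = ∑ j, a i j • cmb Z (b j)` and
`cht Ξ Z = ∏ i, chw (Ξ i) (Z i) = ∏ j, chw (∑ i, a i j • Ξ i) (cmb Z (b j))`: take `Ξ' j = ∑ i, a i j • Ξ i`. It is
independent because the matrix `a` is invertible: if `∑ j, c j • Ξ' j = 0` then `∑ i, (∑ j, a i j * c j) • Ξ i = 0`, so
`∑ j, a i j * c j = 0` for all `i`, so `∑ j, c j * (j-th coordinate of v in the basis b) = 0` for all unit vectors `v`, thus for all
`v`, and `v = b j` gives `c j = 0`.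
-/

set_option autoImplicit false

namespace Pool.Agent.Lib.MP_0430e4_lc.Llv

open Finset
open Pool.Agent.Lib.MP_0430e4_lc.Lin (W wt chw sg)
open Pool.Agent.Lib.MP_0430e4_lc.Lgv (ft bl cmb rk gg P wd Pz gc cht Gh)

variable {m k : ℕ}

theorem chg_cmb (Z : Fin k → W m) (b : Fin k → Cv k) (a : Cv k) :
    cmb Z (∑ i, a i • b i) = cmb (fun i => cmb Z (b i)) a := by
  unfold cmb
  have h1 : ∀ j : Fin k, (∑ i, a i • b i) j • Z j = ∑ i, a i • (b i j • Z j) := by
    intro j
    rw [Finset.sum_apply, Finset.sum_smul]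
    exact sum_congr rfl fun i _ => by rw [Pi.smul_apply, smul_eq_mul, smul_smul]
  rw [sum_congr rfl fun j _ => h1 j, sum_comm]
  exact sum_congr rfl fun i _ => by rw [smul_sum]

theorem Chg_ev (Z : Fin k → W m) (i : Fin k) : cmb Z (ev i) = Z i := by
  unfold cmb ev
  rw [sum_eq_single i]
  · rw [Pi.single_eq_same, one_smul]
  · intro j _ hj
    rw [Pi.single_eq_of_ne hj, zero_smul]
  · intro h
    exact absurd (mem_univ i) h

theorem chg_surj {b : Fin k → Cv k} (hb : LinearIndependent (ZMod 2) b) (v : Cv k) :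
    ∃ a : Cv k, ∑ i, a i • b i = v := by
  have h1 : Submodule.span (ZMod 2) (Set.range b) = ⊤ := by
    refine hb.span_eq_top_of_card_eq_finrank' ?_
    rw [Module.finrank_fintype_fun_eq_card]
  have h2 : v ∈ Submodule.span (ZMod 2) (Set.range b) := by
    rw [h1]
    exact Submodule.mem_top
  exact (Submodule.mem_span_range_iff_exists_fun (ZMod 2)).mp h2

theorem Chg_inj {b : Fin k → Cv k} (hb : LinearIndependent (ZMod 2) b) :
    Function.Injective fun (Z : Fin k → W m) (i : Fin k) => cmb Z (b i) := by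
  intro Z Z' h
  funext i
  obtain ⟨a, ha⟩ := chg_surj hb (ev i)
  rw [← Chg_ev Z i, ← Chg_ev Z' i, ← ha, chg_cmb, chg_cmb]
  exact congrArg (fun Y : Fin k → W m => cmb Y a) h

theorem chg_av {b : Fin k → Cv k} (hb : LinearIndependent (ZMod 2) b) (G : (Fin k → W m) → ℝ) :
    Av (fun Z => G fun i => cmb Z (b i)) = Av G := by
  unfold Av
  congr 1
  exact (Finite.injective_iff_bijective.mp (Chg_inj hb)).sum_comp G

theorem chg_cht {b : Fin k → Cv k} (hb : LinearIndependent (ZMod 2) b) {Ξ : Fin k → W m}
    (hΞ : LinearIndependent (ZMod 2) Ξ) : ∃ Ξ' : Fin k → W m, LinearIndependent (ZMod 2) Ξ' ∧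
      ∀ Z : Fin k → W m, cht Ξ Z = cht Ξ' fun i => cmb Z (b i) := by
  choose a ha using fun i : Fin k => chg_surj hb (ev i)
  refine ⟨fun j => ∑ i, a i j • Ξ i, ?_, fun Z => ?_⟩
  · rw [Fintype.linearIndependent_iff]
    intro c hc j0
    have h1 : ∑ i, (∑ j, c j * a i j) • Ξ i = 0 := by
      rw [← hc]
      have h2 : ∀ j, c j • ∑ i, a i j • Ξ i = ∑ i, (c j * a i j) • Ξ i := by
        intro j
        rw [smul_sum]
        exact sum_congr rfl fun i _ => by rw [smul_smul]
      rw [sum_congr rfl fun j _ => h2 j, sum_comm]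
      exact sum_congr rfl fun i _ => by rw [sum_smul]
    have h3 := Fintype.linearIndependent_iff.mp hΞ _ h1
    have h4 : ∑ j, ((∑ i, b j0 i * a i j) - if j = j0 then 1 else 0) • b j = 0 := by
      have h5 : ∑ j, (∑ i, b j0 i * a i j) • b j = b j0 := by
        have h6 : ∀ j, (∑ i, b j0 i * a i j) • b j = ∑ i, b j0 i • (a i j • b j) := by
          intro j
          rw [sum_smul]
          exact sum_congr rfl fun i _ => by rw [smul_smul]
        rw [sum_congr rfl fun j _ => h6 j, sum_comm]
        have h7 : ∀ i, ∑ j, b j0 i • (a i j • b j) = b j0 i • ev i := by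
          intro i
          rw [← smul_sum, ha i]
        rw [sum_congr rfl fun i _ => h7 i]
        funext l
        rw [Finset.sum_apply, sum_eq_single l]
        · rw [Pi.smul_apply, ev, Pi.single_eq_same, smul_eq_mul, mul_one]
        · intro i _ hi
          rw [Pi.smul_apply, ev, Pi.single_eq_of_ne (Ne.symm hi), smul_zero]
        · intro h
          exact absurd (mem_univ l) h
      have h8 : ∑ j, (if j = j0 then (1 : ZMod 2) else 0) • b j = b j0 := by
        rw [sum_eq_single j0]
        · rw [if_pos rfl, one_smul]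
        · intro j _ hj
          rw [if_neg hj, zero_smul]
        · intro h
          exact absurd (mem_univ j0) h
      have h9 : ∀ j, ((∑ i, b j0 i * a i j) - if j = j0 then (1 : ZMod 2) else 0) • b j
          = (∑ i, b j0 i * a i j) • b j - (if j = j0 then (1 : ZMod 2) else 0) • b j :=
        fun j => sub_smul _ _ _
      rw [sum_congr rfl fun j _ => h9 j, sum_sub_distrib, h5, h8, sub_self]
    have h10 := Fintype.linearIndependent_iff.mp hb _ h4
    have h11 : ∀ j, (∑ i, b j0 i * a i j) = if j = j0 then 1 else 0 := fun j => sub_eq_zero.mp (h10 j)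
    calc c j0 = ∑ j, c j * (if j = j0 then 1 else 0) := by
          rw [sum_eq_single j0]
          · rw [if_pos rfl, mul_one]
          · intro j _ hj
            rw [if_neg hj, mul_zero]
          · intro h
            exact absurd (mem_univ j0) h
      _ = ∑ j, ∑ i, b j0 i * (c j * a i j) := by
          refine sum_congr rfl fun j _ => ?_
          rw [← h11 j, mul_sum]
          exact sum_congr rfl fun i _ => by ring
      _ = ∑ i, b j0 i * ∑ j, c j * a i j := by
          rw [sum_comm]
          exact sum_congr rfl fun i _ => by rw [mul_sum]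
      _ = 0 := sum_eq_zero fun i _ => by rw [h3 i, mul_zero]
  · have h1 : ∀ i, Z i = ∑ j, a i j • cmb Z (b j) := by
      intro i
      have h2 := chg_cmb Z b (a i)
      rw [ha i, Chg_ev] at h2
      exact h2
    unfold cht
    have h3 : ∀ i, chw (Ξ i) (Z i) = ∏ j, chw (a i j • Ξ i) (cmb Z (b j)) := by
      intro i
      rw [h1 i, Lgv.tra_sum_right]
      exact prod_congr rfl fun j _ => Lgv.tra_smul _ _ _
    rw [prod_congr rfl fun i _ => h3 i, prod_comm]
    exact prod_congr rfl fun j _ => (Lgv.tra_sum_left _ _ _).symm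

end Pool.Agent.Lib.MP_0430e4_lc.Llv
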