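import Pool.Agent.Lib.MP_0430e4_lc.Llv.Prod
import Pool.Agent.Lib.MP_0430e4_lc.Lgv.TRA

/-!
# Coef: Fourier coefficients of the two functions

PROOF. `abs_ft_le_av1`: `|∑ h x chw w x| ≤ ∑ h x` for `h ≥ 0` (`|chw| = 1`). `parseval1`: `∑ w, ft h w ^ 2 = av1 (fun x => h x ^ 2)`
(Lgv.tra_inv and orthogonality `Lin.sum_chw_left`; see Lgv/TRA.lean and Lgv/PROF.lean for similar proofs).
`two_*`: `g i` is `F - t` or `t`; both are `0` or `1` (`t ≤ F`), `≤ F`; `ft (F - t) = ft F - ft t` and `|ft t w| ≤ av1 t ≤ θ α`, so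
`|ft (g i) w| ≤ 2 θ α` for `w ≠ 0`; `|ft (g i) w| ≤ av1 (g i) ≤ av1 F ≤ α`; `g^2 = g`, so `∑ w, ft (g i) w ^ 2 = av1 (g i) ≤ α`.
-/

set_option autoImplicit false

namespace Pool.Agent.Lib.MP_0430e4_lc.Llv

open Finset
open Pool.Agent.Lib.MP_0430e4_lc.Lin (W wt chw sg)
open Pool.Agent.Lib.MP_0430e4_lc.Lgv (ft bl cmb rk gg P wd Pz gc cht Gh)

variable {m k : ℕ}

theorem abs_ft_le_av1 {h : W m → ℝ} (hh : ∀ x, 0 ≤ h x) (w : W m) : |ft h w| ≤ av1 h := by
  unfold ft av1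
  rw [abs_div, abs_of_pos (by positivity : (0 : ℝ) < 2 ^ m)]
  refine div_le_div_of_nonneg_right ((abs_sum_le_sum_abs _ _).trans (sum_le_sum fun x _ => ?_))
    (by positivity)
  rw [abs_mul, Lin.abs_chw, mul_one, abs_of_nonneg (hh x)]

theorem parseval1 (h : W m → ℝ) : ∑ w, ft h w ^ 2 = av1 fun x => h x ^ 2 := by
  have h1 : ∀ w : W m, ft h w ^ 2 = ∑ x, h x / 2 ^ m * (ft h w * chw w x) := by
    intro w
    rw [pow_two]
    nth_rewrite 2 [ft]
    rw [sum_div, mul_sum]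
    refine sum_congr rfl fun x _ => ?_
    ring
  rw [sum_congr rfl fun w _ => h1 w, sum_comm]
  unfold av1
  rw [sum_div]
  refine sum_congr rfl fun x _ => ?_
  rw [← mul_sum, ← Lgv.tra_inv]
  ring

theorem dat_F_nonneg {F t : W m → ℝ} {α θ : ℝ} (D : Dat F t α θ) (x : W m) : 0 ≤ F x := by
  rcases D.F01 x with h | h
  · rw [h]
  · rw [h]
    exact zero_le_one

private theorem coef_sq_av {g : W m → ℝ} (h01 : ∀ x, g x = 0 ∨ g x = 1) :
    (av1 fun x => g x ^ 2) = av1 g := by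
  unfold av1
  have h1 : ∀ x, g x ^ 2 = g x := by
    intro x
    rcases h01 x with h | h
    · rw [h]; norm_num
    · rw [h]; norm_num
  rw [sum_congr rfl fun x _ => h1 x]

theorem dat_F_sq {F t : W m → ℝ} {α θ : ℝ} (D : Dat F t α θ) : ∑ w, ft F w ^ 2 ≤ α := by
  rw [parseval1, coef_sq_av D.F01]
  exact D.avF

theorem dat_F_abs {F t : W m → ℝ} {α θ : ℝ} (D : Dat F t α θ) (w : W m) : |ft F w| ≤ α :=
  (abs_ft_le_av1 (dat_F_nonneg D) w).trans D.avF

private theorem coef_two01 {F t : W m → ℝ} {α θ : ℝ} (D : Dat F t α θ) {S : Finset (Fin k)}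
    {g : Fin k → W m → ℝ} (hg : Two S F t g) (i : Fin k) (x : W m) : g i x = 0 ∨ g i x = 1 := by
  by_cases hi : i ∈ S
  · rw [hg.1 i hi x]
    have h1 := D.tF x
    rcases D.F01 x with hF | hF <;> rcases D.t01 x with ht | ht
    · left; rw [hF, ht]; norm_num
    · rw [hF, ht] at h1; norm_num at h1
    · right; rw [hF, ht]; norm_num
    · left; rw [hF, ht]; norm_num
  · rw [hg.2 i hi x]
    exact D.t01 x

theorem two_bd {F t : W m → ℝ} {α θ : ℝ} (D : Dat F t α θ) {S : Finset (Fin k)}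
    {g : Fin k → W m → ℝ} (hg : Two S F t g) (i : Fin k) (x : W m) : 0 ≤ g i x ∧ g i x ≤ F x := by
  have h0 : 0 ≤ t x := by
    rcases D.t01 x with h | h
    · rw [h]
    · rw [h]
      exact zero_le_one
  have h1 := D.tF x
  by_cases hi : i ∈ S
  · rw [hg.1 i hi x]
    constructor <;> linarith
  · rw [hg.2 i hi x]
    exact ⟨h0, h1⟩

private theorem coef_av1_mono {g h : W m → ℝ} (H : ∀ x, g x ≤ h x) : av1 g ≤ av1 h := by
  unfold av1
  exact div_le_div_of_nonneg_right (sum_le_sum fun x _ => H x) (by positivity)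

theorem two_av {F t : W m → ℝ} {α θ : ℝ} (D : Dat F t α θ) {S : Finset (Fin k)}
    {g : Fin k → W m → ℝ} (hg : Two S F t g) (i : Fin k) : av1 (g i) ≤ α :=
  (coef_av1_mono fun x => (two_bd D hg i x).2).trans D.avF

theorem two_abs {F t : W m → ℝ} {α θ : ℝ} (D : Dat F t α θ) {S : Finset (Fin k)}
    {g : Fin k → W m → ℝ} (hg : Two S F t g) (i : Fin k) (w : W m) : |ft (g i) w| ≤ α :=
  (abs_ft_le_av1 (fun x => (two_bd D hg i x).1) w).trans (two_av D hg i)

theorem two_ne {F t : W m → ℝ} {α θ : ℝ} (D : Dat F t α θ) {S : Finset (Fin k)}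
    {g : Fin k → W m → ℝ} (hg : Two S F t g) (i : Fin k) {w : W m} (hw : w ≠ 0) :
    |ft (g i) w| ≤ 2 * θ * α := by
  have h0 : ∀ x, 0 ≤ t x := by
    intro x
    rcases D.t01 x with h | h
    · rw [h]
    · rw [h]
      exact zero_le_one
  have h1 : |ft t w| ≤ θ * α := (abs_ft_le_av1 h0 w).trans D.avt
  have h2 := D.ftF w hw
  have h3 : 0 ≤ θ * α := mul_nonneg D.θ0 D.α0.le
  by_cases hi : i ∈ S
  · have e : ft (g i) w = ft F w - ft t w := by
      unfold ft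
      rw [← sub_div, ← sum_sub_distrib]
      congr 1
      refine sum_congr rfl fun x _ => ?_
      rw [hg.1 i hi x, sub_mul]
    rw [e]
    calc |ft F w - ft t w| ≤ |ft F w| + |ft t w| := abs_sub _ _
      _ ≤ 2 * θ * α := by linarith
  · have e : g i = t := funext fun x => hg.2 i hi x
    rw [e]
    linarith

theorem two_sq {F t : W m → ℝ} {α θ : ℝ} (D : Dat F t α θ) {S : Finset (Fin k)}
    {g : Fin k → W m → ℝ} (hg : Two S F t g) (i : Fin k) : ∑ w, ft (g i) w ^ 2 ≤ α := by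
  rw [parseval1, coef_sq_av (coef_two01 D hg i)]
  exact two_av D hg i

end Pool.Agent.Lib.MP_0430e4_lc.Llv
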