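import Pool.Agent.Lib.MP_0430e4_lc.Llv.Step
import Pool.Agent.Lib.MP_0430e4_lc.Lgv.TRA

/-!
# Van: a function of too few combinations has no transform of full rank

PROOF. As `V ≠ ⊤` there is `d : Cv k`, `d ≠ 0`, with `∑ i, d i * v i = 0` for all `v ∈ V` (a nonzero functional which
vanishes on `V`, `Submodule.exists_le_ker_of_lt_top`). For `x : W m` let `Z_x := fun i => Z i + d i • x`; then
`cmb Z_x v = cmb Z v` for `v ∈ V`, so `H Z_x = H Z`, and `cht Ξ Z_x = cht Ξ Z * chw (∑ i, d i • Ξ i) x`. `Z ↦ Z_x` is a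
bijection, so the sum is the average over `x` of `∑ Z, H Z * cht Ξ Z * chw ω x`, `ω = ∑ i, d i • Ξ i ≠ 0`
(independence), and `∑ x, chw ω x = 0` (Lin.sum_chw or Lgv.TRA, see there).
-/

set_option autoImplicit false

namespace Pool.Agent.Lib.MP_0430e4_lc.Llv

open Finset
open Pool.Agent.Lib.MP_0430e4_lc.Lin (W wt chw sg)
open Pool.Agent.Lib.MP_0430e4_lc.Lgv (ft bl cmb rk gg P wd Pz gc cht Gh)

variable {m k : ℕ}

theorem van {V : Submodule (ZMod 2) (Cv k)} (hV : V ≠ ⊤) {H : (Fin k → W m) → ℝ} (hH : DepOn V H)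
    {Ξ : Fin k → W m} (hΞ : LinearIndependent (ZMod 2) Ξ) :
    Av (fun Z => H Z * cht Ξ Z) = 0 := by
  obtain ⟨f, hf0, hfV⟩ := Submodule.exists_le_ker_of_lt_top V (lt_top_iff_ne_top.mpr hV)
  obtain ⟨d, hd⟩ := Step_dual f
  have hω : ∑ i, d i • Ξ i ≠ 0 := by
    intro h0
    have h1 := Fintype.linearIndependent_iff.mp hΞ d h0
    refine hf0 (LinearMap.ext fun v => ?_)
    rw [← hd v, LinearMap.zero_apply]
    exact sum_eq_zero fun i _ => by rw [h1 i, mul_zero]
  have hs : ∑ x : W m, chw (∑ i, d i • Ξ i) x = 0 := by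
    have h1 := Lin.sum_chw_left (∑ i, d i • Ξ i)
    rw [if_neg hω] at h1
    rw [← h1]
    exact sum_congr rfl fun x _ => Lin.chw_comm _ _
  have h2 : ∀ (Z : Fin k → W m) (x : W m), H (fun i => Z i + d i • x) * cht Ξ (fun i => Z i + d i • x)
      = H Z * cht Ξ Z * chw (∑ i, d i • Ξ i) x := by
    intro Z x
    have h3 : H (fun i => Z i + d i • x) = H Z := by
      refine hH _ _ fun v hvV => ?_
      rw [Step_cmb, hd, LinearMap.mem_ker.mp (hfV hvV), zero_smul, add_zero]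
    have h4 : cht Ξ (fun i => Z i + d i • x) = cht Ξ Z * chw (∑ i, d i • Ξ i) x := by
      unfold cht
      rw [Lgv.tra_sum_left, ← prod_mul_distrib]
      refine prod_congr rfl fun i _ => ?_
      rw [Lgv.tra_add_right, Lgv.tra_smul]
    rw [h3, h4]
    ring
  rw [Step_av d fun Z => H Z * cht Ξ Z]
  unfold Av av1
  rw [sum_eq_zero, zero_div]
  intro Z _
  rw [sum_congr rfl fun x _ => h2 Z x, ← mul_sum, hs, mul_zero, zero_div]

end Pool.Agent.Lib.MP_0430e4_lc.Llv
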