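import Pool.Agent.Lib.MP_0430e4_lc.Llv.TermB
import Pool.Agent.Lib.MP_0430e4_lc.Llv.Van

/-!
# Core: the theorem of section 1

PROOF. `A0 = univ.erase 0`. `1 - F = (1 - f)(1 - t)`, `f = F - t` (`t f = 0` as `t ≤ F`, values `0, 1`). `expd A0 ⊥` for `∏ (1 - f)`: pairs `(S, A)`,
`A ⊆ spn S`, `Disjoint S A`. For each of them `expd A0 (spn S)` for `∏ (1 - t)`: pairs `(St, Dd)`, `Ind St`, `Disjoint (spn S) (spn St)` (so `S, St` are
disjoint - `0 ∉ S` - and `S ∪ St` is independent, `|S| + |St| ≤ k`), `Dd ⊇ spn S \ 0`, `Dd ⊆ spn S ⊔ spn St`. The term of `(S, A), (St, Dd)` is `± Av (..)` as in `termB`.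
If `|S| + |St| < k` it is `0` (`van` with `V = spn (S ∪ St) ≠ ⊤`; all factors are functions of `cmb Z v`, `v ∈ V`). If `|S| + |St| = k`: `termB`.
The number of the pairs with `|S| = s`, `|St| = k - s` is at most `(2^k)^s (2^k)^(k-s) = (2^k)^k`, and there are `k + 1` values of `s`. `num_d`.
-/

set_option autoImplicit false

namespace Pool.Agent.Lib.MP_0430e4_lc.Llv

open Finset
open Pool.Agent.Lib.MP_0430e4_lc.Lin (W wt chw sg)
open Pool.Agent.Lib.MP_0430e4_lc.Lgv (ft bl cmb rk gg P wd Pz gc cht Gh)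

variable {m k : ℕ}

private theorem exp_av (A : Finset (Cv k)) (L : ℕ → List (Finset (Cv k) × Finset (Cv k)))
    (hL : ∀ f : Cv k → ℝ, ∏ v ∈ A, (1 + f v) =
      ∑ i ∈ range (k + 1), ((L i).map fun e => (∏ v ∈ e.1, f v) * ∏ v ∈ e.2, (1 + f v)).sum)
    (φ : (Fin k → W m) → Cv k → ℝ) (a b : (Fin k → W m) → ℝ) :
    Av (fun Z => a Z * (∏ v ∈ A, (1 + φ Z v)) * b Z) =
      ∑ i ∈ range (k + 1), ((L i).map fun e => Av (fun Z => a Z * ((∏ v ∈ e.1, φ Z v) *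
        ∏ v ∈ e.2, (1 + φ Z v)) * b Z)).sum := by
  have h1 : (fun Z => a Z * (∏ v ∈ A, (1 + φ Z v)) * b Z) =
      fun Z => ∑ i ∈ range (k + 1), ((L i).map fun e => a Z * ((∏ v ∈ e.1, φ Z v) *
        ∏ v ∈ e.2, (1 + φ Z v)) * b Z).sum := by
    funext Z
    rw [hL (φ Z), mul_sum, sum_mul]
    refine sum_congr rfl fun i _ => ?_
    rw [← List.sum_map_mul_left, ← List.sum_map_mul_right]
  rw [h1, av_sum]
  refine sum_congr rfl fun i _ => ?_
  rw [av_list]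

/-- one pair of sets -/
private theorem core_term {F t : W m → ℝ} {α θ η ϑ ζ : ℝ} {q : ℕ} (D : Dat F t α θ)
    (hP : Par m k α θ η ϑ ζ q) (hk : 1 ≤ k) {S St A Dd : Finset (Cv k)} (hS : Ind S)
    (hSt : Ind St) (hSA : Disjoint S A) (hA : ∀ v ∈ A, v ∈ spn S)
    (hdj : Disjoint (spn S) (spn St)) (hD1 : ∀ v ∈ spn S, v ≠ 0 → v ∈ Dd)
    (hD2 : ∀ v ∈ Dd, v ∈ spn S ⊔ spn St) {Ξ : Fin k → W m}
    (hΞ : LinearIndependent (ZMod 2) Ξ) :
    |Av (fun Z : Fin k → W m =>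
      ((∏ v ∈ S, (-(F (cmb Z v) - t (cmb Z v)))) *
        ∏ v ∈ A, (1 + -(F (cmb Z v) - t (cmb Z v)))) *
      ((∏ v ∈ St, (-t (cmb Z v))) * ∏ v ∈ Dd, (1 + -t (cmb Z v))) * cht Ξ Z)| ≤
      if S.card + St.card = k then α ^ k * (ζ ^ k * (5 * ((k : ℝ) + 1) ^ 2)) else 0 := by
  classical
  obtain ⟨hd, hI⟩ := ind_union hS hSt hdj
  have e1 : (fun Z : Fin k → W m =>
      ((∏ v ∈ S, (-(F (cmb Z v) - t (cmb Z v)))) *
        ∏ v ∈ A, (1 + -(F (cmb Z v) - t (cmb Z v)))) *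
      ((∏ v ∈ St, (-t (cmb Z v))) * ∏ v ∈ Dd, (1 + -t (cmb Z v))) * cht Ξ Z) =
      fun Z : Fin k → W m => ((-1) ^ S.card * (-1) ^ St.card) *
      ((∏ v ∈ S, (F (cmb Z v) - t (cmb Z v))) * (∏ v ∈ A, (1 - (F (cmb Z v) - t (cmb Z v)))) *
      ((∏ v ∈ St, t (cmb Z v)) * ∏ v ∈ Dd, (1 - t (cmb Z v))) * cht Ξ Z) := by
    funext Z
    have h2 : ∏ v ∈ S, (-(F (cmb Z v) - t (cmb Z v))) =
        (-1) ^ S.card * ∏ v ∈ S, (F (cmb Z v) - t (cmb Z v)) := by
      rw [← prod_const, ← prod_mul_distrib]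
      exact prod_congr rfl fun v _ => by ring
    have h3 : ∏ v ∈ St, (-t (cmb Z v)) = (-1) ^ St.card * ∏ v ∈ St, t (cmb Z v) := by
      rw [← prod_const, ← prod_mul_distrib]
      exact prod_congr rfl fun v _ => by ring
    have h4 : ∏ v ∈ A, (1 + -(F (cmb Z v) - t (cmb Z v))) =
        ∏ v ∈ A, (1 - (F (cmb Z v) - t (cmb Z v))) :=
      prod_congr rfl fun v _ => (sub_eq_add_neg _ _).symm
    have h5 : ∏ v ∈ Dd, (1 + -t (cmb Z v)) = ∏ v ∈ Dd, (1 - t (cmb Z v)) :=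
      prod_congr rfl fun v _ => (sub_eq_add_neg _ _).symm
    rw [h2, h3, h4, h5]
    ring
  rw [e1, av_mul_left, abs_mul, abs_mul, abs_pow, abs_pow, abs_neg, abs_one, one_pow, one_pow,
    one_mul, one_mul]
  by_cases hc : S.card + St.card = k
  · rw [if_pos hc]
    exact termB D hP hk hc hd hI hSA hA hD1 hΞ
  · rw [if_neg hc]
    have hle := card_le_k hI
    rw [card_union_of_disjoint hd] at hle
    have hV : spn (S ∪ St) ≠ ⊤ := by
      intro h
      have h1 := finrank_spn hI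
      rw [h, finrank_top, Module.finrank_fin_fun, card_union_of_disjoint hd] at h1
      omega
    have hSV : spn S ≤ spn (S ∪ St) := Submodule.span_mono (by
      intro v hv
      exact mem_coe.mpr (mem_union_left _ (mem_coe.mp hv)))
    have hStV : spn St ≤ spn (S ∪ St) := Submodule.span_mono (by
      intro v hv
      exact mem_coe.mpr (mem_union_right _ (mem_coe.mp hv)))
    have hH : DepOn (spn (S ∪ St)) (fun Z : Fin k → W m =>
        (∏ v ∈ S, (F (cmb Z v) - t (cmb Z v))) * (∏ v ∈ A, (1 - (F (cmb Z v) - t (cmb Z v)))) *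
        ((∏ v ∈ St, t (cmb Z v)) * ∏ v ∈ Dd, (1 - t (cmb Z v)))) := by
      refine depOn_mul (depOn_mul ?_ ?_) (depOn_mul ?_ ?_)
      · exact depOn_prod S (fun v Z => F (cmb Z v) - t (cmb Z v)) fun v hv =>
          depOn_fun (hSV (Submodule.subset_span (mem_coe.mpr hv))) (fun x => F x - t x)
      · exact depOn_prod A (fun v Z => 1 - (F (cmb Z v) - t (cmb Z v))) fun v hv =>
          depOn_fun (hSV (hA v hv)) (fun x => 1 - (F x - t x))
      · exact depOn_prod St (fun v Z => t (cmb Z v)) fun v hv =>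
          depOn_fun (hStV (Submodule.subset_span (mem_coe.mpr hv))) t
      · exact depOn_prod Dd (fun v Z => 1 - t (cmb Z v)) fun v hv =>
          depOn_fun (sup_le hSV hStV (hD2 v hv)) (fun x => 1 - t x)
    have h0 := van hV hH hΞ
    rw [h0, abs_zero]

/-- THE CORE. -/
theorem core {F t : W m → ℝ} {α θ η ϑ ζ : ℝ} {q : ℕ} (D : Dat F t α θ)
    (hP : Par m k α θ η ϑ ζ q) (hk : 1 ≤ k) {Ξ : Fin k → W m}
    (hΞ : LinearIndependent (ZMod 2) Ξ) :
    |Av (fun Z : Fin k → W m => (∏ v ∈ univ.erase (0 : Cv k), (1 - F (cmb Z v))) * cht Ξ Z)| ≤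
      (40 * 2 ^ k * ζ * α) ^ k := by
  classical
  have hα := D.α0.le
  have hζ := hP.ζ0.le
  obtain ⟨B, hB⟩ : ∃ B : ℝ, B = α ^ k * (ζ ^ k * (5 * ((k : ℝ) + 1) ^ 2)) := ⟨_, rfl⟩
  have hB0 : 0 ≤ B := by
    rw [hB]
    positivity
  choose L' hL1' hL2' hL3' using fun V : Submodule (ZMod 2) (Cv k) =>
    expd (univ.erase (0 : Cv k)) V
  have hfac : (fun Z : Fin k → W m =>
      (∏ v ∈ univ.erase (0 : Cv k), (1 - F (cmb Z v))) * cht Ξ Z) =
      fun Z : Fin k → W m => 1 *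
        (∏ v ∈ univ.erase (0 : Cv k), (1 + -(F (cmb Z v) - t (cmb Z v)))) *
        ((∏ v ∈ univ.erase (0 : Cv k), (1 + -t (cmb Z v))) * cht Ξ Z) := by
    funext Z
    rw [one_mul, ← mul_assoc, ← prod_mul_distrib]
    congr 1
    refine prod_congr rfl fun v _ => ?_
    have h1 := D.tF (cmb Z v)
    rcases D.t01 (cmb Z v) with h2 | h2 <;> rcases D.F01 (cmb Z v) with h3 | h3
    · rw [h2, h3]; norm_num
    · rw [h2, h3]; norm_num
    · rw [h2, h3] at h1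
      norm_num at h1
    · rw [h2, h3]; norm_num
  rw [hfac, exp_av _ (L' ⊥) (hL3' ⊥) (fun Z v => -(F (cmb Z v) - t (cmb Z v))) (fun _ => 1)
    (fun Z => (∏ v ∈ univ.erase (0 : Cv k), (1 + -t (cmb Z v))) * cht Ξ Z)]
  have hin : ∀ i, ∀ e ∈ L' ⊥ i, |Av (fun Z : Fin k → W m => 1 *
      ((∏ v ∈ e.1, (-(F (cmb Z v) - t (cmb Z v)))) *
        ∏ v ∈ e.2, (1 + -(F (cmb Z v) - t (cmb Z v)))) *
      ((∏ v ∈ univ.erase (0 : Cv k), (1 + -t (cmb Z v))) * cht Ξ Z))| ≤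
      ((2 : ℝ) ^ k) ^ (k - i) * B := by
    intro i e he
    obtain ⟨a1, a2, a3, a4, a5, a6, a7, a8⟩ := hL1' ⊥ i e he
    have hik : i ≤ k := by
      rw [← a1]
      exact card_le_k a5
    have h1 : (fun Z : Fin k → W m => 1 *
        ((∏ v ∈ e.1, (-(F (cmb Z v) - t (cmb Z v)))) *
          ∏ v ∈ e.2, (1 + -(F (cmb Z v) - t (cmb Z v)))) *
        ((∏ v ∈ univ.erase (0 : Cv k), (1 + -t (cmb Z v))) * cht Ξ Z)) =
        fun Z : Fin k → W m => ((∏ v ∈ e.1, (-(F (cmb Z v) - t (cmb Z v)))) *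
          ∏ v ∈ e.2, (1 + -(F (cmb Z v) - t (cmb Z v)))) *
        (∏ v ∈ univ.erase (0 : Cv k), (1 + -t (cmb Z v))) * cht Ξ Z := by
      funext Z
      ring
    rw [h1, exp_av _ (L' (spn e.1)) (hL3' (spn e.1)) (fun Z v => -t (cmb Z v))
      (fun Z => (∏ v ∈ e.1, (-(F (cmb Z v) - t (cmb Z v)))) *
          ∏ v ∈ e.2, (1 + -(F (cmb Z v) - t (cmb Z v)))) (fun Z => cht Ξ Z)]
    refine (expd_sum_le (L' (spn e.1)) (hL2' (spn e.1)) _ (fun j => if i + j = k then B else 0)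
      (fun j => by
        show 0 ≤ if i + j = k then B else 0
        split_ifs
        · exact hB0
        · exact le_rfl) ?_ (range (k + 1))).trans ?_
    · intro j e' he'
      obtain ⟨b1, b2, b3, b4, b5, b6, b7, b8⟩ := hL1' (spn e.1) j e' he'
      have h2 := core_term (S := e.1) (St := e'.1) (A := e.2) (Dd := e'.2) D hP hk a5 b5 a4
        (fun v hv => by
          have h3 := a8 v hv
          rwa [bot_sup_eq] at h3) b6
        (fun v hv hv0 => b7 v (mem_erase.mpr ⟨hv0, mem_univ v⟩) hv) b8 hΞ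
      rw [a1, b1, ← hB] at h2
      exact h2
    · rw [sum_eq_single (k - i)]
      · rw [if_pos (by omega)]
      · intro j _ hj
        rw [if_neg (by omega), mul_zero]
      · intro h
        exact absurd (mem_range.mpr (by omega)) h
  refine (expd_sum_le (L' ⊥) (hL2' ⊥) _ (fun i => ((2 : ℝ) ^ k) ^ (k - i) * B)
    (fun i => by positivity) hin (range (k + 1))).trans ?_
  refine le_trans (le_of_eq ?_) (num_d (k := k) hζ hα hk)
  have h2 : ∀ i ∈ range (k + 1), ((2 : ℝ) ^ k) ^ i * (((2 : ℝ) ^ k) ^ (k - i) * B) =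
      ((2 : ℝ) ^ k) ^ k * B := by
    intro i hi
    rw [mem_range] at hi
    rw [← mul_assoc, ← pow_add]
    congr 2
    omega
  rw [sum_congr rfl h2, sum_const, card_range, nsmul_eq_mul, ← hB]
  push_cast
  ring

end Pool.Agent.Lib.MP_0430e4_lc.Llv
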