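import Pool.Agent.Lib.MP_0430e4_lc.Llv.Lens
import Pool.Agent.Lib.MP_0430e4_lc.Llv.Coef

/-!
# Cos: the words close to a linear code (section 5)

`N x = ∑_{z ∈ K} bl d (x + z)` (number of the words of `K` at distance less than `d`). PROOF. `FK = [N ≥ 1] ≤ N`; `av1 N = |K| av1 (bl d) ≤ |K| bet` (`Lgv.ball_le`): `cos_av`.
`N - FK = (N - 1)_+ ≤ N (N-1) / 2 = (1/2) ∑_{z ≠ z'} bl d (x+z) bl d (x+z')`, average `≤ (1/2) |K|^2 bet kap^d` (`lens`, `z + z' ≠ 0` in `K` has weight `≥ d`, `kap ≤ 1`).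
`ft N ξ = ∑_z chw ξ z * ft (bl d) ξ`, so `|ft N ξ| ≤ |K| |ft (bl d) ξ|` and `|ft FK ξ| ≤ |ft N ξ| + av1 (N - FK)`: `cos_ft`.
`cos_inv`: `FK (x + z) = FK x` for `z ∈ K`, so `ft FK ξ = chw ξ z * ft FK ξ`, which is `0` if `chw ξ z = -1` for a `z ∈ K`.
`cos_pair`: `FK x * FK (x+y) ≤ ∑_{z, z'} bl d (x+z) bl d (x+y+z')`, average `∑ lens at y + z + z'` (translate `x` by `z`); `y + z + z'` has weight `≥ d1` because
`z + z' ∈ K` and `hy`.
-/

set_option autoImplicit false

namespace Pool.Agent.Lib.MP_0430e4_lc.Llv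

open Finset
open Pool.Agent.Lib.MP_0430e4_lc.Lin (W wt chw sg)
open Pool.Agent.Lib.MP_0430e4_lc.Lgv (ft bl cmb rk gg P wd Pz gc cht Gh bet)

variable {n : ℕ}

private theorem vadd (z : W n) : z + z = 0 := by
  funext i
  exact Pool.Agent.Lib.MP_0430e4_lc.Lgv.PRB_add_self (z i)

private theorem cos_shift (h : W n → ℝ) (z : W n) : av1 (fun x => h (x + z)) = av1 h := by
  unfold av1
  congr 1
  exact Equiv.sum_comp (Equiv.addRight z) h

private theorem cos_mono {h h' : W n → ℝ} (hh : ∀ x, h x ≤ h' x) : av1 h ≤ av1 h' := by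
  unfold av1
  exact div_le_div_of_nonneg_right (Finset.sum_le_sum fun x _ => hh x) (by positivity)

private theorem cos_sum {ι : Type} (s : Finset ι) (f : ι → W n → ℝ) :
    av1 (fun x => ∑ z ∈ s, f z x) = ∑ z ∈ s, av1 (f z) := by
  unfold av1
  rw [Finset.sum_comm, Finset.sum_div]

private theorem lens2 {δ : ℝ} (h0 : 0 < δ) (h1 : δ < 1 / 2) (d : ℕ) (z z' : W n) :
    av1 (fun x : W n => bl d (x + z) * bl d (x + z')) ≤ bet δ n d * kap δ ^ wt (z + z') := by
  have e : (fun x : W n => bl d (x + z) * bl d (x + z')) =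
      fun x => (fun y => bl d y * bl d (y + (z + z'))) (x + z) := by
    funext x
    have h : x + z' = x + z + (z + z') := by
      rw [add_assoc x z, ← add_assoc z z, vadd, zero_add]
    simp only
    rw [← h]
  rw [e, cos_shift (fun y => bl d y * bl d (y + (z + z')))]
  exact lens h0 h1 d (z + z')

private noncomputable def ks (K : Submodule (ZMod 2) (W n)) : Finset (W n) := by
  classical exact univ.filter fun z => z ∈ K

private theorem mem_ks {K : Submodule (ZMod 2) (W n)} {z : W n} : z ∈ ks K ↔ z ∈ K := by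
  classical
  unfold ks
  rw [mem_filter]
  exact ⟨fun h => h.2, fun h => ⟨mem_univ _, h⟩⟩

private theorem card_ks (K : Submodule (ZMod 2) (W n)) : (ks K).card = Nat.card K :=
  (Nat.subtype_card (ks K) (fun _ => mem_ks)).symm

private noncomputable def nn (K : Submodule (ZMod 2) (W n)) (d : ℕ) (x : W n) : ℝ :=
  ∑ z ∈ ks K, bl d (x + z)

private theorem bl0 (d : ℕ) (x : W n) : 0 ≤ bl d x :=
  Pool.Agent.Lib.MP_0430e4_lc.Lgv.PRB_bl_nonneg d x

private theorem cos_blsq (d : ℕ) (x : W n) : bl d x * bl d x = bl d x := by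
  unfold bl
  split_ifs <;> norm_num

private theorem nn_nonneg (K : Submodule (ZMod 2) (W n)) (d : ℕ) (x : W n) : 0 ≤ nn K d x :=
  Finset.sum_nonneg fun _ _ => bl0 d _

private theorem fk_nonneg (K : Submodule (ZMod 2) (W n)) (d : ℕ) (x : W n) : 0 ≤ FK K d x := by
  unfold FK
  split_ifs <;> norm_num

private theorem fk_le (K : Submodule (ZMod 2) (W n)) (d : ℕ) (x : W n) :
    FK K d x ≤ nn K d x := by
  unfold FK
  split_ifs with h
  · obtain ⟨z, hz, hw⟩ := h
    have h1 : bl d (x + z) = 1 := by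
      unfold bl
      rw [if_pos hw]
    calc (1 : ℝ) = bl d (x + z) := h1.symm
      _ ≤ nn K d x := Finset.single_le_sum (f := fun z => bl d (x + z)) (fun _ _ => bl0 d _)
          (mem_ks.mpr hz)
  · exact nn_nonneg K d x

private theorem nn_sub (K : Submodule (ZMod 2) (W n)) (d : ℕ) (x : W n) :
    nn K d x - FK K d x ≤
      ∑ z ∈ ks K, ∑ z' ∈ (ks K).erase z, bl d (x + z) * bl d (x + z') := by
  have h1 : ∑ z ∈ ks K, ∑ z' ∈ (ks K).erase z, bl d (x + z) * bl d (x + z') =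
      nn K d x * nn K d x - nn K d x := by
    have h2 : ∀ z ∈ ks K, ∑ z' ∈ (ks K).erase z, bl d (x + z) * bl d (x + z') =
        bl d (x + z) * nn K d x - bl d (x + z) := by
      intro z hz
      rw [← Finset.mul_sum]
      have h3 : ∑ z' ∈ (ks K).erase z, bl d (x + z') = nn K d x - bl d (x + z) := by
        unfold nn
        rw [← Finset.sum_erase_add _ _ hz]
        ring
      rw [h3, mul_sub, cos_blsq]
    rw [Finset.sum_congr rfl h2, Finset.sum_sub_distrib, ← Finset.sum_mul]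
    rfl
  rw [h1]
  have h4 : nn K d x = (((ks K).filter fun z => wt (x + z) < d).card : ℝ) := by
    unfold nn bl
    rw [Finset.sum_boole]
  rw [h4]
  by_cases hc : ((ks K).filter fun z => wt (x + z) < d).card = 0
  · rw [hc]
    have := fk_nonneg K d x
    push_cast
    linarith
  · have h5 : ∃ z ∈ K, wt (x + z) < d := by
      obtain ⟨z, hz⟩ := Finset.card_pos.mp (Nat.pos_of_ne_zero hc)
      rw [mem_filter, mem_ks] at hz
      exact ⟨z, hz.1, hz.2⟩
    have h6 : FK K d x = 1 := by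
      unfold FK
      rw [if_pos h5]
    rw [h6]
    nlinarith [sq_nonneg ((((ks K).filter fun z => wt (x + z) < d).card : ℝ) - 1)]

private theorem av_sub {δ : ℝ} (h0 : 0 < δ) (h1 : δ < 1 / 2) {d : ℕ}
    {K : Submodule (ZMod 2) (W n)} (hK : ∀ z ∈ K, z ≠ 0 → d ≤ wt z) :
    av1 (fun x => nn K d x - FK K d x) ≤ (Nat.card K : ℝ) ^ 2 * (bet δ n d * kap δ ^ d) := by
  have hb := Pool.Agent.Lib.MP_0430e4_lc.Lgv.bet_pos h0 h1 n d
  have hk0 := kap_pos h0 h1
  have hk1 := kap_lt h0 h1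
  have hB : 0 ≤ bet δ n d * kap δ ^ d := by positivity
  calc av1 (fun x => nn K d x - FK K d x)
      ≤ av1 (fun x => ∑ z ∈ ks K, ∑ z' ∈ (ks K).erase z, bl d (x + z) * bl d (x + z')) :=
        cos_mono (nn_sub K d)
    _ = ∑ z ∈ ks K, ∑ z' ∈ (ks K).erase z, av1 (fun x => bl d (x + z) * bl d (x + z')) := by
        rw [cos_sum (ks K) (fun z x => ∑ z' ∈ (ks K).erase z, bl d (x + z) * bl d (x + z'))]
        refine Finset.sum_congr rfl fun z _ => ?_
        exact cos_sum ((ks K).erase z) (fun z' x => bl d (x + z) * bl d (x + z'))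
    _ ≤ ∑ z ∈ ks K, ∑ z' ∈ (ks K).erase z, bet δ n d * kap δ ^ d := by
        refine Finset.sum_le_sum fun z hz => Finset.sum_le_sum fun z' hz' => ?_
        refine (lens2 h0 h1 d z z').trans (mul_le_mul_of_nonneg_left ?_ hb.le)
        refine pow_le_pow_of_le_one hk0.le hk1.le (hK _ ?_ ?_)
        · exact K.add_mem (mem_ks.mp hz) (mem_ks.mp (mem_erase.mp hz').2)
        · intro h
          have h2 : z' = z := by
            calc z' = z + z + z' := by rw [vadd, zero_add]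
              _ = z + (z + z') := add_assoc _ _ _
              _ = z := by rw [h, add_zero]
          exact (mem_erase.mp hz').1 h2
    _ ≤ ∑ z ∈ ks K, ∑ z' ∈ ks K, bet δ n d * kap δ ^ d :=
        Finset.sum_le_sum fun z _ =>
          Finset.sum_le_sum_of_subset_of_nonneg (erase_subset _ _) fun _ _ _ => hB
    _ = (Nat.card K : ℝ) ^ 2 * (bet δ n d * kap δ ^ d) := by
        rw [Finset.sum_const, Finset.sum_const, card_ks, nsmul_eq_mul, nsmul_eq_mul]
        ring

theorem cos_av {δ : ℝ} (h0 : 0 < δ) (h1 : δ < 1 / 2) (d : ℕ) (K : Submodule (ZMod 2) (W n)) :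
    av1 (FK K d) ≤ (Nat.card K : ℝ) * bet δ n d := by
  calc av1 (FK K d) ≤ av1 (nn K d) := cos_mono (fk_le K d)
    _ = ∑ z ∈ ks K, av1 (fun x => bl d (x + z)) := cos_sum (ks K) (fun z x => bl d (x + z))
    _ = ∑ z ∈ ks K, av1 (bl d : W n → ℝ) := by
        refine Finset.sum_congr rfl fun z _ => ?_
        exact cos_shift (bl d) z
    _ = (Nat.card K : ℝ) * av1 (bl d : W n → ℝ) := by
        rw [Finset.sum_const, card_ks, nsmul_eq_mul]
    _ ≤ (Nat.card K : ℝ) * bet δ n d :=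
        mul_le_mul_of_nonneg_left (Pool.Agent.Lib.MP_0430e4_lc.Lgv.ball_le h0 h1 n d)
          (Nat.cast_nonneg _)

private theorem fk_add (K : Submodule (ZMod 2) (W n)) (d : ℕ) {z : W n} (hz : z ∈ K) (x : W n) :
    FK K d (x + z) = FK K d x := by
  have h : (∃ z' ∈ K, wt (x + z + z') < d) ↔ ∃ z' ∈ K, wt (x + z') < d := by
    constructor
    · rintro ⟨z', h1, h2⟩
      exact ⟨z + z', K.add_mem hz h1, by rw [← add_assoc]; exact h2⟩
    · rintro ⟨z', h1, h2⟩
      refine ⟨z + z', K.add_mem hz h1, ?_⟩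
      rw [add_assoc x z, ← add_assoc z z, vadd, zero_add]
      exact h2
  unfold FK
  by_cases hp : ∃ z' ∈ K, wt (x + z') < d
  · rw [if_pos hp, if_pos (h.mpr hp)]
  · rw [if_neg hp, if_neg (fun hq => hp (h.mp hq))]

theorem cos_inv (d : ℕ) (K : Submodule (ZMod 2) (W n)) {ξ z : W n} (hz : z ∈ K)
    (h : chw ξ z ≠ 1) : ft (FK K d) ξ = 0 := by
  have h1 : ∑ x, FK K d x * chw ξ x = chw ξ z * ∑ x, FK K d x * chw ξ x := by
    rw [Finset.mul_sum]
    rw [← Equiv.sum_comp (Equiv.addRight z) (fun x => FK K d x * chw ξ x)]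
    refine Finset.sum_congr rfl fun x _ => ?_
    change FK K d (x + z) * chw ξ (x + z) = _
    rw [fk_add K d hz, Pool.Agent.Lib.MP_0430e4_lc.Lgv.tra_add_right]
    ring
  have h2 : ∑ x, FK K d x * chw ξ x = 0 := by
    have h3 : (1 - chw ξ z) * ∑ x, FK K d x * chw ξ x = 0 := by
      rw [sub_mul, one_mul, ← h1, sub_self]
    rcases mul_eq_zero.mp h3 with h4 | h4
    · exact absurd (sub_eq_zero.mp h4).symm h
    · exact h4
  unfold ft
  rw [h2, zero_div]

private theorem cos_chw (ξ z : W n) : |chw ξ z| = 1 := by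
  exact Pool.Agent.Lib.MP_0430e4_lc.Lin.abs_chw ξ z

private theorem ft_shift (h : W n → ℝ) (z ξ : W n) :
    |ft (fun x => h (x + z)) ξ| = |ft h ξ| := by
  have h1 : ft (fun x => h (x + z)) ξ = chw ξ z * ft h ξ := by
    unfold ft
    rw [← mul_div_assoc]
    congr 1
    rw [Finset.mul_sum, ← Equiv.sum_comp (Equiv.addRight z) (fun x => chw ξ z * (h x * chw ξ x))]
    refine Finset.sum_congr rfl fun x _ => ?_
    change h (x + z) * chw ξ x = chw ξ z * (h (x + z) * chw ξ (x + z))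
    have h2 : chw ξ z * chw ξ z = 1 := by
      rw [← Pool.Agent.Lib.MP_0430e4_lc.Lgv.tra_add_right, vadd,
        Pool.Agent.Lib.MP_0430e4_lc.Lgv.tra_zero_right]
    rw [Pool.Agent.Lib.MP_0430e4_lc.Lgv.tra_add_right]
    calc h (x + z) * chw ξ x = h (x + z) * chw ξ x * (chw ξ z * chw ξ z) := by rw [h2, mul_one]
      _ = _ := by ring
  rw [h1, abs_mul, cos_chw, one_mul]

theorem cos_ft {δ : ℝ} (h0 : 0 < δ) (h1 : δ < 1 / 2) {d : ℕ} {K : Submodule (ZMod 2) (W n)}
    (hK : ∀ z ∈ K, z ≠ 0 → d ≤ wt z) (ξ : W n) :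
    |ft (FK K d) ξ| ≤ (Nat.card K : ℝ) * |ft (bl d) ξ| +
      (Nat.card K : ℝ) ^ 2 * (bet δ n d * kap δ ^ d) := by
  have e1 : ft (FK K d) ξ = ft (nn K d) ξ - ft (fun x => nn K d x - FK K d x) ξ := by
    unfold ft
    rw [← sub_div, ← Finset.sum_sub_distrib]
    congr 1
    refine Finset.sum_congr rfl fun x _ => ?_
    ring
  have e2 : ft (nn K d) ξ = ∑ z ∈ ks K, ft (fun x => bl d (x + z)) ξ := by
    unfold ft nn
    rw [← Finset.sum_div, Finset.sum_comm]
    congr 1
    refine Finset.sum_congr rfl fun x _ => ?_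
    rw [Finset.sum_mul]
  have e3 : |ft (nn K d) ξ| ≤ (Nat.card K : ℝ) * |ft (bl d) ξ| := by
    rw [e2]
    refine (Finset.abs_sum_le_sum_abs _ _).trans (le_of_eq ?_)
    rw [Finset.sum_congr rfl fun z _ => ft_shift (bl d) z ξ, Finset.sum_const, card_ks,
      nsmul_eq_mul]
  have e4 : |ft (fun x => nn K d x - FK K d x) ξ| ≤
      (Nat.card K : ℝ) ^ 2 * (bet δ n d * kap δ ^ d) :=
    (abs_ft_le_av1 (fun x => sub_nonneg.mpr (fk_le K d x)) ξ).trans (av_sub h0 h1 hK)
  rw [e1]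
  exact (abs_sub _ _).trans (add_le_add e3 e4)

theorem cos_pair {δ : ℝ} (h0 : 0 < δ) (h1 : δ < 1 / 2) {d d1 : ℕ} {K : Submodule (ZMod 2) (W n)}
    {y : W n} (hy : ∀ z ∈ K, d1 ≤ wt (y + z)) :
    av1 (fun x => FK K d x * FK K d (x + y)) ≤ (Nat.card K : ℝ) ^ 2 * (bet δ n d * kap δ ^ d1) := by
  have hb := Pool.Agent.Lib.MP_0430e4_lc.Lgv.bet_pos h0 h1 n d
  have hk0 := kap_pos h0 h1
  have hk1 := kap_lt h0 h1
  calc av1 (fun x => FK K d x * FK K d (x + y))
      ≤ av1 (fun x => ∑ z ∈ ks K, ∑ z' ∈ ks K, bl d (x + z) * bl d (x + (y + z'))) := by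
        refine cos_mono fun x => ?_
        refine (mul_le_mul (fk_le K d x) (fk_le K d (x + y)) (fk_nonneg K d _)
          (nn_nonneg K d x)).trans (le_of_eq ?_)
        unfold nn
        rw [Finset.sum_mul_sum]
        refine Finset.sum_congr rfl fun z _ => Finset.sum_congr rfl fun z' _ => ?_
        rw [add_assoc x y z']
    _ = ∑ z ∈ ks K, ∑ z' ∈ ks K, av1 (fun x => bl d (x + z) * bl d (x + (y + z'))) := by
        rw [cos_sum (ks K) (fun z x => ∑ z' ∈ ks K, bl d (x + z) * bl d (x + (y + z')))]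
        refine Finset.sum_congr rfl fun z _ => ?_
        exact cos_sum (ks K) (fun z' x => bl d (x + z) * bl d (x + (y + z')))
    _ ≤ ∑ z ∈ ks K, ∑ z' ∈ ks K, bet δ n d * kap δ ^ d1 := by
        refine Finset.sum_le_sum fun z hz => Finset.sum_le_sum fun z' hz' => ?_
        refine (lens2 h0 h1 d z (y + z')).trans (mul_le_mul_of_nonneg_left ?_ hb.le)
        refine pow_le_pow_of_le_one hk0.le hk1.le ?_
        have h2 := hy (z + z') (K.add_mem (mem_ks.mp hz) (mem_ks.mp hz'))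
        have h3 : z + (y + z') = y + (z + z') := by
          rw [← add_assoc, ← add_assoc, add_comm z y]
        rw [h3]
        exact h2
    _ = (Nat.card K : ℝ) ^ 2 * (bet δ n d * kap δ ^ d1) := by
        rw [Finset.sum_const, Finset.sum_const, card_ks, nsmul_eq_mul, nsmul_eq_mul]
        ring

end Pool.Agent.Lib.MP_0430e4_lc.Llv
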