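import Pool.Agent.Lib.MP_0430e4_lc.Lgv.Defs

/-!
# Levels linear in the length: definitions

Text: /team-store/LL.md. `Cv k` are the coefficient vectors, `W m` the words; `cmb Z v` is the
combination of the tuple `Z` of `k` words with coefficients `v`. Averages are over all tuples.
-/

set_option autoImplicit false

namespace Pool.Agent.Lib.MP_0430e4_lc.Llv

open Finset
open Pool.Agent.Lib.MP_0430e4_lc.Lin (W wt chw sg)
open Pool.Agent.Lib.MP_0430e4_lc.Lgv (ft bl cmb rk gg P wd Pz gc cht Gh)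

variable {m k : ℕ}

/-- Coefficient vectors. -/
abbrev Cv (k : ℕ) := Fin k → ZMod 2

/-- Unit vectors. -/
def ev (i : Fin k) : Cv k := Pi.single i 1

/-- The average over all words. -/
noncomputable def av1 (h : W m → ℝ) : ℝ := (∑ x, h x) / 2 ^ m

/-- The average over all tuples of `k` words. -/
noncomputable def Av (g : (Fin k → W m) → ℝ) : ℝ := (∑ Z, g Z) / 2 ^ (m * k)

/-- `H` depends only on the combinations with coefficients in `V`. -/
def DepOn (V : Submodule (ZMod 2) (Cv k)) (H : (Fin k → W m) → ℝ) : Prop :=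
  ∀ Z Z' : Fin k → W m, (∀ v ∈ V, cmb Z v = cmb Z' v) → H Z = H Z'

/-- Independence of a set of coefficient vectors. -/
def Ind (C : Finset (Cv k)) : Prop := LinearIndepOn (ZMod 2) id (C : Set (Cv k))

/-- The span of a set of coefficient vectors. -/
def spn (C : Finset (Cv k)) : Submodule (ZMod 2) (Cv k) := Submodule.span (ZMod 2) (C : Set (Cv k))

/-- The support of `v` is contained in `S`. -/
def SuppIn (S : Finset (Fin k)) (v : Cv k) : Prop := ∀ i, v i ≠ 0 → i ∈ S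

/-- The hypotheses of the core (section 1 of the text): `F` is the indicator of the forbidden
words, `t` of the tiny words. -/
structure Dat (F t : W m → ℝ) (α θ : ℝ) : Prop where
  F01 : ∀ x, F x = 0 ∨ F x = 1
  t01 : ∀ x, t x = 0 ∨ t x = 1
  tF : ∀ x, t x ≤ F x
  t0 : t 0 = 1
  α0 : 0 < α
  θ0 : 0 ≤ θ
  θ1 : θ ≤ 1 / 2
  avF : av1 F ≤ α
  avt : av1 t ≤ θ * α
  ftF : ∀ w, w ≠ 0 → |ft F w| ≤ θ * α
  pair : ∀ y, t y = 0 → av1 (fun x => F x * F (x + y)) ≤ θ * α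

/-- The remaining parameters of the core. -/
structure Par (m k : ℕ) (α θ η ϑ ζ : ℝ) (q : ℕ) : Prop where
  q1 : 1 ≤ q
  N : 2 ^ m * α ^ q ≤ 1
  η0 : 0 < η
  η1 : η ≤ 1 / 2
  αη : 16 * α ^ 3 ≤ η ^ 4
  θη : θ ≤ η ^ (4 * q)
  ϑ0 : 0 < ϑ
  ϑ1 : ϑ ≤ 1
  ηϑ : 2 * η ≤ ϑ ^ 8
  ζ0 : 0 < ζ
  ζ1 : ζ ≤ 1
  ϑζ : 2 * 4 ^ k * ϑ ≤ ζ ^ 8
  θζ : 2 ^ k * (2 * θ) ^ 2 ≤ ζ ^ 4

/-- No combination with nonzero coefficients supported in `S` is tiny. -/
noncomputable def nt (S : Finset (Fin k)) (t : W m → ℝ) (Z : Fin k → W m) : ℝ := by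
  classical exact if ∀ u : Cv k, u ≠ 0 → SuppIn S u → t (cmb Z u) = 0 then 1 else 0

/-- `g` is one of the two functions `F - t`, `t` at every position; `S` is the set of the
positions with `F - t`. -/
def Two (S : Finset (Fin k)) (F t : W m → ℝ) (g : Fin k → W m → ℝ) : Prop :=
  (∀ i ∈ S, ∀ x, g i x = F x - t x) ∧ ∀ i, i ∉ S → ∀ x, g i x = t x

end Pool.Agent.Lib.MP_0430e4_lc.Llv
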