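import Pool.Agent.Lib.MP_0430e4_lc.Llv.Defs

/-!
# Definitions for sections 2 - 5
-/

set_option autoImplicit false

namespace Pool.Agent.Lib.MP_0430e4_lc.Llv

open Finset
open Pool.Agent.Lib.MP_0430e4_lc.Lin (W wt chw sg)
open Pool.Agent.Lib.MP_0430e4_lc.Lgv (ft bl cmb rk gg P wd Pz gc cht Gh)

variable {m n : ℕ}

/-- No nonzero combination of `X` is in `B`. -/
def GoodB (B : W m → Prop) {u : ℕ} (X : Fin u → W m) : Prop :=
  ∀ a : Fin u → ZMod 2, a ≠ 0 → ¬ B (cmb X a)

/-- Minus the indicator of `B`. -/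
noncomputable def phB (B : W m → Prop) (x : W m) : ℝ := by
  classical exact if B x then -1 else 0

/-- The indicator of `B + span X`. -/
noncomputable def FX (B : W m → Prop) {u : ℕ} (X : Fin u → W m) (x : W m) : ℝ := by
  classical exact if ∃ a : Fin u → ZMod 2, B (x + cmb X a) then 1 else 0

/-- The image of the words of weight less than `d` under `π`. -/
def imB (π : W n →ₗ[ZMod 2] W m) (d : ℕ) (y : W m) : Prop := ∃ x : W n, π x = y ∧ wt x < d

/-- The indicator of the words at distance less than `d` from `K`. -/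
noncomputable def FK (K : Submodule (ZMod 2) (W n)) (d : ℕ) (x : W n) : ℝ := by
  classical exact if ∃ z ∈ K, wt (x + z) < d then 1 else 0

/-- `2 √(δ (1 - δ))`. -/
noncomputable def kap (δ : ℝ) : ℝ := 2 * Real.sqrt (δ * (1 - δ))

/-- `(1 - δ)^2 + δ^2`. -/
noncomputable def kap1 (δ : ℝ) : ℝ := (1 - δ) ^ 2 + δ ^ 2

/-- The parameter `θ` of section 5. -/
noncomputable def tht (δ : ℝ) (d d1 k1 kw : ℕ) : ℝ :=
  d * kap1 δ ^ kw + (δ / (1 - δ)) ^ (d - d1) + 2 ^ k1 * kap δ ^ d1

end Pool.Agent.Lib.MP_0430e4_lc.Llv
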