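import Pool.Agent.Lib.MP_0430e4_lc.Llv.Defs
import Pool.Agent.Lib.MP_0430e4_lc.Lgv.EXPN

/-!
# Expd: expansion of a product over independent sets (section 1.2)

PROOF. As Lgv/EXPN.lean (read it). Claim by induction on `i`: there are lists `L 0, .., L (i-1)` as in the statement and a list
`LB` of pairs `(b, A')` with `b, A' ⊆ A` disjoint, `|b| = i`, `Ind b`, `Disjoint V0 (spn b)`, `A ∩ V0 ⊆ A'`, `LB.length ≤ (2^k)^i`, and
`∏_A (1+f) = ∑_{i' < i} (L i' terms) + (LB terms)`. `i = 0`: `LB = [(∅, A)]`. Step: for `(b, A')` in `LB` split `A'` into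
`A1 = {v ∈ A' | v ∈ V0 ⊔ spn b}` and the rest `A2`; `∏_{A'} (1+f) = ∏_{A1} (1+f) * ∏_{A2} (1+f)`, expand the second factor by
`Lgv.expn_first`: the term `(b, A1)` goes to `L i` and the terms `(insert v b, A1 ∪ N v)`, `v ∈ A2`, go to the new `LB` (at most
`|Cv k| = 2^k` for each `(b, A')`). `v ∉ V0 ⊔ spn b` gives `Ind (insert v b)` (`linearIndepOn_insert`) and `Disjoint V0 (spn (insert v b))`
(if `x ∈ V0`, `x = c v + y`, `y ∈ spn b`: `c = 1` would give `v ∈ V0 ⊔ spn b`; `c = 0` gives `x ∈ V0 ⊓ spn b`). For `i = k + 1` the list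
`LB` is empty (no independent set of `k + 1` vectors in `Cv k`).
-/

set_option autoImplicit false

namespace Pool.Agent.Lib.MP_0430e4_lc.Llv

open Finset
open Pool.Agent.Lib.MP_0430e4_lc.Lin (W wt chw sg)
open Pool.Agent.Lib.MP_0430e4_lc.Lgv (ft bl cmb rk gg P wd Pz gc cht Gh)

variable {m k : ℕ}

private theorem expd_disj {V0 : Submodule (ZMod 2) (Cv k)} {b : Finset (Cv k)} {v : Cv k}
    (h : Disjoint V0 (spn b)) (hv : v ∉ V0 ⊔ spn b) : Disjoint V0 (spn (insert v b)) := by
  rw [Submodule.disjoint_def] at h ⊢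
  intro x hx hx'
  unfold spn at hx'
  rw [coe_insert, Submodule.mem_span_insert] at hx'
  obtain ⟨c, y, hy, rfl⟩ := hx'
  have hc : c = 0 ∨ c = 1 := by
    clear hx
    revert c
    decide
  rcases hc with rfl | rfl
  · rw [zero_smul, zero_add] at hx ⊢
    exact h y hx hy
  · exfalso
    apply hv
    rw [one_smul] at hx
    have h1 : v = (v + y) - y := by abel
    rw [h1]
    exact Submodule.sub_mem _ (Submodule.mem_sup_left hx) (Submodule.mem_sup_right hy)

private theorem expd_ind {V0 : Submodule (ZMod 2) (Cv k)} {b : Finset (Cv k)} {v : Cv k}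
    (hb : Ind b) (hvb : v ∉ b) (hv : v ∉ V0 ⊔ spn b) : Ind (insert v b) := by
  have h1 : LinearIndepOn (ZMod 2) (id : Cv k → Cv k) (b : Set (Cv k)) := hb
  have h3 : v ∉ Submodule.span (ZMod 2) (b : Set (Cv k)) := fun h => hv (Submodule.mem_sup_right h)
  have h2 : LinearIndepOn (ZMod 2) (id : Cv k → Cv k) (insert v (b : Set (Cv k))) := by
    refine (linearIndepOn_insert (by simpa using hvb)).2 ⟨h1, ?_⟩
    rw [Set.image_id]
    exact h3
  rw [← coe_insert] at h2
  exact h2

private theorem expd_card {b : Finset (Cv k)} (hb : Ind b) : b.card ≤ k := by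
  have h1 : LinearIndepOn (ZMod 2) (id : Cv k → Cv k) (b : Set (Cv k)) := hb
  have h2 : LinearIndependent (ZMod 2) (fun x : b => (x : Cv k)) := h1
  have h3 := h2.fintype_card_le_finrank
  rw [Fintype.card_coe, Module.finrank_fintype_fun_eq_card, Fintype.card_fin] at h3
  exact h3

private theorem expd_univ (A : Finset (Cv k)) : A.card ≤ 2 ^ k := by
  refine (card_le_univ A).trans ?_
  rw [Fintype.card_fun, ZMod.card, Fintype.card_fin]

private theorem expd_step (A : Finset (Cv k)) (V0 : Submodule (ZMod 2) (Cv k)) (i : ℕ) :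
    ∃ (L : ℕ → List (Finset (Cv k) × Finset (Cv k))) (LB : List (Finset (Cv k) × Finset (Cv k))),
      (∀ i' < i, ∀ e ∈ L i', e.1.card = i' ∧ e.1 ⊆ A ∧ e.2 ⊆ A ∧ Disjoint e.1 e.2 ∧ Ind e.1 ∧
        Disjoint V0 (spn e.1) ∧ (∀ v ∈ A, v ∈ V0 → v ∈ e.2) ∧ ∀ v ∈ e.2, v ∈ V0 ⊔ spn e.1) ∧
      (∀ i' < i, (L i').length ≤ (2 ^ k) ^ i') ∧
      (∀ e ∈ LB, e.1.card = i ∧ e.1 ⊆ A ∧ e.2 ⊆ A ∧ Disjoint e.1 e.2 ∧ Ind e.1 ∧
        Disjoint V0 (spn e.1) ∧ ∀ v ∈ A, v ∈ V0 → v ∈ e.2) ∧
      LB.length ≤ (2 ^ k) ^ i ∧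
      ∀ f : Cv k → ℝ, ∏ v ∈ A, (1 + f v) =
        ∑ i' ∈ range i, ((L i').map fun e => (∏ v ∈ e.1, f v) * ∏ v ∈ e.2, (1 + f v)).sum +
        (LB.map fun e => (∏ v ∈ e.1, f v) * ∏ v ∈ e.2, (1 + f v)).sum := by
  classical
  induction i with
  | zero =>
    refine ⟨fun _ => [], [(∅, A)], fun i' hi' => absurd hi' (Nat.not_lt_zero _),
      fun i' hi' => absurd hi' (Nat.not_lt_zero _), ?_, by simp, by simp⟩
    intro e he
    rw [List.mem_singleton] at he
    subst he
    refine ⟨card_empty, empty_subset _, subset_rfl, disjoint_empty_left _, ?_, ?_, fun v hv _ => hv⟩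
    · have : LinearIndepOn (ZMod 2) (id : Cv k → Cv k) (∅ : Set (Cv k)) := linearIndepOn_empty _ _
      rw [← coe_empty] at this
      exact this
    · unfold spn
      rw [coe_empty, Submodule.span_empty]
      exact disjoint_bot_right
  | succ i ih =>
    obtain ⟨L, LB, hL, hLl, hB, hl, hf⟩ := ih
    let A1 : Finset (Cv k) × Finset (Cv k) → Finset (Cv k) := fun e =>
      e.2.filter fun p => p ∈ V0 ⊔ spn e.1
    let A2 : Finset (Cv k) × Finset (Cv k) → Finset (Cv k) := fun e =>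
      e.2.filter fun p => ¬ p ∈ V0 ⊔ spn e.1
    let N : Finset (Cv k) × Finset (Cv k) → Cv k → Finset (Cv k) := fun e =>
      (Lgv.expn_first (A2 e)).choose
    have hN : ∀ e, ∀ m ∈ A2 e, N e m ⊆ A2 e ∧ m ∉ N e m := fun e =>
      (Lgv.expn_first (A2 e)).choose_spec.1
    have hNf : ∀ e, ∀ f : Cv k → ℝ, ∏ p ∈ A2 e, (1 + f p) =
        1 + ∑ m ∈ A2 e, f m * ∏ p ∈ N e m, (1 + f p) := fun e =>
      (Lgv.expn_first (A2 e)).choose_spec.2
    have hA1 : ∀ e, A1 e ⊆ e.2 := fun e => filter_subset _ _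
    have hA2 : ∀ e, A2 e ⊆ e.2 := fun e => filter_subset _ _
    have hd : ∀ e, Disjoint (A1 e) (A2 e) := fun e => disjoint_filter_filter_not _ _ _
    refine ⟨fun j => if j = i then LB.map fun e => (e.1, A1 e) else L j,
      LB.flatMap fun e => (A2 e).toList.map fun m => (insert m e.1, A1 e ∪ N e m),
      ?_, ?_, ?_, ?_, ?_⟩
    · intro i' hi' e he
      dsimp only at he
      by_cases hii : i' = i
      · rw [if_pos hii, List.mem_map] at he
        obtain ⟨e', he', rfl⟩ := he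
        obtain ⟨h1, h2, h3, h4, h5, h6, h7⟩ := hB e' he'
        exact ⟨h1.trans hii.symm, h2, (hA1 e').trans h3, h4.mono_right (hA1 e'), h5, h6,
          fun v hv hv0 => mem_filter.2 ⟨h7 v hv hv0, Submodule.mem_sup_left hv0⟩,
          fun v hv => (mem_filter.1 hv).2⟩
      · rw [if_neg hii] at he
        exact hL i' (by omega) e he
    · intro i' hi'
      dsimp only
      by_cases hii : i' = i
      · rw [if_pos hii, List.length_map, hii]
        exact hl
      · rw [if_neg hii]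
        exact hLl i' (by omega)
    · intro e he
      rw [List.mem_flatMap] at he
      obtain ⟨e', he', he⟩ := he
      rw [List.mem_map] at he
      obtain ⟨m, hm, rfl⟩ := he
      rw [mem_toList] at hm
      obtain ⟨h1, h2, h3, h4, h5, h6, h7⟩ := hB e' he'
      have hm2 : m ∈ e'.2 := hA2 e' hm
      have hmb : m ∉ e'.1 := fun h => disjoint_left.1 h4 h hm2
      have hmV : m ∉ V0 ⊔ spn e'.1 := (mem_filter.1 hm).2
      obtain ⟨hn1, hn2⟩ := hN e' m hm
      refine ⟨?_, insert_subset (h3 hm2) h2, union_subset ((hA1 e').trans h3)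
        (hn1.trans ((hA2 e').trans h3)), ?_, expd_ind h5 hmb hmV, expd_disj h6 hmV, ?_⟩
      · rw [card_insert_of_notMem hmb, h1]
      · rw [disjoint_insert_left, disjoint_union_right, mem_union]
        refine ⟨?_, h4.mono_right (hA1 e'), h4.mono_right (hn1.trans (hA2 e'))⟩
        rintro (h | h)
        · exact disjoint_left.1 (hd e') h hm
        · exact hn2 h
      · intro v hv hv0
        exact mem_union_left _ (mem_filter.2 ⟨h7 v hv hv0, Submodule.mem_sup_left hv0⟩)
    · refine (Lgv.expn_len LB _ (2 ^ k) ?_).trans ?_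
      · intro e _
        rw [List.length_map, length_toList]
        exact expd_univ _
      · rw [pow_succ]
        exact Nat.mul_le_mul_right _ hl
    · intro f
      rw [hf f, sum_range_succ, Lgv.expn_flat, add_assoc]
      dsimp only
      rw [if_pos rfl, List.map_map]
      congr 1
      · refine sum_congr rfl fun j hj => ?_
        rw [if_neg (mem_range.1 hj).ne]
      · refine Lgv.expn_add LB _ _ _ ?_
        intro e he
        obtain ⟨h1, h2, h3, h4, h5, h6, h7⟩ := hB e he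
        have hs : ∏ p ∈ e.2, (1 + f p) = (∏ p ∈ A1 e, (1 + f p)) * ∏ p ∈ A2 e, (1 + f p) :=
          (prod_filter_mul_prod_filter_not _ _ _).symm
        rw [hs, hNf e f, List.map_map, Function.comp_def, sum_map_toList, mul_add, mul_one, mul_add]
        simp only [Function.comp_apply]
        congr 1
        rw [mul_sum, mul_sum]
        refine sum_congr rfl fun m hm => ?_
        have hmb : m ∉ e.1 := fun h => disjoint_left.1 h4 h (hA2 e hm)
        rw [prod_insert hmb, prod_union ((hd e).mono_right (hN e m hm).1)]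
        ring

/-- Expansion over the sets which are independent modulo `V0`. -/
theorem expd (A : Finset (Cv k)) (V0 : Submodule (ZMod 2) (Cv k)) :
    ∃ L : ℕ → List (Finset (Cv k) × Finset (Cv k)),
      (∀ i, ∀ e ∈ L i, e.1.card = i ∧ e.1 ⊆ A ∧ e.2 ⊆ A ∧ Disjoint e.1 e.2 ∧ Ind e.1 ∧
        Disjoint V0 (spn e.1) ∧ (∀ v ∈ A, v ∈ V0 → v ∈ e.2) ∧ ∀ v ∈ e.2, v ∈ V0 ⊔ spn e.1) ∧
      (∀ i, (L i).length ≤ (2 ^ k) ^ i) ∧
      ∀ f : Cv k → ℝ, ∏ v ∈ A, (1 + f v) =
        ∑ i ∈ range (k + 1), ((L i).map fun e => (∏ v ∈ e.1, f v) * ∏ v ∈ e.2, (1 + f v)).sum := by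
  obtain ⟨L, LB, hL, hLl, hB, hl, hf⟩ := expd_step A V0 (k + 1)
  have hLB : LB = [] := by
    rw [List.eq_nil_iff_forall_not_mem]
    intro e he
    obtain ⟨h1, -, -, -, h5, -⟩ := hB e he
    have := expd_card h5
    omega
  refine ⟨fun i => if i < k + 1 then L i else [], ?_, ?_, ?_⟩
  · intro i e he
    dsimp only at he
    by_cases hi : i < k + 1
    · rw [if_pos hi] at he
      exact hL i hi e he
    · rw [if_neg hi] at he
      exact absurd he (List.not_mem_nil)
  · intro i
    dsimp only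
    by_cases hi : i < k + 1
    · rw [if_pos hi]
      exact hLl i hi
    · rw [if_neg hi, List.length_nil]
      exact Nat.zero_le _
  · intro f
    rw [hf f, hLB, List.map_nil, List.sum_nil, add_zero]
    refine sum_congr rfl fun i hi => ?_
    dsimp only
    rw [if_pos (mem_range.1 hi)]

private theorem expd_list {α : Type} (L : List α) (G : α → ℝ) (b : ℝ)
    (hG : ∀ e ∈ L, |G e| ≤ b) : |(L.map G).sum| ≤ L.length * b := by
  induction L with
  | nil => simp
  | cons a L ih =>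
    rw [List.map_cons, List.sum_cons, List.length_cons]
    have h1 := hG a List.mem_cons_self
    have h2 := ih fun e he => hG e (List.mem_cons_of_mem _ he)
    push_cast
    have h3 := abs_add_le (G a) (L.map G).sum
    linarith

/-- Sums over the lists of `expd`. -/
theorem expd_sum_le (L : ℕ → List (Finset (Cv k) × Finset (Cv k)))
    (hL : ∀ i, (L i).length ≤ (2 ^ k) ^ i) (G : Finset (Cv k) × Finset (Cv k) → ℝ) (β : ℕ → ℝ)
    (hβ : ∀ i, 0 ≤ β i) (hG : ∀ i, ∀ e ∈ L i, |G e| ≤ β i) (s : Finset ℕ) :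
    |∑ i ∈ s, ((L i).map G).sum| ≤ ∑ i ∈ s, ((2 : ℝ) ^ k) ^ i * β i := by
  refine (abs_sum_le_sum_abs _ _).trans (sum_le_sum fun i _ => ?_)
  refine (expd_list (L i) G (β i) (hG i)).trans (mul_le_mul_of_nonneg_right ?_ (hβ i))
  exact_mod_cast hL i

end Pool.Agent.Lib.MP_0430e4_lc.Llv
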