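import Pool.Agent.Lib.MP_0430e4_lc.Llv.Defs

/-!
# NumB: the remaining parameters (section 6)

PROOF. `par_mono`: `4^k ≤ 4^l`, `2^k ≤ 2^l` in the last two fields.
`numB`: write `L = log 2 ≤ 1`, `2^l = exp (L l) ≤ exp (c n)` for `l ≤ c n`. `q = max 1 ⌈L / c0⌉`, so `2^m α^q ≤ exp (L n - c0 q n) ≤ 1`.
`c1 = c0 / (4 q)`, `η = exp (-c1 n)`: `θ ≤ exp (-c0 n) = η^(4 q)`; `16 α^3 ≤ 16 exp (-3 c0 n) ≤ exp (-c0 n) ≤ η^4` for large `n` (`4 c1 ≤ c0`).
`c2 = c1 / 16`, `ϑ = exp (-c2 n)`: `2 η ≤ ϑ^8 = exp (-c1 n / 2)` for large `n`.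
`c3 = c2 / 16`, `ζ = exp (-c3 n)`, `c = c3 / 16` (so `c ≤ c2 / 16`, `c, c3 ≤ c0 / 16`):
`2 * 4^l ϑ ≤ 2 exp (2 c n - c2 n) ≤ exp (-c2 n / 2) = ζ^8`; `2^l (2θ)^2 ≤ 4 exp (c n - 2 c0 n) ≤ exp (-c0 n / 2) ≤ ζ^4`; `2^l α ≤ exp (c n - c0 n) ≤ 1/2`;
`40 * 2^l ζ α * 2^(2l+2) = 160 * 2^(3l) ζ α ≤ 160 exp (3 c n - c0 n) ≤ 1`; `160 * 2^(4l) ζ K ≤ 160 K exp (4 c n - c3 n) = 160 K exp (-3 c3 n / 4) ≤ exp (-c3 n / 2)`:
all for `n ≥ n0`, with `n0` such that `exp (x n) ≥ 160 max(1, K)` for `x = min` of the finitely many positive rates (for example `x = c3 / 4`; `exp y ≥ y`).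
-/

set_option autoImplicit false

namespace Pool.Agent.Lib.MP_0430e4_lc.Llv

open Finset
open Pool.Agent.Lib.MP_0430e4_lc.Lin (W wt chw sg)
open Pool.Agent.Lib.MP_0430e4_lc.Lgv (ft bl cmb rk gg P wd Pz gc cht Gh)

private theorem pw_z {c : ℝ} {l n : ℕ} (h : (l : ℝ) ≤ c * n) (j : ℕ) :
    (2 : ℝ) ^ (j * l) ≤ Real.exp (j * c * n) := by
  have h2 : (2 : ℝ) ≤ Real.exp 1 := by
    have := Real.add_one_le_exp (1 : ℝ)
    linarith
  calc (2 : ℝ) ^ (j * l) ≤ Real.exp 1 ^ (j * l) := pow_le_pow_left₀ (by norm_num) h2 _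
    _ = Real.exp ((j * l : ℕ) * 1) := (Real.exp_nat_mul 1 (j * l)).symm
    _ ≤ Real.exp (j * c * n) := by
        apply Real.exp_le_exp.mpr
        push_cast
        rw [mul_one, mul_assoc]
        exact mul_le_mul_of_nonneg_left h (Nat.cast_nonneg j)

private theorem pm_z {x : ℝ} (hx : 1 ≤ x) {k l : ℕ} (h : k ≤ l) : x ^ k ≤ x ^ l :=
  pow_le_pow_right₀ hx h

theorem par_mono {m k l : ℕ} (h : k ≤ l) {α θ η ϑ ζ : ℝ} {q : ℕ} (hP : Par m l α θ η ϑ ζ q) :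
    Par m k α θ η ϑ ζ q := by
  have h4 : (4 : ℝ) ^ k ≤ 4 ^ l := pm_z (by norm_num) h
  have h2 : (2 : ℝ) ^ k ≤ 2 ^ l := pm_z (by norm_num) h
  have hϑ := hP.ϑ0
  refine ⟨hP.q1, hP.N, hP.η0, hP.η1, hP.αη, hP.θη, hP.ϑ0, hP.ϑ1, hP.ηϑ, hP.ζ0, hP.ζ1, ?_, ?_⟩
  · refine le_trans ?_ hP.ϑζ
    exact mul_le_mul_of_nonneg_right (mul_le_mul_of_nonneg_left h4 (by norm_num)) hϑ.le
  · refine le_trans ?_ hP.θζ
    exact mul_le_mul_of_nonneg_right h2 (by positivity)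

theorem numB {c0 K : ℝ} (h0 : 0 < c0) (hK : 0 < K) : ∃ (q : ℕ) (c c3 : ℝ), 0 < c ∧ 0 < c3 ∧
    ∃ n0 : ℕ, ∀ n : ℕ, n0 ≤ n → ∀ l : ℕ, (l : ℝ) ≤ c * n →
      160 * 2 ^ (4 * l) * Real.exp (-c3 * n) * K ≤ Real.exp (-(c3 / 2) * n) ∧
      ∀ m : ℕ, m ≤ n → ∀ α θ : ℝ, 0 < α → α ≤ Real.exp (-c0 * n) → 0 ≤ θ →
        θ ≤ Real.exp (-c0 * n) →
        θ ≤ 1 / 2 ∧ 2 ^ l * α ≤ 1 / 2 ∧
        40 * 2 ^ l * Real.exp (-c3 * n) * α * 2 ^ (2 * l + 2) ≤ 1 ∧
        ∃ η ϑ : ℝ, Par m l α θ η ϑ (Real.exp (-c3 * n)) q := by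
  obtain ⟨q, hq1, hq⟩ : ∃ q : ℕ, 1 ≤ q ∧ Real.log 2 ≤ c0 * q := by
    refine ⟨max 1 ⌈Real.log 2 / c0⌉₊, le_max_left _ _, ?_⟩
    have h := Nat.le_ceil (Real.log 2 / c0)
    rw [div_le_iff₀ h0] at h
    refine h.trans ?_
    rw [mul_comm]
    refine mul_le_mul_of_nonneg_left ?_ h0.le
    exact Nat.cast_le.mpr (le_max_right _ _)
  have hqr : (1 : ℝ) ≤ q := by exact_mod_cast hq1
  have hq0 : (0 : ℝ) < q := by linarith
  obtain ⟨u, hu0, hu⟩ : ∃ u : ℝ, 0 < u ∧ c0 = 16384 * q * u := by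
    refine ⟨c0 / (16384 * q), by positivity, ?_⟩
    field_simp
  have hcu : 16384 * u ≤ c0 := by
    rw [hu]
    nlinarith
  refine ⟨q, u, 16 * u, hu0, by positivity, ⌈160 * (1 + K) / (4 * u)⌉₊, fun n hn l hl => ?_⟩
  have hn' : 160 * (1 + K) ≤ 4 * u * n := by
    have h : 160 * (1 + K) / (4 * u) ≤ (n : ℝ) := (Nat.le_ceil _).trans (Nat.cast_le.mpr hn)
    rw [div_le_iff₀ (by positivity)] at h
    linarith
  have hn0 : (0 : ℝ) ≤ n := Nat.cast_nonneg n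
  have big : ∀ C a b : ℝ, C ≤ 160 * (1 + K) → b + 4 * u ≤ a →
      C * Real.exp (b * n) ≤ Real.exp (a * n) := by
    intro C a b hC hab
    calc C * Real.exp (b * n) ≤ Real.exp (4 * u * n) * Real.exp (b * n) := by
          refine mul_le_mul_of_nonneg_right ?_ (Real.exp_pos _).le
          have := Real.add_one_le_exp (4 * u * n)
          linarith
      _ = Real.exp ((b + 4 * u) * n) := by
          rw [← Real.exp_add]
          congr 1
          ring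
      _ ≤ Real.exp (a * n) := Real.exp_le_exp.mpr (mul_le_mul_of_nonneg_right hab hn0)
  have mono : ∀ a b : ℝ, a ≤ b → Real.exp (a * n) ≤ Real.exp (b * n) := fun a b hab =>
    Real.exp_le_exp.mpr (mul_le_mul_of_nonneg_right hab hn0)
  have pe : ∀ (a : ℝ) (j : ℕ), Real.exp (a * n) ^ j = Real.exp (j * a * n) := by
    intro a j
    rw [← Real.exp_nat_mul]
    congr 1
    ring
  have ee : ∀ a b : ℝ, Real.exp (a * n) * Real.exp (b * n) = Real.exp ((a + b) * n) := by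
    intro a b
    rw [← Real.exp_add]
    congr 1
    ring
  have p1 : (2 : ℝ) ^ l ≤ Real.exp (u * n) := by
    have h := pw_z hl 1
    simpa using h
  have p2 : (2 : ℝ) ^ (2 * l) ≤ Real.exp (2 * u * n) := by
    have h := pw_z hl 2
    simpa using h
  have p3 : (2 : ℝ) ^ (3 * l) ≤ Real.exp (3 * u * n) := by
    have h := pw_z hl 3
    simpa using h
  have p4 : (2 : ℝ) ^ (4 * l) ≤ Real.exp (4 * u * n) := by
    have h := pw_z hl 4
    simpa using h
  refine ⟨?_, fun m hm α θ hα hα1 hθ hθ1 => ?_⟩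
  · calc 160 * 2 ^ (4 * l) * Real.exp (-(16 * u) * n) * K
        = (160 * K) * (2 ^ (4 * l) * Real.exp (-(16 * u) * n)) := by ring
      _ ≤ (160 * K) * (Real.exp (4 * u * n) * Real.exp (-(16 * u) * n)) :=
          mul_le_mul_of_nonneg_left (mul_le_mul_of_nonneg_right p4 (Real.exp_pos _).le)
            (by positivity)
      _ = (160 * K) * Real.exp ((4 * u + -(16 * u)) * n) := by rw [ee]
      _ ≤ Real.exp (-(16 * u / 2) * n) := big _ _ _ (by linarith) (by linarith)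
  have hθ2 : θ ≤ 1 / 2 := by
    have h := big 2 0 (-c0) (by linarith) (by linarith)
    rw [zero_mul, Real.exp_zero] at h
    linarith
  refine ⟨hθ2, ?_, ?_, Real.exp (-(4096 * u) * n), Real.exp (-(256 * u) * n), ?_⟩
  · have h := big 2 0 (u + -c0) (by linarith) (by linarith)
    rw [zero_mul, Real.exp_zero, ← ee] at h
    have h2 : 2 ^ l * α ≤ Real.exp (u * n) * Real.exp (-c0 * n) :=
      mul_le_mul p1 hα1 hα.le (Real.exp_pos _).le
    linarith
  · calc 40 * 2 ^ l * Real.exp (-(16 * u) * n) * α * 2 ^ (2 * l + 2)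
        = 160 * ((2 ^ (3 * l) * Real.exp (-(16 * u) * n)) * α) := by ring
      _ ≤ 160 * ((Real.exp (3 * u * n) * Real.exp (-(16 * u) * n)) * Real.exp (-c0 * n)) := by
          refine mul_le_mul_of_nonneg_left ?_ (by norm_num)
          exact mul_le_mul (mul_le_mul_of_nonneg_right p3 (Real.exp_pos _).le) hα1 hα.le
            (mul_nonneg (Real.exp_pos _).le (Real.exp_pos _).le)
      _ = 160 * Real.exp ((3 * u + -(16 * u) + -c0) * n) := by rw [ee, ee]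
      _ ≤ Real.exp (0 * n) := big _ _ _ (by linarith) (by linarith)
      _ = 1 := by rw [zero_mul, Real.exp_zero]
  refine ⟨hq1, ?_, Real.exp_pos _, ?_, ?_, ?_, Real.exp_pos _, ?_, ?_, Real.exp_pos _, ?_, ?_, ?_⟩
  · have hm1 : (2 : ℝ) ^ m ≤ Real.exp (Real.log 2 * n) := by
      calc (2 : ℝ) ^ m ≤ 2 ^ n := pow_le_pow_right₀ (by norm_num) hm
        _ = Real.exp (Real.log 2 * n) := by
            rw [mul_comm, Real.exp_nat_mul, Real.exp_log (by norm_num)]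
    calc 2 ^ m * α ^ q ≤ Real.exp (Real.log 2 * n) * Real.exp (-c0 * n) ^ q :=
          mul_le_mul hm1 (pow_le_pow_left₀ hα.le hα1 q) (by positivity) (Real.exp_pos _).le
      _ = Real.exp ((Real.log 2 + q * -c0) * n) := by rw [pe, ee]
      _ ≤ Real.exp (0 * n) := mono _ _ (by linarith)
      _ = 1 := by rw [zero_mul, Real.exp_zero]
  · have h := big 2 0 (-(4096 * u)) (by linarith) (by linarith)
    rw [zero_mul, Real.exp_zero] at h
    linarith
  · calc 16 * α ^ 3 ≤ 16 * Real.exp (-c0 * n) ^ 3 :=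
          mul_le_mul_of_nonneg_left (pow_le_pow_left₀ hα.le hα1 3) (by norm_num)
      _ = 16 * Real.exp ((3 : ℕ) * -c0 * n) := by rw [pe]
      _ ≤ Real.exp ((4 : ℕ) * -(4096 * u) * n) := by
          refine big _ _ _ (by linarith) ?_
          push_cast
          linarith
      _ = Real.exp (-(4096 * u) * n) ^ 4 := by rw [pe]
  · rw [pe]
    refine hθ1.trans (le_of_eq ?_)
    congr 1
    rw [hu]
    push_cast
    ring
  · have h := mono (-(256 * u)) 0 (by linarith)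
    rwa [zero_mul, Real.exp_zero] at h
  · rw [pe]
    refine big _ _ _ (by linarith) ?_
    push_cast
    linarith
  · have h := mono (-(16 * u)) 0 (by linarith)
    rwa [zero_mul, Real.exp_zero] at h
  · have h4 : (4 : ℝ) ^ l = 2 ^ (2 * l) := by
      rw [pow_mul]
      norm_num
    rw [pe, h4]
    calc 2 * 2 ^ (2 * l) * Real.exp (-(256 * u) * n)
        = 2 * (2 ^ (2 * l) * Real.exp (-(256 * u) * n)) := by ring
      _ ≤ 2 * (Real.exp (2 * u * n) * Real.exp (-(256 * u) * n)) :=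
          mul_le_mul_of_nonneg_left (mul_le_mul_of_nonneg_right p2 (Real.exp_pos _).le)
            (by norm_num)
      _ = 2 * Real.exp ((2 * u + -(256 * u)) * n) := by rw [ee]
      _ ≤ Real.exp ((8 : ℕ) * -(16 * u) * n) := by
          refine big _ _ _ (by linarith) ?_
          push_cast
          linarith
  · rw [pe]
    calc 2 ^ l * (2 * θ) ^ 2 = 4 * (2 ^ l * θ ^ 2) := by ring
      _ ≤ 4 * (Real.exp (u * n) * Real.exp (-c0 * n) ^ 2) := by
          refine mul_le_mul_of_nonneg_left ?_ (by norm_num)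
          exact mul_le_mul p1 (pow_le_pow_left₀ hθ hθ1 2) (by positivity) (Real.exp_pos _).le
      _ = 4 * Real.exp ((u + (2 : ℕ) * -c0) * n) := by rw [pe, ee]
      _ ≤ Real.exp ((4 : ℕ) * -(16 * u) * n) := by
          refine big _ _ _ (by linarith) ?_
          push_cast
          linarith

end Pool.Agent.Lib.MP_0430e4_lc.Llv
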