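import Pool.Agent.Lib.MP_0430e4_lc.Llv.NumA
import Pool.Agent.Lib.MP_0430e4_lc.Llv.NumB

/-!
# Num2: the parameters together (section 6)

PROOF. `G = log 2 - binEntropy δ > 0` (`Lgv.entropy_gap`), `K = (1 - δ) / δ`, `bet ≤ K exp (-G n)` (`Lgv.bet_le`), `0 < bet`. `numA` gives `R0, c0`, `numB` for `c0, K`
gives `q, c, c3`; the constant of the theorem is `min c R0`, `γ = c3 / (2 log 2)`, `ζ = exp (-c3 n)`, `α = 2^(k0 + l) bet`, `θ = tht ..` (`0 ≤ tht`: all terms are nonnegative,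
`kap`, `kap1 ≥ 0`); `m ≤ n` from `m + k0 = n`. Last inequality: the right side is `1 / (160 * 2^(4l) ζ bet)` (`field_simp`, `2^(k0+l) = 2^k0 2^l`), and
`160 * 2^(4l) ζ bet ≤ 160 * 2^(4l) ζ K exp (-G n) ≤ exp (-(c3/2) n - G n)`; the left side is `exp (n (G + c3 / 2))` (`Real.rpow_def_of_pos`).
-/

set_option autoImplicit false

namespace Pool.Agent.Lib.MP_0430e4_lc.Llv

open Finset
open Pool.Agent.Lib.MP_0430e4_lc.Lin (W wt chw sg)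
open Pool.Agent.Lib.MP_0430e4_lc.Lgv (ft bl cmb rk gg P wd Pz gc cht Gh bet Lo)

theorem params {δ : ℝ} (h0 : 0 < δ) (h1 : δ < 1 / 2) : ∃ γ : ℝ, 0 < γ ∧ ∃ c : ℝ, 0 < c ∧
    ∃ n0 : ℕ, ∀ n ≥ n0, ∀ l : ℕ, 1 ≤ l → (l : ℝ) ≤ c * n →
    ∃ (k0 m kw d1 q : ℕ) (η ϑ ζ : ℝ), m + k0 = n ∧ 1 ≤ d1 ∧ d1 ≤ ⌈δ * n⌉₊ ∧
      2 ^ k0 * bet δ n ⌈δ * n⌉₊ + (Lo n kw).card / 2 ^ k0 < 1 ∧
      tht δ ⌈δ * n⌉₊ d1 (k0 + l) kw ≤ 1 / 2 ∧
      Par m l (2 ^ (k0 + l) * bet δ n ⌈δ * n⌉₊) (tht δ ⌈δ * n⌉₊ d1 (k0 + l) kw) η ϑ ζ q ∧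
      2 ^ l * (2 ^ (k0 + l) * bet δ n ⌈δ * n⌉₊) ≤ 1 / 2 ∧
      (40 * 2 ^ l * ζ * (2 ^ (k0 + l) * bet δ n ⌈δ * n⌉₊)) * 2 ^ (2 * l + 2) ≤ 1 ∧
      (2 : ℝ) ^ (n * (1 - Real.binEntropy δ / Real.log 2 + γ)) ≤
        2 ^ k0 * ((40 * 2 ^ l * ζ * (2 ^ (k0 + l) * bet δ n ⌈δ * n⌉₊))⁻¹ / 2 ^ (2 * l + 2)) := by
  have hd : 0 < 1 - δ := by linarith
  have hK : 0 < (1 - δ) / δ := by positivity
  have hL0 : 0 < Real.log 2 := Real.log_pos (by norm_num)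
  obtain ⟨R0, c0, hR0, hc0, n1, hA⟩ := numA h0 h1
  obtain ⟨q, c, c3, hc, hc3, n2, hB⟩ := numB hc0 hK
  refine ⟨c3 / (2 * Real.log 2), by positivity, min c R0, lt_min hc hR0, max n1 n2,
    fun n hn l hl1 hl => ?_⟩
  have hn1 : n1 ≤ n := (le_max_left _ _).trans hn
  have hn2 : n2 ≤ n := (le_max_right _ _).trans hn
  have hn0 : (0 : ℝ) ≤ n := Nat.cast_nonneg n
  have hlc : (l : ℝ) ≤ c * n := hl.trans (mul_le_mul_of_nonneg_right (min_le_left _ _) hn0)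
  have hlR : (l : ℝ) ≤ R0 * n := hl.trans (mul_le_mul_of_nonneg_right (min_le_right _ _) hn0)
  obtain ⟨k0, m, kw, d1, hm, hd1, hd1', hsum, hmain⟩ := hA n hn1
  obtain ⟨hα, hθ⟩ := hmain l hlR
  obtain ⟨hz, hB2⟩ := hB n hn2 l hlc
  have hbet0 : 0 < bet δ n ⌈δ * n⌉₊ := by
    unfold bet
    positivity
  have hα0 : 0 < 2 ^ (k0 + l) * bet δ n ⌈δ * n⌉₊ := by positivity
  have hθ0 : 0 ≤ tht δ ⌈δ * n⌉₊ d1 (k0 + l) kw := by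
    unfold tht kap kap1
    positivity
  obtain ⟨hθ2, hα2, h40, η, ϑ, hPar⟩ := hB2 m (by omega) _ _ hα0 hα hθ0 hθ
  refine ⟨k0, m, kw, d1, q, η, ϑ, Real.exp (-c3 * n), hm, hd1, hd1', hsum, hθ2, hPar, hα2,
    h40, ?_⟩
  have hbn := Lgv.bet_le h0 h1 n
  have hζ : 0 < Real.exp (-c3 * n) := Real.exp_pos _
  have hX : 2 ^ k0 * ((40 * 2 ^ l * Real.exp (-c3 * n) *
      (2 ^ (k0 + l) * bet δ n ⌈δ * n⌉₊))⁻¹ / 2 ^ (2 * l + 2)) =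
      (160 * 2 ^ (4 * l) * Real.exp (-c3 * n) * bet δ n ⌈δ * n⌉₊)⁻¹ := by
    generalize Real.exp (-c3 * n) = ζ at *
    generalize bet δ n ⌈δ * n⌉₊ = b at *
    apply eq_inv_of_mul_eq_one_left
    field_simp
    ring
  rw [hX]
  have hXle : 160 * 2 ^ (4 * l) * Real.exp (-c3 * n) * bet δ n ⌈δ * n⌉₊ ≤
      Real.exp (-(c3 / 2) * n + -(Real.log 2 - Real.binEntropy δ) * n) := by
    calc 160 * 2 ^ (4 * l) * Real.exp (-c3 * n) * bet δ n ⌈δ * n⌉₊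
        ≤ 160 * 2 ^ (4 * l) * Real.exp (-c3 * n) *
          ((1 - δ) / δ * Real.exp (-(Real.log 2 - Real.binEntropy δ) * n)) :=
          mul_le_mul_of_nonneg_left hbn (by positivity)
      _ = (160 * 2 ^ (4 * l) * Real.exp (-c3 * n) * ((1 - δ) / δ)) *
          Real.exp (-(Real.log 2 - Real.binEntropy δ) * n) := by ring
      _ ≤ Real.exp (-(c3 / 2) * n) * Real.exp (-(Real.log 2 - Real.binEntropy δ) * n) :=
          mul_le_mul_of_nonneg_right hz (Real.exp_pos _).le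
      _ = Real.exp (-(c3 / 2) * n + -(Real.log 2 - Real.binEntropy δ) * n) :=
          (Real.exp_add _ _).symm
  have hXpos : 0 < 160 * 2 ^ (4 * l) * Real.exp (-c3 * n) * bet δ n ⌈δ * n⌉₊ := by positivity
  have hlhs : (2 : ℝ) ^ (n * (1 - Real.binEntropy δ / Real.log 2 + c3 / (2 * Real.log 2))) =
      (Real.exp (-(c3 / 2) * n + -(Real.log 2 - Real.binEntropy δ) * n))⁻¹ := by
    rw [Real.rpow_def_of_pos (by norm_num), ← Real.exp_neg]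
    congr 1
    field_simp
    ring
  rw [hlhs]
  exact inv_anti₀ hXpos hXle

end Pool.Agent.Lib.MP_0430e4_lc.Llv
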