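import Pool.Agent.Lib.MP_0430e4_lc.Llv.Defs

/-!
# Lin0: linear algebra of independent sets of coefficient vectors

PROOF. Mathlib: `LinearIndepOn`, `linearIndepOn_insert`, `LinearIndepOn.union_of_disjoint`-like lemmas, `exists_linearIndepOn_id_extension`,
`finrank_span_finset_eq_card`, `LinearIndepOn.mono`, `span_mono`. `basis_sub`: a maximal independent subset of `G` (or `exists_linearIndepOn_id_extension` from `∅`).
`ind_extend_in`: an independent set `C ⊆ G` extends to an independent `C' ⊆ G` with the same span as `G`. `ind_extend`: apply this with `G = C ∪ {unit vectors}`, whose span is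
everything; `C' \ C` consists of unit vectors; `|C'| = k`. `card_le_finrank`: an independent set inside `V` has at most `finrank V` elements.
`ev_span`: a vector supported in `I` is the sum of the unit vectors of its support, so it is in the span of the `ev i`, `i ∈ I`; and conversely.
-/

set_option autoImplicit false

namespace Pool.Agent.Lib.MP_0430e4_lc.Llv

open Finset
open Pool.Agent.Lib.MP_0430e4_lc.Lin (W wt chw sg)
open Pool.Agent.Lib.MP_0430e4_lc.Lgv (ft bl cmb rk gg P wd Pz gc cht Gh)

variable {k : ℕ}

theorem ev_inj : Function.Injective (ev : Fin k → Cv k) := by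
  intro i j h
  by_contra hij
  have h1 := congrFun h i
  unfold ev at h1
  rw [Pi.single_eq_same, Pi.single_eq_of_ne hij] at h1
  exact one_ne_zero h1

theorem ind_empty : Ind (∅ : Finset (Cv k)) := by
  unfold Ind
  rw [coe_empty]
  exact linearIndepOn_empty _ _

theorem ind_mono {C C' : Finset (Cv k)} (h : C ⊆ C') (hC : Ind C') : Ind C :=
  LinearIndepOn.mono hC (coe_subset.2 h)

theorem ind_insert {C : Finset (Cv k)} {v : Cv k} (hC : Ind C) (hv : v ∉ spn C) :
    v ∉ C ∧ Ind (insert v C) := by
  refine ⟨fun h => hv (Submodule.subset_span (mem_coe.2 h)), ?_⟩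
  unfold Ind
  rw [coe_insert]
  exact LinearIndepOn.id_insert hC hv

theorem ind_ne_zero {C : Finset (Cv k)} (hC : Ind C) : (0 : Cv k) ∉ C := by
  intro h
  exact LinearIndepOn.zero_notMem_image hC ⟨0, mem_coe.2 h, rfl⟩

theorem ind_notMem {C : Finset (Cv k)} {v : Cv k} (hv : v ∉ C) (hC : Ind (insert v C)) :
    v ∉ spn C := by
  unfold Ind at hC
  rw [coe_insert, linearIndepOn_id_insert (by rwa [mem_coe])] at hC
  exact hC.2

theorem ind_union {C C' : Finset (Cv k)} (hC : Ind C) (hC' : Ind C') (h : Disjoint (spn C) (spn C')) :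
    Disjoint C C' ∧ Ind (C ∪ C') := by
  constructor
  · rw [disjoint_left]
    intro v hv hv'
    have h1 : v ∈ (⊥ : Submodule (ZMod 2) (Cv k)) := by
      rw [← h.eq_bot]
      exact ⟨Submodule.subset_span (mem_coe.2 hv), Submodule.subset_span (mem_coe.2 hv')⟩
    rw [Submodule.mem_bot] at h1
    rw [h1] at hv
    exact ind_ne_zero hC hv
  · unfold Ind
    rw [coe_union]
    exact LinearIndepOn.id_union hC hC' h

theorem ind_disj {C C' : Finset (Cv k)} (hd : Disjoint C C') (hC : Ind (C ∪ C')) :
    Disjoint (spn C) (spn C') := by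
  unfold Ind at hC
  rw [coe_union, linearIndepOn_id_union_iff (disjoint_coe.2 hd)] at hC
  exact hC.2.2

theorem finrank_spn {C : Finset (Cv k)} (hC : Ind C) : Module.finrank (ZMod 2) (spn C) = C.card :=
  finrank_span_finset_eq_card hC

theorem card_le_finrank {C : Finset (Cv k)} (hC : Ind C) {V : Submodule (ZMod 2) (Cv k)}
    (h : ∀ v ∈ C, v ∈ V) : C.card ≤ Module.finrank (ZMod 2) V := by
  rw [← finrank_spn hC]
  exact Submodule.finrank_mono (Submodule.span_le.2 fun v hv => h v (mem_coe.1 hv))

private theorem Lin0_dim : Module.finrank (ZMod 2) (Cv k) = k := by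
  unfold Cv
  rw [Module.finrank_fin_fun]

theorem card_le_k {C : Finset (Cv k)} (hC : Ind C) : C.card ≤ k := by
  have h1 := card_le_finrank hC (V := ⊤) fun v _ => Submodule.mem_top
  rw [finrank_top, Lin0_dim] at h1
  exact h1

theorem spn_top {C : Finset (Cv k)} (hC : Ind C) (hc : C.card = k) : spn C = ⊤ := by
  apply Submodule.eq_top_of_finrank_eq
  rw [finrank_spn hC, hc, Lin0_dim]

theorem ind_extend_in {C G : Finset (Cv k)} (hC : Ind C) (h : C ⊆ G) :
    ∃ C', C ⊆ C' ∧ C' ⊆ G ∧ Ind C' ∧ spn C' = spn G := by
  classical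
  obtain ⟨b, hb1, hb2, hb3, hb4⟩ := exists_linearIndepOn_id_extension (K := ZMod 2) hC
    (coe_subset.2 h)
  have hbc : ((G.filter fun v => v ∈ b : Finset (Cv k)) : Set (Cv k)) = b := by
    ext v
    rw [mem_coe, mem_filter]
    exact ⟨fun hv => hv.2, fun hv => ⟨mem_coe.1 (hb1 hv), hv⟩⟩
  refine ⟨G.filter fun v => v ∈ b, ?_, filter_subset _ _, ?_, ?_⟩
  · intro v hv
    rw [mem_filter]
    exact ⟨h hv, hb2 (mem_coe.2 hv)⟩
  · unfold Ind
    rw [hbc]
    exact hb4
  · unfold spn
    rw [hbc]
    refine le_antisymm (Submodule.span_mono hb1) (Submodule.span_le.2 hb3)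

theorem basis_sub (G : Finset (Cv k)) : ∃ C ⊆ G, Ind C ∧ spn C = spn G := by
  obtain ⟨C, _, h2, h3, h4⟩ := ind_extend_in ind_empty (empty_subset G)
  exact ⟨C, h2, h3, h4⟩

theorem mem_spn_ev {I : Finset (Fin k)} {v : Cv k} : v ∈ spn (I.image ev) ↔ SuppIn I v := by
  constructor
  · intro hv
    unfold spn at hv
    induction hv using Submodule.span_induction with
    | mem x hx =>
      rw [mem_coe, mem_image] at hx
      obtain ⟨i, hi, rfl⟩ := hx
      intro j hj
      by_contra hjI
      apply hj
      unfold ev
      rw [Pi.single_eq_of_ne]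
      rintro rfl
      exact hjI hi
    | zero =>
      intro j hj
      exact absurd rfl hj
    | add x y _ _ hx hy =>
      intro j hj
      by_contra hjI
      apply hj
      have h1 : x j = 0 := by
        by_contra h
        exact hjI (hx j h)
      have h2 : y j = 0 := by
        by_contra h
        exact hjI (hy j h)
      rw [Pi.add_apply, h1, h2, add_zero]
    | smul a x _ hx =>
      intro j hj
      by_contra hjI
      apply hj
      have h1 : x j = 0 := by
        by_contra h
        exact hjI (hx j h)
      rw [Pi.smul_apply, h1, smul_zero]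
  · intro hv
    have h1 : v = ∑ i ∈ I, v i • ev i := by
      funext j
      rw [Finset.sum_apply]
      by_cases hj : j ∈ I
      · rw [Finset.sum_eq_single_of_mem j hj]
        · unfold ev
          rw [Pi.smul_apply, Pi.single_eq_same, smul_eq_mul, mul_one]
        · intro i _ hij
          unfold ev
          rw [Pi.smul_apply, Pi.single_eq_of_ne (Ne.symm hij), smul_zero]
      · rw [Finset.sum_eq_zero]
        · by_contra h
          exact hj (hv j h)
        · intro i hi
          unfold ev
          rw [Pi.smul_apply, Pi.single_eq_of_ne, smul_zero]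
          rintro rfl
          exact hj hi
    rw [h1]
    refine Submodule.sum_mem _ fun i hi => Submodule.smul_mem _ _ (Submodule.subset_span ?_)
    rw [mem_coe]
    exact mem_image_of_mem _ hi

theorem ind_extend {C : Finset (Cv k)} (hC : Ind C) : ∃ J : Finset (Fin k),
    Disjoint C (J.image ev) ∧ Ind (C ∪ J.image ev) ∧ C.card + J.card = k := by
  classical
  obtain ⟨C', h1, h2, h3, h4⟩ := ind_extend_in hC (subset_union_left (s₂ := univ.image ev))
  have htop : spn (C ∪ univ.image ev) = ⊤ := by
    rw [eq_top_iff]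
    intro v _
    have h5 : v ∈ spn ((univ : Finset (Fin k)).image ev) := mem_spn_ev.2 fun i _ => mem_univ i
    exact Submodule.span_mono (coe_subset.2 subset_union_right) h5
  have himg : (univ.filter fun i => ev i ∈ C' \ C).image ev = C' \ C := by
    ext v
    rw [mem_image]
    constructor
    · rintro ⟨i, hi, rfl⟩
      exact (mem_filter.1 hi).2
    · intro hv
      have h5 := mem_sdiff.1 hv
      rcases mem_union.1 (h2 h5.1) with h6 | h6
      · exact absurd h6 h5.2
      · obtain ⟨i, _, rfl⟩ := mem_image.1 h6
        exact ⟨i, mem_filter.2 ⟨mem_univ i, hv⟩, rfl⟩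
  refine ⟨univ.filter fun i => ev i ∈ C' \ C, ?_, ?_, ?_⟩
  · rw [himg]
    exact disjoint_sdiff
  · rw [himg, union_sdiff_of_subset h1]
    exact h3
  · have h5 : (univ.filter fun i => ev i ∈ C' \ C).card = (C' \ C).card := by
      rw [← himg, card_image_of_injective _ ev_inj, himg]
    have h6 : C'.card = k := by
      rw [← finrank_spn h3, h4, htop, finrank_top, Lin0_dim]
    have h7 := card_sdiff_add_card_eq_card h1
    rw [h5]
    omega

end Pool.Agent.Lib.MP_0430e4_lc.Llv
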