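import Pool.Agent.Lib.MP_0430e4_lc.Llv.Step
import Pool.Agent.Lib.MP_0430e4_lc.Llv.Lin0

/-!
# Prod: independent combinations are independent

PROOF. `prod_av`: induction on `C` (Finset.induction_on): for `insert v C'` independent, `v ∉ spn C'` (`ind_notMem`), apply `step` with `V = spn C'`, `v0 = v`,
`H x Z = h v x * ∏ w ∈ C', h w (cmb Z w)` (depends only on `spn C'`); `av1 (fun x => h v x * c) = av1 (h v) * c`. The empty product has average `1`
(there are `2 ^ (m k)` tuples). The others are trivial (finite sums divided by a positive number; `|chw| = 1`, `Lin.abs_chw`).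
-/

set_option autoImplicit false

namespace Pool.Agent.Lib.MP_0430e4_lc.Llv

open Finset
open Pool.Agent.Lib.MP_0430e4_lc.Lin (W wt chw sg)
open Pool.Agent.Lib.MP_0430e4_lc.Lgv (ft bl cmb rk gg P wd Pz gc cht Gh)

variable {m k : ℕ}

private theorem Prod_const (c : ℝ) : Av (fun _ : Fin k → W m => c) = c := by
  unfold Av
  rw [sum_const, card_univ, nsmul_eq_mul, Fintype.card_fun, Fintype.card_fun, ZMod.card,
    Fintype.card_fin, Fintype.card_fin, ← pow_mul]
  push_cast
  field_simp

private theorem Prod_mulr (c : ℝ) (g : (Fin k → W m) → ℝ) : Av (fun Z => c * g Z) = c * Av g := by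
  unfold Av
  rw [← mul_sum, mul_div_assoc]

theorem prod_av {C : Finset (Cv k)} (hC : Ind C) (h : Cv k → W m → ℝ) :
    Av (fun Z : Fin k → W m => ∏ v ∈ C, h v (cmb Z v)) = ∏ v ∈ C, av1 (h v) := by
  classical
  induction C using Finset.induction_on with
  | empty =>
    rw [prod_empty]
    have h1 : (fun Z : Fin k → W m => ∏ v ∈ (∅ : Finset (Cv k)), h v (cmb Z v))
        = fun _ => (1 : ℝ) := by
      funext Z
      exact prod_empty
    rw [h1, Prod_const]
  | insert v C hv ih =>
    have hC' : Ind C := ind_mono (subset_insert v C) hC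
    have hn : v ∉ spn C := ind_notMem hv hC
    rw [prod_insert hv, ← ih hC']
    have h1 := step (m := m) (V := spn C) (v0 := v) hn
      (fun (x : W m) (Z : Fin k → W m) => h v x * ∏ w ∈ C, h w (cmb Z w)) (by
        intro x Z Z' hZ
        dsimp only
        congr 1
        refine prod_congr rfl fun w hw => ?_
        rw [hZ w (Submodule.subset_span (Finset.mem_coe.mpr hw))])
    have h2 : (fun Z : Fin k → W m => ∏ w ∈ insert v C, h w (cmb Z w))
        = fun Z => h v (cmb Z v) * ∏ w ∈ C, h w (cmb Z w) := by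
      funext Z
      exact prod_insert hv
    rw [h2, h1, ← Prod_mulr]
    congr 1
    funext Z
    unfold av1
    rw [← sum_mul]
    ring

theorem cmb_ev (Z : Fin k → W m) (i : Fin k) : cmb Z (ev i) = Z i := by
  unfold cmb ev
  rw [sum_eq_single i]
  · rw [Pi.single_eq_same, one_smul]
  · intro j _ hj
    rw [Pi.single_eq_of_ne hj, zero_smul]
  · intro h
    exact absurd (mem_univ i) h

theorem cmb_add (Z : Fin k → W m) (u v : Cv k) : cmb Z (u + v) = cmb Z u + cmb Z v := by
  unfold cmb
  rw [← sum_add_distrib]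
  exact sum_congr rfl fun i _ => by rw [Pi.add_apply, add_smul]

theorem av_mono {g h : (Fin k → W m) → ℝ} (H : ∀ Z, g Z ≤ h Z) : Av g ≤ Av h := by
  unfold Av
  exact div_le_div_of_nonneg_right (sum_le_sum fun Z _ => H Z) (by positivity)

theorem av_nonneg {g : (Fin k → W m) → ℝ} (H : ∀ Z, 0 ≤ g Z) : 0 ≤ Av g := by
  unfold Av
  exact div_nonneg (sum_nonneg fun Z _ => H Z) (by positivity)

theorem av1_mono {g h : W m → ℝ} (H : ∀ x, g x ≤ h x) : av1 g ≤ av1 h := by
  unfold av1
  exact div_le_div_of_nonneg_right (sum_le_sum fun Z _ => H Z) (by positivity)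

theorem av1_nonneg {g : W m → ℝ} (H : ∀ x, 0 ≤ g x) : 0 ≤ av1 g := by
  unfold av1
  exact div_nonneg (sum_nonneg fun Z _ => H Z) (by positivity)

theorem av_add (g h : (Fin k → W m) → ℝ) : Av (fun Z => g Z + h Z) = Av g + Av h := by
  unfold Av
  rw [sum_add_distrib, add_div]

theorem av_sum {ι : Type} (s : Finset ι) (g : ι → (Fin k → W m) → ℝ) :
    Av (fun Z => ∑ i ∈ s, g i Z) = ∑ i ∈ s, Av (g i) := by
  unfold Av
  rw [sum_comm, sum_div]

theorem av_list {ι : Type} (L : List ι) (g : ι → (Fin k → W m) → ℝ) :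
    Av (fun Z => (L.map fun e => g e Z).sum) = (L.map fun e => Av (g e)).sum := by
  induction L with
  | nil =>
    simp only [List.map_nil, List.sum_nil]
    exact Prod_const 0
  | cons a L ih =>
    simp only [List.map_cons, List.sum_cons]
    rw [av_add, ih]

theorem av_mul_left (c : ℝ) (g : (Fin k → W m) → ℝ) : Av (fun Z => c * g Z) = c * Av g :=
  Prod_mulr c g

theorem abs_cht (Ξ Z : Fin k → W m) : |cht Ξ Z| = 1 := by
  unfold cht
  rw [abs_prod]
  exact prod_eq_one fun i _ => Lin.abs_chw _ _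

/-- `|E g χ| ≤ E h` if `|g| ≤ h`. -/
theorem abs_av_cht_le {g h : (Fin k → W m) → ℝ} (H : ∀ Z, |g Z| ≤ h Z) (Ξ : Fin k → W m) :
    |Av (fun Z => g Z * cht Ξ Z)| ≤ Av h := by
  unfold Av
  rw [abs_div, abs_of_pos (show (0 : ℝ) < 2 ^ (m * k) by positivity)]
  refine div_le_div_of_nonneg_right ((abs_sum_le_sum_abs _ _).trans (sum_le_sum fun Z _ => ?_))
    (by positivity)
  rw [abs_mul, abs_cht, mul_one]
  exact H Z

end Pool.Agent.Lib.MP_0430e4_lc.Llv
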