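import Pool.Agent.Lib.MP_0430e4_lc.Llv.DefsB
import Pool.Agent.Lib.MP_0430e4_lc.Lgv.FINB
import Pool.Agent.Lib.MP_0430e4_lc.Llv.Prod

/-!
# Pix: the code `K0` (section 5)

PROOF. Sum over all `A : Fin k0 → W n` of `#{a ≠ 0 : wt (cmb A a) < d} + #{ξ ∈ Lo n kw, ξ ≠ 0 : chw ξ (A i) = 1 for all i}`. For fixed `a ≠ 0` the word `cmb A a` is uniform
(`(2^n)^(k0-1)` tuples for each value): the first part is at most `(2^n)^k0 * 2^k0 * bet` (`Lgv.ball_le`). For fixed `ξ ≠ 0` half of the words `x` have `chw ξ x = 1`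
(`∑ x, chw ξ x = 0`), so `((2^n)/2)^k0` tuples: the second part is at most `(2^n)^k0 * |Lo n kw| / 2^k0`. By `hsum` some `A` has both counts `0`
(a sum of natural numbers smaller than the number of the tuples). `A` is independent (`cmb A a = 0` has weight `0 < d`). Let `K0 = span A`, of dimension `k0`; the quotient
`W n ⧸ K0` has dimension `n - k0 = m`, so there is an isomorphism with `W m` (`LinearEquiv.ofFinrankEq`), `π` = composition with `K0.mkQ`. `π x = 0` iff `x ∈ K0` iff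
`x = cmb A a` for some `a`. If `chw ξ z = 1` on the kernel, `ξ ≠ 0`, then `ξ ∉ Lo n kw`: `kw < wt ξ`, `wt ξ + kw < n`.
-/

set_option autoImplicit false

namespace Pool.Agent.Lib.MP_0430e4_lc.Llv

open Finset
open Pool.Agent.Lib.MP_0430e4_lc.Lin (W wt chw sg)
open Pool.Agent.Lib.MP_0430e4_lc.Lgv (ft bl cmb rk gg P wd Pz gc cht Gh bet Lo)

variable {m n : ℕ}

private theorem pix_ind {k0 : ℕ} {a : Fin k0 → ZMod 2} (ha : a ≠ 0) : Ind ({a} : Finset (Cv k0)) := by
  have h := (ind_insert (ind_empty (k := k0)) (v := a) (by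
    rw [spn, coe_empty, Submodule.span_empty, Submodule.mem_bot]
    exact ha)).2
  rwa [insert_empty_eq] at h

private theorem pix_av {k0 : ℕ} (d : ℕ) {a : Fin k0 → ZMod 2} (ha : a ≠ 0) :
    Av (fun Z : Fin k0 → W n => bl d (cmb Z a)) = av1 (bl d : W n → ℝ) := by
  have h := prod_av (m := n) (pix_ind ha) (fun _ => (bl d : W n → ℝ))
  rw [prod_singleton] at h
  rw [← h]
  congr 1
  funext Z
  rw [prod_singleton]

private theorem pix_avc {k0 : ℕ} {ξ : W n} (hξ : ξ ≠ 0) :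
    Av (fun Z : Fin k0 → W n => ∏ i, (1 + chw ξ (Z i)) / 2) = 1 / 2 ^ k0 := by
  unfold Av
  rw [← Fintype.sum_pow (fun x : W n => (1 + chw ξ x) / 2) k0]
  have h1 : ∑ x : W n, (1 + chw ξ x) / 2 = 2 ^ n / 2 := by
    rw [← sum_div, sum_add_distrib, sum_const, card_univ, Fintype.card_fun, ZMod.card,
      Fintype.card_fin]
    have h2 : ∑ x : W n, chw ξ x = 0 := by
      rw [sum_congr rfl fun x _ => Lin.chw_comm ξ x, Lin.sum_chw_left, if_neg hξ]
    rw [h2]
    simp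
  rw [h1, div_pow, ← pow_mul]
  field_simp

theorem exists_tuple {δ : ℝ} (h0 : 0 < δ) (h1 : δ < 1 / 2) {k0 d kw : ℕ}
    (hsum : 2 ^ k0 * bet δ n d + (Lo n kw).card / 2 ^ k0 < 1) :
    ∃ A : Fin k0 → W n, (∀ a : Fin k0 → ZMod 2, a ≠ 0 → d ≤ wt (cmb A a)) ∧
      ∀ ξ ∈ Lo n kw, ξ ≠ 0 → ∃ i, chw ξ (A i) ≠ 1 := by
  classical
  obtain ⟨G, hG⟩ : ∃ G : (Fin k0 → W n) → ℝ, ∀ Z, G Z =
      (∑ a ∈ univ.filter (fun a : Fin k0 → ZMod 2 => a ≠ 0), bl d (cmb Z a)) +
      ∑ ξ ∈ (Lo n kw).filter (fun ξ => ξ ≠ 0), ∏ i, (1 + chw ξ (Z i)) / 2 := ⟨_, fun _ => rfl⟩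
  have hbl : ∀ x : W n, 0 ≤ (bl d x : ℝ) := by
    intro x
    unfold bl
    split_ifs
    · exact zero_le_one
    · exact le_rfl
  have hch : ∀ (ξ x : W n), 0 ≤ (1 + chw ξ x) / 2 := by
    intro ξ x
    have h := Lin.abs_chw ξ x
    have h2 := neg_abs_le (chw ξ x)
    linarith
  have hav : Av G < 1 := by
    have e1 : Av G = (∑ a ∈ univ.filter (fun a : Fin k0 → ZMod 2 => a ≠ 0),
        av1 (bl d : W n → ℝ)) +
        ∑ ξ ∈ (Lo n kw).filter (fun ξ => ξ ≠ 0), (1 / 2 ^ k0 : ℝ) := by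
      rw [show G = fun Z => (∑ a ∈ univ.filter (fun a : Fin k0 → ZMod 2 => a ≠ 0),
        bl d (cmb Z a)) + ∑ ξ ∈ (Lo n kw).filter (fun ξ => ξ ≠ 0), ∏ i, (1 + chw ξ (Z i)) / 2
        from funext hG, av_add, av_sum, av_sum]
      congr 1
      · exact sum_congr rfl fun a ha => pix_av d (mem_filter.mp ha).2
      · exact sum_congr rfl fun ξ hξ => pix_avc (mem_filter.mp hξ).2
    rw [e1, sum_const, sum_const, nsmul_eq_mul, nsmul_eq_mul]
    have e2 : av1 (bl d : W n → ℝ) ≤ bet δ n d := Lgv.ball_le h0 h1 n d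
    have e3 : 0 ≤ av1 (bl d : W n → ℝ) := av1_nonneg hbl
    have e4 : (((univ.filter (fun a : Fin k0 → ZMod 2 => a ≠ 0)).card : ℕ) : ℝ) ≤ 2 ^ k0 := by
      have h := card_filter_le (univ : Finset (Fin k0 → ZMod 2)) (fun a => a ≠ 0)
      rw [card_univ, Fintype.card_fun, ZMod.card, Fintype.card_fin] at h
      exact_mod_cast h
    have e5 : ((((Lo n kw).filter (fun ξ => ξ ≠ 0)).card : ℕ) : ℝ) ≤ (Lo n kw).card := by
      exact_mod_cast card_filter_le _ _
    have e6 : (((univ.filter (fun a : Fin k0 → ZMod 2 => a ≠ 0)).card : ℕ) : ℝ) *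
        av1 (bl d : W n → ℝ) ≤ 2 ^ k0 * bet δ n d :=
      mul_le_mul e4 e2 e3 (by positivity)
    have e7 : ((((Lo n kw).filter (fun ξ => ξ ≠ 0)).card : ℕ) : ℝ) * (1 / 2 ^ k0) ≤
        (Lo n kw).card / 2 ^ k0 := by
      rw [mul_one_div]
      exact div_le_div_of_nonneg_right e5 (by positivity)
    linarith
  obtain ⟨A, hA⟩ : ∃ A, G A < 1 := by
    by_contra hcon
    push Not at hcon
    have h2 : Av (fun _ : Fin k0 → W n => (1 : ℝ)) ≤ Av G := av_mono hcon
    have h3 : Av (fun _ : Fin k0 → W n => (1 : ℝ)) = 1 := by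
      unfold Av
      rw [sum_const, card_univ, Fintype.card_fun, Fintype.card_fun, ZMod.card, Fintype.card_fin,
        Fintype.card_fin, nsmul_eq_mul, mul_one, ← pow_mul]
      push_cast
      exact div_self (by positivity)
    rw [h3] at h2
    linarith
  rw [hG] at hA
  have hs1 : 0 ≤ ∑ a ∈ univ.filter (fun a : Fin k0 → ZMod 2 => a ≠ 0), bl d (cmb A a) :=
    sum_nonneg fun a _ => hbl _
  have hs2 : 0 ≤ ∑ ξ ∈ (Lo n kw).filter (fun ξ => ξ ≠ 0), ∏ i, (1 + chw ξ (A i)) / 2 :=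
    sum_nonneg fun ξ _ => prod_nonneg fun i _ => hch _ _
  refine ⟨A, fun a ha => ?_, fun ξ hξ hξ0 => ?_⟩
  · by_contra hcon
    have hm : a ∈ univ.filter (fun a : Fin k0 → ZMod 2 => a ≠ 0) :=
      mem_filter.mpr ⟨mem_univ a, ha⟩
    have h2 := single_le_sum (f := fun a => bl d (cmb A a)) (fun a _ => hbl _) hm
    have h3 : bl d (cmb A a) = 1 := by
      unfold bl
      rw [if_pos (not_le.mp hcon)]
    rw [h3] at h2
    linarith
  · by_contra hcon
    push Not at hcon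
    have hm : ξ ∈ (Lo n kw).filter (fun ξ => ξ ≠ 0) := mem_filter.mpr ⟨hξ, hξ0⟩
    have h2 := single_le_sum (f := fun ξ => ∏ i, (1 + chw ξ (A i)) / 2)
      (fun ξ _ => prod_nonneg fun i _ => hch _ _) hm
    have h3 : ∏ i, (1 + chw ξ (A i)) / 2 = 1 := by
      refine prod_eq_one fun i _ => ?_
      rw [hcon i]
      norm_num
    rw [h3] at h2
    linarith

theorem exists_pi {δ : ℝ} (h0 : 0 < δ) (h1 : δ < 1 / 2) {k0 d kw : ℕ} (hm : m + k0 = n)
    (hd : 1 ≤ d) (hsum : 2 ^ k0 * bet δ n d + (Lo n kw).card / 2 ^ k0 < 1) :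
    ∃ π : W n →ₗ[ZMod 2] W m, Function.Surjective π ∧
      (∀ x, π x = 0 → x ≠ 0 → d ≤ wt x) ∧
      ∀ ξ : W n, ξ ≠ 0 → (∀ z, π z = 0 → chw ξ z = 1) → kw ≤ wt ξ ∧ wt ξ + kw ≤ n := by
  classical
  obtain ⟨A, hA1, hA2⟩ := exists_tuple h0 h1 hsum
  let Lm : (Fin k0 → ZMod 2) →ₗ[ZMod 2] W n :=
    { toFun := fun a => cmb A a
      map_add' := fun a b => by
        unfold cmb
        rw [← sum_add_distrib]
        exact sum_congr rfl fun i _ => by rw [Pi.add_apply, add_smul]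
      map_smul' := fun c a => by
        unfold cmb
        rw [RingHom.id_apply, smul_sum]
        exact sum_congr rfl fun i _ => by rw [Pi.smul_apply, smul_eq_mul, mul_smul] }
  have hLm : ∀ a, Lm a = cmb A a := fun _ => rfl
  have hinj : Function.Injective Lm := by
    rw [injective_iff_map_eq_zero]
    intro a ha
    by_contra hne
    have h2 := hA1 a hne
    rw [← hLm, ha] at h2
    have h3 : wt (0 : W n) = 0 := by
      unfold wt
      simp
    omega
  have hfin : Module.finrank (ZMod 2) (LinearMap.range Lm) = k0 := by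
    rw [LinearMap.finrank_range_of_inj hinj, Module.finrank_fintype_fun_eq_card, Fintype.card_fin]
  have hquo : Module.finrank (ZMod 2) (W n ⧸ LinearMap.range Lm) =
      Module.finrank (ZMod 2) (W m) := by
    have h2 := Submodule.finrank_quotient_add_finrank (LinearMap.range Lm)
    rw [hfin, Module.finrank_fintype_fun_eq_card, Fintype.card_fin] at h2
    rw [Module.finrank_fintype_fun_eq_card, Fintype.card_fin]
    omega
  let e : (W n ⧸ LinearMap.range Lm) ≃ₗ[ZMod 2] W m := LinearEquiv.ofFinrankEq _ _ hquo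
  have hker : ∀ x, (e.toLinearMap.comp (LinearMap.range Lm).mkQ) x = 0 → ∃ a, cmb A a = x := by
    intro x hx
    rw [LinearMap.comp_apply, LinearEquiv.coe_coe, LinearEquiv.map_eq_zero_iff,
      Submodule.mkQ_apply, Submodule.Quotient.mk_eq_zero] at hx
    obtain ⟨a, ha⟩ := hx
    exact ⟨a, ha⟩
  refine ⟨e.toLinearMap.comp (LinearMap.range Lm).mkQ, ?_, ?_, ?_⟩
  · intro y
    obtain ⟨q, hq⟩ := e.surjective y
    obtain ⟨x, hx⟩ := (LinearMap.range Lm).mkQ_surjective q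
    exact ⟨x, by rw [LinearMap.comp_apply, hx]; exact hq⟩
  · intro x hx hx0
    obtain ⟨a, rfl⟩ := hker x hx
    refine hA1 a ?_
    rintro rfl
    apply hx0
    unfold cmb
    simp
  · intro ξ hξ hz
    have h2 : ξ ∉ Lo n kw := by
      intro h
      obtain ⟨i, hi⟩ := hA2 ξ h hξ
      apply hi
      apply hz
      have h3 : A i = Lm (Pi.single i 1) := by
        rw [hLm]
        exact (cmb_ev A i).symm
      rw [LinearMap.comp_apply, LinearEquiv.coe_coe, LinearEquiv.map_eq_zero_iff,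
        Submodule.mkQ_apply, Submodule.Quotient.mk_eq_zero, h3]
      exact ⟨_, rfl⟩
    rw [Lo, mem_filter] at h2
    push Not at h2
    have h3 := h2 (mem_univ _)
    omega

end Pool.Agent.Lib.MP_0430e4_lc.Llv
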