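import Pool.Agent.Lib.MP_0430e4_lc.Llv.AsmB

/-!
# Lift: from the quotient by `K0` to all words (section 4)

PROOF. `f X = fA c (phB (imB π d)) (fun i => π (X i))`. `f 0 = 1` (`fB_zero`, `imB π d 0` as `1 ≤ d`), GL-invariance (`Lgv.fA_inv`, `π` linear),
zero condition: if `0 < wt (∑ c j • X j) < d` then `x = ∑ c j • X j` is not in the kernel (`hK`), so `π x ≠ 0` and `imB π d (π x)`: `fB_bad`.
Partial transforms: for `j ∈ S` the words `Z j` run over everything; group by `π (Z j)` (fibres `= z + ker π`): the sum is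
`∑_{z} f'(z) ∏_{j ∈ S} (∑_{x : π x = z j} chw (Y j) x)`; `∑_{x : π x = y} chw w x` is `0` if `w` is not orthogonal to the kernel, and otherwise
`2^k0 * chw w' y` for a `w' : W m` (`fib`), so the whole is `0` or `2^(k0 |S|)` times a transform in `W m` (`par_nonnegC`). `S` empty: a value of `f`.
Total: `∑ X, f X = (2^k0)^l ∑ X', fA .. X'` (each `X'` has `(2^k0)^l` preimages) and `totC`. The set in the definition of `parLP` is bounded above
(as in the proof of `asmB` in Lgv/ASMB.lean: `snd_le`). `snd_chw` translates the characters.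
-/

set_option autoImplicit false

namespace Pool.Agent.Lib.MP_0430e4_lc.Llv

open Finset
open Pool.Agent.Lib.MP_0430e4_lc.Lin (W wt chw sg)
open Pool.Agent.Lib.MP_0430e4_lc.Lgv (ft bl cmb rk gg P wd Pz gc cht Gh fA parLP)

variable {m n : ℕ}

private theorem lift_sg (w x : W n) : chw w x = sg (∑ i, w i * x i) := by
  unfold Lin.chw
  rw [Lin.xsg_sum]

private theorem lift_inj {a b : W n} (h : ∀ x, chw a x = chw b x) : a = b := by
  classical
  have key : ∀ (w : W n) (i : Fin n), chw w (Pi.single i 1) = sg (w i) := by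
    intro w i
    rw [lift_sg]
    congr 1
    rw [Finset.sum_eq_single i]
    · simp
    · intro j _ hj
      rw [Pi.single_eq_of_ne hj, mul_zero]
    · intro h
      exact absurd (Finset.mem_univ i) h
  have hsg : ∀ a b : ZMod 2, sg a = sg b → a = b := by
    intro a b hab
    have h2 : ∀ z : ZMod 2, z = 0 ∨ z = 1 := by decide
    unfold Lin.sg at hab
    rcases h2 a with rfl | rfl <;> rcases h2 b with rfl | rfl
    · rfl
    · rw [if_pos rfl, if_neg one_ne_zero] at hab
      norm_num at hab
    · rw [if_pos rfl, if_neg one_ne_zero] at hab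
      norm_num at hab
    · rfl
  funext i
  have := h (Pi.single i 1)
  rw [key, key] at this
  exact hsg _ _ this

/-- The dual map, without surjectivity. -/
private theorem lift_dual {m n : ℕ} (π : W n →ₗ[ZMod 2] W m) :
    ∃ ρ : W m → W n, ∀ w x, chw (ρ w) x = chw w (π x) := by
  classical
  refine ⟨fun w i => ∑ j, w j * π (Pi.single i 1) j, fun w x => ?_⟩
  rw [lift_sg, lift_sg]
  congr 1
  have hx : π x = ∑ i, x i • π (Pi.single i 1) := by
    conv_lhs => rw [pi_eq_sum_univ' x]
    rw [map_sum]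
    refine Finset.sum_congr rfl fun i _ => ?_
    rw [← map_smul]
  rw [hx]
  simp only [Finset.sum_apply, Pi.smul_apply, smul_eq_mul, Finset.sum_mul, Finset.mul_sum]
  rw [Finset.sum_comm]
  refine Finset.sum_congr rfl fun j _ => Finset.sum_congr rfl fun i _ => ?_
  ring

/-- The dual map: `chw (dual π w) x = chw w (π x)`. -/
theorem exists_dual (π : W n →ₗ[ZMod 2] W m) (hπ : Function.Surjective π) :
    ∃ ρ : W m → W n, (∀ w x, chw (ρ w) x = chw w (π x)) ∧ (∀ w, ρ w = 0 → w = 0) ∧
      ∀ w : W n, (∀ z, π z = 0 → chw w z = 1) → ∃ w', ρ w' = w := by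
  obtain ⟨ρ, hρ⟩ := lift_dual π
  obtain ⟨g, hg⟩ := π.exists_rightInverse_of_surjective (LinearMap.range_eq_top.mpr hπ)
  obtain ⟨τ, hτ⟩ := lift_dual g
  refine ⟨ρ, hρ, ?_, ?_⟩
  · intro w hw
    refine lift_inj fun y => ?_
    obtain ⟨x, rfl⟩ := hπ y
    rw [← hρ, hw, Lin.chw_zero, Lin.chw_zero]
  · intro w hw
    refine ⟨τ w, lift_inj fun x => ?_⟩
    rw [hρ, hτ]
    have h1 : g (π x) = x + (g (π x) - x) := by abel
    have h2 : π (g (π x) - x) = 0 := by
      have h3 : π (g (π x)) = π x := LinearMap.congr_fun hg (π x)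
      rw [map_sub, h3, sub_self]
    rw [h1, Lin.chw_comm w, Lin.chw_add, Lin.chw_comm x, Lin.chw_comm (g (π x) - x), hw _ h2,
      mul_one]

private theorem lift_card {π : W n →ₗ[ZMod 2] W m} (hπ : Function.Surjective π) {k0 : ℕ}
    (hm : m + k0 = n) (y : W m) : (univ.filter (fun x => π x = y)).card = 2 ^ k0 := by
  classical
  have h1 : ∀ y, (univ.filter (fun x => π x = y)).card = (univ.filter (fun x => π x = 0)).card := by
    intro y
    obtain ⟨x0, hx0⟩ := hπ y
    refine Finset.card_bij' (fun x _ => x - x0) (fun x _ => x + x0) ?_ ?_ ?_ ?_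
    · intro x hx
      simp only [mem_filter, mem_univ, true_and] at hx ⊢
      rw [map_sub, hx, hx0, sub_self]
    · intro x hx
      simp only [mem_filter, mem_univ, true_and] at hx ⊢
      rw [map_add, hx, hx0, zero_add]
    · intro x _
      exact sub_add_cancel x x0
    · intro x _
      exact add_sub_cancel_right x x0
  have h2 : (univ : Finset (W n)).card = ∑ y : W m, (univ.filter (fun x => π x = y)).card :=
    Finset.card_eq_sum_card_fiberwise fun x _ => Finset.mem_coe.mpr (Finset.mem_univ _)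
  rw [Finset.sum_congr rfl fun y _ => h1 y, Finset.sum_const, Finset.card_univ, Finset.card_univ,
    Fintype.card_fun, Fintype.card_fun, ZMod.card, Fintype.card_fin, Fintype.card_fin,
    smul_eq_mul] at h2
  have h3 : 2 ^ n = 2 ^ m * 2 ^ k0 := by rw [← pow_add, hm]
  rw [h1]
  exact (Nat.eq_of_mul_eq_mul_left (by positivity) (h3.symm.trans h2)).symm

/-- The sum of a character over a fibre. -/
theorem fib {π : W n →ₗ[ZMod 2] W m} (hπ : Function.Surjective π) {k0 : ℕ} (hm : m + k0 = n) (w : W n) :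
    (∀ y, ∑ x ∈ univ.filter (fun x => π x = y), chw w x = 0) ∨
    ∃ w' : W m, ∀ y, ∑ x ∈ univ.filter (fun x => π x = y), chw w x = 2 ^ k0 * chw w' y := by
  classical
  by_cases h : ∀ z, π z = 0 → chw w z = 1
  · right
    obtain ⟨ρ, h1, -, h3⟩ := exists_dual π hπ
    obtain ⟨w', hw'⟩ := h3 w h
    refine ⟨w', fun y => ?_⟩
    have h4 : ∀ x ∈ univ.filter (fun x => π x = y), chw w x = chw w' y := by
      intro x hx
      rw [mem_filter] at hx
      rw [← hw', h1, hx.2]
    rw [Finset.sum_congr rfl h4, Finset.sum_const, lift_card hπ hm, nsmul_eq_mul]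
    push_cast
    ring
  · left
    push Not at h
    obtain ⟨z, hz, hz1⟩ := h
    have hz2 : chw w z = -1 := by
      have h5 := Lin.abs_chw w z
      rcases eq_or_eq_neg_of_abs_eq h5 with h6 | h6
      · exact absurd h6 hz1
      · exact h6
    intro y
    have h6 : ∑ x ∈ univ.filter (fun x => π x = y), chw w x =
        ∑ x ∈ univ.filter (fun x => π x = y), -chw w x := by
      refine Finset.sum_bij' (fun x _ => x + z) (fun x _ => x - z) ?_ ?_ ?_ ?_ ?_
      · intro x hx
        simp only [mem_filter, mem_univ, true_and] at hx ⊢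
        rw [map_add, hx, hz, add_zero]
      · intro x hx
        simp only [mem_filter, mem_univ, true_and] at hx ⊢
        rw [map_sub, hx, hz, sub_zero]
      · intro x _
        exact add_sub_cancel_right x z
      · intro x _
        exact sub_add_cancel x z
      · intro x _
        rw [Lin.chw_comm w (x + z), Lin.chw_add, Lin.chw_comm x, Lin.chw_comm z, hz2]
        ring
    rw [Finset.sum_neg_distrib] at h6
    linarith

private theorem lift_prod {l : ℕ} (π : W n →ₗ[ZMod 2] W m) (S : Finset (Fin l))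
    (X Y : Fin l → W n) (Z' : Fin l → W m) (hZ' : ∀ j, j ∉ S → Z' j = π (X j)) :
    ∑ Z ∈ (univ.filter (fun Z : Fin l → W n => ∀ j, j ∉ S → Z j = X j)).filter
        (fun Z => (fun i => π (Z i)) = Z'), ∏ j ∈ S, chw (Y j) (Z j) =
      ∏ j ∈ S, ∑ x ∈ univ.filter (fun x => π x = Z' j), chw (Y j) x := by
  classical
  have h1 : ∏ j ∈ S, ∑ x ∈ univ.filter (fun x => π x = Z' j), chw (Y j) x =
      ∏ j, ∑ x ∈ (if j ∈ S then univ.filter (fun x => π x = Z' j) else {X j}),
        (if j ∈ S then chw (Y j) x else 1) := by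
    rw [← Finset.prod_subset (Finset.subset_univ S)]
    · refine Finset.prod_congr rfl fun j hj => ?_
      simp only [if_pos hj]
    · intro j _ hj
      simp only [if_neg hj, Finset.sum_singleton]
  rw [h1, Finset.prod_univ_sum]
  refine Finset.sum_congr ?_ fun Z _ => ?_
  · ext Z
    simp only [mem_filter, mem_univ, true_and, Fintype.mem_piFinset]
    constructor
    · rintro ⟨h2, h3⟩ j
      by_cases hj : j ∈ S
      · rw [if_pos hj]
        simp only [mem_filter, mem_univ, true_and]
        exact congrFun h3 j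
      · rw [if_neg hj, mem_singleton]
        exact h2 j hj
    · intro h
      constructor
      · intro j hj
        have := h j
        rw [if_neg hj, mem_singleton] at this
        exact this
      · funext j
        have := h j
        by_cases hj : j ∈ S
        · rw [if_pos hj] at this
          simp only [mem_filter, mem_univ, true_and] at this
          exact this
        · rw [if_neg hj, mem_singleton] at this
          rw [this, hZ' j hj]
  · rw [← Finset.prod_subset (Finset.subset_univ S)]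
    · refine Finset.prod_congr rfl fun j hj => ?_
      rw [if_pos hj]
    · intro j _ hj
      rw [if_neg hj]

private theorem lift_group {l : ℕ} (π : W n →ₗ[ZMod 2] W m) (S : Finset (Fin l))
    (X Y : Fin l → W n) (F : (Fin l → W m) → ℝ) :
    ∑ Z ∈ univ.filter (fun Z : Fin l → W n => ∀ j, j ∉ S → Z j = X j),
        F (fun i => π (Z i)) * ∏ j ∈ S, chw (Y j) (Z j) =
      ∑ Z' ∈ univ.filter (fun Z' : Fin l → W m => ∀ j, j ∉ S → Z' j = π (X j)),
        F Z' * ∏ j ∈ S, ∑ x ∈ univ.filter (fun x => π x = Z' j), chw (Y j) x := by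
  classical
  rw [← Finset.sum_fiberwise_of_maps_to
    (s := univ.filter (fun Z : Fin l → W n => ∀ j, j ∉ S → Z j = X j))
    (t := univ.filter (fun Z' : Fin l → W m => ∀ j, j ∉ S → Z' j = π (X j)))
    (g := fun Z i => π (Z i))]
  · refine Finset.sum_congr rfl fun Z' hZ' => ?_
    rw [mem_filter] at hZ'
    rw [← lift_prod π S X Y Z' hZ'.2, Finset.mul_sum]
    refine Finset.sum_congr rfl fun Z hZ => ?_
    rw [mem_filter] at hZ
    rw [hZ.2]
  · intro Z hZ
    simp only [mem_filter, mem_univ, true_and] at hZ ⊢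
    intro j hj
    rw [hZ j hj]

theorem lift {π : W n →ₗ[ZMod 2] W m} (hπ : Function.Surjective π) {k0 : ℕ} (hm : m + k0 = n)
    {d : ℕ} (hd : 1 ≤ d) (hK : ∀ x, π x = 0 → x ≠ 0 → d ≤ wt x) {l : ℕ} {M c : ℝ} (hc : 1 ≤ c)
    (hM : 2 ^ (2 * l + 2) * c ≤ M)
    (hG0 : ∀ u j : ℕ, u + j = l → ∀ X : Fin u → W m, GoodB (imB π d) X →
      1 / 2 ≤ Gh (phB (imB π d)) X (0 : Fin j → W m))
    (hG : ∀ u j : ℕ, u + j = l → ∀ X : Fin u → W m, GoodB (imB π d) X → ∀ Θ : Fin j → W m,
      Θ ≠ 0 → |Gh (phB (imB π d)) X Θ| ≤ M⁻¹ ^ rk Θ) :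
    ((2 : ℝ) ^ k0) ^ l * c ^ l ≤ parLP l n d := by
  classical
  have hs := posC hG0
  have hB : imB π d 0 := by
    refine ⟨0, map_zero π, ?_⟩
    have : wt (0 : W n) = 0 := by
      unfold Lin.wt
      simp
    omega
  have htot : ((2 : ℝ) ^ k0) ^ l * c ^ l ≤
      ∑ X : Fin l → W n, fA c (phB (imB π d)) (fun i => π (X i)) := by
    have h1 := lift_group π (univ : Finset (Fin l)) 0 0 (fA c (phB (imB π d)))
    have h2 : (univ.filter (fun Z : Fin l → W n => ∀ j, j ∉ (univ : Finset (Fin l)) →
        Z j = (0 : Fin l → W n) j)) = univ := by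
      ext Z
      simp
    have h3 : (univ.filter (fun Z : Fin l → W m => ∀ j, j ∉ (univ : Finset (Fin l)) →
        Z j = π ((0 : Fin l → W n) j))) = univ := by
      ext Z
      simp
    rw [h2, h3] at h1
    have h4 : ∀ Z : Fin l → W n, ∏ j, chw ((0 : Fin l → W n) j) (Z j) = 1 := by
      intro Z
      exact Finset.prod_eq_one fun j _ => Lin.chw_zero _
    have h5 : ∀ Z' : Fin l → W m, ∏ j, ∑ x ∈ univ.filter (fun x => π x = Z' j),
        chw ((0 : Fin l → W n) j) x = ((2 : ℝ) ^ k0) ^ l := by
      intro Z'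
      have h6 : ∀ j ∈ (univ : Finset (Fin l)), ∑ x ∈ univ.filter (fun x => π x = Z' j),
          chw ((0 : Fin l → W n) j) x = (2 : ℝ) ^ k0 := by
        intro j _
        have h7 : ∀ x ∈ univ.filter (fun x => π x = Z' j),
            chw ((0 : Fin l → W n) j) x = (1 : ℝ) := fun x _ => Lin.chw_zero x
        rw [Finset.sum_congr rfl h7, Finset.sum_const, lift_card hπ hm, nsmul_eq_mul, mul_one]
        push_cast
        rfl
      rw [Finset.prod_congr rfl h6, Finset.prod_const, Finset.card_univ, Fintype.card_fin]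
    simp only [h4, h5, mul_one] at h1
    rw [h1, ← Finset.sum_mul, mul_comm]
    exact mul_le_mul_of_nonneg_right (totC (zero_le_one.trans hc) hs) (by positivity)
  refine htot.trans ?_
  unfold Lgv.parLP
  refine le_csSup ⟨Lin.linLP l n d, ?_⟩
    ⟨fun X => fA c (phB (imB π d)) (fun i => π (X i)), ?_, ?_, ?_, ?_, rfl⟩
  · rintro s ⟨f, h1, _, h3, h4, rfl⟩
    exact Lgv.snd_le h1 h3 h4
  · have h1 : (fun i => π ((0 : Fin l → W n) i)) = (0 : Fin l → W m) := by
      funext i
      exact map_zero π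
    show fA c (phB (imB π d)) (fun i => π ((0 : Fin l → W n) i)) = 1
    rw [h1]
    exact fB_zero hB hs.ne'
  · intro A hA X
    have h1 : (fun i => π (∑ j, A i j • X j)) = fun i => ∑ j, A i j • π (X j) := by
      funext i
      rw [map_sum]
      refine Finset.sum_congr rfl fun j _ => ?_
      rw [map_smul]
    show fA c (phB (imB π d)) (fun i => π (∑ j, A i j • X j)) =
      fA c (phB (imB π d)) (fun i => π (X i))
    rw [h1]
    exact Lgv.fA_inv A hA (fun i => π (X i))
  · rintro X ⟨a, ha, had⟩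
    rw [Lgv.asmb_wt] at ha had
    have h1 : π (∑ j, a j • X j) = cmb (fun i => π (X i)) a := by
      unfold Lgv.cmb
      rw [map_sum]
      refine Finset.sum_congr rfl fun j _ => ?_
      rw [map_smul]
    have h2 : (∑ j, a j • X j) ≠ 0 := by
      intro h
      rw [h] at ha
      unfold Lin.wt at ha
      simp at ha
    refine fB_bad (a := a) ?_ ?_
    · rw [← h1]
      intro h3
      have := hK _ h3 h2
      omega
    · rw [← h1]
      exact ⟨_, rfl, had⟩
  · intro S X Y
    simp_rw [Lgv.snd_chw]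
    rw [lift_group π S X Y]
    by_cases hz : ∃ j ∈ S, ∀ y, ∑ x ∈ univ.filter (fun x => π x = y), chw (Y j) x = 0
    · obtain ⟨j, hj, hj0⟩ := hz
      refine le_of_eq (Finset.sum_eq_zero fun Z' _ => ?_).symm
      rw [Finset.prod_eq_zero hj (hj0 (Z' j)), mul_zero]
    · push Not at hz
      have h1 : ∀ j, ∃ w' : W m, j ∈ S → ∀ y, ∑ x ∈ univ.filter (fun x => π x = y),
          chw (Y j) x = 2 ^ k0 * chw w' y := by
        intro j
        by_cases hj : j ∈ S
        · rcases fib hπ hm (Y j) with h2 | ⟨w', hw'⟩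
          · obtain ⟨y, hy⟩ := hz j hj
            exact absurd (h2 y) hy
          · exact ⟨w', fun _ => hw'⟩
        · exact ⟨0, fun h => absurd h hj⟩
      choose Ξ hΞ using h1
      have h2 : ∀ Z' : Fin l → W m, ∏ j ∈ S, ∑ x ∈ univ.filter (fun x => π x = Z' j),
          chw (Y j) x = ((2 : ℝ) ^ k0) ^ S.card * ∏ j ∈ S, chw (Ξ j) (Z' j) := by
        intro Z'
        rw [Finset.prod_congr rfl fun j hj => hΞ j hj (Z' j), Finset.prod_mul_distrib,
          Finset.prod_const]
      simp only [h2]
      have h3 := par_nonnegC hB hc hM hG0 hG S (fun j => π (X j)) Ξ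
      have h4 : ∑ Z' ∈ univ.filter (fun Z' : Fin l → W m => ∀ j, j ∉ S → Z' j = π (X j)),
          fA c (phB (imB π d)) Z' * (((2 : ℝ) ^ k0) ^ S.card * ∏ j ∈ S, chw (Ξ j) (Z' j)) =
          ((2 : ℝ) ^ k0) ^ S.card *
          ∑ Z' ∈ univ.filter (fun Z' : Fin l → W m => ∀ j, j ∉ S → Z' j = π (X j)),
            fA c (phB (imB π d)) Z' * ∏ j ∈ S, chw (Ξ j) (Z' j) := by
        rw [Finset.mul_sum]
        refine Finset.sum_congr rfl fun Z' _ => ?_
        ring
      rw [h4]
      exact mul_nonneg (by positivity) h3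

end Pool.Agent.Lib.MP_0430e4_lc.Llv
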