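import Pool.Agent.Lib.MP_0430e4_lc.Llv.Cos
import Pool.Agent.Lib.MP_0430e4_lc.Llv.Lift
import Pool.Agent.Lib.MP_0430e4_lc.Lgv.BFT

/-!
# Quo: the hypotheses of the core in the quotient (section 5)

`K = (span X).comap π`. PROOF. `quo_FX`: `FX (imB π d) X (π x) = FK K d x`: `imB π d (π x + cmb X a)` iff some `x'` has `π x' = π x + cmb X a`, `wt x' < d`; then
`z = x + x'` (characteristic 2) has `π z = cmb X a ∈ span X`, `x' = x + z`. Conversely `z ∈ K` means `π z = cmb X a` for some `a` (the span of the range of `X` is the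
set of the `cmb X a`). `quo_av1`: `av1 h = av1 (h ∘ π)` (each fibre has `2^k0` elements, `2^n = 2^m 2^k0`). `quo_ft`: `ft h w = ft (h ∘ π) (ρ w)` with
`chw (ρ w) x = chw w (π x)` (`exists_dual`). `quo_card`: `|K| ≤ 2^k0 * 2^u`. `quo_K`: nonzero `z ∈ K` has weight `≥ d`: if `π z = 0` by `hK`; otherwise `π z = cmb X a ≠ 0`, `a ≠ 0`,
and `wt z < d` would give `imB π d (cmb X a)`, contradiction to `GoodB`.
`dat`: `α = 2^k1 bet`, `u + k0 ≤ k1`, `θ = tht`. `t = FX (imB π d1) X`. `F01, t01, tF` (`d1 ≤ d`), `t0` (`1 ≤ d1`, `x = 0`). `avF`: `cos_av`. `avt`: `cos_av` with `d1` and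
`bet_shift`. `ftF`: for `w ≠ 0` put `ξ = ρ w ≠ 0`. If `chw ξ z ≠ 1` for some `z ∈ K`: `0`. Otherwise `ξ` is orthogonal to the kernel: `hdual` gives `kw ≤ wt ξ ≤ n - kw`,
`cos_ft` and `Lgv.abs_ft_bl_le` (`δ * n ≤ d`): `≤ α (d kap1^kw + 2^k1 kap^d)`, `kap^d ≤ kap^d1`. `pair`: `t y = 0`: choose `x` with `π x = y`: no `z ∈ K` has
`wt (x + z) < d1`; `cos_pair`. All terms of `tht` are nonnegative.
-/

set_option autoImplicit false

namespace Pool.Agent.Lib.MP_0430e4_lc.Llv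

open Finset
open Pool.Agent.Lib.MP_0430e4_lc.Lin (W wt chw sg)
open Pool.Agent.Lib.MP_0430e4_lc.Lgv (ft bl cmb rk gg P wd Pz gc cht Gh bet)

variable {m n : ℕ}

theorem quo_mem_span {u : ℕ} (X : Fin u → W m) (y : W m) :
    y ∈ Submodule.span (ZMod 2) (Set.range X) ↔ ∃ a : Fin u → ZMod 2, cmb X a = y :=
  Submodule.mem_span_range_iff_exists_fun (ZMod 2)

theorem quo_cmb_zero {u : ℕ} (X : Fin u → W m) : cmb X (0 : Fin u → ZMod 2) = 0 := by
  unfold Lgv.cmb
  simp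

theorem quo_FX (π : W n →ₗ[ZMod 2] W m) (d : ℕ) {u : ℕ} (X : Fin u → W m) (x : W n) :
    FX (imB π d) X (π x) = FK ((Submodule.span (ZMod 2) (Set.range X)).comap π) d x := by
  have key : (∃ a : Fin u → ZMod 2, imB π d (π x + cmb X a)) ↔
      ∃ z ∈ (Submodule.span (ZMod 2) (Set.range X)).comap π, wt (x + z) < d := by
    constructor
    · rintro ⟨a, x', hx', hw⟩
      refine ⟨x + x', ?_, ?_⟩
      · rw [Submodule.mem_comap, quo_mem_span]
        refine ⟨a, ?_⟩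
        rw [map_add, hx', ← add_assoc, Lin.add_self_W, zero_add]
      · rwa [← add_assoc, Lin.add_self_W, zero_add]
    · rintro ⟨z, hz, hw⟩
      rw [Submodule.mem_comap, quo_mem_span] at hz
      obtain ⟨a, ha⟩ := hz
      refine ⟨a, x + z, ?_, hw⟩
      rw [map_add, ha]
  unfold FX FK
  by_cases h : ∃ a : Fin u → ZMod 2, imB π d (π x + cmb X a)
  · rw [if_pos h, if_pos (key.mp h)]
  · rw [if_neg h, if_neg (fun h2 => h (key.mpr h2))]

theorem quo_fib {π : W n →ₗ[ZMod 2] W m} (hπ : Function.Surjective π) (y : W m) :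
    (univ.filter fun x : W n => π x = y).card = (univ.filter fun x : W n => π x = 0).card := by
  obtain ⟨x0, hx0⟩ := hπ y
  refine card_bij (fun x _ => x + x0) ?_ ?_ ?_
  · intro x hx
    rw [mem_filter] at hx ⊢
    refine ⟨mem_univ _, ?_⟩
    rw [map_add, hx.2, hx0, Lin.add_self_W]
  · intro x _ x' _ h
    exact add_right_cancel h
  · intro z hz
    rw [mem_filter] at hz
    refine ⟨z + x0, ?_, ?_⟩
    · rw [mem_filter]
      refine ⟨mem_univ _, ?_⟩
      rw [map_add, hz.2, hx0, zero_add]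
    · rw [add_assoc, Lin.add_self_W, add_zero]

theorem quo_sum {π : W n →ₗ[ZMod 2] W m} (hπ : Function.Surjective π) (h : W m → ℝ) :
    ∑ x : W n, h (π x) = ((univ.filter fun x : W n => π x = 0).card : ℝ) * ∑ y, h y := by
  rw [← sum_fiberwise univ (fun x : W n => π x) (fun x => h (π x)), mul_sum]
  refine sum_congr rfl fun y _ => ?_
  rw [← quo_fib hπ y, sum_congr rfl (g := fun _ => h y), sum_const, nsmul_eq_mul]
  intro x hx
  rw [mem_filter] at hx
  rw [hx.2]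

theorem quo_two {π : W n →ₗ[ZMod 2] W m} (hπ : Function.Surjective π) :
    (2 : ℝ) ^ n = ((univ.filter fun x : W n => π x = 0).card : ℝ) * 2 ^ m := by
  have h := quo_sum hπ fun _ => (1 : ℝ)
  simpa using h

theorem quo_av1 {π : W n →ₗ[ZMod 2] W m} (hπ : Function.Surjective π) (h : W m → ℝ) :
    av1 h = av1 fun x => h (π x) := by
  unfold av1
  rw [quo_sum hπ, quo_two hπ]
  have hc : ((univ.filter fun x : W n => π x = 0).card : ℝ) ≠ 0 := by
    have h0 : 0 < (univ.filter fun x : W n => π x = 0).card := by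
      rw [card_pos]
      exact ⟨0, by rw [mem_filter]; exact ⟨mem_univ _, map_zero _⟩⟩
    exact_mod_cast h0.ne'
  rw [mul_div_mul_left _ _ hc]

theorem quo_ft {π : W n →ₗ[ZMod 2] W m} (hπ : Function.Surjective π) {ρ : W m → W n}
    (hρ : ∀ w x, chw (ρ w) x = chw w (π x)) (h : W m → ℝ) (w : W m) :
    ft h w = ft (fun x => h (π x)) (ρ w) := by
  have e := quo_av1 hπ fun y => h y * chw w y
  unfold av1 at e
  unfold Lgv.ft
  rw [e]
  congr 1
  refine sum_congr rfl fun x _ => ?_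
  rw [hρ]

theorem quo_card {π : W n →ₗ[ZMod 2] W m} (hπ : Function.Surjective π) {k0 : ℕ} (hm : m + k0 = n)
    {u : ℕ} (X : Fin u → W m) :
    Nat.card ((Submodule.span (ZMod 2) (Set.range X)).comap π) ≤ 2 ^ (k0 + u) := by
  classical
  have hc : (univ.filter fun x : W n => π x = 0).card = 2 ^ k0 := by
    have h1 := quo_two hπ
    have h3 : (2 : ℝ) ^ n = 2 ^ k0 * 2 ^ m := by rw [← hm, pow_add, mul_comm]
    rw [h3] at h1
    have h2 := mul_right_cancel₀ (pow_ne_zero m (two_ne_zero' ℝ)) h1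
    exact_mod_cast h2.symm
  have h1 : Nat.card ((Submodule.span (ZMod 2) (Set.range X)).comap π) =
      (univ.filter fun x : W n => x ∈ (Submodule.span (ZMod 2) (Set.range X)).comap π).card := by
    rw [Nat.card_eq_fintype_card]
    exact Fintype.card_subtype _
  rw [h1]
  have h2 : (univ.filter fun x : W n => x ∈ (Submodule.span (ZMod 2) (Set.range X)).comap π) ⊆
      (univ : Finset (Fin u → ZMod 2)).biUnion fun a => univ.filter fun x : W n => π x = cmb X a := by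
    intro x hx
    rw [mem_filter, Submodule.mem_comap, quo_mem_span] at hx
    obtain ⟨a, ha⟩ := hx.2
    rw [mem_biUnion]
    exact ⟨a, mem_univ _, by rw [mem_filter]; exact ⟨mem_univ _, ha.symm⟩⟩
  refine (card_le_card h2).trans (card_biUnion_le.trans (le_of_eq ?_))
  rw [sum_congr rfl fun a _ => quo_fib hπ (cmb X a), sum_const, hc, card_univ, smul_eq_mul,
    pow_add, mul_comm]
  congr 1
  simp [ZMod.card]

theorem quo_K {π : W n →ₗ[ZMod 2] W m} {d : ℕ} (hK : ∀ x, π x = 0 → x ≠ 0 → d ≤ wt x) {u : ℕ}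
    {X : Fin u → W m} (hX : GoodB (imB π d) X) :
    ∀ z ∈ (Submodule.span (ZMod 2) (Set.range X)).comap π, z ≠ 0 → d ≤ wt z := by
  intro z hz hz0
  by_cases h0 : π z = 0
  · exact hK z h0 hz0
  rw [Submodule.mem_comap, quo_mem_span] at hz
  obtain ⟨a, ha⟩ := hz
  have ha0 : a ≠ 0 := by
    rintro rfl
    exact h0 (by rw [← ha, quo_cmb_zero])
  by_contra hlt
  exact hX a ha0 ⟨z, ha.symm, not_le.mp hlt⟩

theorem quo_FX_val (B : W m → Prop) {u : ℕ} (X : Fin u → W m) (x : W m) :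
    FX B X x = 0 ∨ FX B X x = 1 := by
  unfold FX
  split_ifs
  · exact Or.inr rfl
  · exact Or.inl rfl

theorem dat {δ : ℝ} (h0 : 0 < δ) (h1 : δ < 1 / 2) {π : W n →ₗ[ZMod 2] W m}
    (hπ : Function.Surjective π) {k0 k1 kw d d1 : ℕ} (hm : m + k0 = n) (hd1 : 1 ≤ d1)
    (hdd : d1 ≤ d) (hδ : δ * n ≤ d) (hK : ∀ x, π x = 0 → x ≠ 0 → d ≤ wt x)
    (hdual : ∀ ξ : W n, ξ ≠ 0 → (∀ z, π z = 0 → chw ξ z = 1) → kw ≤ wt ξ ∧ wt ξ + kw ≤ n)
    (hθ : tht δ d d1 k1 kw ≤ 1 / 2) {u : ℕ} (hu : k0 + u ≤ k1) {X : Fin u → W m}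
    (hX : GoodB (imB π d) X) :
    Dat (FX (imB π d) X) (FX (imB π d1) X) (2 ^ k1 * bet δ n d) (tht δ d d1 k1 kw) := by
  obtain ⟨ρ, hρ, hρ0, -⟩ := exists_dual π hπ
  set K : Submodule (ZMod 2) (W n) := (Submodule.span (ZMod 2) (Set.range X)).comap π with hKdef
  have hb : 0 < bet δ n d := Lgv.bet_pos h0 h1 n d
  have hkap : 0 < kap δ := kap_pos h0 h1
  have hkap1 : kap δ < 1 := kap_lt h0 h1
  have hk1' : 0 ≤ kap1 δ := by
    unfold kap1
    positivity
  have hr0 : 0 ≤ δ / (1 - δ) := div_nonneg h0.le (by linarith)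
  have hT1 : 0 ≤ (d : ℝ) * kap1 δ ^ kw := by positivity
  have hT2 : 0 ≤ (δ / (1 - δ)) ^ (d - d1) := pow_nonneg hr0 _
  have hT3 : 0 ≤ (2 : ℝ) ^ k1 * kap δ ^ d1 := by positivity
  have htht : tht δ d d1 k1 kw = d * kap1 δ ^ kw + (δ / (1 - δ)) ^ (d - d1) + 2 ^ k1 * kap δ ^ d1 := rfl
  have hθ0 : 0 ≤ tht δ d d1 k1 kw := by
    rw [htht]
    linarith
  have hα0 : 0 < (2 : ℝ) ^ k1 * bet δ n d := by positivity
  have hcard : (Nat.card K : ℝ) ≤ 2 ^ k1 := by
    have h2 : Nat.card K ≤ 2 ^ k1 :=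
      (quo_card hπ hm X).trans (Nat.pow_le_pow_right (by norm_num) hu)
    exact_mod_cast h2
  have hcard0 : (0 : ℝ) ≤ Nat.card K := Nat.cast_nonneg _
  have hcard2 : (Nat.card K : ℝ) ^ 2 ≤ 2 ^ k1 * 2 ^ k1 := by
    rw [sq]
    exact mul_le_mul hcard hcard hcard0 (by positivity)
  have hKw : ∀ z ∈ K, z ≠ 0 → d ≤ wt z := quo_K hK hX
  have hF : (fun x : W n => FX (imB π d) X (π x)) = FK K d := funext fun x => quo_FX π d X x
  have ht : (fun x : W n => FX (imB π d1) X (π x)) = FK K d1 := funext fun x => quo_FX π d1 X x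
  refine
    { F01 := fun x => quo_FX_val _ _ _
      t01 := fun x => quo_FX_val _ _ _
      tF := ?_
      t0 := ?_
      α0 := hα0
      θ0 := hθ0
      θ1 := hθ
      avF := ?_
      avt := ?_
      ftF := ?_
      pair := ?_ }
  · intro x
    rcases quo_FX_val (imB π d1) X x with h | h
    · rcases quo_FX_val (imB π d) X x with h' | h' <;> rw [h, h']
      norm_num
    · have h2 : ∃ a : Fin u → ZMod 2, imB π d1 (x + cmb X a) := by
        by_contra hne
        unfold FX at h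
        rw [if_neg hne] at h
        exact zero_ne_one h
      have h3 : ∃ a : Fin u → ZMod 2, imB π d (x + cmb X a) := by
        obtain ⟨a, x', hx', hw⟩ := h2
        exact ⟨a, x', hx', lt_of_lt_of_le hw hdd⟩
      rw [h]
      unfold FX
      rw [if_pos h3]
  · have h2 : ∃ a : Fin u → ZMod 2, imB π d1 (0 + cmb X a) := by
      refine ⟨0, 0, ?_, ?_⟩
      · rw [map_zero, quo_cmb_zero, add_zero]
      · unfold Lin.wt
        simp
        omega
    unfold FX
    rw [if_pos h2]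
  · rw [quo_av1 hπ, hF]
    exact (cos_av h0 h1 d K).trans (mul_le_mul_of_nonneg_right hcard hb.le)
  · rw [quo_av1 hπ, ht]
    refine (cos_av h0 h1 d1 K).trans ?_
    rw [bet_shift h0 h1 n hdd]
    have h2 : (Nat.card K : ℝ) * (bet δ n d * (δ / (1 - δ)) ^ (d - d1)) ≤
        2 ^ k1 * (bet δ n d * (δ / (1 - δ)) ^ (d - d1)) :=
      mul_le_mul_of_nonneg_right hcard (mul_nonneg hb.le hT2)
    have h3 : (δ / (1 - δ)) ^ (d - d1) * (2 ^ k1 * bet δ n d) ≤
        tht δ d d1 k1 kw * (2 ^ k1 * bet δ n d) := by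
      refine mul_le_mul_of_nonneg_right ?_ hα0.le
      rw [htht]
      linarith
    calc _ ≤ _ := h2
      _ = (δ / (1 - δ)) ^ (d - d1) * (2 ^ k1 * bet δ n d) := by ring
      _ ≤ _ := h3
  · intro w hw
    rw [quo_ft hπ hρ, hF]
    by_cases hz : ∃ z ∈ K, chw (ρ w) z ≠ 1
    · obtain ⟨z, hz, hne⟩ := hz
      rw [cos_inv d K hz hne, abs_zero]
      exact mul_nonneg hθ0 hα0.le
    have hz' : ∀ z ∈ K, chw (ρ w) z = 1 := by
      intro z hzK
      by_contra hne
      exact hz ⟨z, hzK, hne⟩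
    have hker : ∀ z, π z = 0 → chw (ρ w) z = 1 := by
      intro z hzz
      refine hz' z ?_
      rw [hKdef, Submodule.mem_comap, hzz]
      exact Submodule.zero_mem _
    obtain ⟨h2, h3⟩ := hdual (ρ w) (fun h => hw (hρ0 w h)) hker
    have h4 := cos_ft h0 h1 hKw (ρ w)
    have h5 : |ft (bl d) (ρ w)| ≤ d * bet δ n d * kap1 δ ^ kw := by
      unfold kap1
      exact Lgv.abs_ft_bl_le h0 h1.le h2 h3
    have h6 : (Nat.card K : ℝ) * |ft (bl d) (ρ w)| ≤ 2 ^ k1 * (d * bet δ n d * kap1 δ ^ kw) :=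
      mul_le_mul hcard h5 (abs_nonneg _) (by positivity)
    have h7 : bet δ n d * kap δ ^ d ≤ bet δ n d * kap δ ^ d1 :=
      mul_le_mul_of_nonneg_left (pow_le_pow_of_le_one hkap.le hkap1.le hdd) hb.le
    have h8 : (Nat.card K : ℝ) ^ 2 * (bet δ n d * kap δ ^ d) ≤
        2 ^ k1 * 2 ^ k1 * (bet δ n d * kap δ ^ d1) :=
      mul_le_mul hcard2 h7 (by positivity) (by positivity)
    have h9 : (d * kap1 δ ^ kw + 2 ^ k1 * kap δ ^ d1) * (2 ^ k1 * bet δ n d) ≤
        tht δ d d1 k1 kw * (2 ^ k1 * bet δ n d) := by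
      refine mul_le_mul_of_nonneg_right ?_ hα0.le
      rw [htht]
      linarith
    calc _ ≤ _ := h4
      _ ≤ 2 ^ k1 * (d * bet δ n d * kap1 δ ^ kw) + 2 ^ k1 * 2 ^ k1 * (bet δ n d * kap δ ^ d1) :=
        add_le_add h6 h8
      _ = (d * kap1 δ ^ kw + 2 ^ k1 * kap δ ^ d1) * (2 ^ k1 * bet δ n d) := by ring
      _ ≤ _ := h9
  · intro y hy
    obtain ⟨x0, rfl⟩ := hπ y
    have hx0 : ∀ z ∈ K, d1 ≤ wt (x0 + z) := by
      intro z hz
      by_contra hlt
      have h2 : FK K d1 x0 = 1 := by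
        have h3 : ∃ z ∈ K, wt (x0 + z) < d1 := ⟨z, hz, not_le.mp hlt⟩
        unfold FK
        rw [if_pos h3]
      rw [quo_FX, ← hKdef, h2] at hy
      exact one_ne_zero hy
    have h4 := cos_pair (d := d) h0 h1 hx0
    have h5 : av1 (fun x => FX (imB π d) X x * FX (imB π d) X (x + π x0)) =
        av1 (fun x => FK K d x * FK K d (x + x0)) := by
      rw [quo_av1 hπ]
      congr 1
      funext x
      rw [← map_add, quo_FX, quo_FX]
    rw [h5]
    have h6 : (Nat.card K : ℝ) ^ 2 * (bet δ n d * kap δ ^ d1) ≤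
        2 ^ k1 * 2 ^ k1 * (bet δ n d * kap δ ^ d1) :=
      mul_le_mul_of_nonneg_right hcard2 (by positivity)
    have h7 : (2 ^ k1 * kap δ ^ d1) * (2 ^ k1 * bet δ n d) ≤
        tht δ d d1 k1 kw * (2 ^ k1 * bet δ n d) := by
      refine mul_le_mul_of_nonneg_right ?_ hα0.le
      rw [htht]
      linarith
    calc _ ≤ _ := h4
      _ ≤ _ := h6
      _ = (2 ^ k1 * kap δ ^ d1) * (2 ^ k1 * bet δ n d) := by ring
      _ ≤ _ := h7

end Pool.Agent.Lib.MP_0430e4_lc.Llv
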