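import Pool.Agent.Lib.MP_0430e4_lc.Llv.Gcf
import Pool.Agent.Lib.MP_0430e4_lc.Lgv.TRA

/-!
# Red: from full rank to all ranks (section 2)

PROOF. `rank_basis`: let `s = rk Θ`. The linear map `c ↦ ∑ i, c i • Θ i` on `Cv j` has rank `s`; take a basis `β : Fin (s + j2) → Cv j`, `s + j2 = j`, whose last
`j2` elements are a basis of the kernel; so `θ i = ∑ l, β i l • Θ l` is independent for the first `s` indices and `0` for the last `j2`. Let `b` be the
dual basis (`∑ l, β i l * b i' l = [i = i']`; the inverse transposed matrix). Then `cht Θ Z = cht θ (fun i => cmb Z (b i))`: `Z l = ∑ i, (β i l) • cmb Z (b i)`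
(matrix identity) and `chw` is bilinear. (State with `Fin j` and a cast, or `subst`.)
`red`: `Gh φ X Θ = Av (gc φ X Z * cht Θ Z) = Av (G (fun i => cmb Z (b i)))`, `G Z' = gc φ X Z' * cht θ Z'` (`gc_chg`), `= Av G` (`chg_av`). Split
`Z' = Fin.append Z1 Z2` (`Fin.appendEquiv`): `G = gc (phB B) (Fin.append X Z2) Z1 * cht θ1 Z1 * gc (phB B) X Z2`, so
`Av G = Av_{Z2} (gc (phB B) X Z2 * Gh (phB B) (Fin.append X Z2) θ1)`; where `gc (phB B) X Z2 ≠ 0` the tuple `Fin.append X Z2` is good (`good_append`) and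
`|Gh| ≤ M⁻¹ ^ s` by hypothesis (`s ≥ 1` because `Θ ≠ 0`; `(u + j2) + s ≤ l`); `0 ≤ gc ≤ 1`.
`red0`: `Gh φ X 0 = Av (gc)`, and `gc ≥ 1 - ∑_{v ≠ 0} FX B X (cmb Z v)` (`gc_eq`, `Finset.prod_one_sub_..` or induction), `Av (FX B X (cmb Z v)) = av1 (FX B X) ≤ α` for
`v ≠ 0` (`prod_av` with `C = {v}`), fewer than `2^j` terms.
-/

set_option autoImplicit false

namespace Pool.Agent.Lib.MP_0430e4_lc.Llv

open Finset
open Pool.Agent.Lib.MP_0430e4_lc.Lin (W wt chw sg)
open Pool.Agent.Lib.MP_0430e4_lc.Lgv (ft bl cmb rk gg P wd Pz gc cht Gh)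

variable {m : ℕ}

/-- The characters in terms of a basis of the span. -/
private theorem Red_cht {j s : ℕ} {Θ : Fin j → W m} {θ1 : Fin s → W m} {c : Fin j → Fin s → ZMod 2}
    (h : ∀ i, Θ i = ∑ l, c i l • θ1 l) (Z : Fin j → W m) :
    cht Θ Z = ∏ l, chw (θ1 l) (cmb Z fun i => c i l) := by
  unfold cht
  have h1 : ∀ i, chw (Θ i) (Z i) = ∏ l, chw (θ1 l) (c i l • Z i) := by
    intro i
    rw [h i, Lgv.tra_sum_left]
    exact Finset.prod_congr rfl fun l _ => (Lgv.tra_smul _ _ _).symm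
  rw [Finset.prod_congr rfl fun i _ => h1 i, Finset.prod_comm]
  refine Finset.prod_congr rfl fun l _ => ?_
  unfold cmb
  rw [Lgv.tra_sum_right]

/-- The matrix of coordinates has independent columns. -/
private theorem Red_cols {j s : ℕ} (Θ : Fin j → W m)
    (β : Module.Basis (Fin s) (ZMod 2) (Submodule.span (ZMod 2) (Set.range Θ))) :
    LinearIndependent (ZMod 2) (fun l : Fin s => fun i : Fin j =>
      β.repr ⟨Θ i, Submodule.subset_span ⟨i, rfl⟩⟩ l) := by
  rw [Fintype.linearIndependent_iff]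
  intro g hg l
  have h1 : ∀ i, ∑ l, g l * β.repr ⟨Θ i, Submodule.subset_span ⟨i, rfl⟩⟩ l = 0 := by
    intro i
    have h2 := congrFun hg i
    rw [Finset.sum_apply] at h2
    simpa only [Pi.smul_apply, smul_eq_mul, Pi.zero_apply] using h2
  have h2 : ∀ x (hx : x ∈ Submodule.span (ZMod 2) (Set.range Θ)),
      ∑ l, g l * β.repr ⟨x, hx⟩ l = 0 := by
    intro x hx
    induction hx using Submodule.span_induction with
    | mem x hx =>
      obtain ⟨i, rfl⟩ := hx
      exact h1 i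
    | zero =>
      have h3 : β.repr ⟨0, Submodule.zero_mem _⟩ = 0 := map_zero β.repr
      rw [h3]
      simp only [Finsupp.coe_zero, Pi.zero_apply, mul_zero, Finset.sum_const_zero]
    | add x y hx hy ihx ihy =>
      have h3 : β.repr ⟨x + y, Submodule.add_mem _ hx hy⟩ = β.repr ⟨x, hx⟩ + β.repr ⟨y, hy⟩ :=
        map_add β.repr ⟨x, hx⟩ ⟨y, hy⟩
      rw [h3]
      simp only [Finsupp.coe_add, Pi.add_apply, mul_add]
      rw [Finset.sum_add_distrib, ihx, ihy, add_zero]
    | smul a x hx ih =>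
      have h3 : β.repr ⟨a • x, Submodule.smul_mem _ a hx⟩ = a • β.repr ⟨x, hx⟩ :=
        map_smul β.repr a ⟨x, hx⟩
      rw [h3]
      have h4 : ∑ l, g l * (a • β.repr ⟨x, hx⟩) l = a * ∑ l, g l * β.repr ⟨x, hx⟩ l := by
        rw [Finset.mul_sum]
        refine Finset.sum_congr rfl fun l _ => ?_
        rw [Finsupp.smul_apply, smul_eq_mul]
        ring
      rw [h4, ih, mul_zero]
  have h3 := h2 (β l).1 (β l).2
  have h4 : β.repr ⟨(β l).1, (β l).2⟩ = Finsupp.single l 1 := β.repr_self l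
  rw [h4, Finset.sum_eq_single l] at h3
  · rwa [Finsupp.single_eq_same, mul_one] at h3
  · intro l' _ hl
    rw [Finsupp.single_eq_of_ne hl, mul_zero]
  · intro h
    exact absurd (Finset.mem_univ l) h

/-- Extension of an independent family to a basis. -/
private theorem Red_ext {j s : ℕ} {b0 : Fin s → Cv j} (hb : LinearIndependent (ZMod 2) b0) :
    ∃ (j2 : ℕ) (hj : s + j2 = j) (b : Fin j → Cv j), LinearIndependent (ZMod 2) b ∧
      ∀ l : Fin s, b (Fin.cast hj (Fin.castAdd j2 l)) = b0 l := by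
  obtain ⟨Q, hQ⟩ := Submodule.exists_isCompl (Submodule.span (ZMod 2) (Set.range b0))
  have h1 : Module.finrank (ZMod 2) (Submodule.span (ZMod 2) (Set.range b0)) = s := by
    rw [finrank_span_eq_card hb, Fintype.card_fin]
  have h2 := Submodule.finrank_add_eq_of_isCompl hQ
  rw [h1] at h2
  have h3 : Module.finrank (ZMod 2) (Cv j) = j := by
    unfold Cv
    rw [Module.finrank_fin_fun]
  rw [h3] at h2
  set β := Module.finBasis (ZMod 2) Q with hβ
  have h4 : LinearIndependent (ZMod 2) (fun i => (β i : Cv j)) :=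
    β.linearIndependent.map' Q.subtype (Submodule.ker_subtype Q)
  have h5 : Submodule.span (ZMod 2) (Set.range fun i => (β i : Cv j)) ≤ Q := by
    rw [Submodule.span_le]
    rintro _ ⟨i, rfl⟩
    exact (β i).2
  have h6 : LinearIndependent (ZMod 2) (Sum.elim b0 fun i => (β i : Cv j)) :=
    hb.sum_type h4 (hQ.disjoint.mono_right h5)
  refine ⟨Module.finrank (ZMod 2) Q, h2,
    fun i => Sum.elim b0 (fun i => (β i : Cv j)) (finSumFinEquiv.symm (Fin.cast h2.symm i)),
    h6.comp _ ?_, ?_⟩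
  · intro x y hxy
    have h7 := finSumFinEquiv.symm.injective hxy
    exact Fin.cast_injective _ h7
  · intro l
    change Sum.elim b0 (fun i => (β i : Cv j)) (finSumFinEquiv.symm
      (Fin.castAdd (Module.finrank (ZMod 2) Q) l)) = b0 l
    rw [finSumFinEquiv_symm_apply_castAdd]
    rfl

theorem rank_basis {j : ℕ} (Θ : Fin j → W m) : ∃ (j2 : ℕ) (hj : rk Θ + j2 = j)
    (b : Fin j → Cv j) (θ1 : Fin (rk Θ) → W m), LinearIndependent (ZMod 2) b ∧
      LinearIndependent (ZMod 2) θ1 ∧ ∀ Z : Fin j → W m,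
        cht Θ Z = cht (Fin.append θ1 (fun _ : Fin j2 => (0 : W m)))
          (fun i => cmb Z (b (Fin.cast hj i))) := by
  set β : Module.Basis (Fin (rk Θ)) (ZMod 2) (Submodule.span (ZMod 2) (Set.range Θ)) :=
    Module.finBasis (ZMod 2) (Submodule.span (ZMod 2) (Set.range Θ)) with hβ
  obtain ⟨j2, hj, b, hb, hbe⟩ := Red_ext (Red_cols Θ β)
  refine ⟨j2, hj, b, fun l => (β l : W m), hb,
    β.linearIndependent.map' (Submodule.span (ZMod 2) (Set.range Θ)).subtype
      (Submodule.ker_subtype _), fun Z => ?_⟩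
  have h : ∀ i, Θ i = ∑ l, β.repr ⟨Θ i, Submodule.subset_span ⟨i, rfl⟩⟩ l • (β l : W m) := by
    intro i
    have h1 := β.sum_repr ⟨Θ i, Submodule.subset_span ⟨i, rfl⟩⟩
    have h2 := congrArg (fun x : Submodule.span (ZMod 2) (Set.range Θ) => (x : W m)) h1
    simp only [Submodule.coe_sum, Submodule.coe_smul] at h2
    exact h2.symm
  rw [Red_cht h Z]
  unfold cht
  rw [Fin.prod_univ_add]
  have h3 : ∏ i : Fin j2, chw (Fin.append (fun l => (β l : W m)) (fun _ : Fin j2 => (0 : W m))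
      (Fin.natAdd (rk Θ) i)) (cmb Z (b (Fin.cast hj (Fin.natAdd (rk Θ) i)))) = 1 := by
    refine Finset.prod_eq_one fun i _ => ?_
    rw [Fin.append_right, Lin.chw_zero]
  rw [h3, mul_one]
  refine Finset.prod_congr rfl fun l _ => ?_
  rw [Fin.append_left]
  exact congrArg (fun v => chw (β l : W m) (cmb Z v)) (hbe l).symm

private theorem Red_main {B : W m → Prop} {l : ℕ} {M : ℝ} (hM : 1 ≤ M)
    (h : ∀ u k : ℕ, 1 ≤ k → u + k ≤ l → ∀ X : Fin u → W m, GoodB B X → ∀ Ξ : Fin k → W m,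
      LinearIndependent (ZMod 2) Ξ → |Gh (phB B) X Ξ| ≤ M⁻¹ ^ k)
    {u s j2 : ℕ} (hs : 1 ≤ s) (huj : u + (s + j2) ≤ l) {X : Fin u → W m} (hX : GoodB B X)
    {θ1 : Fin s → W m} (hθ : LinearIndependent (ZMod 2) θ1) :
    |Av (fun Z : Fin (s + j2) → W m => gc (phB B) X Z *
      cht (Fin.append θ1 (fun _ : Fin j2 => (0 : W m))) Z)| ≤ M⁻¹ ^ s := by
  have hM0 : 0 < M := by linarith
  have h1 : Av (fun Z : Fin (s + j2) → W m => gc (phB B) X Z *
      cht (Fin.append θ1 (fun _ : Fin j2 => (0 : W m))) Z) =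
      Av (fun Z2 : Fin j2 → W m => gc (phB B) X Z2 * Gh (phB B) (Fin.append X Z2) θ1) := by
    unfold Av Gh
    have e1 : ∑ Z : Fin (s + j2) → W m, gc (phB B) X Z *
        cht (Fin.append θ1 (fun _ : Fin j2 => (0 : W m))) Z =
        ∑ y : (Fin s → W m) × (Fin j2 → W m), gc (phB B) X y.2 *
          (gc (phB B) (Fin.append X y.2) y.1 * cht θ1 y.1) := by
      refine (Fintype.sum_equiv (Fin.appendEquiv s j2) _ _ fun y => ?_).symm
      change _ = gc (phB B) X (Fin.append y.1 y.2) *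
        cht (Fin.append θ1 (fun _ : Fin j2 => (0 : W m))) (Fin.append y.1 y.2)
      rw [gc_split]
      have e2 : cht (Fin.append θ1 (fun _ : Fin j2 => (0 : W m))) (Fin.append y.1 y.2) =
          cht θ1 y.1 := by
        unfold cht
        rw [Fin.prod_univ_add]
        have e3 : ∏ i : Fin j2, chw (Fin.append θ1 (fun _ : Fin j2 => (0 : W m))
            (Fin.natAdd s i)) (Fin.append y.1 y.2 (Fin.natAdd s i)) = 1 := by
          refine Finset.prod_eq_one fun i _ => ?_
          rw [Fin.append_right, Lin.chw_zero]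
        rw [e3, mul_one]
        refine Finset.prod_congr rfl fun l _ => ?_
        rw [Fin.append_left, Fin.append_left]
      rw [e2]
      ring
    rw [e1, Fintype.sum_prod_type_right]
    have e4 : (2 : ℝ) ^ (m * (s + j2)) = 2 ^ (m * s) * 2 ^ (m * j2) := by
      rw [← pow_add, mul_add]
    rw [e4, ← div_div]
    congr 1
    rw [Finset.sum_div]
    refine Finset.sum_congr rfl fun Z2 _ => ?_
    change (∑ x, gc (phB B) X Z2 * (gc (phB B) (Fin.append X Z2) x * cht θ1 x)) / 2 ^ (m * s) =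
      gc (phB B) X Z2 * ((∑ Z, gc (phB B) (Fin.append X Z2) Z * cht θ1 Z) / 2 ^ (m * s))
    rw [← Finset.mul_sum, mul_div_assoc]
  rw [h1]
  have h2 : ∀ Z2 : Fin j2 → W m, |gc (phB B) X Z2 * Gh (phB B) (Fin.append X Z2) θ1| ≤
      M⁻¹ ^ s := by
    intro Z2
    by_cases h0 : gc (phB B) X Z2 = 0
    · rw [h0, zero_mul, abs_zero]
      positivity
    · have h3 := h (u + j2) s hs (by omega) (Fin.append X Z2) (good_append hX h0) θ1 hθ
      obtain ⟨h4, h5⟩ := gc_le B X Z2
      rw [abs_mul, abs_of_nonneg h4]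
      calc gc (phB B) X Z2 * |Gh (phB B) (Fin.append X Z2) θ1| ≤ 1 * M⁻¹ ^ s :=
            mul_le_mul h5 h3 (abs_nonneg _) zero_le_one
        _ = M⁻¹ ^ s := one_mul _
  unfold Av
  rw [abs_div, abs_of_pos (show (0 : ℝ) < 2 ^ (m * j2) by positivity), div_le_iff₀ (by positivity)]
  refine (Finset.abs_sum_le_sum_abs _ _).trans ?_
  refine (Finset.sum_le_sum fun Z2 _ => h2 Z2).trans (le_of_eq ?_)
  rw [Finset.sum_const, nsmul_eq_mul, mul_comm]
  congr 1
  rw [Finset.card_univ, Fintype.card_fun, Fintype.card_fun, ZMod.card, Fintype.card_fin,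
    Fintype.card_fin, ← pow_mul]
  push_cast
  rfl

private theorem Red_rk_pos {j : ℕ} {Θ : Fin j → W m} (h : Θ ≠ 0) : 1 ≤ rk Θ := by
  by_contra hn
  have h0 : rk Θ = 0 := by omega
  unfold rk at h0
  rw [Submodule.finrank_eq_zero, Submodule.span_eq_bot] at h0
  exact h (funext fun i => h0 _ ⟨i, rfl⟩)

theorem red {B : W m → Prop} {l : ℕ} {M : ℝ} (hM : 1 ≤ M)
    (h : ∀ u k : ℕ, 1 ≤ k → u + k ≤ l → ∀ X : Fin u → W m, GoodB B X → ∀ Ξ : Fin k → W m,
      LinearIndependent (ZMod 2) Ξ → |Gh (phB B) X Ξ| ≤ M⁻¹ ^ k)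
    {u j : ℕ} (huj : u + j ≤ l) {X : Fin u → W m} (hX : GoodB B X) {Θ : Fin j → W m}
    (hΘ : Θ ≠ 0) : |Gh (phB B) X Θ| ≤ M⁻¹ ^ rk Θ := by
  obtain ⟨j2, hj, b, θ1, hb, hθ, hc⟩ := rank_basis Θ
  have hpos := Red_rk_pos hΘ
  rw [Gh_eq_Av]
  have h1 : (fun Z : Fin j → W m => gc (phB B) X Z * cht Θ Z) =
      fun Z => gc (phB B) X (fun i => cmb Z (b i)) *
        cht (Fin.append θ1 (fun _ : Fin j2 => (0 : W m)))
          (fun i => cmb Z (b (Fin.cast hj i))) := by
    funext Z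
    rw [hc Z, gc_chg B X hb Z]
  rw [h1]
  clear hc h1 hΘ
  generalize rk Θ = s at hj θ1 hθ hpos ⊢
  clear Θ
  subst hj
  have h2 := chg_av hb (fun Z : Fin (s + j2) → W m => gc (phB B) X Z *
    cht (Fin.append θ1 (fun _ : Fin j2 => (0 : W m))) Z)
  refine le_trans (le_of_eq (congrArg abs h2)) ?_
  exact Red_main hM h hpos huj hX hθ

private theorem Red_FX (B : W m → Prop) {u : ℕ} (X : Fin u → W m) (x : W m) :
    0 ≤ FX B X x ∧ FX B X x ≤ 1 := by
  unfold FX
  split_ifs <;> norm_num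

private theorem Red_prod {ι : Type} (s : Finset ι) (a : ι → ℝ) (h : ∀ i ∈ s, 0 ≤ a i ∧ a i ≤ 1) :
    1 - ∑ i ∈ s, a i ≤ ∏ i ∈ s, (1 - a i) ∧ 0 ≤ ∏ i ∈ s, (1 - a i) ∧
      ∏ i ∈ s, (1 - a i) ≤ 1 := by
  classical
  induction s using Finset.induction_on with
  | empty => simp
  | insert i s hi ih =>
    obtain ⟨h1, h2, h3⟩ := ih fun j hj => h j (Finset.mem_insert_of_mem hj)
    obtain ⟨h4, h5⟩ := h i (Finset.mem_insert_self i s)
    rw [Finset.sum_insert hi, Finset.prod_insert hi]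
    refine ⟨?_, mul_nonneg (by linarith) h2, ?_⟩
    · nlinarith
    · nlinarith

theorem red0 {B : W m → Prop} {α : ℝ} {u j : ℕ} (X : Fin u → W m) (hα : av1 (FX B X) ≤ α) :
    1 - 2 ^ j * α ≤ Gh (phB B) X (0 : Fin j → W m) := by
  rw [Gh_eq_Av]
  have hα0 : 0 ≤ α := (av1_nonneg fun x => (Red_FX B X x).1).trans hα
  have h1 : ∀ Z : Fin j → W m, 1 - ∑ v ∈ univ.erase (0 : Cv j), FX B X (cmb Z v) ≤
      gc (phB B) X Z * cht (0 : Fin j → W m) Z := by
    intro Z
    have e1 : cht (0 : Fin j → W m) Z = 1 := by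
      unfold cht
      refine Finset.prod_eq_one fun i _ => ?_
      rw [Pi.zero_apply, Lin.chw_zero]
    rw [e1, mul_one, gc_eq]
    exact (Red_prod _ _ fun v _ => Red_FX B X _).1
  refine le_trans ?_ (av_mono h1)
  have h2 : Av (fun Z : Fin j → W m => 1 - ∑ v ∈ univ.erase (0 : Cv j), FX B X (cmb Z v)) =
      Av (fun _ : Fin j → W m => (1 : ℝ)) -
        ∑ v ∈ univ.erase (0 : Cv j), Av (fun Z : Fin j → W m => FX B X (cmb Z v)) := by
    rw [← av_sum]
    unfold Av
    rw [Finset.sum_sub_distrib, sub_div]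
  rw [h2]
  have h3 : Av (fun _ : Fin j → W m => (1 : ℝ)) = 1 := by
    unfold Av
    rw [Finset.sum_const, nsmul_eq_mul, mul_one, Finset.card_univ, Fintype.card_fun,
      Fintype.card_fun, ZMod.card, Fintype.card_fin, Fintype.card_fin, ← pow_mul]
    push_cast
    exact div_self (by positivity)
  have h4 : ∀ v ∈ univ.erase (0 : Cv j), Av (fun Z : Fin j → W m => FX B X (cmb Z v)) ≤ α := by
    intro v hv
    have hv0 : v ≠ 0 := Finset.ne_of_mem_erase hv
    have h5 : Ind ({v} : Finset (Cv j)) := by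
      have h6 := ind_insert (v := v) (ind_empty (k := j)) (by
        unfold spn
        rw [Finset.coe_empty, Submodule.span_empty, Submodule.mem_bot]
        exact hv0)
      rw [insert_empty_eq] at h6
      exact h6.2
    have h7 := prod_av h5 (fun _ => FX B X)
    simp only [Finset.prod_singleton] at h7
    rw [h7]
    exact hα
  have h8 : ∑ v ∈ univ.erase (0 : Cv j), Av (fun Z : Fin j → W m => FX B X (cmb Z v)) ≤
      2 ^ j * α := by
    refine (Finset.sum_le_sum h4).trans ?_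
    rw [Finset.sum_const, nsmul_eq_mul]
    refine mul_le_mul_of_nonneg_right ?_ hα0
    have h9 : (univ.erase (0 : Cv j)).card ≤ 2 ^ j := by
      refine (Finset.card_le_card (Finset.erase_subset _ _)).trans (le_of_eq ?_)
      rw [Finset.card_univ, Fintype.card_fun, ZMod.card, Fintype.card_fin]
    exact_mod_cast h9
  rw [h3]
  linarith

end Pool.Agent.Lib.MP_0430e4_lc.Llv
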