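import Pool.Agent.Lib.MP_0430e4_lc.Llv.Core
import Pool.Agent.Lib.MP_0430e4_lc.Llv.Red
import Pool.Agent.Lib.MP_0430e4_lc.Llv.Quo
import Pool.Agent.Lib.MP_0430e4_lc.Llv.Pix
import Pool.Agent.Lib.MP_0430e4_lc.Llv.Num2

/-!
# Fin: the theorem

PROOF. `params`, `exists_pi` (`d = ⌈δ n⌉ ≥ d1 ≥ 1`), `M = (40 2^l ζ α)⁻¹`, `c' = M / 2^(2l+2) ≥ 1`. For good `X` (`u` words), `k ≥ 1`, `u + k ≤ l`, `Ξ` independent:
`dat` (`k0 + u ≤ k0 + l`), `par_mono`, `Gh_eq_Av`, `gc_eq` and `core`: `|Gh (phB B) X Ξ| ≤ (40 2^k ζ α)^k ≤ M⁻¹ ^ k`. `red` gives `hG` of `lift`, `red0` with `D.avF` and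
`2^j α ≤ 2^l α ≤ 1/2` gives `hG0`. `lift`: `(2^k0 c')^l ≤ parLP l n d`, and `(2^(n(G+γ)))^l = 2^(l n (G + γ))` (`Real.rpow_natCast_mul` or similar; last inequality of `params`).
-/

set_option autoImplicit false

namespace Pool.Agent.Lib.MP_0430e4_lc.Llv

open Finset
open Pool.Agent.Lib.MP_0430e4_lc.Lin (W wt chw sg)
open Pool.Agent.Lib.MP_0430e4_lc.Lgv (ft bl cmb rk gg P wd Pz gc cht Gh bet parLP)

theorem main {δ : ℝ} (h0 : 0 < δ) (h1 : δ < 1 / 2) : ∃ γ : ℝ, 0 < γ ∧ ∃ c : ℝ, 0 < c ∧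
    ∃ n0 : ℕ, ∀ n ≥ n0, ∀ l : ℕ, 1 ≤ l → (l : ℝ) ≤ c * n →
      (2 : ℝ) ^ (l * n * (1 - Real.binEntropy δ / Real.log 2 + γ)) ≤ parLP l n ⌈δ * n⌉₊ := by
  obtain ⟨γ, hγ, c, hc, n0, H⟩ := params h0 h1
  refine ⟨γ, hγ, c, hc, n0, fun n hn l hl hlc => ?_⟩
  obtain ⟨k0, m, kw, d1, q, η, ϑ, ζ, hm, hd1, hdd, hsum, hθ, hP, hα, hM0, hfin⟩ := H n hn l hl hlc
  have hδ : δ * n ≤ (⌈δ * n⌉₊ : ℕ) := Nat.le_ceil _
  generalize ⌈δ * n⌉₊ = d at hdd hsum hθ hP hα hM0 hfin hδ ⊢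
  have hd0 : 1 ≤ d := hd1.trans hdd
  obtain ⟨π, hπ, hK, hdual⟩ := exists_pi (m := m) h0 h1 hm hd0 hsum
  have D : ∀ u : ℕ, u ≤ l → ∀ X : Fin u → W m, GoodB (imB π d) X →
      Dat (FX (imB π d) X) (FX (imB π d1) X) (2 ^ (k0 + l) * bet δ n d)
        (tht δ d d1 (k0 + l) kw) := fun u hu X hX =>
    dat h0 h1 hπ hm hd1 hdd hδ hK hdual hθ (by omega) hX
  have hα0 : 0 < 2 ^ (k0 + l) * bet δ n d :=
    (D 0 (Nat.zero_le l) (fun i => 0) fun a ha => absurd (Subsingleton.elim a 0) ha).α0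
  generalize 2 ^ (k0 + l) * bet δ n d = α at hP hα hM0 hfin D hα0
  generalize tht δ d d1 (k0 + l) kw = θ at hP hθ D
  have hζ := hP.ζ0
  have hMi0 : 0 < 40 * 2 ^ l * ζ * α := by positivity
  have hp1 : (1 : ℝ) ≤ 2 ^ (2 * l + 2) := one_le_pow₀ (by norm_num)
  have hcore : ∀ u k : ℕ, 1 ≤ k → u + k ≤ l → ∀ X : Fin u → W m, GoodB (imB π d) X →
      ∀ Ξ : Fin k → W m, LinearIndependent (ZMod 2) Ξ →
        |Gh (phB (imB π d)) X Ξ| ≤ ((40 * 2 ^ l * ζ * α)⁻¹)⁻¹ ^ k := by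
    intro u k hk huk X hX Ξ hΞ
    rw [Gh_eq_Av]
    simp only [gc_eq]
    refine (core (D u (by omega) X hX) (par_mono (by omega) hP) hk hΞ).trans ?_
    rw [inv_inv]
    have h2 : (2 : ℝ) ^ k ≤ 2 ^ l := pow_le_pow_right₀ (by norm_num) (by omega)
    apply pow_le_pow_left₀ (by positivity)
    gcongr
  have hMi1 : 40 * 2 ^ l * ζ * α ≤ 1 := by nlinarith
  have hM1 : 1 ≤ (40 * 2 ^ l * ζ * α)⁻¹ := (one_le_inv₀ hMi0).mpr hMi1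
  have hG0 : ∀ u j : ℕ, u + j = l → ∀ X : Fin u → W m, GoodB (imB π d) X →
      1 / 2 ≤ Gh (phB (imB π d)) X (0 : Fin j → W m) := by
    intro u j huj X hX
    have h2 := red0 (j := j) X (D u (by omega) X hX).avF
    have h3 : (2 : ℝ) ^ j ≤ 2 ^ l := pow_le_pow_right₀ (by norm_num) (by omega)
    nlinarith
  have hG : ∀ u j : ℕ, u + j = l → ∀ X : Fin u → W m, GoodB (imB π d) X →
      ∀ Θ : Fin j → W m, Θ ≠ 0 →
        |Gh (phB (imB π d)) X Θ| ≤ ((40 * 2 ^ l * ζ * α)⁻¹)⁻¹ ^ rk Θ :=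
    fun u j huj X hX Θ hΘ => red hM1 hcore huj.le hX hΘ
  have hc1 : 1 ≤ (40 * 2 ^ l * ζ * α)⁻¹ / 2 ^ (2 * l + 2) := by
    rw [le_div_iff₀ (by positivity), one_mul, le_inv_comm₀ (by positivity) hMi0]
    rw [inv_eq_one_div, le_div_iff₀ (by positivity)]
    exact hM0
  have hM2 : 2 ^ (2 * l + 2) * ((40 * 2 ^ l * ζ * α)⁻¹ / 2 ^ (2 * l + 2)) ≤
      (40 * 2 ^ l * ζ * α)⁻¹ := by
    rw [mul_div_cancel₀ _ (by positivity)]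
  refine le_trans ?_ (lift hπ hm hd0 hK hc1 hM2 hG0 hG)
  rw [← mul_pow]
  have he : (2 : ℝ) ^ (l * n * (1 - Real.binEntropy δ / Real.log 2 + γ)) =
      ((2 : ℝ) ^ (n * (1 - Real.binEntropy δ / Real.log 2 + γ))) ^ l := by
    rw [← Real.rpow_natCast, ← Real.rpow_mul (by norm_num)]
    congr 1
    ring
  rw [he]
  exact pow_le_pow_left₀ (by positivity) hfin l

end Pool.Agent.Lib.MP_0430e4_lc.Llv
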