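import Pool.Agent.Lib.MP_0430e4_lc.Llv.Rows

/-!
# Fou: the bound by Cauchy-Schwarz (section 1.3)

PROOF. `fou_expand`, Cauchy-Schwarz (`Finset.sum_mul_sq_le_sq_mul_sq` or `inner_mul_le_norm_mul_norm`): the square of the average is at most
`(∑ w, psh ψ w ^ 2) * ∑ w, ∏ i, ft (g i) (Ξ i + frq w i) ^ 2`.
First factor: `psi_sq` and `|ψ y| ≤ ∏ v, F (y v)`, `F^2 = F`: `(∑ y, ∏ v, F (y v)) / 2^(m |C|) = ∏ v, av1 F ≤ α ^ |C|` (Finset.prod_univ_sum).
Second factor: `I` with `|I| = |C|`, `Info C I` (`exists_info`). For `i ∉ I` the square is `≤ α^2`, and `≤ (2 θ α)^2` if `Ξ i + frq w i ≠ 0`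
(`two_abs`, `two_ne`); at most `|C|` indices have `Ξ i + frq w i = 0` (`zero_rows`), so
`∏_{i ∉ I} ft^2 ≤ α^(2(k-|C|)) * ((2θ)^2)^(k - 2|C|)` (`2 θ ≤ 1`). So the second factor is at most this times
`∑ w, ∏_{i ∈ I} ft (g i) (Ξ i + frq w i)^2 ≤ ∏_{i ∈ I} ∑ ξ, ft (g i) ξ ^ 2 ≤ α ^ |C|` (`sum_frq_le`, `two_sq`).
Product: `α^|C| * α^(2(k-|C|)) * (2θ)^(2(k-2|C|)) * α^|C| = (α^k (2θ)^(k-2|C|))^2`.
-/

set_option autoImplicit false

namespace Pool.Agent.Lib.MP_0430e4_lc.Llv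

open Finset
open Pool.Agent.Lib.MP_0430e4_lc.Lin (W wt chw sg)
open Pool.Agent.Lib.MP_0430e4_lc.Lgv (ft bl cmb rk gg P wd Pz gc cht Gh)

variable {m k : ℕ}

private theorem Fou_one {F t : W m → ℝ} {α θ : ℝ} (D : Dat F t α θ) {C : Finset (Cv k)}
    {ψ : ({v // v ∈ C} → W m) → ℝ} (hψ : ∀ y, |ψ y| ≤ ∏ v, F (y v)) :
    ∑ w, psh ψ w ^ 2 ≤ α ^ C.card := by
  classical
  rw [psi_sq]
  have hF : ∀ x, F x ^ 2 = F x := by
    intro x
    rcases D.F01 x with h | h <;> rw [h] <;> norm_num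
  have h1 : ∑ y, ψ y ^ 2 ≤ ∑ y : {v // v ∈ C} → W m, ∏ v, F (y v) := by
    refine Finset.sum_le_sum fun y _ => ?_
    calc ψ y ^ 2 = |ψ y| ^ 2 := (sq_abs _).symm
      _ ≤ (∏ v, F (y v)) ^ 2 := pow_le_pow_left₀ (abs_nonneg _) (hψ y) 2
      _ = ∏ v, F (y v) := by
        rw [← Finset.prod_pow]
        exact Finset.prod_congr rfl fun v _ => hF _
  have h2 : ∑ y : {v // v ∈ C} → W m, ∏ v, F (y v) = (∑ x, F x) ^ C.card := by
    have h3 := Finset.prod_univ_sum (fun _ : {v // v ∈ C} => (univ : Finset (W m)))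
      (fun _ x => F x)
    rw [Fintype.piFinset_univ] at h3
    rw [← h3, Finset.prod_const, Finset.card_univ, Fintype.card_coe]
  have h4 : (∑ y, ψ y ^ 2) / 2 ^ (m * C.card) ≤ (∑ x, F x) ^ C.card / 2 ^ (m * C.card) := by
    refine div_le_div_of_nonneg_right ?_ (by positivity)
    rw [← h2]
    exact h1
  refine h4.trans ?_
  rw [pow_mul, ← div_pow]
  refine pow_le_pow_left₀ ?_ D.avF _
  exact div_nonneg (Finset.sum_nonneg fun x _ => dat_F_nonneg D x) (by positivity)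

private theorem Fou_two {F t : W m → ℝ} {α θ : ℝ} (D : Dat F t α θ) {S : Finset (Fin k)}
    {g : Fin k → W m → ℝ} (hg : Two S F t g) {C : Finset (Cv k)} (hk : 2 * C.card ≤ k)
    {Ξ : Fin k → W m} (hΞ : LinearIndependent (ZMod 2) Ξ) {I : Finset (Fin k)}
    (hI : I.card = C.card) (w : {v // v ∈ C} → W m) :
    ∏ i ∈ univ \ I, ft (g i) (Ξ i + frq w i) ^ 2 ≤
      (α ^ 2) ^ (k - C.card) * ((2 * θ) ^ 2) ^ (k - 2 * C.card) := by
  classical
  have hα := D.α0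
  have hθ := D.θ0
  have hθ1 := D.θ1
  set Z := (univ \ I).filter fun i => Ξ i + frq w i = 0 with hZ
  have hZc : Z.card ≤ C.card :=
    (Finset.card_le_card (Finset.filter_subset_filter _ (Finset.subset_univ _))).trans
      (zero_rows hΞ w)
  have hIc : (univ \ I).card = k - C.card := by
    rw [Finset.card_univ_sdiff, Fintype.card_fin, hI]
  have h1 : ∏ i ∈ univ \ I, ft (g i) (Ξ i + frq w i) ^ 2 ≤
      ∏ i ∈ univ \ I, (α ^ 2 * if Ξ i + frq w i = 0 then 1 else (2 * θ) ^ 2) := by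
    refine Finset.prod_le_prod (fun i _ => sq_nonneg _) fun i _ => ?_
    rw [← sq_abs]
    split_ifs with h
    · rw [mul_one]
      exact pow_le_pow_left₀ (abs_nonneg _) (two_abs D hg i _) 2
    · rw [← mul_pow]
      refine pow_le_pow_left₀ (abs_nonneg _) ?_ 2
      have := two_ne D hg i h
      linarith
  refine h1.trans ?_
  rw [Finset.prod_mul_distrib, Finset.prod_const, hIc]
  refine mul_le_mul_of_nonneg_left ?_ (by positivity)
  rw [Finset.prod_ite, Finset.prod_const_one, one_mul, Finset.prod_const]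
  have h2 : ((univ \ I).filter fun i => ¬ (Ξ i + frq w i = 0)).card = (univ \ I).card - Z.card := by
    have h5 : Z.card + ((univ \ I).filter fun i => ¬ (Ξ i + frq w i = 0)).card =
        (univ \ I).card := by
      rw [hZ]
      exact Finset.card_filter_add_card_filter_not _
    omega
  rw [h2, hIc]
  refine pow_le_pow_of_le_one (by positivity) ?_ (by omega)
  have h3 : 2 * θ ≤ 1 := by linarith
  exact pow_le_one₀ (by positivity) h3

theorem fou {F t : W m → ℝ} {α θ : ℝ} (D : Dat F t α θ) {S : Finset (Fin k)}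
    {g : Fin k → W m → ℝ} (hg : Two S F t g) {C : Finset (Cv k)} (hC : Ind C)
    (hk : 2 * C.card ≤ k) {ψ : ({v // v ∈ C} → W m) → ℝ} (hψ : ∀ y, |ψ y| ≤ ∏ v, F (y v))
    {Ξ : Fin k → W m} (hΞ : LinearIndependent (ZMod 2) Ξ) :
    |Av (fun Z => (∏ i, g i (Z i)) * ψ (fun v => cmb Z (v : Cv k)) * cht Ξ Z)| ≤
      α ^ k * (2 * θ) ^ (k - 2 * C.card) := by
  classical
  have hα := D.α0
  have hθ := D.θ0
  rw [fou_expand]
  refine abs_le_of_sq_le_sq ?_ (by positivity)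
  refine (Finset.sum_mul_sq_le_sq_mul_sq _ _ _).trans ?_
  obtain ⟨I, hI, hinfo⟩ := exists_info hC
  have h1 := Fou_one D hψ
  have h2 : ∑ w : {v // v ∈ C} → W m, (∏ i, ft (g i) (Ξ i + frq w i)) ^ 2 ≤
      ((α ^ 2) ^ (k - C.card) * ((2 * θ) ^ 2) ^ (k - 2 * C.card)) * α ^ C.card := by
    have h3 : ∀ w : {v // v ∈ C} → W m, (∏ i, ft (g i) (Ξ i + frq w i)) ^ 2 ≤
        ((α ^ 2) ^ (k - C.card) * ((2 * θ) ^ 2) ^ (k - 2 * C.card)) *
          ∏ i ∈ I, ft (g i) (Ξ i + frq w i) ^ 2 := by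
      intro w
      rw [← Finset.prod_pow, ← Finset.prod_sdiff (Finset.subset_univ I)]
      exact mul_le_mul_of_nonneg_right (Fou_two D hg hk hΞ hI w)
        (Finset.prod_nonneg fun i _ => sq_nonneg _)
    refine (Finset.sum_le_sum fun w _ => h3 w).trans ?_
    rw [← Finset.mul_sum]
    refine mul_le_mul_of_nonneg_left ?_ (by positivity)
    refine (sum_frq_le hC hinfo (fun i x => ft (g i) x ^ 2) (fun i x => sq_nonneg _) Ξ).trans ?_
    rw [← hI, ← Finset.prod_const]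
    exact Finset.prod_le_prod (fun i _ => Finset.sum_nonneg fun _ _ => sq_nonneg _)
      fun i _ => two_sq D hg i
  have h4 : 0 ≤ ∑ w : {v // v ∈ C} → W m, (∏ i, ft (g i) (Ξ i + frq w i)) ^ 2 :=
    Finset.sum_nonneg fun _ _ => sq_nonneg _
  refine (mul_le_mul h1 h2 h4 (by positivity)).trans (le_of_eq ?_)
  obtain ⟨r, hr⟩ : ∃ r, k = 2 * C.card + r := ⟨k - 2 * C.card, by omega⟩
  have e1 : k - C.card = C.card + r := by omega
  have e2 : k - 2 * C.card = r := by omega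
  have e3 : α ^ k = α ^ (2 * C.card + r) := congrArg (fun n => α ^ n) hr
  rw [e1, e2, e3]
  generalize 2 * θ = b
  ring

end Pool.Agent.Lib.MP_0430e4_lc.Llv
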