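import Pool.Agent.Lib.MP_0430e4_lc.Llv.Coef
import Pool.Agent.Lib.MP_0430e4_lc.Llv.Chg

/-!
# FouA: the transform of a product of functions of the words times a function of few combinations

`frq C w i = ∑ v ∈ C, v i • w v` (frequency at position `i`).
PROOF of `fou_expand`. Fourier inversion on `{v // v ∈ C} → W m` (product of `Lgv.tra_inv`-type identities; or: `{v // v ∈ C} → W m` is a finite
group with the characters `∏ v, chw (w v) (y v)`; `∑ w, ∏ v, chw (w v) (y v) = 2^(m |C|)` if `y = 0`, else `0`, by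
Finset.prod_univ_sum and `Lin.sum_chw_left`): `ψ y = ∑ w, ψh w * ∏ v, chw (w v) (y v)`,
`ψh w = (∑ y, ψ y * ∏ v, chw (w v) (y v)) / 2^(m |C|)`. Insert `y v = cmb Z v`; `chw (w v) (cmb Z v) = ∏ i, chw (v i • w v) (Z i)`
(cf. Lgv.tra_wd), so the product over `v` is `∏ i, chw (frq C w i) (Z i)`, and the average over `Z` factors:
`Av (∏ i, g i (Z i) * chw (Ξ i + frq C w i) (Z i)) = ∏ i, ft (g i) (Ξ i + frq C w i)` (Finset.prod_univ_sum).
`psi_sq` (Parseval): `∑ w, ψh w ^ 2 = (∑ y, ψ y ^ 2) / 2^(m |C|)`, by the same orthogonality.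
-/

set_option autoImplicit false

namespace Pool.Agent.Lib.MP_0430e4_lc.Llv

open Finset
open Pool.Agent.Lib.MP_0430e4_lc.Lin (W wt chw sg)
open Pool.Agent.Lib.MP_0430e4_lc.Lgv (ft bl cmb rk gg P wd Pz gc cht Gh)

variable {m k : ℕ}

/-- The frequency at position `i`. -/
def frq {C : Finset (Cv k)} (w : {v // v ∈ C} → W m) (i : Fin k) : W m :=
  ∑ v : {v // v ∈ C}, (v : Cv k) i • w v

/-- The transform of a function of `|C|` words. -/
noncomputable def psh {C : Finset (Cv k)} (ψ : ({v // v ∈ C} → W m) → ℝ) (w : {v // v ∈ C} → W m) : ℝ :=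
  (∑ y : {v // v ∈ C} → W m, ψ y * ∏ v, chw (w v) (y v)) / 2 ^ (m * C.card)

theorem foA_sum_prod {ι : Type} [Fintype ι] [DecidableEq ι] (V : ι → W m) :
    ∑ w : ι → W m, ∏ v, chw (w v) (V v) = if ∀ v, V v = 0 then 2 ^ (m * Fintype.card ι) else 0 := by
  have h := (Finset.prod_univ_sum (fun _ : ι => (univ : Finset (W m)))
    fun v x => chw x (V v)).symm
  rw [Fintype.piFinset_univ] at h
  rw [h]
  rw [prod_congr rfl fun v _ => Lin.sum_chw_left (V v)]
  by_cases hV : ∀ v, V v = 0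
  · rw [if_pos hV, prod_congr rfl fun v _ => if_pos (hV v), prod_const, card_univ, ← pow_mul]
  · rw [if_neg hV]
    push Not at hV
    obtain ⟨v, hv⟩ := hV
    exact prod_eq_zero (mem_univ v) (if_neg hv)

theorem foA_sum_prod' {ι : Type} [Fintype ι] [DecidableEq ι] (V : ι → W m) :
    ∑ w : ι → W m, ∏ v, chw (V v) (w v) = if ∀ v, V v = 0 then 2 ^ (m * Fintype.card ι) else 0 := by
  rw [← foA_sum_prod]
  exact sum_congr rfl fun w _ => prod_congr rfl fun v _ => Lin.chw_comm _ _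

theorem foA_inv {C : Finset (Cv k)} (ψ : ({v // v ∈ C} → W m) → ℝ) (y : {v // v ∈ C} → W m) :
    ψ y = ∑ w, psh ψ w * ∏ v, chw (w v) (y v) := by
  unfold psh
  have h1 : ∀ w : {v // v ∈ C} → W m,
      (∑ x : {v // v ∈ C} → W m, ψ x * ∏ v, chw (w v) (x v)) / 2 ^ (m * C.card) *
        ∏ v, chw (w v) (y v) = ∑ x, ψ x / 2 ^ (m * C.card) * ∏ v, chw (w v) (x v + y v) := by
    intro w
    rw [sum_div, sum_mul]
    refine sum_congr rfl fun x _ => ?_
    rw [prod_congr rfl fun v _ => Lgv.tra_add_right (w v) (x v) (y v), prod_mul_distrib]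
    ring
  rw [sum_congr rfl fun w _ => h1 w, sum_comm]
  have h2 : ∀ x : {v // v ∈ C} → W m,
      ∑ w : {v // v ∈ C} → W m, ψ x / 2 ^ (m * C.card) * ∏ v, chw (w v) (x v + y v)
        = if x = y then ψ y else 0 := by
    intro x
    rw [← mul_sum, foA_sum_prod fun v => x v + y v, Fintype.card_coe]
    by_cases h : x = y
    · subst h
      rw [if_pos (fun v => Lin.add_self_W (x v)), if_pos rfl]
      field_simp
    · rw [if_neg (fun h0 => h (funext fun v => Lin.eq_of_add_U (h0 v))), if_neg h, mul_zero]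
  rw [sum_congr rfl fun x _ => h2 x, sum_ite_eq' univ y, if_pos (mem_univ y)]

theorem foA_chw_cmb (w : W m) (v : Cv k) (Z : Fin k → W m) :
    chw w (cmb Z v) = ∏ i, chw (v i • w) (Z i) := by
  unfold cmb
  rw [Lgv.tra_sum_right]
  exact prod_congr rfl fun i _ => Lgv.tra_smul _ _ _

theorem fou_expand (g : Fin k → W m → ℝ) {C : Finset (Cv k)} (ψ : ({v // v ∈ C} → W m) → ℝ)
    (Ξ : Fin k → W m) :
    Av (fun Z => (∏ i, g i (Z i)) * ψ (fun v => cmb Z (v : Cv k)) * cht Ξ Z) =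
      ∑ w : {v // v ∈ C} → W m, psh ψ w * ∏ i, ft (g i) (Ξ i + frq w i) := by
  have h1 : ∀ Z : Fin k → W m,
      (∏ i, g i (Z i)) * ψ (fun v => cmb Z (v : Cv k)) * cht Ξ Z =
        ∑ w : {v // v ∈ C} → W m, psh ψ w * ∏ i, (g i (Z i) * chw (Ξ i + frq w i) (Z i)) := by
    intro Z
    rw [foA_inv ψ, mul_sum, sum_mul]
    refine sum_congr rfl fun w _ => ?_
    have h2 : ∏ v : {v // v ∈ C}, chw (w v) (cmb Z (v : Cv k)) = ∏ i, chw (frq w i) (Z i) := by
      rw [prod_congr rfl fun (v : {v // v ∈ C}) _ => foA_chw_cmb (w v) (v : Cv k) Z, prod_comm]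
      refine prod_congr rfl fun i _ => ?_
      unfold frq
      rw [Lgv.tra_sum_left]
    rw [h2, prod_mul_distrib]
    have h3 : ∏ i, chw (Ξ i + frq w i) (Z i) = cht Ξ Z * ∏ i, chw (frq w i) (Z i) := by
      unfold cht
      rw [← prod_mul_distrib]
      exact prod_congr rfl fun i _ => Lin.chw_add _ _ _
    rw [h3]
    ring
  unfold Av
  rw [sum_congr rfl fun Z _ => h1 Z, sum_comm, sum_div]
  refine sum_congr rfl fun w _ => ?_
  rw [← mul_sum, mul_div_assoc]
  congr 1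
  have h4 := (Finset.prod_univ_sum (fun _ : Fin k => (univ : Finset (W m)))
    fun i x => g i x * chw (Ξ i + frq w i) x).symm
  rw [Fintype.piFinset_univ] at h4
  rw [h4]
  unfold ft
  rw [prod_div_distrib, prod_const, card_univ, Fintype.card_fin, ← pow_mul]

theorem psi_sq {C : Finset (Cv k)} (ψ : ({v // v ∈ C} → W m) → ℝ) :
    ∑ w, psh ψ w ^ 2 = (∑ y, ψ y ^ 2) / 2 ^ (m * C.card) := by
  have h1 : ∀ w : {v // v ∈ C} → W m, psh ψ w ^ 2 =
      ∑ y : {v // v ∈ C} → W m, (ψ y / 2 ^ (m * C.card)) * (psh ψ w * ∏ v, chw (w v) (y v)) := by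
    intro w
    have h2 : psh ψ w = ∑ y : {v // v ∈ C} → W m, ψ y / 2 ^ (m * C.card) * ∏ v, chw (w v) (y v) := by
      rw [psh, sum_div]
      exact sum_congr rfl fun y _ => by ring
    have h3 : psh ψ w ^ 2 = psh ψ w * psh ψ w := sq _
    rw [h3]
    nth_rewrite 1 [h2]
    rw [sum_mul]
    exact sum_congr rfl fun y _ => by ring
  rw [sum_congr rfl fun w _ => h1 w, sum_comm, sum_div]
  refine sum_congr rfl fun y _ => ?_
  rw [← mul_sum, ← foA_inv ψ y]
  ring

end Pool.Agent.Lib.MP_0430e4_lc.Llv
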