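import Pool.Agent.Lib.MP_0430e4_lc.Llv.Gre
import Pool.Agent.Lib.MP_0430e4_lc.Llv.CasA
import Pool.Agent.Lib.MP_0430e4_lc.Llv.CasB

/-!
# Gain: section 1.4, and the bound for the tiny words (section 1.5)

PROOF. `gain`: `greedy`. First alternative: `0 ≤ F ≤ 1`, `nt ≤ 1`: drop the factors `v ∈ T \ R` and `nt`, `casA`:
`(2 η)^|R| ≤ (ϑ^8)^|R| = ϑ^(8|R|) ≤ ϑ^|T|` (`ϑ ≤ 1`). Second: `casB`, `θ^|J| ≤ (ϑ^8)^|J| ≤ ϑ^|T|`: `θ ≤ η^(4q) ≤ η ≤ 2 η ≤ ϑ^8` (`q ≥ 1`).
`tin`: extend `T` by unit vectors `ev j`, `j ∈ J`, to a basis (`ind_extend`), drop the `g i (Z i)`, `i ∉ J` (between `0` and `1`),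
`prod_av` with `h v = t` for `v ∈ T`, `h (ev j) = g j`: `≤ (θ α)^|T| α^|J|`, `|T| + |J| = k` (`D.avt`, `two_av`).
`cas1`: `prod_av` on the standard basis (`C = univ.image ev`) or Finset.prod_univ_sum: the average is `∏ i, av1 (g i)`, `≤ α^|S| (θ α)^(k - |S|)`.
-/

set_option autoImplicit false

namespace Pool.Agent.Lib.MP_0430e4_lc.Llv

open Finset
open Pool.Agent.Lib.MP_0430e4_lc.Lin (W wt chw sg)
open Pool.Agent.Lib.MP_0430e4_lc.Lgv (ft bl cmb rk gg P wd Pz gc cht Gh)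

variable {m k : ℕ}

private theorem gain_F {F t : W m → ℝ} {α θ : ℝ} (D : Dat F t α θ) (x : W m) :
    0 ≤ F x ∧ F x ≤ 1 := by
  rcases D.F01 x with h | h <;> rw [h] <;> norm_num

private theorem gain_t {F t : W m → ℝ} {α θ : ℝ} (D : Dat F t α θ) (x : W m) :
    0 ≤ t x ∧ t x ≤ 1 := by
  rcases D.t01 x with h | h <;> rw [h] <;> norm_num

private theorem gain_g {F t : W m → ℝ} {α θ : ℝ} (D : Dat F t α θ) {S : Finset (Fin k)}
    {g : Fin k → W m → ℝ} (hg : Two S F t g) (i : Fin k) (x : W m) :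
    0 ≤ g i x ∧ g i x ≤ F x := by
  have h1 := D.tF x
  have h2 := gain_t D x
  by_cases hi : i ∈ S
  · rw [hg.1 i hi x]
    constructor <;> linarith
  · rw [hg.2 i hi x]
    exact ⟨h2.1, h1⟩

private theorem gain_nt (S : Finset (Fin k)) (t : W m → ℝ) (Z : Fin k → W m) :
    0 ≤ nt S t Z ∧ nt S t Z ≤ 1 := by
  classical
  unfold nt
  split_ifs <;> norm_num

private theorem gain_pow {ϑ x : ℝ} (h0 : 0 < ϑ) (h1 : ϑ ≤ 1) (hx0 : 0 ≤ x) (hx : x ≤ ϑ ^ 8)
    {a b : ℕ} (h : a ≤ 8 * b) : x ^ b ≤ ϑ ^ a := by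
  calc x ^ b ≤ (ϑ ^ 8) ^ b := pow_le_pow_left₀ hx0 hx b
    _ = ϑ ^ (8 * b) := by rw [pow_mul]
    _ ≤ ϑ ^ a := pow_le_pow_of_le_one h0.le h1 h

theorem gain {F t : W m → ℝ} {α θ η ϑ ζ : ℝ} {q : ℕ} (D : Dat F t α θ)
    (hP : Par m k α θ η ϑ ζ q) {S : Finset (Fin k)} {T : Finset (Cv k)} (hT : Ind T)
    (hTS : ∀ v ∈ T, SuppIn S v) (hTe : ∀ v ∈ T, ∀ i, v ≠ ev i) :
    Av (fun Z : Fin k → W m => (∏ i, F (Z i)) * (∏ v ∈ T, F (cmb Z v)) * nt S t Z) ≤
      α ^ k * ϑ ^ T.card := by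
  classical
  have hα := D.α0
  rcases greedy hT hTS with ⟨R, hRT, I0, I1, hd, h0, h1, hc, hi0, hi1⟩ | ⟨C, J, p, hCT, hc, hd, hC, hp, hinj⟩
  · have h2 := casA D hP.N hP.η0 hP.η1 hP.αη hP.θη (ind_mono hRT hT) hd h0 h1 hi0 hi1
    refine (av_mono fun Z => ?_).trans (h2.trans ?_)
    · have e1 : 0 ≤ ∏ i, F (Z i) := prod_nonneg fun i _ => (gain_F D _).1
      have e2 : 0 ≤ ∏ v ∈ R, F (cmb Z v) := prod_nonneg fun i _ => (gain_F D _).1
      have e3 : ∏ v ∈ T, F (cmb Z v) ≤ ∏ v ∈ R, F (cmb Z v) := by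
        rw [← prod_sdiff hRT]
        have e4 : ∏ v ∈ T \ R, F (cmb Z v) ≤ 1 :=
          prod_le_one (fun i _ => (gain_F D _).1) fun i _ => (gain_F D _).2
        calc (∏ v ∈ T \ R, F (cmb Z v)) * ∏ v ∈ R, F (cmb Z v) ≤ 1 * ∏ v ∈ R, F (cmb Z v) :=
              mul_le_mul_of_nonneg_right e4 e2
          _ = ∏ v ∈ R, F (cmb Z v) := one_mul _
      have e5 := gain_nt S t Z
      have e6 : 0 ≤ ∏ v ∈ T, F (cmb Z v) := prod_nonneg fun i _ => (gain_F D _).1
      calc (∏ i, F (Z i)) * (∏ v ∈ T, F (cmb Z v)) * nt S t Z ≤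
            (∏ i, F (Z i)) * (∏ v ∈ T, F (cmb Z v)) * 1 :=
              mul_le_mul_of_nonneg_left e5.2 (mul_nonneg e1 e6)
        _ = (∏ i, F (Z i)) * (∏ v ∈ T, F (cmb Z v)) := mul_one _
        _ ≤ (∏ i, F (Z i)) * ∏ v ∈ R, F (cmb Z v) := mul_le_mul_of_nonneg_left e3 e1
    · refine mul_le_mul_of_nonneg_left ?_ (by positivity)
      have hη := hP.η0
      exact gain_pow hP.ϑ0 hP.ϑ1 (by positivity) hP.ηϑ hc
  · have h2 := casB D hTe hCT hd hC hp hinj
    refine h2.trans ?_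
    refine mul_le_mul_of_nonneg_left ?_ (by positivity)
    have hη := hP.η0
    have hη1 := hP.η1
    have hθ : θ ≤ ϑ ^ 8 := by
      have e1 : η ^ (4 * q) ≤ η := by
        have hq := hP.q1
        calc η ^ (4 * q) ≤ η ^ 1 := pow_le_pow_of_le_one hη.le (by linarith) (by omega)
          _ = η := pow_one η
      have e2 := hP.ηϑ
      have e3 := hP.θη
      linarith
    exact gain_pow hP.ϑ0 hP.ϑ1 D.θ0 hθ hc

private theorem gain_av {F t : W m → ℝ} {α θ : ℝ} (D : Dat F t α θ) {S : Finset (Fin k)}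
    {g : Fin k → W m → ℝ} (hg : Two S F t g) (i : Fin k) :
    0 ≤ av1 (g i) ∧ av1 (g i) ≤ α :=
  ⟨av1_nonneg fun x => (gain_g D hg i x).1, (av1_mono fun x => (gain_g D hg i x).2).trans D.avF⟩

private theorem gain_h [DecidableEq (Cv k)] {T : Finset (Cv k)} (t : W m → ℝ) (g : Fin k → W m → ℝ)
    {i : Fin k} (hi : ev i ∉ T) (x : W m) :
    (if ev i ∈ T then t x else ∏ i', if (ev i' : Cv k) = ev i then g i' x else 1) = g i x := by
  rw [if_neg hi]
  have h : ∀ i', (ev i' : Cv k) = ev i ↔ i' = i := fun i' => ev_inj.eq_iff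
  simp_rw [h]
  rw [Finset.prod_ite_eq' univ i, if_pos (mem_univ _)]

theorem tin {F t : W m → ℝ} {α θ : ℝ} (D : Dat F t α θ) {S : Finset (Fin k)}
    {g : Fin k → W m → ℝ} (hg : Two S F t g) {T : Finset (Cv k)} (hT : Ind T) :
    Av (fun Z : Fin k → W m => (∏ i, g i (Z i)) * ∏ v ∈ T, t (cmb Z v)) ≤ α ^ k * θ ^ T.card := by
  classical
  obtain ⟨J, hd, hC, hc⟩ := ind_extend hT
  have hα := D.α0
  have hθ := D.θ0
  set h : Cv k → W m → ℝ := fun v x =>
    if v ∈ T then t x else ∏ i', if (ev i' : Cv k) = v then g i' x else 1 with hh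
  have hJ : ∀ i ∈ J, (ev i : Cv k) ∉ T := fun i hi hT' =>
    (Finset.disjoint_left.1 hd hT') (mem_image_of_mem _ hi)
  have e1 := prod_av (m := m) hC h
  have e2 : ∀ Z : Fin k → W m, ∏ v ∈ T ∪ J.image ev, h v (cmb Z v) =
      (∏ v ∈ T, t (cmb Z v)) * ∏ i ∈ J, g i (Z i) := by
    intro Z
    rw [prod_union hd, prod_image fun a _ b _ hab => ev_inj hab]
    congr 1
    · exact prod_congr rfl fun v hv => if_pos hv
    · refine prod_congr rfl fun i hi => ?_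
      have := gain_h t g (hJ i hi) (cmb Z (ev i))
      rw [cmb_ev] at this ⊢
      exact this
  have e3 : ∏ v ∈ T ∪ J.image ev, av1 (h v) = (∏ v ∈ T, av1 t) * ∏ i ∈ J, av1 (g i) := by
    rw [prod_union hd, prod_image fun a _ b _ hab => ev_inj hab]
    congr 1
    · refine prod_congr rfl fun v hv => ?_
      congr 1
      funext x
      exact if_pos hv
    · refine prod_congr rfl fun i hi => ?_
      congr 1
      funext x
      exact gain_h t g (hJ i hi) x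
  refine (av_mono fun Z => ?_).trans ((e1.trans e3).le.trans ?_)
  · rw [e2]
    have f1 : 0 ≤ ∏ i ∈ J, g i (Z i) := prod_nonneg fun i _ => (gain_g D hg i _).1
    have f2 : 0 ≤ ∏ v ∈ T, t (cmb Z v) := prod_nonneg fun v _ => (gain_t D _).1
    have f3 : ∏ i, g i (Z i) ≤ ∏ i ∈ J, g i (Z i) := by
      rw [← prod_sdiff (subset_univ J)]
      have f4 : ∏ i ∈ univ \ J, g i (Z i) ≤ 1 :=
        prod_le_one (fun i _ => (gain_g D hg i _).1)
          fun i _ => (gain_g D hg i _).2.trans (gain_F D _).2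
      calc (∏ i ∈ univ \ J, g i (Z i)) * ∏ i ∈ J, g i (Z i) ≤ 1 * ∏ i ∈ J, g i (Z i) :=
            mul_le_mul_of_nonneg_right f4 f1
        _ = ∏ i ∈ J, g i (Z i) := one_mul _
    calc (∏ i, g i (Z i)) * ∏ v ∈ T, t (cmb Z v) ≤ (∏ i ∈ J, g i (Z i)) * ∏ v ∈ T, t (cmb Z v) :=
          mul_le_mul_of_nonneg_right f3 f2
      _ = (∏ v ∈ T, t (cmb Z v)) * ∏ i ∈ J, g i (Z i) := mul_comm _ _
  · have f1 : ∏ _v ∈ T, av1 t ≤ (θ * α) ^ T.card := by
      rw [prod_const]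
      exact pow_le_pow_left₀ (av1_nonneg fun x => (gain_t D x).1) D.avt _
    have f2 : ∏ i ∈ J, av1 (g i) ≤ α ^ J.card := by
      calc ∏ i ∈ J, av1 (g i) ≤ ∏ _i ∈ J, α :=
            prod_le_prod (fun i _ => (gain_av D hg i).1) fun i _ => (gain_av D hg i).2
        _ = α ^ J.card := by rw [prod_const]
    have f3 : 0 ≤ ∏ i ∈ J, av1 (g i) := prod_nonneg fun i _ => (gain_av D hg i).1
    calc (∏ _v ∈ T, av1 t) * ∏ i ∈ J, av1 (g i) ≤ (θ * α) ^ T.card * α ^ J.card :=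
          mul_le_mul f1 f2 f3 (by positivity)
      _ = α ^ (T.card + J.card) * θ ^ T.card := by rw [mul_pow, pow_add]; ring
      _ = α ^ k * θ ^ T.card := by rw [hc]

theorem cas1 {F t : W m → ℝ} {α θ : ℝ} (D : Dat F t α θ) {S : Finset (Fin k)}
    {g : Fin k → W m → ℝ} (hg : Two S F t g) :
    Av (fun Z : Fin k → W m => ∏ i, g i (Z i)) ≤ α ^ k * θ ^ (k - S.card) := by
  classical
  obtain ⟨J, hd, hC, hc⟩ := ind_extend (k := k) ind_empty
  have hα := D.α0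
  have hθ := D.θ0
  have hJ : J = univ := by
    rw [← Finset.card_eq_iff_eq_univ, Fintype.card_fin]
    simpa using hc
  subst hJ
  rw [empty_union] at hC
  set h : Cv k → W m → ℝ := fun v x =>
    if v ∈ (∅ : Finset (Cv k)) then t x else ∏ i', if (ev i' : Cv k) = v then g i' x else 1 with hh
  have e1 := prod_av (m := m) hC h
  have e2 : ∀ Z : Fin k → W m, ∏ v ∈ (univ : Finset (Fin k)).image ev, h v (cmb Z v) =
      ∏ i, g i (Z i) := by
    intro Z
    rw [prod_image fun a _ b _ hab => ev_inj hab]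
    refine prod_congr rfl fun i hi => ?_
    have := gain_h t g (notMem_empty (ev i)) (cmb Z (ev i))
    rw [cmb_ev] at this ⊢
    exact this
  have e3 : ∏ v ∈ (univ : Finset (Fin k)).image ev, av1 (h v) = ∏ i, av1 (g i) := by
    rw [prod_image fun a _ b _ hab => ev_inj hab]
    refine prod_congr rfl fun i hi => ?_
    congr 1
    funext x
    exact gain_h t g (notMem_empty (ev i)) x
  have e4 : Av (fun Z : Fin k → W m => ∏ i, g i (Z i)) = ∏ i, av1 (g i) := by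
    rw [← e3, ← e1]
    congr 1
    funext Z
    exact (e2 Z).symm
  rw [e4, ← prod_sdiff (subset_univ S)]
  have f1 : ∏ i ∈ univ \ S, av1 (g i) ≤ (θ * α) ^ (k - S.card) := by
    calc ∏ i ∈ univ \ S, av1 (g i) ≤ ∏ _i ∈ univ \ S, θ * α := by
          refine prod_le_prod (fun i _ => (gain_av D hg i).1) fun i hi => ?_
          have hi' : i ∉ S := (mem_sdiff.1 hi).2
          have : g i = t := funext (hg.2 i hi')
          rw [this]
          exact D.avt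
      _ = (θ * α) ^ (k - S.card) := by
          rw [prod_const, card_sdiff_of_subset (subset_univ S), card_univ, Fintype.card_fin]
  have f2 : ∏ i ∈ S, av1 (g i) ≤ α ^ S.card := by
    calc ∏ i ∈ S, av1 (g i) ≤ ∏ _i ∈ S, α :=
          prod_le_prod (fun i _ => (gain_av D hg i).1) fun i _ => (gain_av D hg i).2
      _ = α ^ S.card := by rw [prod_const]
  have f3 : 0 ≤ ∏ i ∈ S, av1 (g i) := prod_nonneg fun i _ => (gain_av D hg i).1
  have hS : S.card ≤ k := by simpa using card_le_univ S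
  calc (∏ i ∈ univ \ S, av1 (g i)) * ∏ i ∈ S, av1 (g i) ≤
        (θ * α) ^ (k - S.card) * α ^ S.card := mul_le_mul f1 f2 f3 (by positivity)
    _ = α ^ (k - S.card + S.card) * θ ^ (k - S.card) := by rw [mul_pow, pow_add]; ring
    _ = α ^ k * θ ^ (k - S.card) := by rw [Nat.sub_add_cancel hS]

end Pool.Agent.Lib.MP_0430e4_lc.Llv
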