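import Pool.Agent.Lib.MP_0430e4_lc.Llv.DefsB
import Pool.Agent.Lib.MP_0430e4_lc.Llv.Chg
import Pool.Agent.Lib.MP_0430e4_lc.Llv.Prod

/-!
# Gcf: the product over all pairs in terms of `FX`; splitting of the variable words (section 2)

PROOF. `gc_eq`: `Pz u j` = the pairs `(a, b)` with `b ≠ 0`; for fixed `b` the product over `a` of `1 + phB B (cmb X a + cmb Z b)` is `0` if some
`B (cmb Z b + cmb X a)`, and `1` otherwise. `gc_le`: so `0 ≤ gc ≤ 1`. `Gh_eq_Av`: definitions.
`gc_split`: the pairs `(a, (b1, b2)) ≠ (a, 0)` for the words `Fin.append Z1 Z2` are those with `b1 ≠ 0` (a pair of `Pz (u + j2) j1`, the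
fixed words being `Fin.append X Z2` with coefficients `(a, b2)`) and those with `b1 = 0`, `b2 ≠ 0` (`Pz u j2`). Use `gc_eq` or reindex the
product by `Fin.appendEquiv`/`Fin.addCases`.
`good_append`: a nonzero combination of `Fin.append X Z2` has `b2 = 0` (then it is a nonzero combination of `X`) or `b2 ≠ 0`, and then `B` of it would make
a factor of `gc (phB B) X Z2` zero.
`gc_chg`: for a basis `b` of `Cv j`: `gc φ X Z = gc φ X (fun i => cmb Z (b i))` (reindex `b`-part of the pairs by the bijection `a ↦ ∑ a i • b i`, `chg_cmb`).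
-/

set_option autoImplicit false

namespace Pool.Agent.Lib.MP_0430e4_lc.Llv

open Finset
open Pool.Agent.Lib.MP_0430e4_lc.Lin (W wt chw sg)
open Pool.Agent.Lib.MP_0430e4_lc.Lgv (ft bl cmb rk gg P wd Pz gc cht Gh)

variable {m : ℕ}

/-- `gc` of `phB B` is an indicator. -/
private theorem gcf_ite (B : W m → Prop) {u j : ℕ} (X : Fin u → W m) (Z : Fin j → W m) :
    (¬ (∃ (a : Fin u → ZMod 2) (b : Fin j → ZMod 2), b ≠ 0 ∧ B (cmb X a + cmb Z b)) →
      gc (phB B) X Z = 1) ∧
    ((∃ (a : Fin u → ZMod 2) (b : Fin j → ZMod 2), b ≠ 0 ∧ B (cmb X a + cmb Z b)) →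
      gc (phB B) X Z = 0) := by
  classical
  constructor
  · intro h
    unfold gc
    apply Finset.prod_eq_one
    intro p hp
    have hp2 : p.2 ≠ 0 := by
      simpa [Pz] using hp
    have hB : ¬ B (wd X Z p) := fun hB => h ⟨p.1, p.2, hp2, hB⟩
    simp [phB, hB]
  · rintro ⟨a, b, hb, hB⟩
    unfold gc
    apply Finset.prod_eq_zero (i := ((a, b) : P u j))
    · simp [Pz, hb]
    · have : B (wd X Z (a, b)) := hB
      simp [phB, this]

private theorem gcf_append {u j : ℕ} (X : Fin u → W m) (Z : Fin j → W m)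
    (b : Fin (u + j) → ZMod 2) :
    cmb (Fin.append X Z) b =
      cmb X (fun i => b (Fin.castAdd j i)) + cmb Z (fun i => b (Fin.natAdd u i)) := by
  unfold cmb
  rw [Fin.sum_univ_add]
  simp only [Fin.append_left, Fin.append_right]

private theorem gcf_append' {u j : ℕ} (X : Fin u → W m) (Z : Fin j → W m)
    (a : Fin u → ZMod 2) (b : Fin j → ZMod 2) :
    cmb (Fin.append X Z) (Fin.append a b) = cmb X a + cmb Z b := by
  rw [gcf_append]
  simp only [Fin.append_left, Fin.append_right]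

private theorem gcf_cmb_zero {u : ℕ} (X : Fin u → W m) : cmb X 0 = 0 := by
  unfold cmb
  simp

theorem gc_eq (B : W m → Prop) {u j : ℕ} (X : Fin u → W m) (Z : Fin j → W m) :
    gc (phB B) X Z = ∏ v ∈ univ.erase (0 : Cv j), (1 - FX B X (cmb Z v)) := by
  classical
  by_cases h : ∃ (a : Fin u → ZMod 2) (b : Fin j → ZMod 2), b ≠ 0 ∧ B (cmb X a + cmb Z b)
  · rw [(gcf_ite B X Z).2 h]
    obtain ⟨a, b, hb, hB⟩ := h
    symm
    apply Finset.prod_eq_zero (i := b)
    · simp [hb]
    · have : ∃ a : Fin u → ZMod 2, B (cmb Z b + cmb X a) := ⟨a, by rw [add_comm]; exact hB⟩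
      simp [FX, this]
  · rw [(gcf_ite B X Z).1 h]
    symm
    apply Finset.prod_eq_one
    intro v hv
    have hv0 : v ≠ 0 := (Finset.mem_erase.mp hv).1
    have : ¬ ∃ a : Fin u → ZMod 2, B (cmb Z v + cmb X a) := by
      rintro ⟨a, ha⟩
      exact h ⟨a, v, hv0, by rw [add_comm]; exact ha⟩
    simp [FX, this]

theorem gc_le (B : W m → Prop) {u j : ℕ} (X : Fin u → W m) (Z : Fin j → W m) :
    0 ≤ gc (phB B) X Z ∧ gc (phB B) X Z ≤ 1 := by
  by_cases h : ∃ (a : Fin u → ZMod 2) (b : Fin j → ZMod 2), b ≠ 0 ∧ B (cmb X a + cmb Z b)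
  · rw [(gcf_ite B X Z).2 h]
    norm_num
  · rw [(gcf_ite B X Z).1 h]
    norm_num

theorem Gh_eq_Av (φ : W m → ℝ) {u j : ℕ} (X : Fin u → W m) (Θ : Fin j → W m) :
    Gh φ X Θ = Av fun Z : Fin j → W m => gc φ X Z * cht Θ Z := rfl

theorem gc_split (B : W m → Prop) {u j1 j2 : ℕ} (X : Fin u → W m) (Z1 : Fin j1 → W m)
    (Z2 : Fin j2 → W m) :
    gc (phB B) X (Fin.append Z1 Z2) = gc (phB B) (Fin.append X Z2) Z1 * gc (phB B) X Z2 := by
  classical
  by_cases h2 : ∃ (a : Fin u → ZMod 2) (b : Fin j2 → ZMod 2), b ≠ 0 ∧ B (cmb X a + cmb Z2 b)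
  · rw [(gcf_ite B X Z2).2 h2, mul_zero]
    obtain ⟨a, b, hb, hB⟩ := h2
    apply (gcf_ite B X (Fin.append Z1 Z2)).2
    refine ⟨a, Fin.append 0 b, ?_, ?_⟩
    · intro h0
      apply hb
      funext i
      have := congrFun h0 (Fin.natAdd j1 i)
      simpa [Fin.append_right] using this
    · rw [gcf_append', gcf_cmb_zero, zero_add]
      exact hB
  · rw [(gcf_ite B X Z2).1 h2, mul_one]
    by_cases h1 : ∃ (a : Fin (u + j2) → ZMod 2) (b : Fin j1 → ZMod 2), b ≠ 0 ∧
        B (cmb (Fin.append X Z2) a + cmb Z1 b)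
    · rw [(gcf_ite B (Fin.append X Z2) Z1).2 h1]
      obtain ⟨a, b, hb, hB⟩ := h1
      apply (gcf_ite B X (Fin.append Z1 Z2)).2
      refine ⟨fun i => a (Fin.castAdd j2 i), Fin.append b (fun i => a (Fin.natAdd u i)), ?_, ?_⟩
      · intro h0
        apply hb
        funext i
        have := congrFun h0 (Fin.castAdd j2 i)
        simpa [Fin.append_left] using this
      · rw [gcf_append']
        rw [gcf_append] at hB
        have e : cmb X (fun i => a (Fin.castAdd j2 i)) +
            (cmb Z1 b + cmb Z2 (fun i => a (Fin.natAdd u i))) =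
            cmb X (fun i => a (Fin.castAdd j2 i)) + cmb Z2 (fun i => a (Fin.natAdd u i)) +
              cmb Z1 b := by abel
        rw [e]
        exact hB
    · rw [(gcf_ite B (Fin.append X Z2) Z1).1 h1]
      apply (gcf_ite B X (Fin.append Z1 Z2)).1
      rintro ⟨a, b, hb, hB⟩
      rw [gcf_append] at hB
      by_cases hb1 : (fun i => b (Fin.castAdd j2 i)) = (0 : Fin j1 → ZMod 2)
      · apply h2
        refine ⟨a, fun i => b (Fin.natAdd j1 i), ?_, ?_⟩
        · intro h0
          apply hb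
          funext i
          refine Fin.addCases (fun i => ?_) (fun i => ?_) i
          · exact congrFun hb1 i
          · exact congrFun h0 i
        · rw [hb1, gcf_cmb_zero, zero_add] at hB
          exact hB
      · apply h1
        refine ⟨Fin.append a (fun i => b (Fin.natAdd j1 i)), fun i => b (Fin.castAdd j2 i),
          hb1, ?_⟩
        rw [gcf_append']
        have e : cmb X a + cmb Z2 (fun i => b (Fin.natAdd j1 i)) +
            cmb Z1 (fun i => b (Fin.castAdd j2 i)) =
            cmb X a + (cmb Z1 (fun i => b (Fin.castAdd j2 i)) +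
              cmb Z2 (fun i => b (Fin.natAdd j1 i))) := by abel
        rw [e]
        exact hB

theorem good_append {B : W m → Prop} {u j2 : ℕ} {X : Fin u → W m} (hX : GoodB B X)
    {Z2 : Fin j2 → W m} (h : gc (phB B) X Z2 ≠ 0) : GoodB B (Fin.append X Z2) := by
  intro a ha hB
  rw [gcf_append] at hB
  by_cases h2 : (fun i => a (Fin.natAdd u i)) = (0 : Fin j2 → ZMod 2)
  · rw [h2, gcf_cmb_zero, add_zero] at hB
    refine hX _ ?_ hB
    intro h0
    apply ha
    funext i
    refine Fin.addCases (fun i => ?_) (fun i => ?_) i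
    · exact congrFun h0 i
    · exact congrFun h2 i
  · exact h ((gcf_ite B X Z2).2 ⟨_, _, h2, hB⟩)

theorem gc_chg (B : W m → Prop) {u j : ℕ} (X : Fin u → W m) {b : Fin j → Cv j}
    (hb : LinearIndependent (ZMod 2) b) (Z : Fin j → W m) :
    gc (phB B) X Z = gc (phB B) X fun i => cmb Z (b i) := by
  by_cases h : ∃ (a : Fin u → ZMod 2) (c : Fin j → ZMod 2), c ≠ 0 ∧ B (cmb X a + cmb Z c)
  · rw [(gcf_ite B X Z).2 h]
    obtain ⟨a, v, hv, hB⟩ := h
    symm
    apply (gcf_ite B X _).2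
    obtain ⟨c, hc⟩ := chg_surj hb v
    refine ⟨a, c, ?_, ?_⟩
    · intro h0
      apply hv
      rw [← hc, h0]
      simp
    · rw [← chg_cmb, hc]
      exact hB
  · rw [(gcf_ite B X Z).1 h]
    symm
    apply (gcf_ite B X _).1
    rintro ⟨a, c, hc, hB⟩
    apply h
    refine ⟨a, ∑ i, c i • b i, ?_, ?_⟩
    · intro h0
      apply hc
      funext i
      exact Fintype.linearIndependent_iff.mp hb c h0 i
    · rw [chg_cmb]
      exact hB

end Pool.Agent.Lib.MP_0430e4_lc.Llv
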