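import Pool.Agent.Lib.MP_0430e4_lc.Llv.GreV

/-!
# Gre: the greedy choice (section 1.4, GREEDY and the combinatorial part of CASE B)

PROOF. Among the triples `(R, I0, I1)` with `R ⊆ T`, `Disjoint I0 I1`, `|I0| = |I1| = |R|`, `Info R I0`, `Info R I1` (there is one:
`R = I0 = I1 = ∅`) take one with `r = |R|` maximal (`Finset.exists_max_image` on a filter of `powerset ×ˢ ..`, or `Nat.findGreatest`).
If `|T| ≤ 8 r`: first alternative. Otherwise let `V = spn R ⊔ spn ((I0 ∪ I1).image ev)` `= spn G`, `G = R ∪ (I0 ∪ I1).image ev` (`Submodule.span_union`),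
`finrank V ≤ |G| ≤ 3 r`. `R` is independent (`ind_mono`).
For `v ∈ T \ R` the first alternative of `aug` contradicts maximality (`insert v R ⊆ T`, cards `r + 1`; `insert i0 I0`, `insert i1 I1` disjoint),
so `v ∈ V` or `v + ev i ∈ V` for some `i`. Let `T1 = {v ∈ T | v ∉ V}` (disjoint from `R` because `R ⊆ V`); the other elements of `T` are an
independent set in `V`, so there are at most `3 r` of them (`card_le_finrank`), `|T1| ≥ |T| - 3r`. Choose `j v` with `v + ev (j v) ∈ V` for `v ∈ T1`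
(`Fin k` is nonempty if `T1` is; `classical choose`). `gre_ext` gives `J ⊆ T1.image j` with `|T1| ≤ |J| + 3r`, so `|T| ≤ |J| + 6r`, and `|T| ≤ 8|J|`
since `8 r < |T|`. For `i ∈ J` let `p i ∈ T1` be a `v` with `j v = i`.
`C ⊆ G` a basis of `V` (`basis_sub`): `spn C = V`, `Ind C`. `C ∪ J.image ev` is independent and `Disjoint C (J.image ev)` by `ind_union`.
`p i ∉ C` because `p i ∉ V`. `Set.InjOn p J`: `p i = p i'` gives `i = j (p i) = j (p i') = i'`.
`SuppIn S (p i + ev i)`: all elements of `R` are supported in `S`, and `I0, I1 ⊆ S` by `info_sub`, so all elements of `G` are supported in `S`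
and so are those of `V` (`supp_spn`); `p i + ev i ∈ V`.
-/

set_option autoImplicit false

namespace Pool.Agent.Lib.MP_0430e4_lc.Llv

open Finset
open Pool.Agent.Lib.MP_0430e4_lc.Lin (W wt chw sg)
open Pool.Agent.Lib.MP_0430e4_lc.Lgv (ft bl cmb rk gg P wd Pz gc cht Gh)

variable {k : ℕ}

private theorem gre_two (x : ZMod 2) : x + x = 0 := CharTwo.add_self_eq_zero x

private theorem gre_info_empty : Info (∅ : Finset (Cv k)) ∅ := by
  intro x hx _
  unfold spn at hx
  rw [Finset.coe_empty, Submodule.span_empty, Submodule.mem_bot] at hx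
  exact hx

/-- The property of the number of elements of an admissible triple. -/
private def GreP (T : Finset (Cv k)) (r : ℕ) : Prop :=
  ∃ R ⊆ T, ∃ I0 I1 : Finset (Fin k), R.card = r ∧ Disjoint I0 I1 ∧ I0.card = R.card ∧
    I1.card = R.card ∧ Info R I0 ∧ Info R I1

private theorem gre_max (T : Finset (Cv k)) : ∃ r, GreP T r ∧ ∀ r', GreP T r' → r' ≤ r := by
  classical
  have hP0 : GreP T 0 :=
    ⟨∅, empty_subset _, ∅, ∅, rfl, disjoint_empty_left _, rfl, rfl, gre_info_empty, gre_info_empty⟩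
  refine ⟨Nat.findGreatest (GreP T) T.card, Nat.findGreatest_spec (Nat.zero_le _) hP0, ?_⟩
  intro r' hr'
  refine Nat.le_findGreatest ?_ hr'
  obtain ⟨R, hR, _, _, hc, _⟩ := hr'
  rw [← hc]
  exact card_le_card hR

theorem greedy {S : Finset (Fin k)} {T : Finset (Cv k)} (hT : Ind T) (hTS : ∀ v ∈ T, SuppIn S v) :
    (∃ R ⊆ T, ∃ I0 I1 : Finset (Fin k), Disjoint I0 I1 ∧ I0.card = R.card ∧ I1.card = R.card ∧
      T.card ≤ 8 * R.card ∧ Info R I0 ∧ Info R I1) ∨
    ∃ (C : Finset (Cv k)) (J : Finset (Fin k)) (p : Fin k → Cv k),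
      C ⊆ T ∪ univ.image ev ∧ T.card ≤ 8 * J.card ∧ Disjoint C (J.image ev) ∧
      Ind (C ∪ J.image ev) ∧
      (∀ i ∈ J, p i ∈ T ∧ p i ∉ C ∧ p i + ev i ∈ spn C ∧ SuppIn S (p i + ev i)) ∧
      Set.InjOn p (J : Set (Fin k)) := by
  classical
  obtain ⟨r, ⟨R, hRT, I0, I1, hRr, hd, h0, h1, hi0, hi1⟩, hmax⟩ := gre_max T
  by_cases hT8 : T.card ≤ 8 * R.card
  · exact Or.inl ⟨R, hRT, I0, I1, hd, h0, h1, hT8, hi0, hi1⟩
  right
  have hRi : Ind R := ind_mono hRT hT
  obtain ⟨V, hVdef⟩ : ∃ V, V = spn (R ∪ (I0 ∪ I1).image ev) := ⟨_, rfl⟩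
  have hV : spn R ⊔ spn ((I0 ∪ I1).image ev) = V := by
    rw [hVdef]
    unfold spn
    rw [Finset.coe_union, Submodule.span_union]
  have hVf : Module.finrank (ZMod 2) V ≤ 3 * R.card := by
    have e1 : Module.finrank (ZMod 2) V ≤ (R ∪ (I0 ∪ I1).image ev).card := by
      rw [hVdef]
      exact finrank_span_finset_le_card _
    have e2 := card_union_le R ((I0 ∪ I1).image ev)
    have e3 : ((I0 ∪ I1).image (ev : Fin k → Cv k)).card ≤ (I0 ∪ I1).card := card_image_le
    have e4 := card_union_le I0 I1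
    omega
  have hRV : ∀ v ∈ R, v ∈ V := by
    intro v hv
    rw [hVdef]
    exact Submodule.subset_span (mem_coe.2 (mem_union_left _ hv))
  have key : ∀ v ∈ T, v ∉ V → ∃ i, v + ev i ∈ V := by
    intro v hv hvV
    have hvR : v ∉ R := fun h => hvV (hRV v h)
    rcases aug hRi hd h0 h1 hi0 hi1 v with ⟨i0, i1, a0, a1, a2, a3, a4⟩ | h | ⟨i, _, hi⟩
    · exfalso
      rw [mem_union, not_or] at a0 a1
      have hP : GreP T (r + 1) := by
        refine ⟨insert v R, ?_, insert i0 I0, insert i1 I1, ?_, ?_, ?_, ?_, a3, a4⟩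
        · exact insert_subset hv hRT
        · rw [card_insert_of_notMem hvR, hRr]
        · rw [disjoint_insert_left, disjoint_insert_right, mem_insert, not_or]
          exact ⟨⟨a2, a0.2⟩, a1.1, hd⟩
        · rw [card_insert_of_notMem hvR, card_insert_of_notMem a0.1, h0]
        · rw [card_insert_of_notMem hvR, card_insert_of_notMem a1.2, h1]
      have := hmax _ hP
      omega
    · rw [hV] at h
      exact absurd h hvV
    · rw [hV] at hi
      exact ⟨i, hi⟩
  obtain ⟨T1, hT1⟩ : ∃ T1, T1 = T.filter fun v => v ∉ V := ⟨_, rfl⟩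
  have hT1T : T1 ⊆ T := by
    rw [hT1]
    exact filter_subset _ _
  have hT1V : ∀ v ∈ T1, v ∉ V := by
    intro v hv
    rw [hT1, mem_filter] at hv
    exact hv.2
  have hc1 : (T.filter fun v => v ∈ V).card ≤ Module.finrank (ZMod 2) V :=
    card_le_finrank (ind_mono (filter_subset _ _) hT) fun v hv => (mem_filter.1 hv).2
  have hc2 : (T.filter fun v => v ∈ V).card + T1.card = T.card := by
    rw [hT1]
    exact card_filter_add_card_filter_not _
  have hne : T1.Nonempty := by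
    rw [← card_pos]
    omega
  obtain ⟨v0, hv0⟩ := hne
  obtain ⟨i00, _⟩ := key v0 (hT1T hv0) (hT1V v0 hv0)
  have hj0 : ∀ v : Cv k, ∃ i, v ∈ T1 → v + ev i ∈ V := by
    intro v
    by_cases hv : v ∈ T1
    · obtain ⟨i, hi⟩ := key v (hT1T hv) (hT1V v hv)
      exact ⟨i, fun _ => hi⟩
    · exact ⟨i00, fun h => absurd h hv⟩
  choose j hj using hj0
  obtain ⟨J, hJ1, hJ2, hJ3, hJ4⟩ := gre_ext (V := V) (ind_mono hT1T hT) j hj
  obtain ⟨C, hCG, hC, hCs⟩ := basis_sub (R ∪ (I0 ∪ I1).image ev)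
  rw [← hVdef] at hCs
  have hp0 : ∀ i : Fin k, ∃ v : Cv k, i ∈ J → v ∈ T1 ∧ j v = i := by
    intro i
    by_cases hi : i ∈ J
    · obtain ⟨v, hv, hvi⟩ := mem_image.1 (hJ1 hi)
      exact ⟨v, fun _ => ⟨hv, hvi⟩⟩
    · exact ⟨0, fun h => absurd h hi⟩
  choose p hp using hp0
  have hun := ind_union hC hJ3 (by rw [hCs]; exact hJ4)
  have hCS : ∀ v ∈ C, SuppIn S v := by
    intro v hv
    rcases mem_union.1 (hCG hv) with h | h
    · exact hTS v (hRT h)
    · obtain ⟨i, hi, rfl⟩ := mem_image.1 h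
      have hiS : i ∈ S := by
        rcases mem_union.1 hi with h' | h'
        · exact info_sub hRi (fun v hv => hTS v (hRT hv)) h0 hi0 h'
        · exact info_sub hRi (fun v hv => hTS v (hRT hv)) h1 hi1 h'
      intro l hl
      by_contra hlS
      apply hl
      unfold ev
      rw [Pi.single_eq_of_ne]
      rintro rfl
      exact hlS hiS
  refine ⟨C, J, p, ?_, ?_, hun.1, hun.2, ?_, ?_⟩
  · intro v hv
    rcases mem_union.1 (hCG hv) with h | h
    · exact mem_union_left _ (hRT h)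
    · obtain ⟨i, _, rfl⟩ := mem_image.1 h
      exact mem_union_right _ (mem_image_of_mem _ (mem_univ i))
  · omega
  · intro i hi
    obtain ⟨hp1, hp2⟩ := hp i hi
    have hV1 : p i + ev i ∈ spn C := by
      have h2 := hj (p i) hp1
      rw [hp2] at h2
      rw [hCs]
      exact h2
    refine ⟨hT1T hp1, ?_, hV1, supp_spn hCS hV1⟩
    intro hpC
    apply hT1V _ hp1
    rw [← hCs]
    exact Submodule.subset_span (mem_coe.2 hpC)
  · intro i hi i' hi' hii
    rw [← (hp i (mem_coe.1 hi)).2, ← (hp i' (mem_coe.1 hi')).2, hii]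

end Pool.Agent.Lib.MP_0430e4_lc.Llv
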