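import Pool.Agent.Lib.MP_0430e4_lc.Llv.Aug
import Pool.Agent.Lib.MP_0430e4_lc.Llv.Lin0

/-!
# GreV: three lemmas for the greedy choice (section 1.4)

PROOF. `supp_spn`: `SuppIn S` is closed under sums (`Submodule.span_induction`; or the span is contained in the submodule of the vectors supported in `S`).
`info_sub`: let `i ∈ I`; `exists_eq_on` (module Aug) with `v = ev i` gives `r ∈ spn R` with `r i = 1`; `r` is supported in `S` by `supp_spn`, so `i ∈ S`.
`gre_ext`: among the `J ⊆ T1.image j` with `Ind (J.image ev)` and `Disjoint V (spn (J.image ev))` (`∅` is one: `ind_empty`, `spn ∅ = ⊥`) take one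
with `|J|` maximal (`Finset.exists_max_image` on a filter of the powerset). For every `i ∈ T1.image j`: `ev i ∈ V ⊔ spn (J.image ev)`. Otherwise `i ∉ J`,
`insert i J` is again independent (`ind_insert`: `ev i ∉ spn (J.image ev)`), and `Disjoint V (spn (insert (ev i) (J.image ev)))`: an element of both is
`c ev i + w`, `w ∈ spn (J.image ev)`; `c = 0`: it is `0` by disjointness; `c = 1`: `ev i = x + w ∈ V ⊔ spn (J.image ev)`, excluded
(`Submodule.mem_span_insert`, every `c : ZMod 2` is `0` or `1`). This contradicts the maximality.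
So every `v ∈ T1`, `v = (v + ev (j v)) + ev (j v)` (`x + x = 0`), is in `V ⊔ spn (J.image ev)`, so `|T1| ≤ finrank (V ⊔ spn (J.image ev))` (`card_le_finrank`)
`≤ finrank V + finrank (spn (J.image ev))` (`Submodule.finrank_add_le_finrank_add_finrank` or `finrank_sup_add_finrank_inf_eq`) `= finrank V + |J|`
(`finrank_spn`, `card_image_of_injective ev_inj`).
-/

set_option autoImplicit false

namespace Pool.Agent.Lib.MP_0430e4_lc.Llv

open Finset
open Pool.Agent.Lib.MP_0430e4_lc.Lin (W wt chw sg)
open Pool.Agent.Lib.MP_0430e4_lc.Lgv (ft bl cmb rk gg P wd Pz gc cht Gh)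

variable {k : ℕ}

private theorem grev_self (v : Cv k) : v + v = 0 := by
  funext i
  exact CharTwo.add_self_eq_zero (v i)

private theorem grev_zm (a : ZMod 2) : a = 0 ∨ a = 1 := by
  revert a
  decide

theorem supp_spn {S : Finset (Fin k)} {C : Finset (Cv k)} (h : ∀ v ∈ C, SuppIn S v) {v : Cv k}
    (hv : v ∈ spn C) : SuppIn S v := by
  unfold spn at hv
  induction hv using Submodule.span_induction with
  | mem x hx => exact h x hx
  | zero => intro i hi; exact absurd rfl hi
  | add x y _ _ hx hy =>
    intro i hi
    by_contra hiS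
    have h1 : x i = 0 := by
      by_contra h2
      exact hiS (hx i h2)
    have h2 : y i = 0 := by
      by_contra h3
      exact hiS (hy i h3)
    exact hi (by rw [Pi.add_apply, h1, h2, add_zero])
  | smul a x _ hx =>
    intro i hi
    by_contra hiS
    have h1 : x i = 0 := by
      by_contra h2
      exact hiS (hx i h2)
    exact hi (by rw [Pi.smul_apply, h1, smul_zero])

theorem info_sub {S : Finset (Fin k)} {R : Finset (Cv k)} (hR : Ind R) (hRS : ∀ v ∈ R, SuppIn S v)
    {I : Finset (Fin k)} (hc : I.card = R.card) (hI : Info R I) : I ⊆ S := by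
  intro i hi
  obtain ⟨r, hr, h⟩ := exists_eq_on hR hc hI (ev i)
  refine supp_spn hRS hr i ?_
  rw [h i hi, ev, Pi.single_eq_same]
  exact one_ne_zero

theorem gre_ext {V : Submodule (ZMod 2) (Cv k)} {T1 : Finset (Cv k)} (hT : Ind T1)
    (j : Cv k → Fin k) (hj : ∀ v ∈ T1, v + ev (j v) ∈ V) :
    ∃ J ⊆ T1.image j, T1.card ≤ J.card + Module.finrank (ZMod 2) V ∧ Ind (J.image ev) ∧
      Disjoint V (spn (J.image ev)) := by
  classical
  have hne : ((T1.image j).powerset.filter
      (fun J => Ind (J.image ev) ∧ Disjoint V (spn (J.image ev)))).Nonempty := by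
    refine ⟨∅, mem_filter.mpr ⟨empty_mem_powerset _, ?_⟩⟩
    rw [image_empty]
    refine ⟨ind_empty, ?_⟩
    rw [spn, coe_empty, Submodule.span_empty]
    exact disjoint_bot_right
  obtain ⟨J, hJ, hmax⟩ := exists_max_image _ Finset.card hne
  rw [mem_filter, mem_powerset] at hJ
  obtain ⟨hJ1, hJi, hJd⟩ := hJ
  have hall : ∀ i ∈ T1.image j, ev i ∈ V ⊔ spn (J.image ev) := by
    intro i hi
    by_contra hni
    have hiJ : i ∉ J := by
      intro h
      apply hni
      refine Submodule.mem_sup_right (Submodule.subset_span ?_)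
      exact mem_coe.mpr (mem_image_of_mem ev h)
    have hns : ev i ∉ spn (J.image ev) := fun h => hni (Submodule.mem_sup_right h)
    obtain ⟨_, hind⟩ := ind_insert hJi hns
    have himg : (insert i J).image ev = insert (ev i) (J.image ev) := image_insert _ _ _
    have hdis : Disjoint V (spn (insert (ev i) (J.image ev))) := by
      rw [Submodule.disjoint_def]
      intro x hxV hx
      unfold spn at hx
      rw [coe_insert, Submodule.mem_span_insert] at hx
      obtain ⟨a, z, hz, rfl⟩ := hx
      rcases grev_zm a with rfl | rfl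
      · rw [zero_smul, zero_add] at hxV ⊢
        exact Submodule.disjoint_def.mp hJd z hxV hz
      · exfalso
        apply hni
        rw [one_smul] at hxV
        have h1 : ev i = (ev i + z) + z := by rw [add_assoc, grev_self, add_zero]
        rw [h1]
        exact Submodule.add_mem_sup hxV hz
    have h1 := hmax (insert i J) (mem_filter.mpr ⟨mem_powerset.mpr (insert_subset hi hJ1),
      by rw [himg]; exact ⟨hind, hdis⟩⟩)
    rw [card_insert_of_notMem hiJ] at h1
    omega
  refine ⟨J, hJ1, ?_, hJi, hJd⟩
  have hmem : ∀ v ∈ T1, v ∈ V ⊔ spn (J.image ev) := by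
    intro v hv
    have h1 : v = (v + ev (j v)) + ev (j v) := by rw [add_assoc, grev_self, add_zero]
    rw [h1]
    exact Submodule.add_mem _ (Submodule.mem_sup_left (hj v hv))
      (hall _ (mem_image_of_mem j hv))
  have h1 := card_le_finrank hT hmem
  have h2 := Submodule.finrank_add_le_finrank_add_finrank V (spn (J.image ev))
  rw [finrank_spn hJi, card_image_of_injective J ev_inj] at h2
  omega

end Pool.Agent.Lib.MP_0430e4_lc.Llv
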