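import Pool.Agent.Lib.MP_0430e4_lc.Llv.DefsB
import Pool.Agent.Lib.MP_0430e4_lc.Lgv.PRB
import Pool.Agent.Lib.MP_0430e4_lc.Lgv.FINB

/-!
# Lens: the intersection of two balls (section 5)

PROOF. `r = δ / (1 - δ)`, `r < 1`, `s = √r`. `[wt x < d] ≤ s^(wt x) / s^d` (`s ≤ 1`; as `Lgv.PRB_bl_le` with `r := s`). So the sum is at most
`s^(-2d) ∑ x, s^(wt x + wt (x + u))`, and the sum factors over the coordinates: a coordinate `i` with `u i = 0` gives `1 + s^2 = 1 + r`, one with `u i = 1` gives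
`2 s`. So it is `r^(-d) (1 + r)^(n - wt u) (2 s)^(wt u)`; `(1+r) / 2 = 1 / (2 (1 - δ))`, `r^(-d) = ((1-δ)/δ)^d`, and `2 s / (1 + r) = 2 √(δ(1-δ)) = kap δ`
(`s (1-δ) = √(δ (1-δ))`). `bet_shift`: `bet δ n d1 = bet δ n d * r^(d - d1)`. `kap_lt`: `4 δ (1-δ) < 1`.
-/

set_option autoImplicit false

namespace Pool.Agent.Lib.MP_0430e4_lc.Llv

open Finset
open Pool.Agent.Lib.MP_0430e4_lc.Lin (W wt chw sg)
open Pool.Agent.Lib.MP_0430e4_lc.Lgv (ft bl cmb rk gg P wd Pz gc cht Gh bet PRB_pow_wt PRB_bl_le PRB_bl_nonneg)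

variable {n : ℕ}

theorem kap_pos {δ : ℝ} (h0 : 0 < δ) (h1 : δ < 1 / 2) : 0 < kap δ := by
  unfold kap
  have h2 : 0 < δ * (1 - δ) := mul_pos h0 (by linarith)
  have h3 : 0 < Real.sqrt (δ * (1 - δ)) := Real.sqrt_pos.2 h2
  linarith

theorem kap_lt {δ : ℝ} (h0 : 0 < δ) (h1 : δ < 1 / 2) : kap δ < 1 := by
  unfold kap
  have h2 : Real.sqrt (δ * (1 - δ)) < 1 / 2 := by
    rw [Real.sqrt_lt' (by norm_num)]
    nlinarith
  linarith

private theorem lens_sum (s : ℝ) (u : W n) :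
    ∑ x : W n, ∏ i, ((if x i = 0 then (1 : ℝ) else s) * (if (x + u) i = 0 then (1 : ℝ) else s)) =
      ∏ i, (if u i = 0 then 1 + s ^ 2 else 2 * s) := by
  classical
  have h1 := Finset.prod_univ_sum (fun _ : Fin n => (univ : Finset (ZMod 2)))
    (fun i a => (if a = 0 then (1 : ℝ) else s) * (if a + u i = 0 then (1 : ℝ) else s))
  rw [Fintype.piFinset_univ] at h1
  have h2 : ∀ i : Fin n, ∑ a : ZMod 2,
      (if a = 0 then (1 : ℝ) else s) * (if a + u i = 0 then (1 : ℝ) else s) =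
      if u i = 0 then 1 + s ^ 2 else 2 * s := by
    intro i
    have h3 : ∀ b : ZMod 2, ∑ a : ZMod 2,
      (if a = 0 then (1 : ℝ) else s) * (if a + b = 0 then (1 : ℝ) else s) =
      if b = 0 then 1 + s ^ 2 else 2 * s := by
      intro b
      have h4 : ∀ f : ZMod 2 → ℝ, ∑ a : ZMod 2, f a = f 0 + f 1 := fun f => Fin.sum_univ_two f
      rw [h4]
      have h5 : b = 0 ∨ b = 1 := by
        revert b
        decide
      rcases h5 with rfl | rfl
      · have e1 : ¬ ((1 : ZMod 2) = 0) := by decide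
        simp [e1]
        ring
      · have e1 : ¬ ((1 : ZMod 2) = 0) := by decide
        have e2 : (1 : ZMod 2) + 1 = 0 := by decide
        simp [e1, e2]
        ring
    exact h3 (u i)
  rw [← Finset.prod_congr rfl fun i _ => h2 i, h1]
  rfl

theorem lens {δ : ℝ} (h0 : 0 < δ) (h1 : δ < 1 / 2) (d : ℕ) (u : W n) :
    av1 (fun x : W n => bl d x * bl d (x + u)) ≤ bet δ n d * kap δ ^ wt u := by
  classical
  have hd1 : 0 < 1 - δ := by linarith
  set r := δ / (1 - δ) with hr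
  have hr0 : 0 < r := div_pos h0 hd1
  have hr1 : r ≤ 1 := by
    rw [hr, div_le_one hd1]
    linarith
  set s := Real.sqrt r with hs
  have hs0 : 0 < s := Real.sqrt_pos.2 hr0
  have hss : s ^ 2 = r := Real.sq_sqrt hr0.le
  have hs1 : s ≤ 1 := by
    rw [hs, Real.sqrt_le_iff]
    exact ⟨zero_le_one, by rw [one_pow]; exact hr1⟩
  have hk : 2 * s = (1 + s ^ 2) * kap δ := by
    have e1 : s * (1 - δ) = Real.sqrt (δ * (1 - δ)) := by
      have e2 : δ * (1 - δ) = r * (1 - δ) ^ 2 := by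
        rw [hr]
        field_simp
      rw [e2, Real.sqrt_mul hr0.le, Real.sqrt_sq hd1.le]
    have e3 : 1 + s ^ 2 = 1 / (1 - δ) := by
      rw [hss, hr]
      field_simp
      ring
    rw [e3]
    unfold kap
    rw [← e1]
    field_simp
  have h2 : ∀ x : W n, bl d x * bl d (x + u) ≤ ((1 / s) ^ d) ^ 2 *
      ∏ i, ((if x i = 0 then (1 : ℝ) else s) * (if (x + u) i = 0 then (1 : ℝ) else s)) := by
    intro x
    rw [prod_mul_distrib]
    calc bl d x * bl d (x + u) ≤ ((1 / s) ^ d * ∏ i, (if x i = 0 then (1 : ℝ) else s)) *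
          ((1 / s) ^ d * ∏ i, (if (x + u) i = 0 then (1 : ℝ) else s)) :=
          mul_le_mul (PRB_bl_le hs0 hs1 d x) (PRB_bl_le hs0 hs1 d (x + u))
            (PRB_bl_nonneg d _) (by
              refine mul_nonneg (by positivity) (prod_nonneg fun i _ => ?_)
              split_ifs
              · norm_num
              · exact hs0.le)
      _ = _ := by ring
  have h3 : ∑ x : W n, bl d x * bl d (x + u) ≤
      ((1 / s) ^ d) ^ 2 * ((1 + s ^ 2) ^ n * kap δ ^ wt u) := by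
    calc ∑ x : W n, bl d x * bl d (x + u) ≤ ∑ x : W n, ((1 / s) ^ d) ^ 2 *
        ∏ i, ((if x i = 0 then (1 : ℝ) else s) * (if (x + u) i = 0 then (1 : ℝ) else s)) :=
          sum_le_sum fun x _ => h2 x
      _ = ((1 / s) ^ d) ^ 2 * ∏ i, (if u i = 0 then 1 + s ^ 2 else 2 * s) := by
          rw [← mul_sum, lens_sum]
      _ = ((1 / s) ^ d) ^ 2 * ((1 + s ^ 2) ^ n * kap δ ^ wt u) := by
          congr 1
          rw [← PRB_pow_wt (kap δ) u]
          have e1 : ∀ i, (if u i = 0 then 1 + s ^ 2 else 2 * s) =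
              (1 + s ^ 2) * (if u i = 0 then (1 : ℝ) else kap δ) := by
            intro i
            split_ifs
            · rw [mul_one]
            · exact hk
          rw [prod_congr rfl fun i _ => e1 i, prod_mul_distrib, prod_const, card_univ,
            Fintype.card_fin]
  unfold av1
  have h4 : (0 : ℝ) < 2 ^ n := by positivity
  calc (∑ x : W n, bl d x * bl d (x + u)) / 2 ^ n ≤
        ((1 / s) ^ d) ^ 2 * ((1 + s ^ 2) ^ n * kap δ ^ wt u) / 2 ^ n :=
        div_le_div_of_nonneg_right h3 h4.le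
    _ = bet δ n d * kap δ ^ wt u := by
        unfold bet
        have e1 : ((1 / s) ^ d) ^ 2 = ((1 - δ) / δ) ^ d := by
          rw [← pow_mul, mul_comm d 2, pow_mul, one_div, inv_pow, hss, hr, inv_div]
        have e2 : (1 + s ^ 2) ^ n = (1 / (2 * (1 - δ))) ^ n * 2 ^ n := by
          rw [← mul_pow]
          congr 1
          rw [hss, hr]
          field_simp
          ring
        rw [e1, e2]
        field_simp

theorem bet_shift {δ : ℝ} (h0 : 0 < δ) (h1 : δ < 1 / 2) (n : ℕ) {d d1 : ℕ} (h : d1 ≤ d) :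
    bet δ n d1 = bet δ n d * (δ / (1 - δ)) ^ (d - d1) := by
  obtain ⟨e, rfl⟩ := Nat.exists_eq_add_of_le h
  have hd1 : 0 < 1 - δ := by linarith
  unfold bet
  rw [Nat.add_sub_cancel_left, pow_add]
  have e1 : ((1 - δ) / δ) ^ e * (δ / (1 - δ)) ^ e = 1 := by
    rw [← mul_pow]
    have e2 : (1 - δ) / δ * (δ / (1 - δ)) = 1 := by
      field_simp
    rw [e2, one_pow]
  calc ((1 - δ) / δ) ^ d1 * (1 / (2 * (1 - δ))) ^ n =
        ((1 - δ) / δ) ^ d1 * (1 / (2 * (1 - δ))) ^ n * (((1 - δ) / δ) ^ e * (δ / (1 - δ)) ^ e) := by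
        rw [e1, mul_one]
    _ = _ := by ring

end Pool.Agent.Lib.MP_0430e4_lc.Llv
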