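import Pool.Agent.Lib.MP_0430e4_lc.Llv.Defs

/-!
# Num1: the sums of section 1.6

`B = 2^k`. PROOF. Write `B i`-th powers. `num_theta`: `θ ≤ η^(4q) ≤ η ≤ 2 η ≤ ϑ^8 ≤ ϑ`. From `ϑζ`: `2 B ϑ ≤ ζ^8` and `2 B^2 θ ≤ ζ^8` (`4^k = B^2 ≥ B`, `θ ≤ ϑ`).
`num_h`: `θ^h ≤ (ζ^8)^h = ζ^(8h) ≤ ζ^k` if `k ≤ 8 h`. `num_a`: for `k ≤ 8 ν`: `B^ν ϑ^ν ≤ (ζ^8/2)^ν ≤ ζ^k / 2^ν`; the sum over `ν` is at most `2 ζ^k`.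
`num_b`: `8 ν < k ≤ 8 μ`, so `ν ≤ μ`, `B^ν B^μ θ^μ ≤ (B^2 θ)^μ ≤ (ζ^8/2)^μ ≤ ζ^k / 2^μ`; sum over `μ`: `≤ 2 ζ^k`.
`num_c`: `8 ν < k`, `8 μ < k`, `ρ ≤ ν + μ`: `(B^(ν+μ) (2θ)^(k-2ρ))^4 ≤ B^k (2θ)^(2k)` (`4(ν+μ) ≤ k`, `4(k - 2ρ) ≥ 2k`, `2θ ≤ 1`, `B ≥ 1`)
`= (B (2θ)^2)^k ≤ ζ^(4k)`. `num_d`: `5 (k+1)^2 (k+1) ≤ 40^k` for `k ≥ 1` (`(k+1) ≤ 2^k`, `5 ≤ 5^k`).
-/

set_option autoImplicit false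

namespace Pool.Agent.Lib.MP_0430e4_lc.Llv

open Finset

variable {m k : ℕ}

private theorem theta_z {α θ η ϑ ζ : ℝ} {q : ℕ} (hP : Par m k α θ η ϑ ζ q) : θ ≤ ϑ := by
  have hη0 := hP.η0
  have hη1 := hP.η1
  have hq := hP.q1
  have h1 : η ^ (4 * q) ≤ η ^ 1 := pow_le_pow_of_le_one hη0.le (by linarith) (by omega)
  have h2 : ϑ ^ 8 ≤ ϑ ^ 1 := pow_le_pow_of_le_one hP.ϑ0.le hP.ϑ1 (by norm_num)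
  have h3 := hP.θη
  have h4 := hP.ηϑ
  rw [pow_one] at h1 h2
  linarith

private theorem four_z (k : ℕ) : (4 : ℝ) ^ k = 2 ^ k * 2 ^ k := by
  rw [← mul_pow]
  norm_num

private theorem half_z {α θ η ϑ ζ : ℝ} {q : ℕ} (hP : Par m k α θ η ϑ ζ q) :
    (4 : ℝ) ^ k * ϑ ≤ ζ ^ 8 / 2 := by
  have h := hP.ϑζ
  linarith

private theorem term_z {ζ x : ℝ} (hζ0 : 0 ≤ ζ) (hζ1 : ζ ≤ 1) (hx0 : 0 ≤ x) (hx : x ≤ ζ ^ 8 / 2) {ν : ℕ}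
    (hν : k ≤ 8 * ν) : x ^ ν ≤ ζ ^ k * (1 / 2) ^ ν := by
  calc x ^ ν ≤ (ζ ^ 8 / 2) ^ ν := pow_le_pow_left₀ hx0 hx ν
    _ = ζ ^ (8 * ν) * (1 / 2) ^ ν := by
        rw [pow_mul, ← mul_pow]
        congr 1
        ring
    _ ≤ ζ ^ k * (1 / 2) ^ ν :=
        mul_le_mul_of_nonneg_right (pow_le_pow_of_le_one hζ0 hζ1 hν) (by positivity)

private theorem sum_z {ζ : ℝ} (hζ0 : 0 ≤ ζ) {p : ℕ → Prop} [DecidablePred p] {f : ℕ → ℝ}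
    (hf : ∀ ν, p ν → f ν ≤ ζ ^ k * (1 / 2) ^ ν) :
    ∑ ν ∈ (range (k + 1)).filter p, f ν ≤ 2 * ζ ^ k := by
  calc ∑ ν ∈ (range (k + 1)).filter p, f ν
      ≤ ∑ ν ∈ (range (k + 1)).filter p, ζ ^ k * (1 / 2 : ℝ) ^ ν :=
        sum_le_sum fun ν hν => hf ν (mem_filter.mp hν).2
    _ ≤ ∑ ν ∈ range (k + 1), ζ ^ k * (1 / 2 : ℝ) ^ ν :=
        sum_le_sum_of_subset_of_nonneg (filter_subset _ _) fun ν _ _ => by positivity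
    _ = ζ ^ k * ∑ ν ∈ range (k + 1), (1 / 2 : ℝ) ^ ν := by rw [mul_sum]
    _ ≤ ζ ^ k * 2 := mul_le_mul_of_nonneg_left (sum_geometric_two_le _) (by positivity)
    _ = 2 * ζ ^ k := by ring

theorem num_theta {α θ η ϑ ζ : ℝ} {q : ℕ} (hP : Par m k α θ η ϑ ζ q) : θ ≤ ϑ := by
  exact theta_z hP

theorem num_h {α θ η ϑ ζ : ℝ} {q : ℕ} (h0 : 0 ≤ θ) (hP : Par m k α θ η ϑ ζ q) {h : ℕ} (hh : k ≤ 8 * h) :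
    θ ^ h ≤ ζ ^ k := by
  have h1 := theta_z hP
  have h2 := hP.ϑζ
  have hϑ := hP.ϑ0
  have h4 : (1 : ℝ) ≤ 4 ^ k := one_le_pow₀ (by norm_num)
  have h3 : θ ≤ ζ ^ 8 := by nlinarith
  calc θ ^ h ≤ (ζ ^ 8) ^ h := pow_le_pow_left₀ h0 h3 h
    _ = ζ ^ (8 * h) := by rw [pow_mul]
    _ ≤ ζ ^ k := pow_le_pow_of_le_one hP.ζ0.le hP.ζ1 hh

theorem num_a {α θ η ϑ ζ : ℝ} {q : ℕ} (hP : Par m k α θ η ϑ ζ q) :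
    ∑ ν ∈ (range (k + 1)).filter (fun ν => k ≤ 8 * ν), ((2 : ℝ) ^ k) ^ ν * ϑ ^ ν ≤ 2 * ζ ^ k := by
  have hϑ := hP.ϑ0
  have hζ := hP.ζ0
  have h2 := half_z hP
  have hx : (2 : ℝ) ^ k * ϑ ≤ ζ ^ 8 / 2 := by
    have h4 := four_z k
    have h1 : (1 : ℝ) ≤ 2 ^ k := one_le_pow₀ (by norm_num)
    refine le_trans ?_ h2
    rw [h4]
    have : (0 : ℝ) ≤ 2 ^ k * ϑ := by positivity
    nlinarith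
  refine sum_z hζ.le fun ν hν => ?_
  rw [← mul_pow]
  exact term_z hζ.le hP.ζ1 (by positivity) hx hν

theorem num_b {α θ η ϑ ζ : ℝ} {q : ℕ} (h0 : 0 ≤ θ) (hP : Par m k α θ η ϑ ζ q) {ν : ℕ}
    (hν : 8 * ν < k) :
    ((2 : ℝ) ^ k) ^ ν * ∑ μ ∈ (range (k + 1)).filter (fun μ => k ≤ 8 * μ),
      ((2 : ℝ) ^ k) ^ μ * θ ^ μ ≤ 2 * ζ ^ k := by
  have hϑ := hP.ϑ0
  have hζ := hP.ζ0
  have h2 := half_z hP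
  have hθ := theta_z hP
  have hx : (4 : ℝ) ^ k * θ ≤ ζ ^ 8 / 2 :=
    le_trans (mul_le_mul_of_nonneg_left hθ (by positivity)) h2
  rw [mul_sum]
  refine sum_z hζ.le fun μ hμ => ?_
  have h1 : (1 : ℝ) ≤ 2 ^ k := one_le_pow₀ (by norm_num)
  have hle : ν ≤ μ := by omega
  calc ((2 : ℝ) ^ k) ^ ν * (((2 : ℝ) ^ k) ^ μ * θ ^ μ)
      ≤ ((2 : ℝ) ^ k) ^ μ * (((2 : ℝ) ^ k) ^ μ * θ ^ μ) :=
        mul_le_mul_of_nonneg_right (pow_le_pow_right₀ h1 hle) (by positivity)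
    _ = ((4 : ℝ) ^ k * θ) ^ μ := by
        rw [four_z, mul_pow, mul_pow, mul_assoc]
    _ ≤ ζ ^ k * (1 / 2) ^ μ := term_z hζ.le hP.ζ1 (by positivity) hx hμ

theorem num_c {α θ η ϑ ζ : ℝ} {q : ℕ} (h0 : 0 ≤ θ) (h1 : θ ≤ 1 / 2) (hP : Par m k α θ η ϑ ζ q)
    {ν μ ρ : ℕ} (hν : 8 * ν < k) (hμ : 8 * μ < k) (hρ : ρ ≤ ν + μ) :
    ((2 : ℝ) ^ k) ^ ν * (((2 : ℝ) ^ k) ^ μ * (2 * θ) ^ (k - 2 * ρ)) ≤ ζ ^ k := by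
  have hζ := hP.ζ0
  have hB : (1 : ℝ) ≤ 2 ^ k := one_le_pow₀ (by norm_num)
  have h2θ0 : (0 : ℝ) ≤ 2 * θ := by linarith
  have h2θ1 : 2 * θ ≤ 1 := by linarith
  refine le_of_pow_le_pow_left₀ (n := 4) (by norm_num) (by positivity) ?_
  calc (((2 : ℝ) ^ k) ^ ν * (((2 : ℝ) ^ k) ^ μ * (2 * θ) ^ (k - 2 * ρ))) ^ 4
      = ((2 : ℝ) ^ k) ^ (4 * (ν + μ)) * (2 * θ) ^ (4 * (k - 2 * ρ)) := by
        generalize (2 : ℝ) ^ k = B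
        generalize k - 2 * ρ = c
        ring
    _ ≤ ((2 : ℝ) ^ k) ^ k * (2 * θ) ^ (2 * k) :=
        mul_le_mul (pow_le_pow_right₀ hB (by omega)) (pow_le_pow_of_le_one h2θ0 h2θ1 (by omega))
          (by positivity) (by positivity)
    _ = ((2 : ℝ) ^ k * (2 * θ) ^ 2) ^ k := by
        rw [mul_pow ((2 : ℝ) ^ k) _ k, ← pow_mul (2 * θ) 2 k]
    _ ≤ (ζ ^ 4) ^ k := pow_le_pow_left₀ (by positivity) hP.θζ k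
    _ = (ζ ^ k) ^ 4 := by rw [← pow_mul, ← pow_mul, mul_comm]

theorem num_d {ζ α : ℝ} (hζ : 0 ≤ ζ) (hα : 0 ≤ α) (hk : 1 ≤ k) :
    ((k : ℝ) + 1) * (2 ^ k) ^ k * (α ^ k * (ζ ^ k * (5 * ((k : ℝ) + 1) ^ 2))) ≤
      (40 * 2 ^ k * ζ * α) ^ k := by
  have h1 : (k : ℝ) + 1 ≤ 2 ^ k := by exact_mod_cast Nat.lt_two_pow_self (n := k)
  have h5 : (5 : ℝ) ≤ 5 ^ k := by
    calc (5 : ℝ) = 5 ^ 1 := by norm_num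
      _ ≤ 5 ^ k := pow_le_pow_right₀ (by norm_num) hk
  have h0 : (0 : ℝ) ≤ (k : ℝ) + 1 := by positivity
  have h3 : ((k : ℝ) + 1) ^ 3 ≤ (2 ^ k) ^ 3 := pow_le_pow_left₀ h0 h1 3
  have hk5 : 5 * ((k : ℝ) + 1) ^ 3 ≤ 40 ^ k := by
    calc 5 * ((k : ℝ) + 1) ^ 3 ≤ 5 ^ k * (2 ^ k) ^ 3 :=
          mul_le_mul h5 h3 (by positivity) (by positivity)
      _ = 40 ^ k := by
          rw [← pow_mul, mul_comm k 3, pow_mul, ← mul_pow]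
          norm_num
  calc ((k : ℝ) + 1) * (2 ^ k) ^ k * (α ^ k * (ζ ^ k * (5 * ((k : ℝ) + 1) ^ 2)))
      = (5 * ((k : ℝ) + 1) ^ 3) * ((2 ^ k) ^ k * ζ ^ k * α ^ k) := by ring
    _ ≤ 40 ^ k * ((2 ^ k) ^ k * ζ ^ k * α ^ k) :=
        mul_le_mul_of_nonneg_right hk5 (by positivity)
    _ = (40 * 2 ^ k * ζ * α) ^ k := by
        rw [mul_pow, mul_pow, mul_pow]
        ring

end Pool.Agent.Lib.MP_0430e4_lc.Llv
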