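import Pool.Agent.Lib.MP_0430e4_lc.Llv.Lens
import Pool.Agent.Lib.MP_0430e4_lc.Lgv.NUA
import Pool.Agent.Lib.MP_0430e4_lc.Lgv.LOC

/-!
# NumA: the first parameters (section 6), natural logarithms

PROOF. `G = log 2 - binEntropy δ > 0` (`Lgv.entropy_gap`), `r = δ / (1-δ) < 1`, `κ = kap δ < 1` (`kap_pos`, `kap_lt`), `κ1 = kap1 δ`, `0 < κ1 < 1`.
`bet ≤ r⁻¹ exp (-G n)` (`Lgv.bet_le`). `a = (δ/2) log (1 / κ) > 0`, `R0 = min G a / 4`. `s ∈ (0,1]` with `log (1+s) ≤ s ≤ R0 log 2 / 8`,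
`ω > 0` with `ω log (1/s) ≤ R0 log 2 / 8`. `d1 = ⌈δ n / 2⌉` (`≥ δ n/2`, `≥ 1` for `n ≥ 1`, `≤ ⌈δ n⌉`), `k0 = ⌊R0 n⌋` (`≤ n` as `R0 ≤ log 2 / 4 ≤ 1`),
`m = n - k0`, `kw = ⌊ω n⌋`. For `l ≤ R0 n`: `2^(k0 + l) ≤ 2^(2 R0 n) ≤ exp (2 R0 n)` (`log 2 ≤ 1`).
`2^(k0+l) bet ≤ r⁻¹ exp (-G n/2) ≤ exp (-G n / 4)` for large `n`.
`2^(k0+l) κ^d1 ≤ exp (a n/2) κ^(δ n/2) = exp (-a n/2)`. `r^(d - d1) ≤ r^(δ n/2 - 1) = r⁻¹ exp (-(δ/2) log (1/r) n)`.
`d κ1^kw ≤ (n + 1) κ1^(ω n - 1) = (n + 1) κ1⁻¹ exp (-ω log (1/κ1) n)`. So `tht ≤ exp (-c0 n)` for large `n` if `c0` is less than all four rates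
(for example half the minimum of `G / 4`, `a / 2`, `(δ/2) log (1/r)`, `ω log (1/κ1)`); use `tendsto` facts (`Real.tendsto_pow_mul_exp_neg_atTop_nhds_zero`, ...) or
`x ≤ exp x` with small constants.
`(Lo n kw).card ≤ 2 (1/s)^kw (1+s)^n ≤ 2 exp (R0 log 2 n / 4)` (`Lgv.card_Lo_le`), `2^k0 ≥ exp (R0 log 2 n) / 2`, so the second term of the sum tends to `0`; the first too.
-/

set_option autoImplicit false

namespace Pool.Agent.Lib.MP_0430e4_lc.Llv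

open Finset
open Pool.Agent.Lib.MP_0430e4_lc.Lin (W wt chw sg)
open Pool.Agent.Lib.MP_0430e4_lc.Lgv (ft bl cmb rk gg P wd Pz gc cht Gh bet Lo)

private theorem kap1_z {δ : ℝ} (h0 : 0 < δ) (h1 : δ < 1 / 2) : 0 < kap1 δ ∧ kap1 δ < 1 := by
  unfold kap1
  constructor
  · positivity
  · nlinarith

private theorem pf_z {x y : ℝ} (h0 : 0 < x) (h1 : x < 1) {k : ℕ} (hk : y - 1 ≤ k) :
    x ^ k ≤ x⁻¹ * Real.exp (y * Real.log x) := by
  have hlog : Real.log x < 0 := Real.log_neg h0 h1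
  have e : x⁻¹ = Real.exp (-Real.log x) := by rw [Real.exp_neg, Real.exp_log h0]
  rw [Lgv.nua_pow_exp h0, e, ← Real.exp_add]
  apply Real.exp_le_exp.2
  have h := mul_le_mul_of_nonpos_right hk hlog.le
  linarith

private theorem pc_z {x y : ℝ} (h0 : 0 < x) (h1 : x < 1) {k : ℕ} (hk : y ≤ k) :
    x ^ k ≤ Real.exp (y * Real.log x) := by
  have hlog : Real.log x < 0 := Real.log_neg h0 h1
  rw [Lgv.nua_pow_exp h0]
  exact Real.exp_le_exp.2 (mul_le_mul_of_nonpos_right hk hlog.le)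

private theorem tw_z {y : ℝ} {k : ℕ} (hk : (k : ℝ) ≤ y) : (2 : ℝ) ^ k ≤ Real.exp y := by
  have h2 : (2 : ℝ) ≤ Real.exp 1 := by
    have := Real.add_one_le_exp (1 : ℝ)
    linarith
  calc (2 : ℝ) ^ k ≤ Real.exp 1 ^ k := pow_le_pow_left₀ (by norm_num) h2 _
    _ = Real.exp (k * 1) := (Real.exp_nat_mul 1 k).symm
    _ ≤ Real.exp y := Real.exp_le_exp.mpr (by rw [mul_one]; exact hk)

theorem numA {δ : ℝ} (h0 : 0 < δ) (h1 : δ < 1 / 2) : ∃ R0 c0 : ℝ, 0 < R0 ∧ 0 < c0 ∧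
    ∃ n0 : ℕ, ∀ n ≥ n0, ∃ k0 m kw d1 : ℕ, m + k0 = n ∧ 1 ≤ d1 ∧ d1 ≤ ⌈δ * n⌉₊ ∧
      2 ^ k0 * bet δ n ⌈δ * n⌉₊ + (Lo n kw).card / 2 ^ k0 < 1 ∧
      ∀ l : ℕ, (l : ℝ) ≤ R0 * n →
        2 ^ (k0 + l) * bet δ n ⌈δ * n⌉₊ ≤ Real.exp (-c0 * n) ∧
        tht δ ⌈δ * n⌉₊ d1 (k0 + l) kw ≤ Real.exp (-c0 * n) := by
  have hL0 : 0 < Real.log 2 := Real.log_pos (by norm_num)
  have hL1 : Real.log 2 < 1 := by
    have := Real.log_two_lt_d9
    linarith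
  have hd : 0 < 1 - δ := by linarith
  have hr0 : 0 < δ / (1 - δ) := by positivity
  have hr1 : δ / (1 - δ) < 1 := by
    rw [div_lt_one hd]
    linarith
  have hκ0 := kap_pos h0 h1
  have hκ1 := kap_lt h0 h1
  obtain ⟨hq0, hq1⟩ := kap1_z h0 h1
  have hG0 := Lgv.entropy_gap h0 h1
  have hbet := Lgv.bet_le h0 h1
  have hG1 : Real.log 2 - Real.binEntropy δ ≤ 1 := by
    have := Real.binEntropy_nonneg h0.le (by linarith : δ ≤ 1)
    linarith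
  have hlr := Real.log_neg hr0 hr1
  have hlκ := Real.log_neg hκ0 hκ1
  have hlq := Real.log_neg hq0 hq1
  have hKr : (1 - δ) / δ = (δ / (1 - δ))⁻¹ := by rw [inv_div]
  rw [hKr] at hbet
  simp only [tht]
  generalize Real.log 2 - Real.binEntropy δ = G at *
  generalize δ / (1 - δ) = r at *
  generalize kap δ = κ at *
  generalize kap1 δ = q at *
  obtain ⟨ρ, hρd⟩ : ∃ ρ, ρ = -Real.log r := ⟨_, rfl⟩
  obtain ⟨lam, hld⟩ : ∃ lam, lam = -Real.log κ := ⟨_, rfl⟩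
  obtain ⟨μ, hμd⟩ : ∃ μ, μ = -Real.log q := ⟨_, rfl⟩
  have hρ : 0 < ρ := by linarith
  have hlam : 0 < lam := by linarith
  have hμ : 0 < μ := by linarith
  obtain ⟨R0, hR0, hR1, hR2⟩ : ∃ R0 : ℝ, 0 < R0 ∧ 4 * R0 ≤ G ∧ 4 * R0 ≤ δ / 2 * lam := by
    refine ⟨min G (δ / 2 * lam) / 4, ?_, ?_, ?_⟩
    · have : 0 < min G (δ / 2 * lam) := lt_min hG0 (by positivity)
      positivity
    · have := min_le_left G (δ / 2 * lam)
      linarith
    · have := min_le_right G (δ / 2 * lam)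
      linarith
  have hR3 : R0 ≤ 1 / 4 := by linarith
  have hRL : 0 < R0 * Real.log 2 := mul_pos hR0 hL0
  have hRL1 : R0 * Real.log 2 ≤ 1 := by nlinarith
  obtain ⟨s, hs0, hs1, hs2⟩ : ∃ s : ℝ, 0 < s ∧ s ≤ 1 ∧ s ≤ R0 * Real.log 2 / 8 :=
    ⟨R0 * Real.log 2 / 8, by positivity, by linarith, le_rfl⟩
  have hls : 0 ≤ Real.log (1 / s) := Real.log_nonneg (by rw [le_div_iff₀ hs0]; linarith)
  obtain ⟨ω, hω0, hω1⟩ : ∃ ω : ℝ, 0 < ω ∧ ω * Real.log (1 / s) ≤ R0 * Real.log 2 / 8 := by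
    refine ⟨R0 * Real.log 2 / 8 / (1 + Real.log (1 / s)), by positivity, ?_⟩
    rw [div_mul_eq_mul_div, div_le_iff₀ (by positivity)]
    nlinarith
  obtain ⟨z, hz0, hz1, hz2, hz3, hz4, hz5⟩ : ∃ z : ℝ, 0 < z ∧ 4 * z ≤ μ * ω ∧ 4 * z ≤ ρ * δ ∧
      4 * z ≤ G ∧ 4 * z ≤ δ / 2 * lam ∧ 4 * z ≤ R0 * Real.log 2 := by
    have hA := min_le_left (μ * ω) (ρ * δ)
    have hB := min_le_right (μ * ω) (ρ * δ)
    have hC := min_le_left G (δ / 2 * lam)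
    have hD := min_le_right G (δ / 2 * lam)
    have hE := min_le_left (min G (δ / 2 * lam)) (R0 * Real.log 2)
    have hF := min_le_right (min G (δ / 2 * lam)) (R0 * Real.log 2)
    have hH := min_le_left (min (μ * ω) (ρ * δ)) (min (min G (δ / 2 * lam)) (R0 * Real.log 2))
    have hI := min_le_right (min (μ * ω) (ρ * δ)) (min (min G (δ / 2 * lam)) (R0 * Real.log 2))
    refine ⟨min (min (μ * ω) (ρ * δ)) (min (min G (δ / 2 * lam)) (R0 * Real.log 2)) / 4,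
      ?_, ?_, ?_, ?_, ?_, ?_⟩
    · have : 0 < min (min (μ * ω) (ρ * δ)) (min (min G (δ / 2 * lam)) (R0 * Real.log 2)) :=
        lt_min (lt_min (by positivity) (by positivity))
          (lt_min (lt_min hG0 (by positivity)) hRL)
      positivity
    all_goals linarith
  obtain ⟨C1, hC1d⟩ : ∃ C1, C1 = 2 / (μ * ω) * q⁻¹ := ⟨_, rfl⟩
  have hC1 : 0 < C1 := by
    rw [hC1d]
    positivity
  have hr' : 0 < r⁻¹ := by positivity
  refine ⟨R0, z, hR0, hz0, max 1 ⌈(C1 + r⁻¹ + 17) / z⌉₊, fun n hn => ?_⟩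
  have hn1 : 1 ≤ n := (le_max_left _ _).trans hn
  have hn1r : (1 : ℝ) ≤ n := by exact_mod_cast hn1
  have hn0 : (0 : ℝ) ≤ n := by linarith
  have hM : C1 + r⁻¹ + 17 ≤ Real.exp (z * n) := by
    have h : (C1 + r⁻¹ + 17) / z ≤ (n : ℝ) :=
      (Nat.le_ceil _).trans (Nat.cast_le.mpr ((le_max_right _ _).trans hn))
    rw [div_le_iff₀ hz0] at h
    have h2 := Real.add_one_le_exp (z * n)
    linarith
  have ee : ∀ a b : ℝ, Real.exp (a * n) * Real.exp (b * n) = Real.exp ((a + b) * n) := by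
    intro a b
    rw [← Real.exp_add]
    congr 1
    ring
  have mono : ∀ a b : ℝ, a ≤ b → Real.exp (a * n) ≤ Real.exp (b * n) := fun a b hab =>
    Real.exp_le_exp.mpr (mul_le_mul_of_nonneg_right hab hn0)
  have big : ∀ C a b : ℝ, C ≤ C1 + r⁻¹ + 17 → b + z ≤ a →
      C * Real.exp (b * n) ≤ Real.exp (a * n) := by
    intro C a b hC hab
    calc C * Real.exp (b * n) ≤ Real.exp (z * n) * Real.exp (b * n) :=
          mul_le_mul_of_nonneg_right (hC.trans hM) (Real.exp_pos _).le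
      _ = Real.exp ((z + b) * n) := ee _ _
      _ ≤ Real.exp (a * n) := mono _ _ (by linarith)
  have hk0 : (⌊R0 * n⌋₊ : ℝ) ≤ R0 * n := Nat.floor_le (by positivity)
  have hk0' : R0 * n - 1 ≤ (⌊R0 * n⌋₊ : ℝ) := (Nat.sub_one_lt_floor _).le
  have hk0n : ⌊R0 * n⌋₊ ≤ n := by
    have : (⌊R0 * n⌋₊ : ℝ) ≤ n := hk0.trans (by nlinarith)
    exact_mod_cast this
  have hkw : (⌊ω * n⌋₊ : ℝ) ≤ ω * n := Nat.floor_le (by positivity)
  have hkw' : ω * n - 1 ≤ (⌊ω * n⌋₊ : ℝ) := (Nat.sub_one_lt_floor _).le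
  have hd0 : δ * n ≤ (⌈δ * n⌉₊ : ℝ) := Nat.le_ceil _
  have hdn : (⌈δ * n⌉₊ : ℝ) ≤ n := by
    have : ⌈δ * n⌉₊ ≤ n := Nat.ceil_le.mpr (by nlinarith)
    exact_mod_cast this
  have hd1 : δ / 2 * n ≤ (⌈δ / 2 * n⌉₊ : ℝ) := Nat.le_ceil _
  have hd1' : (⌈δ / 2 * n⌉₊ : ℝ) ≤ δ / 2 * n + 1 := (Nat.ceil_lt_add_one (by positivity)).le
  have hdd : ⌈δ / 2 * n⌉₊ ≤ ⌈δ * n⌉₊ := Nat.ceil_le_ceil (by nlinarith)
  have hd1p : 1 ≤ ⌈δ / 2 * n⌉₊ := by
    have : 0 < ⌈δ / 2 * n⌉₊ := Nat.ceil_pos.mpr (by positivity)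
    omega
  have hbn := hbet n
  have main : ∀ l : ℕ, (l : ℝ) ≤ R0 * n →
        2 ^ (⌊R0 * n⌋₊ + l) * bet δ n ⌈δ * n⌉₊ ≤ Real.exp (-z * n) ∧
        (⌈δ * n⌉₊ : ℝ) * q ^ ⌊ω * n⌋₊ + r ^ (⌈δ * n⌉₊ - ⌈δ / 2 * n⌉₊) +
          2 ^ (⌊R0 * n⌋₊ + l) * κ ^ ⌈δ / 2 * n⌉₊ ≤ Real.exp (-z * n) := by
    intro l hl
    have h2 : (2 : ℝ) ^ (⌊R0 * n⌋₊ + l) ≤ Real.exp (2 * R0 * n) := by
      apply tw_z
      push_cast
      linarith
    have h2p : (0 : ℝ) < 2 ^ (⌊R0 * n⌋₊ + l) := by positivity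
    constructor
    · calc 2 ^ (⌊R0 * n⌋₊ + l) * bet δ n ⌈δ * n⌉₊
          ≤ 2 ^ (⌊R0 * n⌋₊ + l) * (r⁻¹ * Real.exp (-G * n)) :=
            mul_le_mul_of_nonneg_left hbn h2p.le
        _ ≤ Real.exp (2 * R0 * n) * (r⁻¹ * Real.exp (-G * n)) :=
            mul_le_mul_of_nonneg_right h2 (mul_nonneg hr'.le (Real.exp_pos _).le)
        _ = r⁻¹ * (Real.exp (2 * R0 * n) * Real.exp (-G * n)) := by ring
        _ = r⁻¹ * Real.exp ((2 * R0 + -G) * n) := by rw [ee]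
        _ ≤ Real.exp (-z * n) := big _ _ _ (by linarith) (by linarith)
    · have t1 : (⌈δ * n⌉₊ : ℝ) * q ^ ⌊ω * n⌋₊ ≤ C1 * Real.exp (-(2 * z) * n) := by
        have hx : μ * ω / 2 * n ≤ Real.exp (μ * ω / 2 * n) := by
          have := Real.add_one_le_exp (μ * ω / 2 * n)
          linarith
        have hmw : 0 < μ * ω := mul_pos hμ hω0
        have hn2 : (n : ℝ) ≤ 2 / (μ * ω) * Real.exp (μ * ω / 2 * n) := by
          rw [div_mul_eq_mul_div, le_div_iff₀ hmw]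
          linarith
        have hqk := pf_z hq0 hq1 hkw'
        calc (⌈δ * n⌉₊ : ℝ) * q ^ ⌊ω * n⌋₊
            ≤ n * (q⁻¹ * Real.exp (ω * n * Real.log q)) :=
              mul_le_mul hdn hqk (by positivity) hn0
          _ ≤ (2 / (μ * ω) * Real.exp (μ * ω / 2 * n)) * (q⁻¹ * Real.exp (ω * n * Real.log q)) :=
              mul_le_mul_of_nonneg_right hn2 (mul_nonneg (by positivity) (Real.exp_pos _).le)
          _ = (2 / (μ * ω) * Real.exp (μ * ω / 2 * n)) * (q⁻¹ * Real.exp (-(μ * ω) * n)) := by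
              have : ω * n * Real.log q = -(μ * ω) * n := by
                rw [hμd]
                ring
              rw [this]
          _ = C1 * (Real.exp (μ * ω / 2 * n) * Real.exp (-(μ * ω) * n)) := by
              rw [hC1d]
              ring
          _ = C1 * Real.exp ((μ * ω / 2 + -(μ * ω)) * n) := by rw [ee]
          _ ≤ C1 * Real.exp (-(2 * z) * n) :=
              mul_le_mul_of_nonneg_left (mono _ _ (by linarith)) hC1.le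
      have t2 : r ^ (⌈δ * n⌉₊ - ⌈δ / 2 * n⌉₊) ≤ r⁻¹ * Real.exp (-(2 * z) * n) := by
        have hsub : δ / 2 * n - 1 ≤ ((⌈δ * n⌉₊ - ⌈δ / 2 * n⌉₊ : ℕ) : ℝ) := by
          rw [Nat.cast_sub hdd]
          linarith
        refine (pf_z hr0 hr1 hsub).trans ?_
        refine mul_le_mul_of_nonneg_left ?_ hr'.le
        have e : δ / 2 * n * Real.log r = -(ρ * δ / 2) * n := by
          rw [hρd]
          ring
        rw [e]
        exact mono _ _ (by linarith)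
      have t3 : 2 ^ (⌊R0 * n⌋₊ + l) * κ ^ ⌈δ / 2 * n⌉₊ ≤ 1 * Real.exp (-(2 * z) * n) := by
        calc 2 ^ (⌊R0 * n⌋₊ + l) * κ ^ ⌈δ / 2 * n⌉₊
            ≤ Real.exp (2 * R0 * n) * Real.exp (δ / 2 * n * Real.log κ) :=
              mul_le_mul h2 (pc_z hκ0 hκ1 hd1) (by positivity) (Real.exp_pos _).le
          _ = Real.exp (2 * R0 * n) * Real.exp (-(δ / 2 * lam) * n) := by
              have : δ / 2 * n * Real.log κ = -(δ / 2 * lam) * n := by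
                rw [hld]
                ring
              rw [this]
          _ = Real.exp ((2 * R0 + -(δ / 2 * lam)) * n) := ee _ _
          _ ≤ Real.exp (-(2 * z) * n) := mono _ _ (by linarith)
          _ = 1 * Real.exp (-(2 * z) * n) := by rw [one_mul]
      calc (⌈δ * n⌉₊ : ℝ) * q ^ ⌊ω * n⌋₊ + r ^ (⌈δ * n⌉₊ - ⌈δ / 2 * n⌉₊) +
          2 ^ (⌊R0 * n⌋₊ + l) * κ ^ ⌈δ / 2 * n⌉₊
          ≤ (C1 + r⁻¹ + 1) * Real.exp (-(2 * z) * n) := by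
            rw [add_mul, add_mul]
            exact add_le_add (add_le_add t1 t2) t3
        _ ≤ Real.exp (-z * n) := big _ _ _ (by linarith) (by linarith)
  refine ⟨⌊R0 * n⌋₊, n - ⌊R0 * n⌋₊, ⌊ω * n⌋₊, ⌈δ / 2 * n⌉₊, by omega, hd1p, hdd, ?_, main⟩
  have hm0 := (main 0 (by push_cast; positivity)).1
  rw [Nat.add_zero] at hm0
  have h4 : Real.exp (-z * n) ≤ 1 / 4 := by
    have h := big 4 0 (-z) (by linarith) (by linarith)
    rw [zero_mul, Real.exp_zero] at h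
    linarith
  have hLo : ((Lo n ⌊ω * n⌋₊).card : ℝ) ≤ 2 * Real.exp (R0 * Real.log 2 / 4 * n) := by
    refine (Lgv.card_Lo_le hs0 hs1).trans ?_
    refine mul_le_mul_of_nonneg_left ?_ (by norm_num)
    have hb : 0 < 1 / s := by positivity
    have e1 : (1 / s) ^ ⌊ω * n⌋₊ ≤ Real.exp (R0 * Real.log 2 / 8 * n) := by
      rw [Lgv.nua_pow_exp hb]
      apply Real.exp_le_exp.mpr
      calc (⌊ω * n⌋₊ : ℝ) * Real.log (1 / s) ≤ ω * n * Real.log (1 / s) :=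
            mul_le_mul_of_nonneg_right hkw hls
        _ = ω * Real.log (1 / s) * n := by ring
        _ ≤ R0 * Real.log 2 / 8 * n := mul_le_mul_of_nonneg_right hω1 hn0
    have e2 : (1 + s) ^ n ≤ Real.exp (R0 * Real.log 2 / 8 * n) := by
      calc (1 + s) ^ n ≤ Real.exp s ^ n := by
            refine pow_le_pow_left₀ (by positivity) ?_ n
            have := Real.add_one_le_exp s
            linarith
        _ = Real.exp (n * s) := (Real.exp_nat_mul s n).symm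
        _ ≤ Real.exp (R0 * Real.log 2 / 8 * n) := by
            apply Real.exp_le_exp.mpr
            rw [mul_comm]
            exact mul_le_mul_of_nonneg_right hs2 hn0
    calc (1 / s) ^ ⌊ω * n⌋₊ * (1 + s) ^ n
        ≤ Real.exp (R0 * Real.log 2 / 8 * n) * Real.exp (R0 * Real.log 2 / 8 * n) :=
          mul_le_mul e1 e2 (by positivity) (Real.exp_pos _).le
      _ = Real.exp (R0 * Real.log 2 / 4 * n) := by
          rw [ee]
          congr 1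
          ring
  have h2k : Real.exp (R0 * Real.log 2 * n) / 2 ≤ (2 : ℝ) ^ ⌊R0 * n⌋₊ := by
    have e : (2 : ℝ) ^ ⌊R0 * n⌋₊ = Real.exp (⌊R0 * n⌋₊ * Real.log 2) :=
      Lgv.nua_pow_exp (by norm_num) _
    have e2 : Real.exp (R0 * Real.log 2 * n) / 2 = Real.exp ((R0 * n - 1) * Real.log 2) := by
      have : (R0 * n - 1) * Real.log 2 = R0 * Real.log 2 * n - Real.log 2 := by ring
      rw [this, Real.exp_sub, Real.exp_log (by norm_num)]
    rw [e, e2]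
    exact Real.exp_le_exp.mpr (mul_le_mul_of_nonneg_right hk0' hL0.le)
  have hfrac : ((Lo n ⌊ω * n⌋₊).card : ℝ) / 2 ^ ⌊R0 * n⌋₊ ≤ 1 / 4 := by
    rw [div_le_iff₀ (by positivity)]
    have h := big 16 (R0 * Real.log 2) (R0 * Real.log 2 / 4) (by linarith) (by linarith)
    have hp := Real.exp_pos (R0 * Real.log 2 * n)
    linarith
  linarith

end Pool.Agent.Lib.MP_0430e4_lc.Llv
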