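import Pool.Agent.Lib.MP_0430e4_lc.Llv.Prod
import Pool.Agent.Lib.MP_0430e4_lc.Llv.Chg

/-!
# Psi: functions of few combinations

PROOF. `depOn_cmb`: `cmb Z v = cmb Z' v` by definition of `DepOn`. `cmb_onto`: extend `C` to a basis (`ind_extend`), enumerate it; `Z ↦ (cmb Z v)_v` over a basis is a bijection
(`chg_av`'s proof: injective linear map between spaces of the same finite size, or solve with `chg_surj`). `exists_psi`: `ψ y := H Z` for a chosen `Z` with
`(cmb Z v)_{v ∈ C} = y`; well defined: if `cmb Z v = cmb Z' v` for `v ∈ C` then for all `v ∈ spn C` (linearity, `Submodule.span_induction`), so `H Z = H Z'`.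
-/

set_option autoImplicit false

namespace Pool.Agent.Lib.MP_0430e4_lc.Llv

open Finset
open Pool.Agent.Lib.MP_0430e4_lc.Lin (W wt chw sg)
open Pool.Agent.Lib.MP_0430e4_lc.Lgv (ft bl cmb rk gg P wd Pz gc cht Gh)

variable {m k : ℕ}

theorem depOn_fun {V : Submodule (ZMod 2) (Cv k)} {v : Cv k} (hv : v ∈ V) (h : W m → ℝ) :
    DepOn V fun Z : Fin k → W m => h (cmb Z v) := by
  intro Z Z' h'
  change h (cmb Z v) = h (cmb Z' v)
  rw [h' v hv]

theorem depOn_mul {V : Submodule (ZMod 2) (Cv k)} {G H : (Fin k → W m) → ℝ} (hG : DepOn V G)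
    (hH : DepOn V H) : DepOn V fun Z => G Z * H Z := by
  intro Z Z' h'
  change G Z * H Z = G Z' * H Z'
  rw [hG Z Z' h', hH Z Z' h']

theorem depOn_prod {V : Submodule (ZMod 2) (Cv k)} {ι : Type} (s : Finset ι)
    (G : ι → (Fin k → W m) → ℝ) (hG : ∀ i ∈ s, DepOn V (G i)) : DepOn V fun Z => ∏ i ∈ s, G i Z := by
  intro Z Z' h'
  exact prod_congr rfl fun i hi => hG i hi Z Z' h'

theorem depOn_mono {V V' : Submodule (ZMod 2) (Cv k)} (h : V ≤ V') {G : (Fin k → W m) → ℝ}
    (hG : DepOn V G) : DepOn V' G := by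
  intro Z Z' h'
  exact hG Z Z' fun v hv => h' v (h hv)

private theorem psi_cmb (L : Cv k →ₗ[ZMod 2] W m) (v : Cv k) :
    cmb (fun i => L (ev i)) v = L v := by
  have h : v = ∑ i, v i • (ev i : Cv k) := by
    funext j
    rw [Finset.sum_apply]
    simp only [ev, Pi.smul_apply, smul_eq_mul]
    rw [Finset.sum_eq_single j]
    · rw [Pi.single_eq_same, mul_one]
    · intro i _ hij
      rw [Pi.single_eq_of_ne (Ne.symm hij), mul_zero]
    · intro hj
      exact absurd (mem_univ j) hj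
  conv_rhs => rw [h]
  rw [map_sum]
  unfold cmb
  exact sum_congr rfl fun i _ => (map_smul L _ _).symm

private theorem psi_add (Z : Fin k → W m) (u v : Cv k) :
    cmb Z (u + v) = cmb Z u + cmb Z v := by
  unfold cmb
  rw [← sum_add_distrib]
  exact sum_congr rfl fun i _ => by rw [Pi.add_apply, add_smul]

private theorem psi_smul (Z : Fin k → W m) (c : ZMod 2) (v : Cv k) :
    cmb Z (c • v) = c • cmb Z v := by
  unfold cmb
  rw [smul_sum]
  exact sum_congr rfl fun i _ => by rw [Pi.smul_apply, smul_eq_mul, mul_smul]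

private theorem psi_zero (Z : Fin k → W m) : cmb Z (0 : Cv k) = 0 := by
  unfold cmb
  exact sum_eq_zero fun i _ => by rw [Pi.zero_apply, zero_smul]

theorem cmb_onto {C : Finset (Cv k)} (hC : Ind C) (y : {v // v ∈ C} → W m) :
    ∃ Z : Fin k → W m, (fun v : {v // v ∈ C} => cmb Z (v : Cv k)) = y := by
  classical
  have hC' : LinearIndepOn (ZMod 2) id (C : Set (Cv k)) := hC
  let B := Module.Basis.extend hC'
  let L : Cv k →ₗ[ZMod 2] W m :=
    B.constr (ZMod 2) fun b => if h : (b : Cv k) ∈ C then y ⟨b, h⟩ else 0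
  refine ⟨fun i => L (ev i), ?_⟩
  funext v
  rw [psi_cmb]
  have hv : (v : Cv k) ∈ hC'.extend (Set.subset_univ _) :=
    hC'.subset_extend (Set.subset_univ _) v.2
  have h1 : B ⟨v, hv⟩ = (v : Cv k) := Module.Basis.extend_apply_self hC' _
  have h2 : L (B ⟨v, hv⟩) = if h : (v : Cv k) ∈ C then y ⟨v, h⟩ else 0 :=
    B.constr_basis (ZMod 2) _ _
  rw [h1, dif_pos v.2] at h2
  exact h2

theorem exists_psi {C : Finset (Cv k)} (hC : Ind C) {H : (Fin k → W m) → ℝ}
    (hH : DepOn (spn C) H) : ∃ ψ : ({v // v ∈ C} → W m) → ℝ,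
      (∀ Z : Fin k → W m, ψ (fun v => cmb Z (v : Cv k)) = H Z) ∧
      ∀ y, ∃ Z : Fin k → W m, (fun v : {v // v ∈ C} => cmb Z (v : Cv k)) = y ∧ ψ y = H Z := by
  refine ⟨fun y => H (cmb_onto hC y).choose, ?_, fun y => ⟨_, (cmb_onto hC y).choose_spec, rfl⟩⟩
  intro Z
  apply hH
  have h1 := (cmb_onto hC (fun v : {v // v ∈ C} => cmb Z (v : Cv k))).choose_spec
  intro v hv
  refine Submodule.span_induction (p := fun v _ => cmb _ v = cmb Z v) ?_ ?_ ?_ ?_ hv
  · intro x hx
    exact congrFun h1 ⟨x, hx⟩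
  · rw [psi_zero, psi_zero]
  · intro x y _ _ hx hy
    rw [psi_add, psi_add, hx, hy]
  · intro c x _ hx
    rw [psi_smul, psi_smul, hx]

end Pool.Agent.Lib.MP_0430e4_lc.Llv
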