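import Pool.Agent.Lib.MP_0430e4_lc.Llv.FouA

/-!
# Rows: the frequencies on an information set

PROOF. `exists_info`: `C` independent: the matrix with rows `v ∈ C` has rank `|C|`, so it has `|C|` independent columns: a set
`I0`, `|I0| = |C|`, such that a combination of the `v ∈ C` which vanishes on `I0` is zero. (E.g.: extend `C` by unit vectors
`ev j`, `j ∈ J`, to a basis (`ind_extend`), `I0 = Jᶜ`: if `x ∈ spn C` vanishes on `I0` then `x` is a combination of the
`ev j`, `j ∈ J`, so `x = 0`, as `C ∪ J.image ev` is independent and the two parts are disjoint.)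
`frq_inj`: the map `w ↦ (frq w i)_{i ∈ I0}` is injective: if `frq w i = 0` for `i ∈ I0` (it is additive in `w`) then for every coordinate `x`
the combination `∑ v, w v x • v` vanishes on `I0`, so it is `0`, so `w v x = 0` for all `v` (independence).
`sum_frq_le`: for nonnegative functions `h i`, `i ∈ I0`: `∑ w, ∏_{i ∈ I0} h i (frq w i) ≤ ∏_{i ∈ I0} ∑ ξ, h i ξ`: the sum over `w` is the sum over
the image of an injective map into `{i // i ∈ I0} → W m`, of nonnegative terms (Finset.prod_univ_sum; sum_le_sum of an injective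
reindexing, `Finset.sum_le_sum_of_injOn`-like: `sum_image` + `sum_le_univ_sum_of_nonneg`).
`zero_rows`: `Ξ` independent: at most `|C|` indices `i` have `Ξ i + frq w i = 0`: for these `Ξ i = frq w i` is in the span of the
`|C|` words `w v`, and the `Ξ i` are independent (`LinearIndependent.comp`, `linearIndependent card ≤ finrank`, `finrank_span_le_card`).
-/

set_option autoImplicit false

namespace Pool.Agent.Lib.MP_0430e4_lc.Llv

open Finset
open Pool.Agent.Lib.MP_0430e4_lc.Lin (W wt chw sg)
open Pool.Agent.Lib.MP_0430e4_lc.Lgv (ft bl cmb rk gg P wd Pz gc cht Gh)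

variable {m k : ℕ}

/-- Only the zero combination of `C` vanishes on `I`. -/
def Info (C : Finset (Cv k)) (I : Finset (Fin k)) : Prop :=
  ∀ x ∈ spn C, (∀ i ∈ I, x i = 0) → x = 0

theorem exists_info {C : Finset (Cv k)} (hC : Ind C) :
    ∃ I : Finset (Fin k), I.card = C.card ∧ Info C I := by
  classical
  obtain ⟨J, hJ1, hJ2, hJ3⟩ := ind_extend hC
  refine ⟨univ \ J, ?_, ?_⟩
  · have h1 : (univ \ J).card = k - J.card := by
      rw [card_sdiff_of_subset (subset_univ J), card_univ, Fintype.card_fin]
    omega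
  · intro x hx h0
    have h1 : x ∈ spn (J.image ev) := by
      rw [mem_spn_ev]
      intro i hi
      by_contra hJ
      exact hi (h0 i (mem_sdiff.mpr ⟨mem_univ i, hJ⟩))
    have h2 := ind_disj hJ1 hJ2
    rw [Submodule.disjoint_def] at h2
    exact h2 x hx h1

theorem frq_inj {C : Finset (Cv k)} (hC : Ind C) {I : Finset (Fin k)} (hI : Info C I)
    {w w' : {v // v ∈ C} → W m} (h : ∀ i ∈ I, frq w i = frq w' i) : w = w' := by
  classical
  have hli : LinearIndependent (ZMod 2) (fun v : {v // v ∈ C} => (v : Cv k)) := hC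
  rw [Fintype.linearIndependent_iff] at hli
  funext v
  funext x
  have h1 : ∑ v : {v // v ∈ C}, (w v x - w' v x) • (v : Cv k) = 0 := by
    apply hI
    · exact Submodule.sum_mem _ fun v _ => Submodule.smul_mem _ _ (Submodule.subset_span v.2)
    · intro i hi
      have h2 := congrFun (h i hi) x
      unfold frq at h2
      rw [Finset.sum_apply, Finset.sum_apply] at h2
      rw [Finset.sum_apply]
      have h3 : ∀ v : {v // v ∈ C}, ((w v x - w' v x) • (v : Cv k)) i =
          ((v : Cv k) i • w v) x - ((v : Cv k) i • w' v) x := by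
        intro v
        simp only [Pi.smul_apply, smul_eq_mul]
        ring
      rw [Finset.sum_congr rfl fun v _ => h3 v, Finset.sum_sub_distrib, h2, sub_self]
  have h2 := hli (fun v => w v x - w' v x) h1 v
  exact sub_eq_zero.mp h2

theorem sum_frq_le {C : Finset (Cv k)} (hC : Ind C) {I : Finset (Fin k)} (hI : Info C I)
    (h : Fin k → W m → ℝ) (hh : ∀ i x, 0 ≤ h i x) (ω : Fin k → W m) :
    ∑ w : {v // v ∈ C} → W m, ∏ i ∈ I, h i (ω i + frq w i) ≤ ∏ i ∈ I, ∑ ξ, h i ξ := by
  classical
  have h1 : ∏ i ∈ I, ∑ ξ, h i ξ = ∑ y : {i // i ∈ I} → W m, ∏ i : {i // i ∈ I}, h i (y i) := by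
    rw [← Finset.prod_coe_sort I (fun i => ∑ ξ, h i ξ), Finset.prod_univ_sum,
      Fintype.piFinset_univ]
  have h2 : ∀ w : {v // v ∈ C} → W m, ∏ i ∈ I, h i (ω i + frq w i) =
      ∏ i : {i // i ∈ I}, h i ((fun j : {i // i ∈ I} => ω j + frq w j) i) := by
    intro w
    rw [← Finset.prod_coe_sort I (fun i => h i (ω i + frq w i))]
  have hinj : Function.Injective (fun (w : {v // v ∈ C} → W m) (j : {i // i ∈ I}) =>
      ω j + frq w j) := by
    intro w w' he
    apply frq_inj hC hI
    intro i hi
    have h3 := congrFun he ⟨i, hi⟩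
    exact add_left_cancel h3
  rw [h1, Finset.sum_congr rfl fun w _ => h2 w,
    ← Finset.sum_image (s := univ) (g := fun (w : {v // v ∈ C} → W m) (j : {i // i ∈ I}) =>
      ω j + frq w j) (f := fun y : {i // i ∈ I} → W m => ∏ i : {i // i ∈ I}, h i (y i))
      (fun x _ y _ hxy => hinj hxy)]
  exact Finset.sum_le_univ_sum_of_nonneg fun y => Finset.prod_nonneg fun i _ => hh _ _

theorem zero_rows {C : Finset (Cv k)} {Ξ : Fin k → W m} (hΞ : LinearIndependent (ZMod 2) Ξ)
    (w : {v // v ∈ C} → W m) : (univ.filter fun i => Ξ i + frq w i = 0).card ≤ C.card := by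
  classical
  have h1 : LinearIndependent (ZMod 2)
      (fun i : {i // i ∈ univ.filter fun i => Ξ i + frq w i = 0} => Ξ i) :=
    hΞ.comp _ Subtype.val_injective
  have h2 := finrank_span_eq_card h1
  have h3 : Submodule.span (ZMod 2) (Set.range
      (fun i : {i // i ∈ univ.filter fun i => Ξ i + frq w i = 0} => Ξ i)) ≤
      Submodule.span (ZMod 2) (Set.range w) := by
    rw [Submodule.span_le]
    rintro _ ⟨i, rfl⟩
    have h4 : Ξ i.1 + frq w i.1 = 0 := (mem_filter.mp i.2).2
    have h5 : Ξ i.1 = - frq w i.1 := eq_neg_of_add_eq_zero_left h4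
    change Ξ i.1 ∈ Submodule.span (ZMod 2) (Set.range w)
    rw [h5]
    exact Submodule.neg_mem _ (Submodule.sum_mem _ fun v _ =>
      Submodule.smul_mem _ _ (Submodule.subset_span ⟨v, rfl⟩))
  have h4 := Submodule.finrank_mono h3
  rw [h2] at h4
  have h5 := finrank_range_le_card (R := ZMod 2) w
  rw [Set.finrank] at h5
  rw [Fintype.card_coe] at h4 h5
  exact h4.trans h5

end Pool.Agent.Lib.MP_0430e4_lc.Llv
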