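import Pool.Agent.Lib.MP_0430e4_lc.Llv.Expd
import Pool.Agent.Lib.MP_0430e4_lc.Llv.Fou
import Pool.Agent.Lib.MP_0430e4_lc.Llv.Gain
import Pool.Agent.Lib.MP_0430e4_lc.Llv.Num1
import Pool.Agent.Lib.MP_0430e4_lc.Llv.Psi

/-!
# Small: the terms with few elements of `T` (section 1.6, `8 ν < k`)

`Ψ = (∏_{v ∈ T} f) (∏_{v ∈ A'} (1 - f))` with `A'` in the span of `T`, `f = F - t`.
PROOF. `expd Dd ⊥` for `∏_{v ∈ Dd} (1 - t)` (`f v = - t (cmb Z v)`): lists `L μ` of pairs `(T_t, D')`, `μ = |T_t|`, `D' ⊆ spn T_t`.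
So the average is `∑ μ, (L μ terms)`, a term being `(-1)^μ Av (∏ g * ∏_T f * ∏_{A'} (1-f) * ∏_{T_t} t * ∏_{D'} (1-t) * cht)`.
`k ≤ 8 μ`: the absolute value is at most `Av (∏ g * ∏_{T_t} t) ≤ α^k θ^μ` (`tin`; the other factors are between `0` and `1`).
`8 μ < k` (`small_fou`): let `C ⊆ T ∪ T_t` with `Ind C`, `spn C = spn (T ∪ T_t)` (`basis_sub`), `|C| ≤ ν + μ`. The product of the functions of the
`v ∈ T ∪ A' ∪ T_t ∪ D'` is `DepOn (spn C)` (Psi.lean), so it is `ψ (fun v => cmb Z v)` (`exists_psi`), and `|ψ y| ≤ ∏_{v ∈ C} F (y v)` because each `v ∈ C` is in `T`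
(factor `f ≤ F`) or in `T_t` (factor `t ≤ F`) and the other factors are between `0` and `1`. `fou` gives `α^k (2θ)^(k - 2|C|)`. Sum with the lengths `(2^k)^μ`: `num_b` for `k ≤ 8 μ`, `num_c` for each of the at most `k + 1` values `8 μ < k`.
-/

set_option autoImplicit false

namespace Pool.Agent.Lib.MP_0430e4_lc.Llv

open Finset
open Pool.Agent.Lib.MP_0430e4_lc.Lin (W wt chw sg)
open Pool.Agent.Lib.MP_0430e4_lc.Lgv (ft bl cmb rk gg P wd Pz gc cht Gh)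

variable {m k : ℕ}

private theorem Small_t0 {F t : W m → ℝ} {α θ : ℝ} (D : Dat F t α θ) (x : W m) : 0 ≤ t x := by
  rcases D.t01 x with h | h
  · exact h.ge
  · rw [h]
    norm_num

private theorem Small_F1 {F t : W m → ℝ} {α θ : ℝ} (D : Dat F t α θ) (x : W m) : F x ≤ 1 := by
  rcases D.F01 x with h | h
  · rw [h]
    norm_num
  · exact h.le

private theorem Small_f {F t : W m → ℝ} {α θ : ℝ} (D : Dat F t α θ) (x : W m) :
    0 ≤ F x - t x ∧ F x - t x ≤ 1 ∧ 0 ≤ 1 - (F x - t x) ∧ 1 - (F x - t x) ≤ 1 ∧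
      0 ≤ t x ∧ t x ≤ 1 ∧ 0 ≤ 1 - t x ∧ 1 - t x ≤ 1 := by
  have h1 := Small_t0 D x
  have h2 := Small_F1 D x
  have h3 := D.tF x
  refine ⟨?_, ?_, ?_, ?_, ?_, ?_, ?_, ?_⟩ <;> linarith

private theorem Small_prod {ι : Type} (s : Finset ι) (a : ι → ℝ) (h : ∀ i ∈ s, 0 ≤ a i ∧ a i ≤ 1) :
    0 ≤ ∏ i ∈ s, a i ∧ ∏ i ∈ s, a i ≤ 1 :=
  ⟨Finset.prod_nonneg fun i hi => (h i hi).1,
    Finset.prod_le_one (fun i hi => (h i hi).1) fun i hi => (h i hi).2⟩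

private theorem Small_g {F t : W m → ℝ} {α θ : ℝ} (D : Dat F t α θ) {S : Finset (Fin k)}
    {g : Fin k → W m → ℝ} (hg : Two S F t g) (Z : Fin k → W m) : 0 ≤ ∏ i, g i (Z i) := by
  refine Finset.prod_nonneg fun i _ => ?_
  by_cases hi : i ∈ S
  · rw [hg.1 i hi]
    exact (Small_f D _).1
  · rw [hg.2 i hi]
    exact Small_t0 D _

/-- One term with `8 |T_t| < k`. -/
theorem small_fou {F t : W m → ℝ} {α θ : ℝ} (D : Dat F t α θ) {S : Finset (Fin k)}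
    {g : Fin k → W m → ℝ} (hg : Two S F t g) {T A' Tt D' : Finset (Cv k)} (hT : Ind T)
    (hA' : ∀ v ∈ A', v ∈ spn T) (hTt : Ind Tt) (hD' : ∀ v ∈ D', v ∈ spn Tt)
    (h8 : 8 * T.card < k) (h8' : 8 * Tt.card < k)
    {Ξ : Fin k → W m} (hΞ : LinearIndependent (ZMod 2) Ξ) :
    ∃ ρ ≤ T.card + Tt.card, |Av (fun Z : Fin k → W m => (∏ i, g i (Z i)) *
      ((∏ v ∈ T, (F (cmb Z v) - t (cmb Z v))) * (∏ v ∈ A', (1 - (F (cmb Z v) - t (cmb Z v)))) *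
       ((∏ v ∈ Tt, t (cmb Z v)) * ∏ v ∈ D', (1 - t (cmb Z v)))) * cht Ξ Z)| ≤
      α ^ k * (2 * θ) ^ (k - 2 * ρ) := by
  classical
  obtain ⟨C, hCs, hCi, hCsp⟩ := basis_sub (T ∪ Tt)
  have hcard : C.card ≤ T.card + Tt.card :=
    (Finset.card_le_card hCs).trans (Finset.card_union_le _ _)
  refine ⟨C.card, hcard, ?_⟩
  have hsT : spn T ≤ spn C := by
    rw [hCsp]
    exact Submodule.span_mono (Finset.coe_subset.2 Finset.subset_union_left)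
  have hsTt : spn Tt ≤ spn C := by
    rw [hCsp]
    exact Submodule.span_mono (Finset.coe_subset.2 Finset.subset_union_right)
  have hmT : ∀ v ∈ T, v ∈ spn C := fun v hv =>
    hsT (Submodule.subset_span (Finset.mem_coe.2 hv))
  have hmTt : ∀ v ∈ Tt, v ∈ spn C := fun v hv =>
    hsTt (Submodule.subset_span (Finset.mem_coe.2 hv))
  have hdep : DepOn (spn C) (fun Z : Fin k → W m =>
      ((∏ v ∈ T, (F (cmb Z v) - t (cmb Z v))) * (∏ v ∈ A', (1 - (F (cmb Z v) - t (cmb Z v)))) *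
       ((∏ v ∈ Tt, t (cmb Z v)) * ∏ v ∈ D', (1 - t (cmb Z v))))) := by
    intro Z Z' h
    have e1 : ∏ v ∈ T, (F (cmb Z v) - t (cmb Z v)) = ∏ v ∈ T, (F (cmb Z' v) - t (cmb Z' v)) :=
      Finset.prod_congr rfl fun v hv => by rw [h v (hmT v hv)]
    have e2 : ∏ v ∈ A', (1 - (F (cmb Z v) - t (cmb Z v))) =
        ∏ v ∈ A', (1 - (F (cmb Z' v) - t (cmb Z' v))) :=
      Finset.prod_congr rfl fun v hv => by rw [h v (hsT (hA' v hv))]
    have e3 : ∏ v ∈ Tt, t (cmb Z v) = ∏ v ∈ Tt, t (cmb Z' v) :=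
      Finset.prod_congr rfl fun v hv => by rw [h v (hmTt v hv)]
    have e4 : ∏ v ∈ D', (1 - t (cmb Z v)) = ∏ v ∈ D', (1 - t (cmb Z' v)) :=
      Finset.prod_congr rfl fun v hv => by rw [h v (hsTt (hD' v hv))]
    change _ * _ * (_ * _) = _ * _ * (_ * _)
    rw [e1, e2, e3, e4]
  obtain ⟨ψ, hψ1, hψ2⟩ := exists_psi hCi hdep
  have hψ : ∀ y, |ψ y| ≤ ∏ v, F (y v) := by
    intro y
    obtain ⟨Z, hy, hZ⟩ := hψ2 y
    rw [hZ]
    have hy' : ∏ v, F (y v) = ∏ v ∈ C, F (cmb Z v) := by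
      rw [← hy]
      exact Finset.prod_coe_sort C (fun v => F (cmb Z v))
    rw [hy']
    have hf := Small_f D
    obtain ⟨a1, a2⟩ := Small_prod T (fun v => F (cmb Z v) - t (cmb Z v))
      fun v _ => ⟨(hf _).1, (hf _).2.1⟩
    obtain ⟨b1, b2⟩ := Small_prod A' (fun v => 1 - (F (cmb Z v) - t (cmb Z v)))
      fun v _ => ⟨(hf _).2.2.1, (hf _).2.2.2.1⟩
    obtain ⟨c1, c2⟩ := Small_prod Tt (fun v => t (cmb Z v))
      fun v _ => ⟨(hf _).2.2.2.2.1, (hf _).2.2.2.2.2.1⟩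
    obtain ⟨d1, d2⟩ := Small_prod D' (fun v => 1 - t (cmb Z v))
      fun v _ => ⟨(hf _).2.2.2.2.2.2.1, (hf _).2.2.2.2.2.2.2⟩
    rw [abs_of_nonneg (mul_nonneg (mul_nonneg a1 b1) (mul_nonneg c1 d1))]
    by_cases h1 : ∀ v ∈ C, F (cmb Z v) = 1
    · rw [Finset.prod_eq_one fun v hv => h1 v hv]
      exact mul_le_one₀ (mul_le_one₀ a2 b1 b2) (mul_nonneg c1 d1) (mul_le_one₀ c2 d1 d2)
    · push Not at h1
      obtain ⟨v, hv, hv1⟩ := h1
      have hv0 : F (cmb Z v) = 0 := (D.F01 _).resolve_right hv1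
      have ht0 : t (cmb Z v) = 0 :=
        le_antisymm ((D.tF _).trans hv0.le) (Small_t0 D _)
      rw [Finset.prod_eq_zero hv hv0]
      rcases Finset.mem_union.mp (hCs hv) with h | h
      · rw [Finset.prod_eq_zero h (show F (cmb Z v) - t (cmb Z v) = 0 by rw [hv0, ht0, sub_zero]),
          zero_mul, zero_mul]
      · rw [Finset.prod_eq_zero h ht0, zero_mul, mul_zero]
  have hmain := fou D hg hCi (by omega) hψ hΞ
  simp only [hψ1] at hmain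
  exact hmain

private theorem Small_expd {F t : W m → ℝ} {g : Fin k → W m → ℝ} {T A' Dd : Finset (Cv k)}
    {Ξ : Fin k → W m} (L : ℕ → List (Finset (Cv k) × Finset (Cv k)))
    (hL : ∀ f : Cv k → ℝ, ∏ v ∈ Dd, (1 + f v) =
        ∑ i ∈ range (k + 1), ((L i).map fun e => (∏ v ∈ e.1, f v) * ∏ v ∈ e.2, (1 + f v)).sum) :
    Av (fun Z : Fin k → W m => (∏ i, g i (Z i)) *
      ((∏ v ∈ T, (F (cmb Z v) - t (cmb Z v))) * (∏ v ∈ A', (1 - (F (cmb Z v) - t (cmb Z v)))) *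
       ∏ v ∈ Dd, (1 - t (cmb Z v))) * cht Ξ Z) =
    ∑ i ∈ range (k + 1), ((L i).map fun e => Av (fun Z : Fin k → W m => (∏ i, g i (Z i)) *
      ((∏ v ∈ T, (F (cmb Z v) - t (cmb Z v))) * (∏ v ∈ A', (1 - (F (cmb Z v) - t (cmb Z v)))) *
       ((∏ v ∈ e.1, (-t (cmb Z v))) * ∏ v ∈ e.2, (1 - t (cmb Z v)))) * cht Ξ Z)).sum := by
  have h1 : ∀ Z : Fin k → W m, (∏ i, g i (Z i)) *
      ((∏ v ∈ T, (F (cmb Z v) - t (cmb Z v))) * (∏ v ∈ A', (1 - (F (cmb Z v) - t (cmb Z v)))) *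
       ∏ v ∈ Dd, (1 - t (cmb Z v))) * cht Ξ Z =
      ∑ i ∈ range (k + 1), ((L i).map fun e => (∏ i, g i (Z i)) *
        ((∏ v ∈ T, (F (cmb Z v) - t (cmb Z v))) * (∏ v ∈ A', (1 - (F (cmb Z v) - t (cmb Z v)))) *
         ((∏ v ∈ e.1, (-t (cmb Z v))) * ∏ v ∈ e.2, (1 - t (cmb Z v)))) * cht Ξ Z).sum := by
    intro Z
    have h2 := hL fun v => -t (cmb Z v)
    have h3 : ∏ v ∈ Dd, (1 - t (cmb Z v)) = ∏ v ∈ Dd, (1 + -t (cmb Z v)) :=
      Finset.prod_congr rfl fun v _ => sub_eq_add_neg _ _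
    rw [h3, h2, Finset.mul_sum, Finset.mul_sum, Finset.sum_mul]
    refine Finset.sum_congr rfl fun i _ => ?_
    rw [← List.sum_map_mul_left, ← List.sum_map_mul_left, ← List.sum_map_mul_right]
    simp only [← sub_eq_add_neg]
  rw [show (fun Z : Fin k → W m => (∏ i, g i (Z i)) *
      ((∏ v ∈ T, (F (cmb Z v) - t (cmb Z v))) * (∏ v ∈ A', (1 - (F (cmb Z v) - t (cmb Z v)))) *
       ∏ v ∈ Dd, (1 - t (cmb Z v))) * cht Ξ Z) = _ from funext h1, av_sum]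
  refine Finset.sum_congr rfl fun i _ => ?_
  rw [av_list]

theorem small {F t : W m → ℝ} {α θ η ϑ ζ : ℝ} {q : ℕ} (D : Dat F t α θ)
    (hP : Par m k α θ η ϑ ζ q) {S : Finset (Fin k)} {g : Fin k → W m → ℝ} (hg : Two S F t g)
    {T A' Dd : Finset (Cv k)} (hT : Ind T) (hA' : ∀ v ∈ A', v ∈ spn T) (h8 : 8 * T.card < k)
    {Ξ : Fin k → W m} (hΞ : LinearIndependent (ZMod 2) Ξ) :
    ((2 : ℝ) ^ k) ^ T.card * |Av (fun Z : Fin k → W m => (∏ i, g i (Z i)) *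
      ((∏ v ∈ T, (F (cmb Z v) - t (cmb Z v))) * (∏ v ∈ A', (1 - (F (cmb Z v) - t (cmb Z v)))) *
       ∏ v ∈ Dd, (1 - t (cmb Z v))) * cht Ξ Z)| ≤
      α ^ k * (ζ ^ k * ((k : ℝ) + 3)) := by
  classical
  have hα := D.α0
  have hθ := D.θ0
  have hθ1 := D.θ1
  have hζ := hP.ζ0
  have hf := Small_f D
  obtain ⟨L, hL1, hL2, hL3⟩ := expd Dd (⊥ : Submodule (ZMod 2) (Cv k))
  rw [Small_expd L hL3]
  set β : ℕ → ℝ := fun μ => if k ≤ 8 * μ then α ^ k * θ ^ μ else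
    α ^ k * (2 * θ) ^ (k - 2 * (T.card + μ)) with hβ
  have hβ0 : ∀ i, 0 ≤ β i := by
    intro i
    change 0 ≤ if k ≤ 8 * i then α ^ k * θ ^ i else α ^ k * (2 * θ) ^ (k - 2 * (T.card + i))
    split_ifs <;> positivity
  have hG : ∀ i, ∀ e ∈ L i, |Av (fun Z : Fin k → W m => (∏ i, g i (Z i)) *
      ((∏ v ∈ T, (F (cmb Z v) - t (cmb Z v))) * (∏ v ∈ A', (1 - (F (cmb Z v) - t (cmb Z v)))) *
       ((∏ v ∈ e.1, (-t (cmb Z v))) * ∏ v ∈ e.2, (1 - t (cmb Z v)))) * cht Ξ Z)| ≤ β i := by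
    intro μ e he
    obtain ⟨q1, q2, q3, q4, q5, q6, q7, q8⟩ := hL1 μ e he
    by_cases hμ : k ≤ 8 * μ
    · have hβi : β μ = α ^ k * θ ^ μ := if_pos hμ
      rw [hβi, ← q1]
      refine le_trans (abs_av_cht_le (h := fun Z => (∏ i, g i (Z i)) * ∏ v ∈ e.1, t (cmb Z v))
        (fun Z => ?_) Ξ) (tin D hg q5)
      have hg0 := Small_g D hg Z
      obtain ⟨a1, a2⟩ := Small_prod T (fun v => F (cmb Z v) - t (cmb Z v))
        fun v _ => ⟨(hf _).1, (hf _).2.1⟩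
      obtain ⟨b1, b2⟩ := Small_prod A' (fun v => 1 - (F (cmb Z v) - t (cmb Z v)))
        fun v _ => ⟨(hf _).2.2.1, (hf _).2.2.2.1⟩
      obtain ⟨c1, c2⟩ := Small_prod e.1 (fun v => t (cmb Z v))
        fun v _ => ⟨(hf _).2.2.2.2.1, (hf _).2.2.2.2.2.1⟩
      obtain ⟨d1, d2⟩ := Small_prod e.2 (fun v => 1 - t (cmb Z v))
        fun v _ => ⟨(hf _).2.2.2.2.2.2.1, (hf _).2.2.2.2.2.2.2⟩
      have hneg : |∏ v ∈ e.1, (-t (cmb Z v))| = ∏ v ∈ e.1, t (cmb Z v) := by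
        rw [Finset.abs_prod]
        refine Finset.prod_congr rfl fun v _ => ?_
        rw [abs_neg, abs_of_nonneg (Small_t0 D _)]
      rw [abs_mul, abs_mul, abs_mul, abs_mul, hneg, abs_of_nonneg hg0, abs_of_nonneg a1,
        abs_of_nonneg b1, abs_of_nonneg d1]
      refine mul_le_mul_of_nonneg_left ?_ hg0
      calc (∏ v ∈ T, (F (cmb Z v) - t (cmb Z v))) *
            (∏ v ∈ A', (1 - (F (cmb Z v) - t (cmb Z v)))) *
            ((∏ v ∈ e.1, t (cmb Z v)) * ∏ v ∈ e.2, (1 - t (cmb Z v)))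
          ≤ 1 * ((∏ v ∈ e.1, t (cmb Z v)) * 1) := by
            refine mul_le_mul (mul_le_one₀ a2 b1 b2) (mul_le_mul_of_nonneg_left d2 c1)
              (mul_nonneg c1 d1) zero_le_one
        _ = ∏ v ∈ e.1, t (cmb Z v) := by ring
    · have hβi : β μ = α ^ k * (2 * θ) ^ (k - 2 * (T.card + μ)) := if_neg hμ
      rw [hβi]
      have hD' : ∀ v ∈ e.2, v ∈ spn e.1 := by
        intro v hv
        have := q8 v hv
        rwa [bot_sup_eq] at this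
      obtain ⟨ρ, hρ, hb⟩ := small_fou D hg hT hA' q5 hD' h8 (by omega) hΞ
      have heq : (fun Z : Fin k → W m => (∏ i, g i (Z i)) *
          ((∏ v ∈ T, (F (cmb Z v) - t (cmb Z v))) * (∏ v ∈ A', (1 - (F (cmb Z v) - t (cmb Z v)))) *
           ((∏ v ∈ e.1, (-t (cmb Z v))) * ∏ v ∈ e.2, (1 - t (cmb Z v)))) * cht Ξ Z) =
          fun Z => (-1) ^ μ * ((∏ i, g i (Z i)) *
          ((∏ v ∈ T, (F (cmb Z v) - t (cmb Z v))) * (∏ v ∈ A', (1 - (F (cmb Z v) - t (cmb Z v)))) *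
           ((∏ v ∈ e.1, t (cmb Z v)) * ∏ v ∈ e.2, (1 - t (cmb Z v)))) * cht Ξ Z) := by
        funext Z
        have h5 : ∏ v ∈ e.1, (-t (cmb Z v)) = (-1) ^ μ * ∏ v ∈ e.1, t (cmb Z v) := by
          rw [← q1, ← Finset.prod_const, ← Finset.prod_mul_distrib]
          exact Finset.prod_congr rfl fun v _ => (neg_one_mul _).symm
        rw [h5]
        ring
      rw [heq, av_mul_left, abs_mul, abs_pow, abs_neg, abs_one, one_pow, one_mul]
      refine hb.trans (mul_le_mul_of_nonneg_left ?_ (by positivity))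
      rw [q1] at hρ
      exact pow_le_pow_of_le_one (by positivity) (by linarith) (by omega)
  have hsum := expd_sum_le L hL2 (fun e => Av (fun Z : Fin k → W m => (∏ i, g i (Z i)) *
      ((∏ v ∈ T, (F (cmb Z v) - t (cmb Z v))) * (∏ v ∈ A', (1 - (F (cmb Z v) - t (cmb Z v)))) *
       ((∏ v ∈ e.1, (-t (cmb Z v))) * ∏ v ∈ e.2, (1 - t (cmb Z v)))) * cht Ξ Z)) β hβ0 hG
    (range (k + 1))
  refine (mul_le_mul_of_nonneg_left hsum (by positivity)).trans ?_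
  rw [← Finset.sum_filter_add_sum_filter_not (range (k + 1)) (fun μ => k ≤ 8 * μ), mul_add]
  have hA : ((2 : ℝ) ^ k) ^ T.card * ∑ μ ∈ (range (k + 1)).filter (fun μ => k ≤ 8 * μ),
      ((2 : ℝ) ^ k) ^ μ * β μ ≤ α ^ k * (2 * ζ ^ k) := by
    have h1 : ∑ μ ∈ (range (k + 1)).filter (fun μ => k ≤ 8 * μ), ((2 : ℝ) ^ k) ^ μ * β μ =
        α ^ k * ∑ μ ∈ (range (k + 1)).filter (fun μ => k ≤ 8 * μ),
          ((2 : ℝ) ^ k) ^ μ * θ ^ μ := by
      rw [Finset.mul_sum]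
      refine Finset.sum_congr rfl fun μ hμ => ?_
      have hβi : β μ = α ^ k * θ ^ μ := if_pos (Finset.mem_filter.mp hμ).2
      rw [hβi]
      ring
    rw [h1, mul_left_comm]
    exact mul_le_mul_of_nonneg_left (num_b hθ hP h8) (by positivity)
  have hB : ((2 : ℝ) ^ k) ^ T.card * ∑ μ ∈ (range (k + 1)).filter (fun μ => ¬ k ≤ 8 * μ),
      ((2 : ℝ) ^ k) ^ μ * β μ ≤ α ^ k * (((k : ℝ) + 1) * ζ ^ k) := by
    rw [Finset.mul_sum]
    have h1 : ∀ μ ∈ (range (k + 1)).filter (fun μ => ¬ k ≤ 8 * μ),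
        ((2 : ℝ) ^ k) ^ T.card * (((2 : ℝ) ^ k) ^ μ * β μ) ≤ α ^ k * ζ ^ k := by
      intro μ hμ
      have hμ' := (Finset.mem_filter.mp hμ).2
      have hβi : β μ = α ^ k * (2 * θ) ^ (k - 2 * (T.card + μ)) := if_neg hμ'
      have h2 := num_c hθ hθ1 hP h8 (μ := μ) (by omega) (ρ := T.card + μ) le_rfl
      rw [hβi]
      calc ((2 : ℝ) ^ k) ^ T.card * (((2 : ℝ) ^ k) ^ μ *
            (α ^ k * (2 * θ) ^ (k - 2 * (T.card + μ))))
          = α ^ k * (((2 : ℝ) ^ k) ^ T.card * (((2 : ℝ) ^ k) ^ μ *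
            (2 * θ) ^ (k - 2 * (T.card + μ)))) := by ring
        _ ≤ α ^ k * ζ ^ k := mul_le_mul_of_nonneg_left h2 (by positivity)
    refine (Finset.sum_le_sum h1).trans ?_
    rw [Finset.sum_const, nsmul_eq_mul]
    have h2 : (((range (k + 1)).filter (fun μ => ¬ k ≤ 8 * μ)).card : ℝ) ≤ (k : ℝ) + 1 := by
      have h3 : ((range (k + 1)).filter (fun μ => ¬ k ≤ 8 * μ)).card ≤ k + 1 := by
        refine (Finset.card_filter_le _ _).trans ?_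
        rw [Finset.card_range]
      exact_mod_cast h3
    calc (((range (k + 1)).filter (fun μ => ¬ k ≤ 8 * μ)).card : ℝ) * (α ^ k * ζ ^ k)
        ≤ ((k : ℝ) + 1) * (α ^ k * ζ ^ k) := mul_le_mul_of_nonneg_right h2 (by positivity)
      _ = α ^ k * (((k : ℝ) + 1) * ζ ^ k) := by ring
  calc _ ≤ α ^ k * (2 * ζ ^ k) + α ^ k * (((k : ℝ) + 1) * ζ ^ k) := add_le_add hA hB
    _ = α ^ k * (ζ ^ k * ((k : ℝ) + 3)) := by ring

end Pool.Agent.Lib.MP_0430e4_lc.Llv
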