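import Pool.Agent.Lib.MP_0430e4_lc.Llv.Defs

/-!
# Step: integration of one combination which is independent of the others

PROOF. As `v0 ∉ V` there is `d : Cv k` with `∑ i, d i * v i = 0` for `v ∈ V` and `∑ i, d i * v0 i = 1`
(a linear functional on `Cv k` which vanishes on `V` and is `1` at `v0`: `Submodule.exists_dual_forall_apply_eq_zero_iff`
or `Submodule.exists_le_ker_of_notMem`; every functional on `Fin k → ZMod 2` is a dot product, `d i` = value at the unit
vector). For `x : W m` let `Z_x := fun i => Z i + d i • x`. Then `cmb Z_x v = cmb Z v + (∑ d i * v i) • x`, so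
`cmb Z_x v = cmb Z v` for `v ∈ V` and `cmb Z_x v0 = cmb Z v0 + x`. `Z ↦ Z_x` is a bijection (an involution), so
`Av (fun Z => G Z) = Av (fun Z => av1 fun x => G Z_x)` for every `G` (swap the two sums). With `G Z = H (cmb Z v0) Z`:
`G Z_x = H (cmb Z v0 + x) Z` by `hH`, and the sum over `x` of `H (cmb Z v0 + x) Z` is the sum over `x` of `H x Z`.
-/

set_option autoImplicit false

namespace Pool.Agent.Lib.MP_0430e4_lc.Llv

open Finset
open Pool.Agent.Lib.MP_0430e4_lc.Lin (W wt chw sg)
open Pool.Agent.Lib.MP_0430e4_lc.Lgv (ft bl cmb rk gg P wd Pz gc cht Gh)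

variable {m k : ℕ}

theorem Step_cmb (d : Cv k) (x : W m) (Z : Fin k → W m) (v : Cv k) :
    cmb (fun i => Z i + d i • x) v = cmb Z v + (∑ i, v i * d i) • x := by
  unfold cmb
  rw [Finset.sum_smul, ← sum_add_distrib]
  exact sum_congr rfl fun i _ => by rw [smul_add, smul_smul]

theorem Step_av (d : Cv k) (G : (Fin k → W m) → ℝ) :
    Av G = Av fun Z => av1 fun x => G (fun i => Z i + d i • x) := by
  have hc : ((Fintype.card (W m) : ℕ) : ℝ) = 2 ^ m := by
    rw [Fintype.card_fun, ZMod.card, Fintype.card_fin]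
    push_cast
    rfl
  have h1 : ∀ x : W m, ∑ Z : Fin k → W m, G (fun i => Z i + d i • x) = ∑ Z, G Z := by
    intro x
    exact Equiv.sum_comp (Equiv.addRight (fun i => d i • x : Fin k → W m)) G
  unfold Av av1
  rw [← sum_div, sum_comm, sum_congr rfl fun x _ => h1 x, sum_const, card_univ, nsmul_eq_mul, hc]
  congr 1
  field_simp

theorem Step_dual (f : Cv k →ₗ[ZMod 2] ZMod 2) :
    ∃ d : Cv k, ∀ v : Cv k, ∑ i, v i * d i = f v := by
  refine ⟨fun i => f fun j => if i = j then 1 else 0, fun v => ?_⟩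
  rw [LinearMap.pi_apply_eq_sum_univ f v]
  exact sum_congr rfl fun i _ => by rw [smul_eq_mul]

theorem step {V : Submodule (ZMod 2) (Cv k)} {v0 : Cv k} (hv : v0 ∉ V)
    (H : W m → (Fin k → W m) → ℝ) (hH : ∀ x, DepOn V (H x)) :
    Av (fun Z => H (cmb Z v0) Z) = Av fun Z => av1 fun x => H x Z := by
  obtain ⟨f, hf0, hfV⟩ := Submodule.exists_le_ker_of_notMem hv
  obtain ⟨d, hd⟩ := Step_dual f
  have h1 : f v0 = 1 := by
    have : ∀ a : ZMod 2, a ≠ 0 → a = 1 := by decide
    exact this _ hf0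
  rw [Step_av d fun Z => H (cmb Z v0) Z]
  unfold Av
  congr 1
  refine sum_congr rfl fun Z _ => ?_
  have h2 : ∀ x : W m, H (cmb (fun i => Z i + d i • x) v0) (fun i => Z i + d i • x)
      = H (cmb Z v0 + x) Z := by
    intro x
    rw [Step_cmb, hd, h1, one_smul]
    refine hH _ _ _ fun v hvV => ?_
    rw [Step_cmb, hd, LinearMap.mem_ker.mp (hfV hvV), zero_smul, add_zero]
  dsimp only
  unfold av1
  rw [sum_congr rfl fun x _ => h2 x]
  congr 1
  exact Equiv.sum_comp (Equiv.addLeft (cmb Z v0)) fun x => H x Z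

end Pool.Agent.Lib.MP_0430e4_lc.Llv
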