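import Pool.Agent.Lib.MP_0430e4_lc.Llv.Small

/-!
# Term: one pair of sets, standard coordinates (section 1.6)

PROOF. Let `h = k - |S|`. If `k ≤ 8 h`: the absolute value is at most `Av (∏ g) ≤ α^k θ^h` (`cas1`; all other factors are between `0` and `1`), and
`θ^h ≤ ζ^k` (`num_h`). Otherwise `expd A ⊥` for `∏_{v ∈ A} (1 - f)`, `f = F - t`: pairs `(T, A')`, `T ⊆ A` so `SuppIn S v` and `v ≠ ev i` for `v ∈ T`
(`hA`), `A' ⊆ spn T`. Terms with `8 |T| < k`: `small` (lengths `(2^k)^|T|`): each of the at most `k + 1` values of `|T|` gives at most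
`α^k ζ^k (k + 3)`. Terms with `k ≤ 8 |T|`: the absolute value is at most `Av (∏ F (Z i) * ∏_T F (cmb Z v) * nt S t Z)`: `0 ≤ f ≤ F`, `g i ≤ F`,
`∏_{v ∈ Dd} (1 - t) ≤ nt S t Z` because `Dd` contains all `u ≠ 0` supported in `S` (`hD`) (if `nt = 0` some factor `1 - t (cmb Z u)` is `0`; `t` is `0` or `1`).
`gain`: `α^k ϑ^|T|`; `num_a`. Sum: `α^k ζ^k (1 + 2 + (k+1)(k+3)) ≤ α^k ζ^k 5 (k+1)^2`.
-/

set_option autoImplicit false

namespace Pool.Agent.Lib.MP_0430e4_lc.Llv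

open Finset
open Pool.Agent.Lib.MP_0430e4_lc.Lin (W wt chw sg)
open Pool.Agent.Lib.MP_0430e4_lc.Lgv (ft bl cmb rk gg P wd Pz gc cht Gh)

variable {m k : ℕ}

private theorem term_prod01 {ι : Type} {s : Finset ι} {f : ι → ℝ}
    (h0 : ∀ v ∈ s, 0 ≤ f v) (h1 : ∀ v ∈ s, f v ≤ 1) : 0 ≤ ∏ v ∈ s, f v ∧ ∏ v ∈ s, f v ≤ 1 :=
  ⟨prod_nonneg h0, prod_le_one h0 h1⟩

/-- one term of the expansion with many elements -/
private theorem term_big {F t : W m → ℝ} {α θ η ϑ ζ : ℝ} {q : ℕ} (D : Dat F t α θ)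
    (hP : Par m k α θ η ϑ ζ q) {S : Finset (Fin k)} {g : Fin k → W m → ℝ}
    (hg : Two S F t g) {T A' Dd : Finset (Cv k)} (hT : Ind T)
    (hTA : ∀ v ∈ T, SuppIn S v ∧ ∀ i, v ≠ ev i)
    (hD : ∀ u : Cv k, u ≠ 0 → SuppIn S u → u ∈ Dd) (Ξ : Fin k → W m) :
    |Av (fun Z : Fin k → W m => (∏ i, g i (Z i)) *
      ((∏ v ∈ T, (F (cmb Z v) - t (cmb Z v))) * (∏ v ∈ A', (1 - (F (cmb Z v) - t (cmb Z v)))) *
       ∏ v ∈ Dd, (1 - t (cmb Z v))) * cht Ξ Z)| ≤ α ^ k * ϑ ^ T.card := by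
  classical
  refine (abs_av_cht_le (h := fun Z : Fin k → W m =>
    (∏ i, F (Z i)) * (∏ v ∈ T, F (cmb Z v)) * nt S t Z) ?_ Ξ).trans
    (gain D hP hT (fun v hv => (hTA v hv).1) (fun v hv => (hTA v hv).2))
  intro Z
  have ht0 : ∀ x, 0 ≤ t x := fun x => by
    rcases D.t01 x with h | h <;> rw [h]
    exact zero_le_one
  have ht1 : ∀ x, t x ≤ 1 := fun x => by
    rcases D.t01 x with h | h <;> rw [h]
    exact zero_le_one
  have hF1 : ∀ x, F x ≤ 1 := fun x => by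
    rcases D.F01 x with h | h <;> rw [h]
    exact zero_le_one
  have hf0 : ∀ x, 0 ≤ F x - t x := fun x => sub_nonneg.mpr (D.tF x)
  have hfF : ∀ x, F x - t x ≤ F x := fun x => sub_le_self _ (ht0 x)
  have p1 : 0 ≤ ∏ i, g i (Z i) := prod_nonneg fun i _ => (two_bd D hg i (Z i)).1
  have p2 : ∏ i, g i (Z i) ≤ ∏ i, F (Z i) :=
    prod_le_prod (fun i _ => (two_bd D hg i (Z i)).1) fun i _ => (two_bd D hg i (Z i)).2
  have p3 : 0 ≤ ∏ v ∈ T, (F (cmb Z v) - t (cmb Z v)) := prod_nonneg fun v _ => hf0 _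
  have p4 : ∏ v ∈ T, (F (cmb Z v) - t (cmb Z v)) ≤ ∏ v ∈ T, F (cmb Z v) :=
    prod_le_prod (fun v _ => hf0 _) fun v _ => hfF _
  obtain ⟨p5, p6⟩ := term_prod01 (s := A') (f := fun v => 1 - (F (cmb Z v) - t (cmb Z v)))
    (fun v _ => by
      have h1 := hfF (cmb Z v)
      have h2 := hF1 (cmb Z v)
      show 0 ≤ 1 - (F (cmb Z v) - t (cmb Z v))
      linarith)
    (fun v _ => by
      have h1 := hf0 (cmb Z v)
      show 1 - (F (cmb Z v) - t (cmb Z v)) ≤ 1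
      linarith)
  obtain ⟨p7, p8⟩ := term_prod01 (s := Dd) (f := fun v => 1 - t (cmb Z v))
    (fun v _ => sub_nonneg.mpr (ht1 _)) (fun v _ => sub_le_self _ (ht0 _))
  have p9 : ∏ v ∈ Dd, (1 - t (cmb Z v)) ≤ nt S t Z := by
    unfold nt
    split_ifs with h
    · exact p8
    · push Not at h
      obtain ⟨u, hu0, huS, hut⟩ := h
      have h1 : t (cmb Z u) = 1 := (D.t01 _).resolve_left hut
      exact le_of_eq (prod_eq_zero (hD u hu0 huS) (by rw [h1, sub_self]))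
  have p10 : 0 ≤ (∏ v ∈ T, (F (cmb Z v) - t (cmb Z v))) *
      (∏ v ∈ A', (1 - (F (cmb Z v) - t (cmb Z v)))) * ∏ v ∈ Dd, (1 - t (cmb Z v)) :=
    mul_nonneg (mul_nonneg p3 p5) p7
  rw [abs_of_nonneg (mul_nonneg p1 p10)]
  have p11 : (∏ v ∈ T, (F (cmb Z v) - t (cmb Z v))) *
      (∏ v ∈ A', (1 - (F (cmb Z v) - t (cmb Z v)))) * ∏ v ∈ Dd, (1 - t (cmb Z v)) ≤
      (∏ v ∈ T, F (cmb Z v)) * nt S t Z := by
    refine mul_le_mul ?_ p9 p7 (p3.trans p4)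
    calc (∏ v ∈ T, (F (cmb Z v) - t (cmb Z v))) *
          (∏ v ∈ A', (1 - (F (cmb Z v) - t (cmb Z v)))) ≤
          (∏ v ∈ T, (F (cmb Z v) - t (cmb Z v))) * 1 := mul_le_mul_of_nonneg_left p6 p3
      _ ≤ _ := by rw [mul_one]; exact p4
  calc (∏ i, g i (Z i)) * ((∏ v ∈ T, (F (cmb Z v) - t (cmb Z v))) *
      (∏ v ∈ A', (1 - (F (cmb Z v) - t (cmb Z v)))) * ∏ v ∈ Dd, (1 - t (cmb Z v)))
      ≤ (∏ i, F (Z i)) * ((∏ v ∈ T, F (cmb Z v)) * nt S t Z) :=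
        mul_le_mul p2 p11 p10 (p1.trans p2)
    _ = _ := by ring

theorem term {F t : W m → ℝ} {α θ η ϑ ζ : ℝ} {q : ℕ} (D : Dat F t α θ)
    (hP : Par m k α θ η ϑ ζ q) (hk : 1 ≤ k) {S : Finset (Fin k)} {g : Fin k → W m → ℝ}
    (hg : Two S F t g) {A Dd : Finset (Cv k)}
    (hA : ∀ v ∈ A, SuppIn S v ∧ ∀ i, v ≠ ev i)
    (hD : ∀ u : Cv k, u ≠ 0 → SuppIn S u → u ∈ Dd)
    {Ξ : Fin k → W m} (hΞ : LinearIndependent (ZMod 2) Ξ) :
    |Av (fun Z : Fin k → W m => (∏ i, g i (Z i)) *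
      ((∏ v ∈ A, (1 - (F (cmb Z v) - t (cmb Z v)))) * ∏ v ∈ Dd, (1 - t (cmb Z v))) * cht Ξ Z)| ≤
      α ^ k * (ζ ^ k * (5 * ((k : ℝ) + 1) ^ 2)) := by
  classical
  have hα := D.α0.le
  have hζ := hP.ζ0.le
  have hϑ := hP.ϑ0.le
  have hαk : 0 ≤ α ^ k := pow_nonneg hα _
  have hζk : 0 ≤ ζ ^ k := pow_nonneg hζ _
  have hk0 : (0 : ℝ) ≤ k := Nat.cast_nonneg _
  obtain ⟨L, hL1, hL2, hL3⟩ := expd A (⊥ : Submodule (ZMod 2) (Cv k))
  obtain ⟨G, hG⟩ : ∃ G : Finset (Cv k) × Finset (Cv k) → ℝ, ∀ e, G e =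
      Av (fun Z : Fin k → W m => (∏ i, g i (Z i)) *
        (((∏ v ∈ e.1, (-(F (cmb Z v) - t (cmb Z v)))) *
          ∏ v ∈ e.2, (1 + -(F (cmb Z v) - t (cmb Z v)))) *
          ∏ v ∈ Dd, (1 - t (cmb Z v))) * cht Ξ Z) := ⟨_, fun _ => rfl⟩
  have hexp : Av (fun Z : Fin k → W m => (∏ i, g i (Z i)) *
      ((∏ v ∈ A, (1 - (F (cmb Z v) - t (cmb Z v)))) * ∏ v ∈ Dd, (1 - t (cmb Z v))) * cht Ξ Z) =
      ∑ i ∈ range (k + 1), ((L i).map G).sum := by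
    have h1 : ∀ Z : Fin k → W m, (∏ i, g i (Z i)) *
        ((∏ v ∈ A, (1 - (F (cmb Z v) - t (cmb Z v)))) * ∏ v ∈ Dd, (1 - t (cmb Z v))) * cht Ξ Z =
        ∑ i ∈ range (k + 1), ((L i).map fun e => (∏ i, g i (Z i)) *
          (((∏ v ∈ e.1, (-(F (cmb Z v) - t (cmb Z v)))) *
            ∏ v ∈ e.2, (1 + -(F (cmb Z v) - t (cmb Z v)))) *
            ∏ v ∈ Dd, (1 - t (cmb Z v))) * cht Ξ Z).sum := by
      intro Z
      have h2 := hL3 fun v => -(F (cmb Z v) - t (cmb Z v))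
      have h3 : ∏ v ∈ A, (1 - (F (cmb Z v) - t (cmb Z v))) =
          ∏ v ∈ A, (1 + -(F (cmb Z v) - t (cmb Z v))) :=
        prod_congr rfl fun v _ => sub_eq_add_neg _ _
      rw [h3, h2, sum_mul, mul_sum, sum_mul]
      refine sum_congr rfl fun i _ => ?_
      rw [← List.sum_map_mul_right, ← List.sum_map_mul_left, ← List.sum_map_mul_right]
    have h2 : (fun Z : Fin k → W m => (∏ i, g i (Z i)) *
        ((∏ v ∈ A, (1 - (F (cmb Z v) - t (cmb Z v)))) * ∏ v ∈ Dd, (1 - t (cmb Z v))) *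
          cht Ξ Z) = fun Z => ∑ i ∈ range (k + 1), ((L i).map fun e => (∏ i, g i (Z i)) *
          (((∏ v ∈ e.1, (-(F (cmb Z v) - t (cmb Z v)))) *
            ∏ v ∈ e.2, (1 + -(F (cmb Z v) - t (cmb Z v)))) *
            ∏ v ∈ Dd, (1 - t (cmb Z v))) * cht Ξ Z).sum := funext h1
    rw [h2, av_sum]
    refine sum_congr rfl fun i _ => ?_
    rw [av_list]
    congr 1
    refine List.map_congr_left fun e _ => ?_
    rw [hG]
  have habs : ∀ e, |G e| = |Av (fun Z : Fin k → W m => (∏ i, g i (Z i)) *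
      ((∏ v ∈ e.1, (F (cmb Z v) - t (cmb Z v))) *
        (∏ v ∈ e.2, (1 - (F (cmb Z v) - t (cmb Z v)))) *
       ∏ v ∈ Dd, (1 - t (cmb Z v))) * cht Ξ Z)| := by
    intro e
    have h1 : ∀ Z : Fin k → W m, (∏ i, g i (Z i)) *
        (((∏ v ∈ e.1, (-(F (cmb Z v) - t (cmb Z v)))) *
          ∏ v ∈ e.2, (1 + -(F (cmb Z v) - t (cmb Z v)))) *
          ∏ v ∈ Dd, (1 - t (cmb Z v))) * cht Ξ Z =
        (-1) ^ e.1.card * ((∏ i, g i (Z i)) *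
      ((∏ v ∈ e.1, (F (cmb Z v) - t (cmb Z v))) *
        (∏ v ∈ e.2, (1 - (F (cmb Z v) - t (cmb Z v)))) *
       ∏ v ∈ Dd, (1 - t (cmb Z v))) * cht Ξ Z) := by
      intro Z
      have h2 : ∏ v ∈ e.1, (-(F (cmb Z v) - t (cmb Z v))) =
          (-1) ^ e.1.card * ∏ v ∈ e.1, (F (cmb Z v) - t (cmb Z v)) := by
        rw [← prod_const, ← prod_mul_distrib]
        exact prod_congr rfl fun v _ => by ring
      have h3 : ∏ v ∈ e.2, (1 + -(F (cmb Z v) - t (cmb Z v))) =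
          ∏ v ∈ e.2, (1 - (F (cmb Z v) - t (cmb Z v))) :=
        prod_congr rfl fun v _ => (sub_eq_add_neg _ _).symm
      rw [h2, h3]
      ring
    rw [hG, funext h1, av_mul_left, abs_mul, abs_pow, abs_neg, abs_one, one_pow, one_mul]
  obtain ⟨β, hβ⟩ : ∃ β : ℕ → ℝ, ∀ i, β i = if k ≤ 8 * i then α ^ k * ϑ ^ i else
      α ^ k * (ζ ^ k * ((k : ℝ) + 3)) / ((2 : ℝ) ^ k) ^ i := ⟨_, fun _ => rfl⟩
  have hβ0 : ∀ i, 0 ≤ β i := by
    intro i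
    rw [hβ]
    split_ifs
    · exact mul_nonneg hαk (pow_nonneg hϑ _)
    · positivity
  have hGβ : ∀ i, ∀ e ∈ L i, |G e| ≤ β i := by
    intro i e he
    obtain ⟨c1, c2, c3, c4, c5, c6, c7, c8⟩ := hL1 i e he
    rw [habs, hβ]
    split_ifs with h8
    · rw [← c1]
      exact term_big D hP hg c5 (fun v hv => hA v (c2 hv)) hD Ξ
    · rw [le_div_iff₀ (by positivity), mul_comm]
      have h9 : 8 * e.1.card < k := by omega
      have h := small D hP hg (Dd := Dd) c5 (A' := e.2)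
        (fun v hv => by
          have h1 := c8 v hv
          rwa [bot_sup_eq] at h1) h9 hΞ
      rwa [c1] at h
  rw [hexp]
  refine (expd_sum_le L hL2 G β hβ0 hGβ _).trans ?_
  rw [← sum_filter_add_sum_filter_not (range (k + 1)) (fun ν => k ≤ 8 * ν)]
  have s1 : ∑ ν ∈ (range (k + 1)).filter (fun ν => k ≤ 8 * ν), ((2 : ℝ) ^ k) ^ ν * β ν ≤
      α ^ k * (2 * ζ ^ k) := by
    refine le_trans (le_of_eq ?_) (mul_le_mul_of_nonneg_left (num_a hP) hαk)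
    rw [mul_sum]
    refine sum_congr rfl fun ν hν => ?_
    rw [hβ, if_pos (mem_filter.mp hν).2]
    ring
  have s2 : ∑ ν ∈ (range (k + 1)).filter (fun ν => ¬ k ≤ 8 * ν), ((2 : ℝ) ^ k) ^ ν * β ν ≤
      ((k : ℝ) + 1) * (α ^ k * (ζ ^ k * ((k : ℝ) + 3))) := by
    have e1 : ∑ ν ∈ (range (k + 1)).filter (fun ν => ¬ k ≤ 8 * ν), ((2 : ℝ) ^ k) ^ ν * β ν =
        ∑ _ν ∈ (range (k + 1)).filter (fun ν => ¬ k ≤ 8 * ν),
          α ^ k * (ζ ^ k * ((k : ℝ) + 3)) := by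
      refine sum_congr rfl fun ν hν => ?_
      rw [hβ, if_neg (mem_filter.mp hν).2]
      field_simp
    rw [e1, sum_const, nsmul_eq_mul]
    refine mul_le_mul_of_nonneg_right ?_ (by positivity)
    have h1 := card_filter_le (range (k + 1)) (fun ν => ¬ k ≤ 8 * ν)
    rw [card_range] at h1
    exact_mod_cast h1
  refine (add_le_add s1 s2).trans ?_
  have h1 : 0 ≤ α ^ k * ζ ^ k := mul_nonneg hαk hζk
  have h2 : α ^ k * (2 * ζ ^ k) + ((k : ℝ) + 1) * (α ^ k * (ζ ^ k * ((k : ℝ) + 3))) =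
      α ^ k * ζ ^ k * (2 + ((k : ℝ) + 1) * ((k : ℝ) + 3)) := by ring
  have h3 : α ^ k * (ζ ^ k * (5 * ((k : ℝ) + 1) ^ 2)) =
      α ^ k * ζ ^ k * (5 * ((k : ℝ) + 1) ^ 2) := by ring
  rw [h2, h3]
  exact mul_le_mul_of_nonneg_left (by nlinarith) h1

end Pool.Agent.Lib.MP_0430e4_lc.Llv
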