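import Pool.Agent.Lib.MP_0430e4_lc.Llv.Term

/-!
# TermB: one pair of sets, arbitrary basis

`S, St` are sets of coefficient vectors whose union is a basis (`|S| + |St| = k`). PROOF. Enumerate `S ∪ St` by `b : Fin k → Cv k`, injective with image
`S ∪ St` (`Finset.equivFin`/`orderEmb`), independent. Let `S' = {i | b i ∈ S}`, `g i = F - t` if `b i ∈ S` and `t` otherwise (`Two S' F t g`). Let
`co : Cv k → Cv k` be the coordinates, `∑ i, co v i • b i = v` (`chg_surj`; unique). `cmb Z v = cmb Z' (co v)`, `Z' i = cmb Z (b i)` (`chg_cmb`).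
The function is `G Z'`, `G Z' = (∏ i, g i (Z' i)) * ((∏_{v ∈ A.image co} ..) * ∏_{v ∈ Dd.image co} ..) * cht Ξ' Z'` (`co` is injective; `chg_cht`), and
`chg_av` removes the substitution. Check the hypotheses of `term`: `v ∈ A`: `v ∈ spn S` so `co v` is supported in `S'`; `co v = ev i` would give `v = b i`,
supported in `S'` so `i ∈ S'`, `v ∈ S`, but `Disjoint S A`. `u ≠ 0` supported in `S'`: `u = co v` with `v = ∑ u i • b i ∈ spn S`, `v ≠ 0`, so `v ∈ Dd`.
-/

set_option autoImplicit false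

namespace Pool.Agent.Lib.MP_0430e4_lc.Llv

open Finset
open Pool.Agent.Lib.MP_0430e4_lc.Lin (W wt chw sg)
open Pool.Agent.Lib.MP_0430e4_lc.Lgv (ft bl cmb rk gg P wd Pz gc cht Gh)

variable {m k : ℕ}

theorem termB {F t : W m → ℝ} {α θ η ϑ ζ : ℝ} {q : ℕ} (D : Dat F t α θ)
    (hP : Par m k α θ η ϑ ζ q) (hk : 1 ≤ k) {S St A Dd : Finset (Cv k)}
    (hc : S.card + St.card = k) (hd : Disjoint S St) (hS : Ind (S ∪ St)) (hSA : Disjoint S A)
    (hA : ∀ v ∈ A, v ∈ spn S) (hD : ∀ v ∈ spn S, v ≠ 0 → v ∈ Dd)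
    {Ξ : Fin k → W m} (hΞ : LinearIndependent (ZMod 2) Ξ) :
    |Av (fun Z : Fin k → W m =>
      (∏ v ∈ S, (F (cmb Z v) - t (cmb Z v))) * (∏ v ∈ A, (1 - (F (cmb Z v) - t (cmb Z v)))) *
      ((∏ v ∈ St, t (cmb Z v)) * ∏ v ∈ Dd, (1 - t (cmb Z v))) * cht Ξ Z)| ≤
      α ^ k * (ζ ^ k * (5 * ((k : ℝ) + 1) ^ 2)) := by
  classical
  have hcard : (S ∪ St).card = k := by rw [card_union_of_disjoint hd, hc]
  let e := (S ∪ St).equivFinOfCardEq hcard
  let b : Fin k → Cv k := fun i => (e.symm i : Cv k)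
  have hbU : ∀ i, b i ∈ S ∪ St := fun i => (e.symm i).2
  have hb : LinearIndependent (ZMod 2) b := by
    have h1 : LinearIndependent (ZMod 2) (fun x : {x // x ∈ S ∪ St} => (x : Cv k)) := hS
    exact h1.comp e.symm e.symm.injective
  have hbS : ∀ v ∈ S ∪ St, ∃ i, b i = v := by
    intro v hv
    exact ⟨e ⟨v, hv⟩, by simp [b]⟩
  haveI : Nonempty (Fin k) := ⟨⟨0, hk⟩⟩
  let B : Module.Basis (Fin k) (ZMod 2) (Cv k) :=
    basisOfLinearIndependentOfCardEqFinrank hb (by simp)
  have hB : ∀ i, B i = b i := fun i => by simp [B]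
  let co := B.equivFun
  have hco : ∀ v, ∑ i, co v i • b i = v := by
    intro v
    have h1 := B.sum_equivFun v
    simpa only [hB] using h1
  have hcob : ∀ i, co (b i) = ev i := by
    intro i
    funext j
    rw [← hB]
    show B.equivFun (B i) j = _
    rw [B.equivFun_self]
    unfold ev
    by_cases h : i = j
    · subst h; simp
    · rw [if_neg h, Pi.single_eq_of_ne (Ne.symm h)]
  obtain ⟨Ξ', hΞ', hcht⟩ := chg_cht hb hΞ
  let S' : Finset (Fin k) := univ.filter fun i => b i ∈ S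
  let g : Fin k → W m → ℝ := fun i x => if b i ∈ S then F x - t x else t x
  have hg : Two S' F t g := by
    refine ⟨fun i hi x => ?_, fun i hi x => ?_⟩
    · have h1 : b i ∈ S := (mem_filter.mp hi).2
      exact if_pos h1
    · have h1 : b i ∉ S := fun h => hi (mem_filter.mpr ⟨mem_univ i, h⟩)
      exact if_neg h1
  let G : (Fin k → W m) → ℝ := fun Z => (∏ i, g i (Z i)) *
      ((∏ v ∈ A.image co, (1 - (F (cmb Z v) - t (cmb Z v)))) *
        ∏ v ∈ Dd.image co, (1 - t (cmb Z v))) * cht Ξ' Z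
  have hcmb : ∀ (Z : Fin k → W m) (v : Cv k), cmb Z v = cmb (fun i => cmb Z (b i)) (co v) := by
    intro Z v
    rw [← chg_cmb, hco]
  have hGeq : ∀ Z : Fin k → W m,
      (∏ v ∈ S, (F (cmb Z v) - t (cmb Z v))) * (∏ v ∈ A, (1 - (F (cmb Z v) - t (cmb Z v)))) *
      ((∏ v ∈ St, t (cmb Z v)) * ∏ v ∈ Dd, (1 - t (cmb Z v))) * cht Ξ Z =
        G fun i => cmb Z (b i) := by
    intro Z
    have h1 : ∏ i, g i (cmb Z (b i)) =
        (∏ v ∈ S, (F (cmb Z v) - t (cmb Z v))) * ∏ v ∈ St, t (cmb Z v) := by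
      have h2 : ∏ i, g i (cmb Z (b i)) = ∏ v ∈ S ∪ St,
          (if v ∈ S then F (cmb Z v) - t (cmb Z v) else t (cmb Z v)) := by
        rw [← prod_coe_sort (S ∪ St)]
        exact Fintype.prod_equiv e.symm _ _ fun i => rfl
      rw [h2, prod_union hd]
      congr 1
      · exact prod_congr rfl fun v hv => if_pos hv
      · exact prod_congr rfl fun v hv => if_neg fun h => (Finset.disjoint_left.mp hd h hv)
    have h3 : ∏ v ∈ A.image co, (1 - (F (cmb (fun i => cmb Z (b i)) v) -
        t (cmb (fun i => cmb Z (b i)) v))) = ∏ v ∈ A, (1 - (F (cmb Z v) - t (cmb Z v))) := by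
      rw [prod_image fun x _ y _ h => co.injective h]
      exact prod_congr rfl fun v _ => by rw [← hcmb]
    have h4 : ∏ v ∈ Dd.image co, (1 - t (cmb (fun i => cmb Z (b i)) v)) =
        ∏ v ∈ Dd, (1 - t (cmb Z v)) := by
      rw [prod_image fun x _ y _ h => co.injective h]
      exact prod_congr rfl fun v _ => by rw [← hcmb]
    show _ = (∏ i, g i (cmb Z (b i))) * _ * _
    rw [h1, h3, h4, hcht Z]
    ring
  have hsup : ∀ v ∈ spn S, SuppIn S' (co v) := by
    intro v hv
    refine Submodule.span_induction (p := fun v _ => SuppIn S' (co v)) ?_ ?_ ?_ ?_ hv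
    · intro x hx i hi
      obtain ⟨j, hj⟩ := hbS x (mem_union_left _ hx)
      rw [← hj, hcob] at hi
      have hij : i = j := by
        by_contra h
        exact hi (by unfold ev; exact Pi.single_eq_of_ne h _)
      subst hij
      exact mem_filter.mpr ⟨mem_univ _, by rw [hj]; exact hx⟩
    · intro i hi
      rw [map_zero] at hi
      exact absurd rfl hi
    · intro x y _ _ hx hy i hi
      rw [map_add, Pi.add_apply] at hi
      by_cases h : co x i = 0
      · exact hy i fun h' => hi (by rw [h, h', add_zero])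
      · exact hx i h
    · intro c x _ hx i hi
      rw [map_smul, Pi.smul_apply] at hi
      exact hx i fun h => hi (by rw [h, smul_zero])
  have hA' : ∀ v ∈ A.image co, SuppIn S' v ∧ ∀ i, v ≠ ev i := by
    intro v hv
    obtain ⟨a, ha, rfl⟩ := mem_image.mp hv
    refine ⟨hsup a (hA a ha), fun i hi => ?_⟩
    have h1 : a = b i := co.injective (by rw [hi, hcob])
    have h2 : i ∈ S' := hsup a (hA a ha) i (by rw [hi]; unfold ev; simp)
    have h3 : b i ∈ S := (mem_filter.mp h2).2
    rw [← h1] at h3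
    exact Finset.disjoint_left.mp hSA h3 ha
  have hD' : ∀ u : Cv k, u ≠ 0 → SuppIn S' u → u ∈ Dd.image co := by
    intro u hu hs
    have h1 : co.symm u ∈ spn S := by
      rw [← hco (co.symm u), LinearEquiv.apply_symm_apply]
      refine Submodule.sum_mem _ fun i _ => ?_
      by_cases h : u i = 0
      · rw [h, zero_smul]
        exact Submodule.zero_mem _
      · exact Submodule.smul_mem _ _ (Submodule.subset_span (mem_filter.mp (hs i h)).2)
    have h2 : co.symm u ≠ 0 := by
      intro h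
      apply hu
      have h3 := congrArg co h
      rwa [LinearEquiv.apply_symm_apply, map_zero] at h3
    exact mem_image.mpr ⟨co.symm u, hD _ h1 h2, LinearEquiv.apply_symm_apply _ _⟩
  rw [funext hGeq, chg_av hb G]
  exact term D hP hk hg hA' hD' hΞ'

end Pool.Agent.Lib.MP_0430e4_lc.Llv
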